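import Pool.Agent.TPE.Stmts
import Pool.Agent.TPT.LOCC

/-!
# TPE_BDLE: lower bound for a bounded number of backward steps (MP_f6626d_co)
-/

set_option autoImplicit false

namespace Pool.Agent.TPE

open Finset Filter Topology MeasureTheory
open Pool.Agent.Lib27 Pool.Agent.SapR Pool.Agent.AreaLaw Pool.Agent.FL Pool.Agent.TPT
open Pool.Agent.FS (sc rs bp)
open Pool.Agent.NSP (lc ld tz)

namespace BDLEx

open Pool.Agent.FS Pool.Agent.FS.LOC Pool.Agent.TPT.LOCCx

variable {n N : ℕ} {σ : Fin N → Sk2}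

lemma key (h : IsSkE n N σ) (s g : ℝ) (G : ℤ → ℤ → ℝ) :
    ∑ q ∈ Omm n, wm n s g q * G (zl q) (zt q) =
      ∑ i, pre n s g (σ i) * rs (σ i).l (fun j _ => (s * Real.exp g) ^ j *
        LOCCx.bs (σ i).k (Real.exp (-(2 * g)))
          (fun b => G ((σ i).H - j) ((σ i).Λ + j - 2 * b))) := by
  have h1 := h.repr (fun z t _ => s ^ (n - z.toNat) * Real.exp (g * t) * G z t)
  have h2 : ∀ q ∈ Omm n, wm n s g q * G (zl q) (zt q) =
      s ^ (n - (zl q : ℤ).toNat) * Real.exp (g * zt q) * G (zl q) (zt q) := fun q _ => by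
    rw [Int.toNat_natCast]; rfl
  rw [sum_congr rfl h2, h1]
  refine sum_congr rfl fun i _ => ?_
  rw [← rs_mul]
  refine rs_congr _ _ _ fun j t hj ht => ?_
  have h3 := h.len_le i
  have h4 := h.H_le i
  rw [bs_eq, mul_sum, mul_sum]
  refine sum_congr rfl fun b _ => ?_
  have e1 : n - ((((σ i).H : ℤ) - (j : ℤ)).toNat) = (n - (σ i).H) + j := by omega
  rw [e1, pow_add, mul_pow]
  have e2 : Real.exp (g * ((((σ i).Λ + (j : ℤ) - 2 * (b : ℤ) : ℤ)) : ℝ)) =
      Real.exp (g * (σ i).Λ) * Real.exp g ^ j * Real.exp (-(2 * g)) ^ b := by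
    rw [← Real.exp_nat_mul, ← Real.exp_nat_mul, ← Real.exp_add, ← Real.exp_add]
    congr 1
    push_cast
    ring
  rw [e2]
  unfold pre
  ring

lemma bs_nonneg {w : ℝ} (hw : 0 ≤ w) (k : ℕ) (G : ℕ → ℝ) (hG : ∀ b, 0 ≤ G b) :
    0 ≤ LOCCx.bs k w G := by
  unfold LOCCx.bs
  exact rs_nonneg _ _ fun b _ _ _ => mul_nonneg (pow_nonneg hw b) (hG b)

lemma bs_zero (k : ℕ) (w : ℝ) : LOCCx.bs k w (fun _ => 0) = 0 := by
  unfold LOCCx.bs
  simp only [mul_zero]
  exact rs_zero _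

/-- value of a sum over subsets at one number of elements -/
lemma rs_at (l : List ℕ) (m : ℕ) (F : ℕ → ℝ) (hF : ∀ j, j ≠ m → F j = 0) :
    rs l (fun j _ => F j) = (l.length.choose m : ℝ) * F m := by
  rw [(SMP_thm l).1 F]
  by_cases hm : m ≤ l.length
  · rw [sum_eq_single m]
    · intro j _ hj
      rw [hF j hj, mul_zero]
    · intro h
      exact absurd (mem_range.2 (Nat.lt_succ_of_le hm)) h
  · rw [Nat.choose_eq_zero_of_lt (by omega)]
    rw [Nat.cast_zero, zero_mul]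
    refine sum_eq_zero fun j hj => ?_
    have := mem_range.1 hj
    rw [hF j (by omega), mul_zero]

/-- the parity of the skeletons -/
lemma parity (hH : HGM_Stmt) (h : IsSkE n N σ) (i : Fin N) :
    Even (((σ i).H : ℤ) + (σ i).Λ) := by
  classical
  have h1 := key h 1 0 (fun z t => if Even (z + t) then 0 else 1)
  have h2 : ∑ q ∈ Omm n, wm n 1 0 q * (if Even ((zl q : ℤ) + zt q) then (0 : ℝ) else 1) = 0 := by
    refine sum_eq_zero fun q hq => ?_
    rw [if_pos (hH.2.2.2 n q hq).2.2.1, mul_zero]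
  rw [h2] at h1
  have hnn : ∀ i ∈ (univ : Finset (Fin N)), 0 ≤ pre n 1 0 (σ i) * rs (σ i).l
      (fun j _ => (1 * Real.exp 0) ^ j * LOCCx.bs (σ i).k (Real.exp (-(2 * 0))) (fun b =>
          if Even (((σ i).H - j : ℤ) + ((σ i).Λ + j - 2 * b)) then (0 : ℝ) else 1)) := by
    intro i _
    refine mul_nonneg (pre_nonneg one_pos n 0 _) (rs_nonneg _ _ fun j _ _ _ => ?_)
    refine mul_nonneg (by positivity) (bs_nonneg (Real.exp_pos _).le _ _ fun b => ?_)
    split_ifs <;> norm_num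
  have h4 := (sum_eq_zero_iff_of_nonneg hnn).1 h1.symm i (mem_univ i)
  by_contra hodd
  have e : ∀ j b : ℕ, (if Even (((σ i).H - j : ℤ) + ((σ i).Λ + j - 2 * b)) then (0 : ℝ) else 1) =
      1 := by
    intro j b
    rw [if_neg]
    rintro ⟨r, hr⟩
    exact hodd ⟨r + b, by omega⟩
  simp only [e, bs_one] at h4
  have e3 : rs (σ i).l (fun j _ => (1 * Real.exp 0) ^ j * (1 + Real.exp (-(2 * 0))) ^ (σ i).k) =
      (1 + Real.exp (-(2 * 0))) ^ (σ i).k * (1 + 1 * Real.exp 0) ^ (σ i).l.length := by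
    rw [← rs_pow, ← rs_mul]
    exact rs_congr _ _ _ fun j t _ _ => mul_comm _ _
  rw [e3] at h4
  have h5 : 0 < pre n 1 0 (σ i) * ((1 + Real.exp (-(2 * 0))) ^ (σ i).k *
      (1 + 1 * Real.exp 0) ^ (σ i).l.length) := by
    unfold pre
    positivity
  exact h5.ne' h4

/-- the weight of the words of maximal level of a skeleton -/
noncomputable def wi (g : ℝ) (a : Sk2) : ℝ := Real.exp (g * a.Λ) * (1 + Real.exp (-(2 * g))) ^ a.k

lemma wi_pos (g : ℝ) (a : Sk2) : 0 < wi g a := by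
  unfold wi
  positivity

/-- sums over the words with `zl = n` -/
lemma top (h : IsSkE n N σ) (s g : ℝ) (G : ℤ → ℝ) :
    ∑ q ∈ (Omm n).filter (fun q => zl q = n), wm n s g q * G (zt q) =
      ∑ i ∈ univ.filter (fun i : Fin N => (σ i).H = n), Real.exp (g * (σ i).Λ) *
        LOCCx.bs (σ i).k (Real.exp (-(2 * g))) (fun b => G ((σ i).Λ - 2 * b)) := by
  classical
  have h1 := key h s g (fun z y => if z = (n : ℤ) then G y else 0)
  have h2 : ∑ q ∈ (Omm n).filter (fun q => zl q = n), wm n s g q * G (zt q) =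
      ∑ q ∈ Omm n, wm n s g q * (if (zl q : ℤ) = (n : ℤ) then G (zt q) else 0) := by
    rw [sum_filter]
    refine sum_congr rfl fun q _ => ?_
    by_cases hq : zl q = n
    · rw [if_pos hq, if_pos (by exact_mod_cast hq)]
    · rw [if_neg hq, if_neg (by exact_mod_cast hq), mul_zero]
  rw [h2, h1, sum_filter]
  refine sum_congr rfl fun i _ => ?_
  have h4 := h.H_le i
  rw [rs_at (σ i).l 0 (fun j => (s * Real.exp g) ^ j *
        LOCCx.bs (σ i).k (Real.exp (-(2 * g))) (fun b =>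
          if ((σ i).H - j : ℤ) = (n : ℤ) then G ((σ i).Λ + j - 2 * b) else 0))]
  · by_cases hi : (σ i).H = n
    · rw [if_pos hi]
      have e : (fun b : ℕ => if (((σ i).H : ℤ) - ((0 : ℕ) : ℤ) = (n : ℤ)) then
          G ((σ i).Λ + ((0 : ℕ) : ℤ) - 2 * b) else 0) = fun b : ℕ => G ((σ i).Λ - 2 * b) := by
        funext b
        rw [if_pos (by rw [hi]; simp)]
        congr 1
        simp
      rw [e]
      unfold pre
      rw [hi, Nat.sub_self, pow_zero, pow_zero, Nat.choose_zero_right]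
      push_cast
      ring
    · rw [if_neg hi]
      have e : (fun b : ℕ => if (((σ i).H : ℤ) - ((0 : ℕ) : ℤ) = (n : ℤ)) then
          G ((σ i).Λ + ((0 : ℕ) : ℤ) - 2 * b) else 0) = fun _ : ℕ => (0 : ℝ) := by
        funext b
        rw [if_neg (by omega)]
      rw [e, bs_zero, mul_zero, mul_zero, mul_zero]
  · intro j hj
    have e : (fun b : ℕ => if (((σ i).H : ℤ) - (j : ℤ) = (n : ℤ)) then
          G ((σ i).Λ + (j : ℤ) - 2 * b) else 0) = fun _ : ℕ => (0 : ℝ) := by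
      funext b
      rw [if_neg (by omega)]
    rw [e, bs_zero, mul_zero]

/-- the local sums from below -/
lemma UM_ge (h : IsSkE n N σ) {s : ℝ} (hs : 0 < s) (g : ℝ) (δ : ℕ) (t : ℤ) (hδ : δ ≤ n)
    (b₀ : Fin N → ℤ) (hb : ∀ i, (σ i).H = n → 2 * b₀ i = (σ i).Λ + δ - t) :
    ∑ i ∈ univ.filter (fun i : Fin N => (σ i).H = n), wi g (σ i) *
      (((σ i).l.length.choose δ : ℝ) * (s * Real.exp g) ^ δ *
        bp (σ i).k (Real.exp (-(2 * g)) / (1 + Real.exp (-(2 * g)))) (b₀ i)) ≤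
      UM n s g (n - δ) t (fun _ => 1) := by
  classical
  have h1 := key h s g (fun z y => if z = ((n - δ : ℕ) : ℤ) ∧ y = t then 1 else 0)
  have h2 : UM n s g (n - δ) t (fun _ => 1) = ∑ q ∈ Omm n, wm n s g q *
      (if (zl q : ℤ) = ((n - δ : ℕ) : ℤ) ∧ zt q = t then (1 : ℝ) else 0) := by
    unfold UM
    rw [sum_filter]
    refine sum_congr rfl fun q _ => ?_
    by_cases hq : zl q = n - δ ∧ zt q = t
    · rw [if_pos hq, if_pos ⟨by exact_mod_cast hq.1, hq.2⟩]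
    · rw [if_neg hq, if_neg fun hh => hq ⟨by exact_mod_cast hh.1, hh.2⟩, mul_zero]
  rw [h2, h1, sum_filter]
  have hw1 : 0 < s * Real.exp g := by positivity
  have hw2 : 0 < Real.exp (-(2 * g)) := by positivity
  refine sum_le_sum fun i _ => ?_
  have hnn : 0 ≤ pre n s g (σ i) * rs (σ i).l (fun j _ => (s * Real.exp g) ^ j *
        LOCCx.bs (σ i).k (Real.exp (-(2 * g))) (fun b =>
          if ((σ i).H - j : ℤ) = ((n - δ : ℕ) : ℤ) ∧ ((σ i).Λ + j - 2 * b : ℤ) = t then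
            (1 : ℝ) else 0)) := by
    refine mul_nonneg (pre_nonneg hs n g _) (rs_nonneg _ _ fun j _ _ _ => ?_)
    refine mul_nonneg (by positivity) (bs_nonneg hw2.le _ _ fun b => ?_)
    split_ifs <;> norm_num
  by_cases hi : (σ i).H = n
  · rw [if_pos hi]
    rw [rs_at (σ i).l δ (fun j => (s * Real.exp g) ^ j *
        LOCCx.bs (σ i).k (Real.exp (-(2 * g))) (fun b =>
          if ((σ i).H - j : ℤ) = ((n - δ : ℕ) : ℤ) ∧ ((σ i).Λ + j - 2 * b : ℤ) = t then
            (1 : ℝ) else 0))]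
    · have h3 := bs_ind hw2 (σ i).k (b₀ i) 1
      rw [mul_one] at h3
      have e : (fun b : ℕ => if (((σ i).H : ℤ) - (δ : ℤ) = ((n - δ : ℕ) : ℤ)) ∧
          ((σ i).Λ + (δ : ℤ) - 2 * b : ℤ) = t then (1 : ℝ) else 0) =
          fun b : ℕ => if (b : ℤ) = b₀ i then 1 else 0 := by
        funext b
        refine if_congr ?_ rfl rfl
        have := hb i hi
        constructor
        · rintro ⟨_, h5⟩
          omega
        · intro h5
          constructor <;> omega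
      rw [e, h3]
      unfold wi pre
      rw [hi, Nat.sub_self, pow_zero]
      refine le_of_eq ?_
      ring
    · intro j hj
      have e : (fun b : ℕ => if (((σ i).H : ℤ) - (j : ℤ) = ((n - δ : ℕ) : ℤ)) ∧
          ((σ i).Λ + (j : ℤ) - 2 * b : ℤ) = t then (1 : ℝ) else 0) = fun _ : ℕ => (0 : ℝ) := by
        funext b
        rw [if_neg (by omega)]
      rw [e, bs_zero, mul_zero]
  · rw [if_neg hi]
    exact hnn

/-- the second moments -/
lemma second (h : IsSkE n N σ) (s g : ℝ) (t : ℤ) :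
    ∑ i ∈ univ.filter (fun i : Fin N => (σ i).H = n), wi g (σ i) *
      (((σ i).Λ : ℝ) - t - 2 * (Real.exp (-(2 * g)) / (1 + Real.exp (-(2 * g))) * (σ i).k)) ^ 2 ≤
      ∑ q ∈ (Omm n).filter (fun q => zl q = n), wm n s g q * ((zt q : ℝ) - t) ^ 2 := by
  rw [top h s g (fun y => ((y : ℝ) - t) ^ 2)]
  have hw2 : 0 < Real.exp (-(2 * g)) := by positivity
  refine sum_le_sum fun i _ => ?_
  have h4 := bs_jensen hw2 (σ i).k 0 (((σ i).Λ : ℝ) - t)
  have h5 : LOCCx.bs (σ i).k (Real.exp (-(2 * g))) (fun b =>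
      ((((σ i).Λ - 2 * (b : ℤ) : ℤ) : ℝ) - t) ^ 2) =
      LOCCx.bs (σ i).k (Real.exp (-(2 * g)))
        (fun b => (0 : ℝ) ^ 2 + (((σ i).Λ : ℝ) - t - 2 * b) ^ 2) := by
    congr 1
    funext b
    push_cast
    ring
  rw [h5]
  unfold wi
  rw [mul_assoc]
  refine mul_le_mul_of_nonneg_left ?_ (Real.exp_pos _).le
  refine le_trans (le_of_eq ?_) h4
  ring

lemma wi_le {s : ℝ} (hs : 0 < s) (g : ℝ) (a : Sk2) (ha : a.H = n) : wi g a ≤ vsE n s g a := by
  unfold wi vsE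
  rw [ha, Nat.sub_self, pow_zero, one_mul]
  have h1 : (1 : ℝ) ≤ (1 + s * Real.exp g) ^ a.l.length := by
    refine one_le_pow₀ ?_
    have : 0 < s * Real.exp g := by positivity
    linarith
  have h2 : 0 < Real.exp (g * a.Λ) * (1 + Real.exp (-(2 * g))) ^ a.k := by positivity
  calc Real.exp (g * a.Λ) * (1 + Real.exp (-(2 * g))) ^ a.k
      = Real.exp (g * a.Λ) * (1 + Real.exp (-(2 * g))) ^ a.k * 1 := (mul_one _).symm
    _ ≤ Real.exp (g * a.Λ) * (1 + Real.exp (-(2 * g))) ^ a.k * (1 + s * Real.exp g) ^ a.l.length :=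
        mul_le_mul_of_nonneg_left h1 h2.le
    _ = _ := by ring

/-- the binomial coefficients -/
lemma choose_low (δ : ℕ) (c : ℝ) (hc : 0 < c) (n k : ℕ) (h1 : 1 ≤ n) (h3 : 2 * (δ : ℝ) ≤ c * n)
    (hk : c * n ≤ k) :
    (c / 2) ^ δ / δ.factorial ≤ (k.choose δ : ℝ) * (1 / (n : ℝ)) ^ δ := by
  have hn1 : (1 : ℝ) ≤ n := by exact_mod_cast h1
  have h4 : 2 * (δ : ℝ) ≤ k := by linarith
  have h5 : δ ≤ k := by
    have : (δ : ℝ) ≤ k := by
      have : (0 : ℝ) ≤ δ := Nat.cast_nonneg _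
      linarith
    exact_mod_cast this
  have h6 : ((k + 1 - δ : ℕ) : ℝ) ^ δ / δ.factorial ≤ (k.choose δ : ℝ) := by
    exact_mod_cast Nat.pow_le_choose (α := ℝ) δ k
  have h7 : c * n / 2 ≤ ((k + 1 - δ : ℕ) : ℝ) := by
    rw [Nat.cast_sub (by omega)]
    push_cast
    linarith
  have h9 : (c * n / 2) ^ δ / δ.factorial ≤ (k.choose δ : ℝ) := by
    refine le_trans ?_ h6
    refine div_le_div_of_nonneg_right (pow_le_pow_left₀ (by positivity) h7 δ) (by positivity)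
  calc (c / 2) ^ δ / δ.factorial = (c * n / 2) ^ δ / δ.factorial * (1 / (n : ℝ)) ^ δ := by
        have : (n : ℝ) ≠ 0 := by linarith
        rw [div_mul_eq_mul_div, ← mul_pow]
        congr 2
        field_simp
    _ ≤ (k.choose δ : ℝ) * (1 / (n : ℝ)) ^ δ :=
        mul_le_mul_of_nonneg_right h9 (by positivity)

end BDLEx

open BDLEx Pool.Agent.FS.LOC Pool.Agent.TPT.LOCCx in
/-- **TPE_BDLE.** -/
theorem t_BDLE (hS : SKELE_Stmt) (hK : KBIGE_Stmt) (hB : FS.BIN_Stmt) (hN : N0E_Stmt)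
    (hH : HGM_Stmt) : BDLE_Stmt := by
  classical
  intro b hb1 K hK0 δ
  have hb : 0 < b := by linarith
  obtain ⟨c, hc, N₁, hN₁, hK'⟩ := hK b b hb le_rfl
  obtain ⟨c₀, hc₀, N₂, hN₂⟩ := hN b b K hb le_rfl hK0
  obtain ⟨L, hL⟩ : ∃ L, L = Real.exp (-(2 * b)) := ⟨_, rfl⟩
  obtain ⟨R, hR⟩ : ∃ R, R = Real.exp (2 * b) := ⟨_, rfl⟩
  have hL0 : 0 < L := by rw [hL]; positivity
  have hR0 : 0 < R := by rw [hR]; positivity
  have hLR : L ≤ R := by
    rw [hL, hR]
    exact Real.exp_le_exp.2 (by linarith)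
  have hp1 : R / (1 + R) < 1 := by
    rw [div_lt_one (by positivity)]
    linarith
  obtain ⟨K₁, hK₁⟩ : ∃ K₁, K₁ = K / c₀ + (δ : ℝ) ^ 2 + 1 := ⟨_, rfl⟩
  have hK₁0 : 0 < K₁ := by rw [hK₁]; positivity
  obtain ⟨c', k0, hc', hbin⟩ := (hB (L / (1 + L)) (R / (1 + R)) (by positivity) (mono_div hL0 hLR)
    hp1).2 (2 * Real.sqrt (K₁ / c)) (by positivity)
  obtain ⟨κ, hκ⟩ : ∃ κ, κ = (c / 2) ^ δ / δ.factorial * Real.exp (-b) ^ δ := ⟨_, rfl⟩
  have hκ0 : 0 < κ := by rw [hκ]; positivity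
  have hexp : ∀ᶠ n : ℕ in atTop, Real.exp (-(c * n)) < c₀ / 4 := by
    have h1 : Tendsto (fun n : ℕ => c * (n : ℝ)) atTop atTop :=
      tendsto_natCast_atTop_atTop.const_mul_atTop hc
    have h2 : Tendsto (fun n : ℕ => Real.exp (-(c * (n : ℝ)))) atTop (𝓝 0) :=
      Real.tendsto_exp_neg_atTop_nhds_zero.comp h1
    exact h2.eventually (gt_mem_nhds (by positivity))
  obtain ⟨N₃, hN₃⟩ := eventually_atTop.1 hexp
  refine ⟨κ * c' * (c₀ / 2), by positivity, max (max N₁ N₂) (max (max N₃ δ)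
    (max ⌈(k0 : ℝ) / c⌉₊ ⌈2 * (δ : ℝ) / c⌉₊)), ?_⟩
  intro n hn f g hbox hsn1 hsnK t hht hv
  have hn1 : N₁ ≤ n := ((le_max_left _ _).trans (le_max_left _ _)).trans hn
  have hn2 : N₂ ≤ n := ((le_max_right _ _).trans (le_max_left _ _)).trans hn
  have hn3 : N₃ ≤ n :=
    (((le_max_left _ _).trans (le_max_left _ _)).trans (le_max_right _ _)).trans hn
  have hn4 : δ ≤ n :=
    (((le_max_right _ _).trans (le_max_left _ _)).trans (le_max_right _ _)).trans hn
  have hn5 : ⌈(k0 : ℝ) / c⌉₊ ≤ n :=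
    (((le_max_left _ _).trans (le_max_right _ _)).trans (le_max_right _ _)).trans hn
  have hn6' : ⌈2 * (δ : ℝ) / c⌉₊ ≤ n :=
    (((le_max_right _ _).trans (le_max_right _ _)).trans (le_max_right _ _)).trans hn
  have hk0 : (k0 : ℝ) ≤ c * n := by
    have h2 : (k0 : ℝ) / c ≤ n := (Nat.le_ceil _).trans (by exact_mod_cast hn5)
    rw [div_le_iff₀ hc] at h2
    linarith
  have hcδ : 2 * (δ : ℝ) ≤ c * n := by
    have h2 : 2 * (δ : ℝ) / c ≤ n := (Nat.le_ceil _).trans (by exact_mod_cast hn6')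
    rw [div_le_iff₀ hc] at h2
    linarith
  have hn6 : 6 ≤ n := hN₁.trans hn1
  have hn0 : (0 : ℝ) < n := by
    have : (6 : ℝ) ≤ n := by exact_mod_cast hn6
    linarith
  have hn1r : (1 : ℝ) ≤ n := by
    have : (6 : ℝ) ≤ n := by exact_mod_cast hn6
    linarith
  obtain ⟨N, σ, hσ⟩ := hS n hn6
  have hKB := hK' n hn1 f g hbox N σ hσ
  have hN0 := hN₂ n hn2 f g hbox hsnK
  have hwd : Real.sqrt n ≤ wd n f := by
    unfold wd se
    have h1 : 1 ≤ Real.sqrt (Real.exp (-f) * n) := Real.one_le_sqrt.2 hsn1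
    have h2 : 0 ≤ Real.sqrt n := Real.sqrt_nonneg _
    nlinarith
  have hsq : 0 < Real.sqrt n := Real.sqrt_pos.2 hn0
  obtain ⟨s, hs⟩ : ∃ s, s = Real.exp (-f) := ⟨_, rfl⟩
  have hs0 : 0 < s := by rw [hs]; positivity
  rw [← hs] at hsn1 hv hKB hN0 ⊢
  obtain ⟨hf1, hg⟩ := hbox
  obtain ⟨hg1, hg2⟩ := abs_le.1 hg
  obtain ⟨w2, hw2⟩ : ∃ w, w = Real.exp (-(2 * g)) := ⟨_, rfl⟩
  have hw2L : L ≤ w2 := by rw [hw2, hL]; exact Real.exp_le_exp.2 (by linarith)
  have hw2R : w2 ≤ R := by rw [hw2, hR]; exact Real.exp_le_exp.2 (by linarith)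
  have hw20 : 0 < w2 := lt_of_lt_of_le hL0 hw2L
  obtain ⟨p2, hp2e⟩ : ∃ p, p = w2 / (1 + w2) := ⟨_, rfl⟩
  have hp2L : L / (1 + L) ≤ p2 := by rw [hp2e]; exact mono_div hL0 hw2L
  have hp2R : p2 ≤ R / (1 + R) := by rw [hp2e]; exact mono_div hw20 hw2R
  have hp20 : 0 ≤ p2 := le_trans (by positivity) hp2L
  -- the exponents
  have hpar : ∀ i : Fin N, ∃ b₀ : ℤ, (σ i).H = n → 2 * b₀ = (σ i).Λ + δ - t := by
    intro i
    by_cases hi : (σ i).H = n
    · obtain ⟨r, hr⟩ := parity hH hσ i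
      obtain ⟨r', hr'⟩ := hht
      rw [hi] at hr
      exact ⟨r - r', fun _ => by omega⟩
    · exact ⟨0, fun h => absurd h hi⟩
  choose b₀ hb₀ using hpar
  have hU := UM_ge hσ hs0 g δ t hn4 b₀ hb₀
  have hZ0 : 0 ≤ Zm n s g := by
    unfold Zm
    refine sum_nonneg fun q _ => ?_
    unfold wm
    positivity
  have hV : ∑ i ∈ univ.filter (fun i : Fin N => (σ i).H = n), wi g (σ i) *
      (((σ i).Λ : ℝ) - t - 2 * (p2 * (σ i).k)) ^ 2 ≤ K * n * Zm n s g := by
    have h1 := second hσ s g t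
    rw [← hw2, ← hp2e] at h1
    refine (h1.trans ?_).trans hv
    refine sum_le_sum_of_subset_of_nonneg (filter_subset _ _) fun q _ _ => ?_
    unfold wm
    positivity
  have hM : c₀ * Zm n s g ≤ ∑ i ∈ univ.filter (fun i : Fin N => (σ i).H = n), wi g (σ i) := by
    refine hN0.trans (le_of_eq ?_)
    have h1 := top hσ s g (fun _ => 1)
    simp only [mul_one, bs_one] at h1
    exact h1
  rw [← hw2, ← hp2e] at hU
  -- the bad skeletons
  obtain ⟨I, hI⟩ : ∃ I : Finset (Fin N), I = univ.filter (fun i : Fin N => (σ i).H = n) := ⟨_, rfl⟩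
  obtain ⟨D, hD⟩ : ∃ D : Fin N → ℝ, D = fun i =>
    (((σ i).Λ : ℝ) - t - 2 * (p2 * (σ i).k)) ^ 2 := ⟨_, rfl⟩
  have hD0 : ∀ i, 0 ≤ D i := by intro i; rw [hD]; positivity
  have hV' : ∑ i ∈ I, wi g (σ i) * D i ≤ K * n * Zm n s g := by rw [hD, hI]; exact hV
  rw [← hI] at hU hM
  have h4 : ∑ i ∈ I.filter (fun i => 4 * K / c₀ * n < D i), wi g (σ i) ≤ c₀ / 4 * Zm n s g := by
    have h5 : ∑ i ∈ I.filter (fun i => 4 * K / c₀ * n < D i), wi g (σ i) * (4 * K / c₀ * n) ≤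
        K * n * Zm n s g := by
      refine le_trans ?_ hV'
      refine le_trans ?_ (sum_le_sum_of_subset_of_nonneg
        (filter_subset (fun i => 4 * K / c₀ * n < D i) I) fun i _ _ =>
        mul_nonneg (wi_pos g (σ i)).le (hD0 i))
      refine sum_le_sum fun i hi => mul_le_mul_of_nonneg_left ?_ (wi_pos g (σ i)).le
      exact (mem_filter.1 hi).2.le
    rw [← sum_mul] at h5
    have h6 : 0 < 4 * K / c₀ * n := by positivity
    refine le_of_mul_le_mul_right (h5.trans (le_of_eq ?_)) h6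
    field_simp
  have h5 : ∑ i ∈ I.filter (fun i => ((σ i).l.length : ℝ) < c * n ∨ ((σ i).k : ℝ) < c * n),
      wi g (σ i) ≤ c₀ / 4 * Zm n s g := by
    refine le_trans ?_ (hKB.trans (mul_le_mul_of_nonneg_right (hN₃ n hn3).le hZ0))
    refine (sum_le_sum (g := fun i => vsE n s g (σ i)) fun i hi => ?_).trans
      (sum_le_sum_of_subset_of_nonneg (fun i hi => ?_) fun i _ _ => ?_)
    · refine wi_le hs0 g (σ i) ?_
      have := (mem_filter.1 hi).1
      rw [hI, mem_filter] at this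
      exact this.2
    · exact mem_filter.2 ⟨mem_univ i, (mem_filter.1 hi).2⟩
    · unfold vsE
      positivity
  obtain ⟨J, hJ⟩ : ∃ J : Finset (Fin N), J = I.filter (fun i => ¬ (4 * K / c₀ * n < D i) ∧
    ¬ (((σ i).l.length : ℝ) < c * n ∨ ((σ i).k : ℝ) < c * n)) := ⟨_, rfl⟩
  have h6 : c₀ / 2 * Zm n s g ≤ ∑ i ∈ J, wi g (σ i) := by
    have h7 : ∑ i ∈ I, wi g (σ i) ≤
        ∑ i ∈ I.filter (fun i => 4 * K / c₀ * n < D i), wi g (σ i) +
        ∑ i ∈ I.filter (fun i => ((σ i).l.length : ℝ) < c * n ∨ ((σ i).k : ℝ) < c * n),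
          wi g (σ i) + ∑ i ∈ J, wi g (σ i) := by
      rw [hJ, sum_filter, sum_filter, sum_filter, ← sum_add_distrib, ← sum_add_distrib]
      refine sum_le_sum fun i _ => ?_
      have := (wi_pos g (σ i)).le
      by_cases q1 : 4 * K / c₀ * n < D i
      · rw [if_pos q1]
        split_ifs <;> linarith
      · by_cases q2 : ((σ i).l.length : ℝ) < c * n ∨ ((σ i).k : ℝ) < c * n
        · rw [if_neg q1, if_pos q2, if_neg (fun hh => hh.2 q2)]
          linarith
        · rw [if_neg q1, if_neg q2, if_pos ⟨q1, q2⟩]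
          linarith
    linarith
  -- lower bound for the good skeletons
  have h8 : ∀ i ∈ J, κ * c' / Real.sqrt n * wi g (σ i) ≤ wi g (σ i) *
      (((σ i).l.length.choose δ : ℝ) * (s * Real.exp g) ^ δ * bp (σ i).k p2 (b₀ i)) := by
    intro i hi
    rw [hJ, mem_filter] at hi
    obtain ⟨hiI, hi1, hi2⟩ := hi
    rw [hI, mem_filter] at hiI
    rw [not_lt] at hi1
    rw [not_or, not_lt, not_lt] at hi2
    obtain ⟨hi4, hi5⟩ := hi2
    rw [mul_comm]
    refine mul_le_mul_of_nonneg_left ?_ (wi_pos g (σ i)).le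
    -- the binomial coefficient
    have u1 : κ ≤ ((σ i).l.length.choose δ : ℝ) * (s * Real.exp g) ^ δ := by
      have u2 := choose_low δ c hc n (σ i).l.length (by omega) hcδ hi4
      have u3 : 1 / (n : ℝ) * Real.exp (-b) ≤ s * Real.exp g := by
        have u4 : 1 / (n : ℝ) ≤ s := by
          rw [div_le_iff₀ hn0]
          exact hsn1
        exact mul_le_mul u4 (Real.exp_le_exp.2 (by linarith)) (Real.exp_pos _).le hs0.le
      calc κ = (c / 2) ^ δ / δ.factorial * Real.exp (-b) ^ δ := hκ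
        _ ≤ ((σ i).l.length.choose δ : ℝ) * (1 / (n : ℝ)) ^ δ * Real.exp (-b) ^ δ :=
            mul_le_mul_of_nonneg_right u2 (by positivity)
        _ = ((σ i).l.length.choose δ : ℝ) * (1 / (n : ℝ) * Real.exp (-b)) ^ δ := by
            rw [mul_pow, mul_assoc]
        _ ≤ _ := mul_le_mul_of_nonneg_left (pow_le_pow_left₀ (by positivity) u3 δ)
            (Nat.cast_nonneg _)
    -- the lateral tokens
    have q3 : ((b₀ i : ℝ) - p2 * (σ i).k) ^ 2 ≤ 4 * K₁ * n := by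
      have e : (b₀ i : ℝ) = ((σ i).Λ + δ - t) / 2 := by
        have := congrArg (fun z : ℤ => (z : ℝ)) (hb₀ i hiI.2)
        push_cast at this
        linarith
      have e2 : (b₀ i : ℝ) - p2 * (σ i).k =
          ((((σ i).Λ : ℝ) - t - 2 * (p2 * (σ i).k)) + δ) / 2 := by
        rw [e]
        ring
      rw [hD] at hi1
      obtain ⟨Y, hY⟩ : ∃ Y : ℝ, Y = ((σ i).Λ : ℝ) - t - 2 * (p2 * (σ i).k) := ⟨_, rfl⟩
      simp only [← hY] at hi1 e2
      rw [e2, hK₁]
      have q4 : (δ : ℝ) ^ 2 ≤ (δ : ℝ) ^ 2 * n := le_mul_of_one_le_right (by positivity) hn1r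
      have q5 : 4 * K / c₀ * n = 4 * (K / c₀ * n) := by ring
      rw [q5] at hi1
      nlinarith [sq_nonneg (Y - δ)]
    have r2 := sqrt_aux hc hK₁0 hi5 q3
    have hkk : k0 ≤ (σ i).k := by exact_mod_cast hk0.trans hi5
    have s2 := hbin p2 hp2L hp2R (σ i).k (b₀ i) hkk r2
    have hklen : (0 : ℝ) < (σ i).k := lt_of_lt_of_le (by positivity) hi5
    have v1 := hσ.len_le i
    have v2 := hσ.H_le i
    have v3 : Real.sqrt (σ i).k ≤ Real.sqrt n :=
      Real.sqrt_le_sqrt (by exact_mod_cast (by omega : (σ i).k ≤ n))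
    have v4 : c' / Real.sqrt n ≤ c' / Real.sqrt (σ i).k :=
      div_le_div_of_nonneg_left hc'.le (Real.sqrt_pos.2 hklen) v3
    calc κ * c' / Real.sqrt n = κ * (c' / Real.sqrt n) := by ring
      _ ≤ _ := mul_le_mul u1 (v4.trans s2) (by positivity)
          (hκ0.le.trans u1)
  have h9 : κ * c' / Real.sqrt n * (c₀ / 2 * Zm n s g) ≤ UM n s g (n - δ) t (fun _ => 1) := by
    refine le_trans (mul_le_mul_of_nonneg_left h6 (by positivity)) ?_
    rw [mul_sum]
    refine (sum_le_sum h8).trans (le_trans ?_ hU)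
    refine sum_le_sum_of_subset_of_nonneg (by rw [hJ]; exact filter_subset _ _) fun i _ _ => ?_
    refine mul_nonneg (wi_pos g (σ i)).le (mul_nonneg (by positivity) ?_)
    exact FS.LOC.bp_nonneg hp20 (hp2R.trans hp1.le) _ _
  refine le_trans ?_ h9
  have h10 : κ * c' * (c₀ / 2) / wd n f ≤ κ * c' * (c₀ / 2) / Real.sqrt n :=
    div_le_div_of_nonneg_left (by positivity) hsq hwd
  refine (mul_le_mul_of_nonneg_right h10 hZ0).trans (le_of_eq ?_)
  ring

end Pool.Agent.TPE
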