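import Pool.Agent.TPE.Stmts
import Pool.Agent.TPT.CHOM

/-!
# Project TPE: choice of the lateral force (module CHOE1)
-/

set_option autoImplicit false

namespace Pool.Agent.TPE

open Finset Filter Topology MeasureTheory
open Pool.Agent.Lib27 Pool.Agent.SapR Pool.Agent.AreaLaw Pool.Agent.FL Pool.Agent.TPT

namespace CHOE1aux

lemma exp_three : (16 : ℝ) ≤ Real.exp 3 := by
  have h1 := Real.exp_one_gt_d9
  have h2 : Real.exp 3 = Real.exp 1 ^ 3 := by
    rw [← Real.exp_nat_mul]
    norm_num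
  rw [h2]
  calc (16 : ℝ) ≤ 2.7 ^ 3 := by norm_num
    _ ≤ Real.exp 1 ^ 3 := pow_le_pow_left₀ (by norm_num) (by linarith) 3

open Classical in
/-- the number of canonical words -/
lemma card_Omm_le (hRt : ROOT_Stmt) (n : ℕ) (hn : 1 ≤ n) :
    ((Omm n).card : ℝ) ≤ Real.exp (4 * n) := by
  have h1 := hRt n hn (fun _ _ _ => 1)
  simp only [Finset.sum_const, nsmul_eq_mul, mul_one] at h1
  have h2 : 2 * ((Omm n).card : ℝ) ≤ ∑ _w ∈ SAP n, (2 * n : ℝ) := by
    rw [← h1]
    refine Finset.sum_le_sum fun w _ => ?_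
    have h4 : (2 * n : ℝ) = ((range (2 * n)).card : ℝ) := by
      rw [Finset.card_range]
      push_cast
      rfl
    rw [h4]
    exact Nat.cast_le.2 (Finset.card_filter_le _ _)
  rw [Finset.sum_const, nsmul_eq_mul] at h2
  have h5 := CHOMaux.card_SAP_le n
  have h6 : ((Omm n).card : ℝ) ≤ 4 ^ (2 * n) * n := by
    have h7 := mul_le_mul_of_nonneg_right h5 (show (0 : ℝ) ≤ 2 * n by positivity)
    linarith
  have h8 : (4 : ℝ) ^ (2 * n) ≤ Real.exp (3 * n) := by
    rw [pow_mul, mul_comm (3 : ℝ), Real.exp_nat_mul]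
    exact pow_le_pow_left₀ (by norm_num) (by linarith [exp_three]) n
  have h9 : (n : ℝ) ≤ Real.exp n := by
    have := Real.add_one_le_exp (n : ℝ)
    linarith
  calc ((Omm n).card : ℝ) ≤ 4 ^ (2 * n) * n := h6
    _ ≤ Real.exp (3 * n) * Real.exp n :=
      mul_le_mul h8 h9 (Nat.cast_nonneg n) (Real.exp_pos _).le
    _ = Real.exp (4 * n) := by
      rw [← Real.exp_add]
      congr 1
      ring

/-- the weight and the difference of the lateral coordinates to `t` -/
lemma wm_split (n : ℕ) (s g : ℝ) (t : ℤ) (q : QM) :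
    wm n s g q = Real.exp (g * t) * (s ^ (n - zl q) * Real.exp (g * ((zt q : ℝ) - t))) := by
  unfold wm
  have e : g * (zt q : ℝ) = g * t + g * ((zt q : ℝ) - t) := by ring
  rw [e, Real.exp_add]
  ring

end CHOE1aux

open CHOE1aux in
/-- **CHOE1.** -/
theorem t_CHOE1 (hO : ONEM_Stmt) (hR : RECE_Stmt) (hRt : ROOT_Stmt) (hH : HGM_Stmt) :
    CHOE1_Stmt := by
  intro e he
  refine ⟨8 / e + 1, by have : 0 < 8 / e := by positivity
                        linarith, ⌈4 / e⌉₊ + 4, ?_⟩
  intro n hn f t hf ht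
  have hn4 : 4 ≤ n := by omega
  have hn0 : (0 : ℝ) < n := by exact_mod_cast (by omega : 0 < n)
  have hen : 4 ≤ e * n := by
    have h1 : 4 / e ≤ (⌈4 / e⌉₊ : ℝ) := Nat.le_ceil _
    have h2 : ((⌈4 / e⌉₊ + 4 : ℕ) : ℝ) ≤ n := by exact_mod_cast hn
    push_cast at h2
    have h3 : 4 / e ≤ n := by linarith
    rw [div_le_iff₀ he] at h3
    linarith
  have ht' : |(t : ℝ)| ≤ (1 - e) * n := by
    have : ((|t| : ℤ) : ℝ) = |(t : ℝ)| := by push_cast; rfl
    rwa [this] at ht
  have ht2 : |(t : ℝ)| ≤ n - e * n := by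
    have : (1 - e) * n = n - e * n := by ring
    linarith
  set s := Real.exp (-f) with hs
  have hs0 : 0 < s := Real.exp_pos _
  have hs1 : s ≤ 1 := by
    rw [hs]
    exact Real.exp_le_one_iff.2 (by linarith)
  constructor
  · obtain ⟨q1, hq1, -, hz1⟩ := (hR n hn4 1 (by norm_num)).1
    obtain ⟨q2, hq2, -, hz2⟩ := (hR n hn4 (-1) (by norm_num)).1
    obtain ⟨g, hg⟩ := hO QM (Omm n) (fun q => s ^ (n - zl q)) (fun q => (zt q : ℝ) - t)
      (fun q _ => pow_pos hs0 _) ⟨q1, hq1, by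
        simp only [hz1]
        push_cast
        have := (abs_le.1 ht2).2
        linarith⟩ ⟨q2, hq2, by
        simp only [hz2]
        push_cast
        have := (abs_le.1 ht2).1
        linarith⟩
    refine ⟨g, ?_⟩
    have h1 : ∑ q ∈ Omm n, wm n s g q * ((zt q : ℝ) - t) = Real.exp (g * t) *
        ∑ q ∈ Omm n, s ^ (n - zl q) * Real.exp (g * ((zt q : ℝ) - t)) * ((zt q : ℝ) - t) := by
      rw [Finset.mul_sum]
      refine Finset.sum_congr rfl fun q _ => ?_
      rw [wm_split n s g t q]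
      ring
    rw [h1, hg, mul_zero]
  · intro g hg
    have h1 : ∑ q ∈ Omm n, s ^ (n - zl q) * Real.exp (g * ((zt q : ℝ) - t)) *
        ((zt q : ℝ) - t) = 0 := by
      have h2 : ∑ q ∈ Omm n, wm n s g q * ((zt q : ℝ) - t) = Real.exp (g * t) *
          ∑ q ∈ Omm n, s ^ (n - zl q) * Real.exp (g * ((zt q : ℝ) - t)) *
            ((zt q : ℝ) - t) := by
        rw [Finset.mul_sum]
        refine Finset.sum_congr rfl fun q _ => ?_
        rw [wm_split n s g t q]
        ring
      rw [h2] at hg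
      exact (mul_eq_zero.1 hg).resolve_left (Real.exp_pos _).ne'
    -- Jensen
    have h2 : ∑ q ∈ Omm n, s ^ (n - zl q) * Real.exp (g * ((zt q : ℝ) - t)) ≤
        ∑ q ∈ Omm n, s ^ (n - zl q) := by
      have h3 : ∀ q ∈ Omm n, s ^ (n - zl q) * Real.exp (g * ((zt q : ℝ) - t)) -
          g * (s ^ (n - zl q) * Real.exp (g * ((zt q : ℝ) - t)) * ((zt q : ℝ) - t)) ≤
          s ^ (n - zl q) := by
        intro q _
        obtain ⟨y, hy⟩ : ∃ y, y = (zt q : ℝ) - t := ⟨_, rfl⟩
        rw [← hy]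
        have h4 := Real.add_one_le_exp (-(g * y))
        have h5 : 0 < s ^ (n - zl q) * Real.exp (g * y) :=
          mul_pos (pow_pos hs0 _) (Real.exp_pos _)
        have h6 := mul_le_mul_of_nonneg_left h4 h5.le
        have h7 : s ^ (n - zl q) * Real.exp (g * y) * Real.exp (-(g * y)) = s ^ (n - zl q) := by
          rw [mul_assoc, ← Real.exp_add, add_neg_cancel, Real.exp_zero, mul_one]
        rw [h7] at h6
        linarith
      have h4 := Finset.sum_le_sum h3
      rw [Finset.sum_sub_distrib, ← Finset.mul_sum, h1, mul_zero, sub_zero] at h4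
      exact h4
    have h3 : ∑ q ∈ Omm n, s ^ (n - zl q) ≤ Real.exp (4 * n) := by
      have h4 : ∑ q ∈ Omm n, s ^ (n - zl q) ≤ ∑ _q ∈ Omm n, (1 : ℝ) :=
        Finset.sum_le_sum fun q _ => pow_le_one₀ hs0.le hs1
      rw [Finset.sum_const, nsmul_eq_mul, mul_one] at h4
      exact h4.trans (card_Omm_le hRt n (by omega))
    have h4 : ∃ q ∈ Omm n, zl q = n ∧ |g| * (e * n - 2) ≤ g * ((zt q : ℝ) - t) := by
      have ht3 := abs_le.1 ht2
      rcases le_total 0 g with hg0 | hg0
      · obtain ⟨q, hq, h5, h6⟩ := (hR n hn4 1 (by norm_num)).1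
        refine ⟨q, hq, h5, ?_⟩
        rw [abs_of_nonneg hg0, h6]
        push_cast
        refine mul_le_mul_of_nonneg_left ?_ hg0
        linarith
      · obtain ⟨q, hq, h5, h6⟩ := (hR n hn4 (-1) (by norm_num)).1
        refine ⟨q, hq, h5, ?_⟩
        rw [abs_of_nonpos hg0, h6]
        push_cast
        have h7 : -g * (e * n - 2) ≤ -g * ((n : ℝ) - 2 + t) :=
          mul_le_mul_of_nonneg_left (by linarith) (by linarith)
        linarith
    obtain ⟨q, hq, h5, h6⟩ := h4
    have h7 : Real.exp (|g| * (e * n - 2)) ≤ Real.exp (4 * n) := by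
      have h8 : Real.exp (g * ((zt q : ℝ) - t)) ≤
          ∑ q ∈ Omm n, s ^ (n - zl q) * Real.exp (g * ((zt q : ℝ) - t)) := by
        have h9 := Finset.single_le_sum
          (f := fun q : QM => s ^ (n - zl q) * Real.exp (g * ((zt q : ℝ) - t)))
          (fun q _ => (mul_pos (pow_pos hs0 _) (Real.exp_pos _)).le) hq
        simp only [h5, Nat.sub_self, pow_zero, one_mul] at h9
        exact h9
      exact (Real.exp_le_exp.2 h6).trans (h8.trans (h2.trans h3))
    have h8 := Real.exp_le_exp.1 h7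
    have h9 : |g| * (e * n / 2) ≤ |g| * (e * n - 2) :=
      mul_le_mul_of_nonneg_left (by linarith) (abs_nonneg g)
    have h10 : |g| * e ≤ 8 := by
      have h11 : (|g| * e) * n ≤ 8 * n := by linarith
      exact le_of_mul_le_mul_right h11 hn0
    have h11 : |g| ≤ 8 / e := by
      rw [le_div_iff₀ he]
      exact h10
    linarith

end Pool.Agent.TPE
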