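import Pool.Agent.TPE.Stmts

/-!
# Project TPE: choice of the force vector for a level close to `n` (module CHOE2)
-/

set_option autoImplicit false

namespace Pool.Agent.TPE

open Finset Filter Topology MeasureTheory
open Pool.Agent.Lib27 Pool.Agent.SapR Pool.Agent.AreaLaw Pool.Agent.FL Pool.Agent.TPT

namespace CHOE2aux

lemma wm_eq {n : ℕ} {q : QM} (hq : zl q ≤ n) (f g h t : ℝ) :
    wm n (Real.exp (-f)) g q = Real.exp (f * h + g * t - f * n) *
      Real.exp (f * ((zl q : ℝ) - h) + g * ((zt q : ℝ) - t)) := by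
  unfold wm
  rw [← Real.exp_nat_mul, ← Real.exp_add, ← Real.exp_add, Nat.cast_sub hq]
  congr 1
  ring

lemma sum_wm (hH : HGM_Stmt) (n : ℕ) (f g h t : ℝ) (F : QM → ℝ) :
    ∑ q ∈ Omm n, wm n (Real.exp (-f)) g q * F q = Real.exp (f * h + g * t - f * n) *
      ∑ q ∈ Omm n, Real.exp (f * ((zl q : ℝ) - h) + g * ((zt q : ℝ) - t)) * F q := by
  rw [Finset.mul_sum]
  refine Finset.sum_congr rfl fun q hq => ?_
  rw [wm_eq (hH.2.2.2 n q hq).1 f g h t]
  ring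

lemma wm_pos (n : ℕ) (f g : ℝ) (q : QM) : 0 < wm n (Real.exp (-f)) g q := by
  unfold wm
  positivity

lemma Zm_pos (n : ℕ) (f g : ℝ) (hI : (Omm n).Nonempty) : 0 < Zm n (Real.exp (-f)) g := by
  unfold Zm
  exact Finset.sum_pos (fun q _ => wm_pos n f g q) hI

/-- The mean of `n - zl` in terms of the mean of `zl - h`. -/
lemma sum_J (n : ℕ) (f g h : ℝ) :
    ∑ q ∈ Omm n, wm n (Real.exp (-f)) g q * ((n : ℝ) - zl q) =
      (n - h) * Zm n (Real.exp (-f)) g -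
        ∑ q ∈ Omm n, wm n (Real.exp (-f)) g q * ((zl q : ℝ) - h) := by
  unfold Zm
  rw [Finset.mul_sum, ← Finset.sum_sub_distrib]
  refine Finset.sum_congr rfl fun q _ => ?_
  ring

/-- Convexity. -/
lemma convex (I : Finset QM) (x y : QM → ℝ) (f g f₁ g₁ : ℝ)
    (hy : ∑ i ∈ I, Real.exp (f₁ * x i + g₁ * y i) * y i = 0)
    (hm : ∑ i ∈ I, Real.exp (f * x i + g * y i) ≤ ∑ i ∈ I, Real.exp (f₁ * x i + g₁ * y i))
    (hf : f < f₁) : 0 ≤ ∑ i ∈ I, Real.exp (f₁ * x i + g₁ * y i) * x i := by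
  have h1 : ∑ i ∈ I, (Real.exp (f₁ * x i + g₁ * y i) +
      ((f - f₁) * (Real.exp (f₁ * x i + g₁ * y i) * x i) +
        (g - g₁) * (Real.exp (f₁ * x i + g₁ * y i) * y i))) ≤
      ∑ i ∈ I, Real.exp (f * x i + g * y i) := by
    refine Finset.sum_le_sum fun i _ => ?_
    have h2 : Real.exp (f * x i + g * y i) = Real.exp (f₁ * x i + g₁ * y i) *
        Real.exp ((f - f₁) * x i + (g - g₁) * y i) := by
      rw [← Real.exp_add]
      congr 1
      ring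
    rw [h2]
    have h3 := mul_le_mul_of_nonneg_left
      (Real.add_one_le_exp ((f - f₁) * x i + (g - g₁) * y i))
      (Real.exp_pos (f₁ * x i + g₁ * y i)).le
    linarith
  rw [Finset.sum_add_distrib, Finset.sum_add_distrib, ← Finset.mul_sum, ← Finset.mul_sum, hy,
    mul_zero, add_zero] at h1
  by_contra hcon
  push Not at hcon
  have h4 : 0 < (f - f₁) * ∑ i ∈ I, Real.exp (f₁ * x i + g₁ * y i) * x i :=
    mul_pos_of_neg_of_neg (by linarith) hcon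
  linarith

lemma sgn_cases {σ : ℝ} (h : |σ| = 1) : ∃ z : ℤ, |z| = 1 ∧ σ = z := by
  rcases abs_eq (by norm_num : (0 : ℝ) ≤ 1) |>.1 h with h1 | h1
  · exact ⟨1, by norm_num, by rw [h1]; norm_num⟩
  · exact ⟨-1, by norm_num, by rw [h1]; norm_num⟩

lemma sgn_sq {z : ℤ} (h : |z| = 1) : (z : ℝ) * z = 1 := by
  have : z * z = 1 := by rw [← abs_mul_abs_self, h]; norm_num
  exact_mod_cast this

/-- The hypothesis of the statement on minimisers. -/
lemma hyp (hR : RECE_Stmt) {e : ℝ} {n h : ℕ} {t : ℤ} (hn : 4 ≤ n) (hen : 3 ≤ e * n)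
    (hh : h + 1 ≤ n) (hh' : 2 * (n - h) + 2 ≤ n) (ht : ((|t| : ℤ) : ℝ) ≤ (1 - e) * n)
    (σ σ' : ℝ) (hσ : |σ| = 1) (hσ' : |σ'| = 1) :
    ∃ q ∈ Omm n, |(0 : ℝ)| + 1 ≤ σ * ((zl q : ℝ) - h) ∧
      |(0 : ℝ)| + 1 ≤ σ' * ((zt q : ℝ) - t) := by
  obtain ⟨z', hz', rfl⟩ := sgn_cases hσ'
  have e3 := sgn_sq hz'
  have ht' : (z' : ℝ) * t ≤ (1 - e) * n := by
    have h1 : z' * t ≤ |t| := by
      have := le_abs_self (z' * t)
      rwa [abs_mul, hz', one_mul] at this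
    have h2 : ((z' * t : ℤ) : ℝ) ≤ ((|t| : ℤ) : ℝ) := by exact_mod_cast h1
    push_cast at h2
    push_cast at ht
    linarith
  rw [abs_zero, zero_add]
  rcases abs_eq (by norm_num : (0 : ℝ) ≤ 1) |>.1 hσ with h1 | h1
  · obtain ⟨q, hq, hq1, hq2⟩ := (hR n hn z' hz').1
    refine ⟨q, hq, ?_, ?_⟩
    · rw [h1, hq1, one_mul]
      have : ((h + 1 : ℕ) : ℝ) ≤ n := by exact_mod_cast hh
      push_cast at this
      linarith
    · rw [hq2]
      push_cast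
      have e4 : (z' : ℝ) * (z' * ((n : ℝ) - 2) - t) = (z' * z') * (n - 2) - z' * t := by ring
      rw [e4, e3]
      linarith
  · obtain ⟨q, hq, hq1, hq2⟩ := (hR n hn z' hz').2 (n - h) (by omega) (by omega)
    refine ⟨q, hq, ?_, ?_⟩
    · have h2 : zl q + (n - h) + 0 = h := by omega
      have h3 : ((zl q : ℕ) : ℝ) + 1 ≤ h := by exact_mod_cast (by omega : zl q + 1 ≤ h)
      rw [h1]
      linarith
    · rw [hq2]
      push_cast
      have e4 : (z' : ℝ) * (z' * (n : ℝ) - t) = (z' * z') * n - z' * t := by ring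
      rw [e4, e3]
      linarith

end CHOE2aux

open CHOE2aux

theorem t_CHOE2 (hMi : MINM_Stmt) (hG : GRDM_Stmt) (hC : CHOE1_Stmt) (hR : RECE_Stmt)
    (hJ : JBE_Stmt) (hH : HGM_Stmt) : CHOE2_Stmt := by
  intro e he
  obtain ⟨b, hb, N₁, hN₁⟩ := hC e he
  obtain ⟨C, hC0, N₂, hN₂⟩ := hJ b b (by linarith) le_rfl
  obtain ⟨N₃, hN₃⟩ := exists_nat_ge (3 / e)
  obtain ⟨N₄, hN₄⟩ := exists_nat_gt (2 * C * (C * Real.exp b))
  refine ⟨b, C + C ^ 2, min (1 / 8) (C⁻¹ * Real.exp (-b) / 2), hb, by positivity,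
    lt_min (by norm_num) (by positivity), max (max 4 N₁) (max N₂ (max N₃ N₄)), ?_⟩
  intro n hn h t hh hη ht
  have hn4 : 4 ≤ n := le_trans (le_trans (le_max_left _ _) (le_max_left _ _)) hn
  have hnN₁ : N₁ ≤ n := le_trans (le_trans (le_max_right _ _) (le_max_left _ _)) hn
  have hnN₂ : N₂ ≤ n := le_trans (le_trans (le_max_left _ _) (le_max_right _ _)) hn
  have hnN₃ : N₃ ≤ n := le_trans (le_trans (le_trans (le_max_left _ _) (le_max_right _ _))
    (le_max_right _ _)) hn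
  have hnN₄ : N₄ ≤ n := le_trans (le_trans (le_trans (le_max_right _ _) (le_max_right _ _))
    (le_max_right _ _)) hn
  have hn0 : (0 : ℝ) < n := by exact_mod_cast (by omega : 0 < n)
  have hn4' : (4 : ℝ) ≤ n := by exact_mod_cast hn4
  have hen : 3 ≤ e * n := by
    have h1 : (3 / e : ℝ) ≤ n := hN₃.trans (by exact_mod_cast hnN₃)
    rw [div_le_iff₀ he] at h1
    linarith
  have hbig : 2 * C * (C * Real.exp b) < n := hN₄.trans_le (by exact_mod_cast hnN₄)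
  have hh1 : (1 : ℝ) ≤ (n : ℝ) - h := by
    have : ((h + 1 : ℕ) : ℝ) ≤ n := by exact_mod_cast hh
    push_cast at this
    linarith
  have h8 : (n : ℝ) - h ≤ 1 / 8 * n :=
    hη.trans (mul_le_mul_of_nonneg_right (min_le_left _ _) hn0.le)
  have hh2 : 2 * (n - h) + 2 ≤ n := by
    have h1 : ((2 * (n - h) + 2 : ℕ) : ℝ) ≤ n := by
      push_cast
      rw [Nat.cast_sub (by omega)]
      linarith
    exact_mod_cast h1
  have hI : (Omm n).Nonempty := by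
    obtain ⟨q, hq, -, -⟩ := (hR n hn4 1 (by norm_num)).1
    exact ⟨q, hq⟩
  obtain ⟨f, g, -, hmin⟩ := hMi QM (Omm n) (fun q => (zl q : ℝ) - h) (fun q => (zt q : ℝ) - t)
    0 0 1 hI one_pos (fun σ σ' hσ hσ' => hyp hR hn4 hen hh hh2 ht σ σ' hσ hσ')
  obtain ⟨hx, hy⟩ := hG QM (Omm n) (fun q => (zl q : ℝ) - h) (fun q => (zt q : ℝ) - t)
    0 0 f g hI hmin
  simp only [sub_zero, mul_zero] at hx hy hmin
  have hX : ∑ q ∈ Omm n, wm n (Real.exp (-f)) g q * ((zl q : ℝ) - h) = 0 := by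
    rw [sum_wm hH n f g h t, hx, mul_zero]
  have hY : ∑ q ∈ Omm n, wm n (Real.exp (-f)) g q * ((zt q : ℝ) - t) = 0 := by
    rw [sum_wm hH n f g h t, hy, mul_zero]
  -- the lower bound for `f`
  have hbf : b ≤ f := by
    by_contra hcon
    push Not at hcon
    obtain ⟨⟨g₁, hg₁⟩, hbd⟩ := hN₁ n hnN₁ b t (by linarith) ht
    have hg₁b := hbd g₁ hg₁
    have hm : ∑ i ∈ Omm n, Real.exp (f * ((zl i : ℝ) - h) + g * ((zt i : ℝ) - t)) ≤
        ∑ i ∈ Omm n, Real.exp (b * ((zl i : ℝ) - h) + g₁ * ((zt i : ℝ) - t)) := by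
      have h1 := hmin b g₁
      have h2 : 0 < ∑ i ∈ Omm n, Real.exp (f * ((zl i : ℝ) - h) + g * ((zt i : ℝ) - t)) :=
        Finset.sum_pos (fun i _ => Real.exp_pos _) hI
      have h3 : 0 < ∑ i ∈ Omm n, Real.exp (b * ((zl i : ℝ) - h) + g₁ * ((zt i : ℝ) - t)) :=
        Finset.sum_pos (fun i _ => Real.exp_pos _) hI
      exact (Real.log_le_log_iff h2 h3).1 h1
    have hy₁ : ∑ i ∈ Omm n, Real.exp (b * ((zl i : ℝ) - h) + g₁ * ((zt i : ℝ) - t)) *
        ((zt i : ℝ) - t) = 0 := by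
      rw [sum_wm hH n b g₁ h t] at hg₁
      rcases mul_eq_zero.1 hg₁ with h1 | h1
      · exact absurd h1 (Real.exp_pos _).ne'
      · exact h1
    have hconv := convex (Omm n) (fun q => (zl q : ℝ) - h) (fun q => (zt q : ℝ) - t) f g b g₁
      hy₁ hm hcon
    have hX₁ : 0 ≤ ∑ q ∈ Omm n, wm n (Real.exp (-b)) g₁ q * ((zl q : ℝ) - h) := by
      rw [sum_wm hH n b g₁ h t]
      exact mul_nonneg (Real.exp_pos _).le hconv
    have hJ₁ := (hN₂ n hnN₂ b g₁ ⟨le_rfl, hg₁b⟩).1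
    rw [sum_J n b g₁ h] at hJ₁
    have hZ := Zm_pos n b g₁ hI
    have h1 : (C⁻¹ * (Real.exp (-b) * n) - C) * Zm n (Real.exp (-b)) g₁ ≤
        ((n : ℝ) - h) * Zm n (Real.exp (-b)) g₁ := by linarith
    have h2 : C⁻¹ * (Real.exp (-b) * n) - C ≤ (n : ℝ) - h := le_of_mul_le_mul_right h1 hZ
    have h3 : (n : ℝ) - h ≤ C⁻¹ * Real.exp (-b) / 2 * n :=
      hη.trans (mul_le_mul_of_nonneg_right (min_le_right _ _) hn0.le)
    have h4 : C⁻¹ * Real.exp (-b) / 2 * n ≤ C := by linarith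
    have h5 : (C⁻¹ * Real.exp (-b) / 2 * n) * (2 * (C * Real.exp b)) = n := by
      rw [Real.exp_neg]
      have := (Real.exp_pos b).ne'
      field_simp
    have h6 : (C⁻¹ * Real.exp (-b) / 2 * n) * (2 * (C * Real.exp b)) ≤
        C * (2 * (C * Real.exp b)) := mul_le_mul_of_nonneg_right h4 (by positivity)
    rw [h5] at h6
    linarith
  have hf0 : 0 ≤ f := by linarith
  have hgb : |g| ≤ b := (hN₁ n hnN₁ f t hf0 ht).2 g hY
  have hJf := hN₂ n hnN₂ f g ⟨hbf, hgb⟩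
  have hZ := Zm_pos n f g hI
  rw [sum_J n f g h, hX, sub_zero] at hJf
  have k1 : C⁻¹ * (Real.exp (-f) * n) - C ≤ (n : ℝ) - h := le_of_mul_le_mul_right hJf.1 hZ
  have k2 : (n : ℝ) - h ≤ C * (Real.exp (-f) * n) + C := le_of_mul_le_mul_right hJf.2 hZ
  have hs : 0 ≤ Real.exp (-f) * n := by positivity
  refine ⟨f, g, ⟨hbf, hgb⟩, ⟨?_, ?_⟩, ?_, ?_⟩
  · rw [hX, abs_zero]
    exact hZ.le
  · rw [hY, abs_zero]
    exact hZ.le
  · have : 0 ≤ C ^ 2 * (Real.exp (-f) * n + 1) := by positivity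
    linarith
  · have h1 : C * (C⁻¹ * (Real.exp (-f) * n)) = Real.exp (-f) * n := by
      rw [← mul_assoc, mul_inv_cancel₀ hC0.ne', one_mul]
    have h2 := mul_le_mul_of_nonneg_left k1 hC0.le
    rw [mul_sub, h1] at h2
    have h3 : C ^ 2 * 1 ≤ C ^ 2 * ((n : ℝ) - h) := mul_le_mul_of_nonneg_left hh1 (by positivity)
    nlinarith

end Pool.Agent.TPE
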