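import Pool.Agent.TPE.Stmts
import Pool.Agent.TPT.CLSB
import Pool.Agent.Lib_helper74.FS.CLS

/-!
# Project TPE (MP_f6626d_co): module CLSBE, the classes of canonical words
-/

set_option autoImplicit false

namespace Pool.Agent.TPE
namespace CLSBEm

open Finset Filter Topology MeasureTheory
open Pool.Agent.Lib27 Pool.Agent.SapR Pool.Agent.AreaLaw Pool.Agent.FL Pool.Agent.TPT
open Pool.Agent.FS (sc)
open Pool.Agent.FS.CLS (av av_mono av_add av_mul av_nonneg av_one_le av_card abs_main)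
open Pool.Agent.TPT.CLSBm (Cl V wm_pos V_eq av_cl V_mono V_le_full av_cl_le pow_log_div_sqrt ratio
  lim_main cube_to_one rm_nonneg)

lemma Zm_pos_of (hZ : ZBME_Stmt) (a b : ℝ) (ha : 0 < a) (hab : a ≤ b) :
    ∃ N : ℕ, ∀ n : ℕ, N ≤ n → ∀ f g : ℝ, BoxE a b f g → 0 < Zm n (Real.exp (-f)) g := by
  obtain ⟨C, θ, hC, _, _, N, h⟩ := hZ a b ha hab
  refine ⟨N, fun n hn f g hb => ?_⟩
  obtain ⟨rho, _, _, h5, _, h6, _⟩ := h n hn f g hb
  by_contra hc
  push Not at hc
  have hCi : 0 < C⁻¹ := by positivity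
  have h7 : 0 ≤ sc n * rho ^ n := by
    have : 0 ≤ rho := by linarith
    unfold sc
    positivity
  have h8 := mul_nonpos_of_nonneg_of_nonpos h7 hc
  linarith

lemma wd_le (n : ℕ) (f : ℝ) (hf : 0 ≤ f) : wd n f ≤ n := by
  have hn : (0 : ℝ) ≤ n := Nat.cast_nonneg n
  have h1 : Real.exp (-f) ≤ 1 := Real.exp_le_one_iff.2 (by linarith)
  have h2 : se n f ≤ Real.sqrt n := Real.sqrt_le_sqrt (by nlinarith)
  unfold wd
  calc se n f * Real.sqrt n ≤ Real.sqrt n * Real.sqrt n :=
        mul_le_mul_of_nonneg_right h2 (Real.sqrt_nonneg _)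
    _ = n := Real.mul_self_sqrt hn

lemma wd_pos (n : ℕ) (f : ℝ) (hn : 1 ≤ n) : 0 < wd n f := by
  have hnr : (0 : ℝ) < n := by exact_mod_cast hn
  unfold wd se
  have := Real.exp_pos (-f)
  positivity

theorem main (hL : LOCAE_Stmt) (hM : MOMME_Stmt) (hZ : ZBME_Stmt) : CLSBE_Stmt := by
  intro b f g h t hR
  have hb1 := hR.one
  have hb0 : (0 : ℝ) < b := by linarith
  have hf0 : ∀ n, 0 ≤ f n := fun n => hb0.le.trans (hR.box n).1
  obtain ⟨c, hc, hlow⟩ := hR.low
  obtain ⟨N0, hZp⟩ := Zm_pos_of hZ b b hb0 le_rfl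
  set s : ℕ → ℝ := fun n => Real.exp (-(f n)) with hs
  have hs0 : ∀ n, 0 < s n := fun n => Real.exp_pos _
  set X : ℕ → QM → ℝ := fun n => rm n with hX
  set Y : ℕ → QM → ℝ := fun n q => (dm q : ℝ) / sc n with hY
  have hsq : ∀ n : ℕ, 1 ≤ n → 0 < Real.sqrt n := fun n hn =>
    Real.sqrt_pos.2 (by exact_mod_cast hn)
  have hscp : ∀ n : ℕ, 1 ≤ n → 0 < sc n := fun n hn => by
    have := hsq n hn
    have h2 : (0 : ℝ) < n := by exact_mod_cast hn
    unfold sc
    positivity
  have hdiff : ∀ n : ℕ, 1 ≤ n → ∀ (q : QM) (r : ℕ),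
      |Y n q - X n q| ^ r = |(dm q : ℝ) - (am n q : ℝ)| ^ r / sc n ^ r := by
    intro n hn q r
    simp only [hX, hY]
    unfold rm
    rw [← sub_div, abs_div, abs_of_pos (hscp n hn), div_pow]
  have hw : ∀ n, ∀ q ∈ Omm n, 0 ≤ wm n (s n) (g n) q := fun n q _ =>
    (wm_pos n (s n) (g n) (hs0 n) q).le
  -- good n
  have hgood0 : ∀ᶠ n : ℕ in atTop, 1 ≤ n ∧ 0 < Zm n (s n) (g n) ∧
      c / wd n (f n) * Zm n (s n) (g n) ≤ V n (s n) (g n) (h n) (t n) (fun _ => 1) := by
    filter_upwards [eventually_ge_atTop 1, eventually_ge_atTop N0, hlow] with n h1 h2 h3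
    exact ⟨h1, hZp n h2 (f n) (g n) (hR.box n), h3⟩
  have hgood : ∀ᶠ n : ℕ in atTop, 1 ≤ n ∧ 0 < Zm n (s n) (g n) ∧
      c / n * Zm n (s n) (g n) ≤ V n (s n) (g n) (h n) (t n) (fun _ => 1) := by
    filter_upwards [hgood0] with n hn
    obtain ⟨h1, h2, h3⟩ := hn
    refine ⟨h1, h2, le_trans (mul_le_mul_of_nonneg_right ?_ h2.le) h3⟩
    exact div_le_div_of_nonneg_left hc.le (wd_pos n (f n) h1) (wd_le n (f n) (hf0 n))
  -- class moments of the area functional
  have hXr : ∀ r : ℕ, ∃ C : ℝ, ∀ᶠ n : ℕ in atTop,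
      av (Cl n (h n) (t n)) (fun _ => 1) (fun q => X n q ^ r) ≤ C := by
    intro r
    obtain ⟨C, hC, N, hN⟩ := hL b hb1 r
    refine ⟨C / c, ?_⟩
    filter_upwards [hgood0, eventually_ge_atTop N, hR.sn] with n hn hn2 hsn
    obtain ⟨hn1, hZn, hV⟩ := hn
    have hnr : (0 : ℝ) < wd n (f n) := wd_pos n (f n) hn1
    have h1 := av_cl_le n (s n) (g n) (hs0 n) (h n) (t n) (fun q => X n q ^ r)
      (C / wd n (f n) * Zm n (s n) (g n)) (c / wd n (f n) * Zm n (s n) (g n)) (by positivity)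
      (by positivity) (hN n hn2 (f n) (g n) (hR.box n) hsn (h n) (t n)) hV
    refine h1.trans (le_of_eq ?_)
    field_simp
  -- class moments of the error
  have hDr : ∀ r : ℕ, ∃ C : ℝ, 0 < C ∧ ∀ᶠ n : ℕ in atTop,
      av (Cl n (h n) (t n)) (fun _ => 1) (fun q => |Y n q - X n q| ^ r) ≤
        C * ((n : ℝ) * (Real.log n / Real.sqrt n) ^ r) := by
    intro r
    obtain ⟨C, hC, N, hN⟩ := hM b b hb0 le_rfl r
    refine ⟨C / c, by positivity, ?_⟩
    filter_upwards [hgood, eventually_ge_atTop N] with n hn hn2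
    obtain ⟨hn1, hZn, hV⟩ := hn
    have hnr : (0 : ℝ) < n := by exact_mod_cast hn1
    have hscn := hscp n hn1
    have hlog : 0 ≤ Real.log n := Real.log_nonneg (by exact_mod_cast hn1)
    obtain ⟨_, _, g3⟩ := hN n hn2 (f n) (g n) (hR.box n)
    have h2 : V n (s n) (g n) (h n) (t n) (fun q => |Y n q - X n q| ^ r) ≤
        C * (n * Real.log n) ^ r * Zm n (s n) (g n) / sc n ^ r := by
      refine (V_le_full n (s n) (g n) (hs0 n) (h n) (t n) _ fun q => by positivity).trans ?_
      have h3 : ∑ q ∈ Omm n, wm n (s n) (g n) q * |Y n q - X n q| ^ r =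
          (∑ q ∈ Omm n, wm n (s n) (g n) q * |(dm q : ℝ) - (am n q : ℝ)| ^ r) / sc n ^ r := by
        rw [Finset.sum_div]
        exact Finset.sum_congr rfl fun q _ => by rw [hdiff n hn1 q r]; ring
      rw [h3]
      exact div_le_div_of_nonneg_right g3 (by positivity)
    have h1 := av_cl_le n (s n) (g n) (hs0 n) (h n) (t n) (fun q => |Y n q - X n q| ^ r)
      _ (c / n * Zm n (s n) (g n)) (by positivity) (by positivity) h2 hV
    refine h1.trans (le_of_eq ?_)
    rw [← ratio n hn1, div_pow]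
    field_simp
  have hcube : Tendsto (fun n => av (Cl n (h n) (t n)) (fun _ => 1)
      (fun q => |Y n q - X n q| ^ 3)) atTop (𝓝 0) := by
    obtain ⟨C, hC, hCn⟩ := hDr 3
    have hl := (lim_main 0).const_mul C
    rw [mul_zero] at hl
    refine squeeze_zero' (Eventually.of_forall fun n =>
      av_nonneg _ _ _ (fun _ _ => zero_le_one) fun _ _ => by positivity) hCn hl
  have hmain := abs_main (fun n => Cl n (h n) (t n)) (fun n => Omm n)
      (fun _ _ => 1) (fun n => wm n (s n) (g n)) X Y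
      (fun _ _ _ => zero_le_one) hw (fun n q => rm_nonneg n q) ?_ ?_ ?_ ?_ ?_
  · obtain ⟨r1, r2, c', hc', r3⟩ := hmain
    refine ⟨fun φ h1 h2 => ?_, ?_, ⟨c', hc', ?_⟩, ?_⟩
    · refine (r1 φ h1 h2).congr fun n => ?_
      rw [av_card]
      rfl
    · refine r2.congr fun n => ?_
      rw [av_card]
      rfl
    · exact r3
    · intro r
      obtain ⟨C1, hC1⟩ := hXr (r + 3)
      obtain ⟨C2, hC2, hC2n⟩ := hDr (r + 3)
      have hsm := (lim_main r).eventually (ge_mem_nhds (show (0 : ℝ) < 1 from one_pos))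
      refine ⟨1 + 2 ^ (r + 3) * (C1 + C2), ?_⟩
      filter_upwards [hC1, hC2n, hsm] with n h1 h2 h3
      have h4 : avQ n (h n) (t n) (fun y => y ^ r) =
          av (Cl n (h n) (t n)) (fun _ => 1) (fun q => Y n q ^ r) := by
        rw [av_card]
        rfl
      rw [h4]
      have h5 : av (Cl n (h n) (t n)) (fun _ => 1) (fun q => Y n q ^ r) ≤
          av (Cl n (h n) (t n)) (fun _ => 1) (fun q => 1 + 2 ^ (r + 3) *
            (X n q ^ (r + 3) + |Y n q - X n q| ^ (r + 3))) := by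
        refine av_mono _ _ _ _ (fun _ _ => zero_le_one) fun q _ => ?_
        have hx : 0 ≤ X n q := rm_nonneg n q
        have hd : 0 ≤ |Y n q - X n q| := abs_nonneg _
        set x := X n q with hx'
        set d := |Y n q - x| with hd'
        have e1 : |Y n q| ≤ x + d := by
          have := abs_add_le x (Y n q - x)
          rw [add_sub_cancel, abs_of_nonneg hx] at this
          exact this
        have e2 : Y n q ^ r ≤ |Y n q| ^ r := by
          rw [← abs_pow]
          exact le_abs_self _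
        have e3 : |Y n q| ^ r ≤ (x + d) ^ r := pow_le_pow_left₀ (abs_nonneg _) e1 r
        have e4 : (x + d) ^ r ≤ 1 + (x + d) ^ (r + 3) := by
          rcases le_total (x + d) 1 with h6 | h6
          · have : (x + d) ^ r ≤ 1 := pow_le_one₀ (by positivity) h6
            have : 0 ≤ (x + d) ^ (r + 3) := by positivity
            linarith
          · have : (x + d) ^ r ≤ (x + d) ^ (r + 3) := pow_le_pow_right₀ h6 (by omega)
            linarith
        have e5 : (x + d) ^ (r + 3) ≤ 2 ^ (r + 3) * (x ^ (r + 3) + d ^ (r + 3)) := by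
          rcases le_total x d with h6 | h6
          · have h7 : (x + d) ^ (r + 3) ≤ (2 * d) ^ (r + 3) :=
              pow_le_pow_left₀ (by positivity) (by linarith) _
            rw [mul_pow] at h7
            have h8 : 0 ≤ x ^ (r + 3) := by positivity
            have h9 : (0 : ℝ) < 2 ^ (r + 3) := by positivity
            nlinarith
          · have h7 : (x + d) ^ (r + 3) ≤ (2 * x) ^ (r + 3) :=
              pow_le_pow_left₀ (by positivity) (by linarith) _
            rw [mul_pow] at h7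
            have h8 : 0 ≤ d ^ (r + 3) := by positivity
            have h9 : (0 : ℝ) < 2 ^ (r + 3) := by positivity
            nlinarith
        linarith
      rw [av_add, av_mul, av_add] at h5
      have h6 := av_one_le (Cl n (h n) (t n)) (fun _ => (1 : ℝ))
      have h7 : C2 * ((n : ℝ) * (Real.log n / Real.sqrt n) ^ (r + 3)) ≤ C2 * 1 :=
        mul_le_mul_of_nonneg_left h3 hC2.le
      have h8 : (2 : ℝ) ^ (r + 3) * (av (Cl n (h n) (t n)) (fun _ => 1)
          (fun q => X n q ^ (r + 3)) + av (Cl n (h n) (t n)) (fun _ => 1)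
          (fun q => |Y n q - X n q| ^ (r + 3))) ≤ 2 ^ (r + 3) * (C1 + C2) := by
        refine mul_le_mul_of_nonneg_left ?_ (by positivity)
        linarith
      linarith
  · -- class averages of the error
    exact cube_to_one (fun n => Cl n (h n) (t n)) (fun _ _ => 1) (fun n q => |Y n q - X n q|)
      (fun _ _ _ => zero_le_one) (fun _ _ => abs_nonneg _) hcube
  · -- force averages of the error
    obtain ⟨C, hC, N, hN⟩ := hM b b hb0 le_rfl 1
    have hl := (pow_log_div_sqrt 1).const_mul C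
    rw [mul_zero] at hl
    refine squeeze_zero' (Eventually.of_forall fun n =>
      av_nonneg _ _ _ (hw n) fun _ _ => abs_nonneg _) ?_ hl
    filter_upwards [hgood, eventually_ge_atTop N] with n hn hn2
    obtain ⟨hn1, hZn, hV⟩ := hn
    have hscn := hscp n hn1
    obtain ⟨_, _, g3⟩ := hN n hn2 (f n) (g n) (hR.box n)
    have h3 : ∑ q ∈ Omm n, wm n (s n) (g n) q * |Y n q - X n q| =
        (∑ q ∈ Omm n, wm n (s n) (g n) q * |(dm q : ℝ) - (am n q : ℝ)| ^ 1) / sc n ^ 1 := by
      rw [Finset.sum_div]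
      refine Finset.sum_congr rfl fun q _ => ?_
      have := hdiff n hn1 q 1
      rw [pow_one] at this
      rw [this]
      ring
    show (∑ q ∈ Omm n, wm n (s n) (g n) q * |Y n q - X n q|) / Zm n (s n) (g n) ≤ _
    rw [h3, div_le_iff₀ hZn, div_le_iff₀ (by positivity)]
    refine g3.trans (le_of_eq ?_)
    have e : Zm n (Real.exp (-f n)) (g n) = Zm n (s n) (g n) := rfl
    rw [pow_one, pow_one, pow_one, ← ratio n hn1, e]
    field_simp
  · -- second moments
    obtain ⟨C1, hC1⟩ := hXr 2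
    obtain ⟨C2, hC2, N, hN⟩ := hM b b hb0 le_rfl 2
    refine ⟨max C1 C2, ?_⟩
    filter_upwards [hgood, hC1, eventually_ge_atTop N] with n hn h1 hn2
    obtain ⟨hn1, hZn, hV⟩ := hn
    obtain ⟨g1, _, _⟩ := hN n hn2 (f n) (g n) (hR.box n)
    refine ⟨h1.trans (le_max_left _ _), le_trans ?_ (le_max_right _ _)⟩
    show (∑ q ∈ Omm n, wm n (s n) (g n) q * X n q ^ 2) / Zm n (s n) (g n) ≤ _
    rw [div_le_iff₀ hZn]
    exact g1
  · intro φ h1 h2
    refine (hR.eqv φ h1 h2).congr fun n => ?_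
    rw [av_cl n (s n) (g n) (hs0 n)]
    rfl
  · obtain ⟨C, hC, N, hN⟩ := hM b b hb0 le_rfl 1
    refine ⟨C⁻¹, by positivity, ?_⟩
    filter_upwards [hgood, eventually_ge_atTop N] with n hn hn2
    obtain ⟨hn1, hZn, hV⟩ := hn
    obtain ⟨_, g2, _⟩ := hN n hn2 (f n) (g n) (hR.box n)
    show _ ≤ (∑ q ∈ Omm n, wm n (s n) (g n) q * X n q) / Zm n (s n) (g n)
    rw [le_div_iff₀ hZn]
    exact g2

end CLSBEm

theorem t_CLSBE (hL : LOCAE_Stmt) (hM : MOMME_Stmt) (hZ : ZBME_Stmt)
    (_hH : Pool.Agent.TPT.HGM_Stmt) :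
    CLSBE_Stmt :=
  CLSBEm.main hL hM hZ

end Pool.Agent.TPE
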