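import Pool.Agent.TPE.Stmts
import Pool.Agent.TPT.CLSM

/-!
# Project TPE, module CLSME: the classes of polygons
-/

set_option autoImplicit false

namespace Pool.Agent.TPE

open Finset Filter Topology MeasureTheory
open Pool.Agent.Lib27 Pool.Agent.SapR Pool.Agent.AreaLaw Pool.Agent.FL Pool.Agent.TPT
open Pool.Agent.FS (sc)

namespace CLSME

lemma wd_pos {n : ℕ} (hn : 1 ≤ n) (f : ℝ) : 0 < wd n f := by
  have h1 : (0 : ℝ) < n := by exact_mod_cast hn
  unfold wd se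
  exact mul_pos (Real.sqrt_pos.2 (mul_pos (Real.exp_pos _) h1)) (Real.sqrt_pos.2 h1)

lemma wd_le {n : ℕ} {f : ℝ} (hf : 0 ≤ f) : wd n f ≤ n := by
  have h0 : (0 : ℝ) ≤ n := Nat.cast_nonneg n
  have h1 : Real.exp (-f) ≤ 1 := Real.exp_le_one_iff.2 (by linarith)
  have h2 : se n f ≤ Real.sqrt n := by
    unfold se
    exact Real.sqrt_le_sqrt (by nlinarith)
  calc wd n f = se n f * Real.sqrt n := rfl
    _ ≤ Real.sqrt n * Real.sqrt n := mul_le_mul_of_nonneg_right h2 (Real.sqrt_nonneg _)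
    _ = n := Real.mul_self_sqrt h0

end CLSME

open CLSME CLSM in
/-- CLSME -/
theorem t_CLSME (hA : CLSA_Stmt) (hB : CLSBE_Stmt) (hZ : ZBME_Stmt) (hH : HGM_Stmt) :
    CLSME_Stmt := by
  classical
  have _ := hB
  intro b f g h t hreg z hz
  have hb : 0 < b := lt_of_lt_of_le one_pos hreg.one
  obtain ⟨C, θ, hC, hθ, hθ1, N, hZB⟩ := hZ b b hb le_rfl
  obtain ⟨c, hc, hlow⟩ := hreg.low
  -- the main estimate
  have hev : ∀ᶠ n : ℕ in atTop, 1 ≤ n ∧ 0 < (Thr n (z n)).card ∧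
      ∀ (φ : ℝ → ℝ) (B : ℝ), 0 ≤ B → (∀ y : ℝ, |y| ≤ 4 * n → |φ y| ≤ B) →
        |avT n (z n) φ - avQ n (h n) (t n) φ| ≤ B * (C ^ 2 * (n : ℝ) ^ 5 * θ ^ n * c⁻¹) := by
    filter_upwards [hz, hlow, eventually_ge_atTop (max N 1)] with n hzn hln hn
    have hn1 : 1 ≤ n := (le_max_right _ _).trans hn
    have hn0 : (0 : ℝ) < n := by exact_mod_cast hn1
    obtain ⟨rho, hcrit, htails, -, -, hz1, -⟩ := hZB n ((le_max_left _ _).trans hn) (f n) (g n)
      (hreg.box n)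
    have hf0 : 0 ≤ f n := hb.le.trans (hreg.box n).1
    have hZ0 : 0 ≤ Zm n (Real.exp (-(f n))) (g n) := by
      by_contra hneg
      push Not at hneg
      have h2 : sc n * rho ^ n * Zm n (Real.exp (-(f n))) (g n) ≤ 0 :=
        mul_nonpos_of_nonneg_of_nonpos
          (mul_nonneg (sc_pos' hn1).le (pow_nonneg hcrit.1.le _)) hneg.le
      have hCi : 0 < C⁻¹ := inv_pos.2 hC
      linarith
    have hln' : c / n * Zm n (Real.exp (-(f n))) (g n) ≤
        UM n (Real.exp (-(f n))) (g n) (h n) (t n) (fun _ => 1) := by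
      refine le_trans (mul_le_mul_of_nonneg_right ?_ hZ0) hln
      exact div_le_div_of_nonneg_left hc.le (wd_pos hn1 _) (wd_le hf0)
    obtain ⟨hN, hsm⟩ := small hH n hn1 (z n) (h n) (t n) hzn.1 hzn.2 (f n) (g n) rho C θ c hC hθ hc
      hcrit.1 htails hz1 hln'
    refine ⟨hn1, (cmpm hA n hn1 (z n) (h n) (t n) hzn.1 hzn.2 (fun _ => 0) 0 le_rfl
      (fun _ _ => by rw [abs_zero]) hN).1, fun φ B hB hφ => ?_⟩
    refine (cmpm hA n hn1 (z n) (h n) (t n) hzn.1 hzn.2 φ B hB hφ hN).2.trans ?_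
    exact mul_le_mul_of_nonneg_left hsm hB
  refine ⟨hev.mono fun n hn => hn.2.1, fun φ hφ => ?_, fun r => ?_⟩
  · refine squeeze_zero_norm' ?_ (lim_err C c θ hθ hθ1 0)
    filter_upwards [hev] with n hn
    rw [Real.norm_eq_abs, pow_zero]
    exact hn.2.2 φ 1 zero_le_one fun y _ => hφ y
  · refine squeeze_zero_norm' ?_ (lim_err C c θ hθ hθ1 r)
    filter_upwards [hev] with n hn
    rw [Real.norm_eq_abs]
    refine hn.2.2 (fun y => y ^ r) ((4 * (n : ℝ)) ^ r) (by positivity) fun y hy => ?_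
    rw [abs_pow]
    exact pow_le_pow_left₀ (abs_nonneg _) hy r

end Pool.Agent.TPE
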