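import Pool.Agent.TPE.Stmts
import Pool.Agent.TPT.DATB

/-!
# Project TPE, module DATBE (port of `TPT/DATB.lean`)
-/

set_option autoImplicit false

namespace Pool.Agent.TPE

open Finset Filter Topology MeasureTheory
open Pool.Agent.Lib27 Pool.Agent.SapR Pool.Agent.AreaLaw Pool.Agent.TPT
open Pool.Agent.FL (Wd hl htn HG_Stmt)
open Pool.Agent.FS (sc)
open Pool.Agent.Gap (IsCap closeP B0 B0_isSol qn cap1 stair)
open Pool.Agent.KCS (airyMoment)

theorem t_DATBE (hT : TMGE_Stmt) (hK : KWM_Stmt) (hV : TPK.QGV_Stmt) (hg : HG_Stmt) :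
    DATBE_Stmt := by
  intro a b ha hab
  obtain ⟨C, θ, hC, hθ, hθ1, N, hN⟩ := hT a b ha hab
  obtain ⟨K, hV⟩ := hV
  obtain ⟨M, hM⟩ : ∃ M : ℝ, M = max (max C 2) (1 - θ)⁻¹ := ⟨_, rfl⟩
  have hMC : C ≤ M := by
    rw [hM]; exact (le_max_left _ _).trans (le_max_left _ _)
  have hM2 : 2 ≤ M := by
    rw [hM]; exact (le_max_right _ _).trans (le_max_left _ _)
  have hMt : (1 - θ)⁻¹ ≤ M := by
    rw [hM]; exact le_max_right _ _
  have hM0 : 0 < M := by linarith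
  have hMi : M⁻¹ ≤ 1 / 2 := by
    rw [← one_div]
    exact one_div_le_one_div_of_le (by norm_num) hM2
  have hMi0 : 0 < M⁻¹ := inv_pos.2 hM0
  have hθM : θ ≤ 1 - M⁻¹ := by
    have h1 := inv_anti₀ (inv_pos.2 (show 0 < 1 - θ by linarith)) hMt
    rw [inv_inv] at h1
    linarith
  have hM3 : M ≤ M ^ 3 := le_self_pow₀ (by linarith) (by norm_num)
  have hE1 : (1 : ℝ) ≤ (M ^ 3) ^ K := one_le_pow₀ (by linarith)
  have hE2 : 2 ≤ Real.exp ((M ^ 3) ^ K) := by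
    have := Real.add_one_le_exp ((M ^ 3) ^ K)
    linarith
  obtain ⟨D, hD⟩ : ∃ D : ℝ, D = max M (Real.exp ((M ^ 3) ^ K)) := ⟨_, rfl⟩
  have hDM : M ≤ D := by rw [hD]; exact le_max_left _ _
  have hDE : Real.exp ((M ^ 3) ^ K) ≤ D := by rw [hD]; exact le_max_right _ _
  refine ⟨D, hM2.trans hDM, max N 3, le_max_right _ _, fun n hn f g hbox => ?_⟩
  have hf1 : a ≤ f := hbox.1
  have hn3 : 3 ≤ n := (le_max_right _ _).trans hn
  obtain ⟨rho, hcrit, htails, hrho1, hrho2, -⟩ := hN n ((le_max_left _ _).trans hn) f g hbox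
  have hs := Real.exp_pos (-f)
  have hs1 : Real.exp (-f) ≤ 1 := by
    rw [Real.exp_le_one_iff]
    linarith
  obtain ⟨d⟩ := hK n (Real.exp (-f)) g hn3 hs hs1
  have hrho : d.G.rho = rho := DATB.crit_unique hs d.crit hcrit
    (fun p hp => (hg.2.2 _ p hp).1.trans (hg.2.2 _ p hp).2)
  rw [← hrho] at hcrit htails hrho1 hrho2
  have ht : TailsM M (1 - M⁻¹) n f g d.G.rho :=
    DATB.tails_mono hC.le hMC hθ.le hθM htails
  have hcls : TPK.Cls M (1 - M⁻¹) d.G :=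
    ⟨d.loc, (inv_anti₀ hC hMC).trans hrho1, fun m => (d.tot m).le.trans (ht.1 m)⟩
  have hcap : TPK.ClsCap M (1 - M⁻¹) d.G (2 * n) (capM n (Real.exp (-f)) g) := by
    refine ⟨d.cap, le_trans (by linarith) d.cap1, d.capz, fun m => ?_⟩
    refine le_trans (Finset.sum_le_sum fun x hx => ?_) (ht.2.1 m)
    rw [Finset.mem_Icc] at hx
    have h0 : 0 ≤ ∑ a ∈ MCap x (2 * m), d.G.rho ^ m * Real.exp (-f) ^ (m - mlev a) *
        Real.exp (g * mlat x a) := Finset.sum_nonneg fun a _ => by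
      have := d.G.rho_pos
      positivity
    unfold capM
    split_ifs with h
    · rw [Finset.mul_sum]
      refine le_of_eq (Finset.sum_congr rfl fun a _ => ?_)
      ring
    · rw [mul_zero]
      exact h0
  obtain ⟨V, hVs⟩ := hV (M ^ 3) (hM2.trans hM3) d.G (TPK.cls_mono hM2 hM3 hcls) _ _
    (DATB.crit_sr hM2 hcls hcap)
  refine ⟨d, TPK.cls_mono hM2 hDM hcls, TPK.clsCap_mono hM2 hDM hcap,
    ⟨V, TPK.critSol_mono hE2 hDE hVs⟩, DATB.tails_mono hM0.le hDM (by linarith) ?_ ht, hrho2⟩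
  have h1 : D⁻¹ ≤ M⁻¹ := inv_anti₀ hM0 hDM
  linarith

end Pool.Agent.TPE
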