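import Pool.Agent.TPT.StmtsB
import Pool.Agent.NSP.Stmts

/-!
# Project TPE (MP_f6626d_co): self-avoiding polygons through two points near the boundary of the ball

Definitions. Those of `TPT/Defs.lean`, `TPT/StmtsA.lean`, `TPT/StmtsB.lean` (`Omm`, `zl`, `zt`, `am`, `dm`, `wm`, `Zm`,
`UM`, `rm`, `lapM`, `wp`, `CritM`, `TailsM`, `Thr`, `Sk2`, `capKM`, `par`, `CenM`, `avT`, `avQ`, `KData`, `KOk`, `cdfM`,
`momM`) are used as they are, and `lc`, `ld`, `tz` of `NSP/Defs.lean`. Here `s = exp (-f)` may tend to `0`.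
-/

set_option autoImplicit false

namespace Pool.Agent.TPE

open Finset Filter Topology MeasureTheory
open Pool.Agent.Lib27 Pool.Agent.SapR Pool.Agent.AreaLaw Pool.Agent.FL Pool.Agent.TPT
open Pool.Agent.FS (sc rs bp)
open Pool.Agent.NSP (lc ld tz)
open Pool.Agent.KCS (airyMoment)
open Pool.Agent.KCC (areaMoment)

/-- the non compact set of forces: `f` may be arbitrarily large -/
def BoxE (a b f g : ℝ) : Prop := a ≤ f ∧ |g| ≤ b

/-- the lower right strand makes a step East, the upper left one a step North: jump `1` -/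
def jp : Wd × Wd := ([0], [3])

/-- the lower right strand makes a step North, the upper left one a step East: jump `-1` -/
def jm : Wd × Wd := ([1], [2])

/-- `√(s n)`: the scale of the number of backward steps -/
noncomputable def se (n : ℕ) (f : ℝ) : ℝ := Real.sqrt (Real.exp (-f) * n)

/-- `√(s n) √n`: the number of typical differences of the marks -/
noncomputable def wd (n : ℕ) (f : ℝ) : ℝ := se n f * Real.sqrt n

/-- The family `σ` of skeletons describes the canonical words. A span token is the word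
`jp jp jm jm` of four staircase pieces (first kind) or the piece `tz` (second kind), at a gap `x`, and
`y = 2 x + 8`; a lateral token is `lc` (first kind) or `ld` (second kind). Replacing `j` span
tokens with total `t` and `b` lateral tokens by those of the second kind changes
(level, lateral, area) to `(H - j, Λ + j - 2 b, A - t)`. -/
structure IsSkE (n N : ℕ) (σ : Fin N → Sk2) : Prop where
  repr : ∀ F : ℤ → ℤ → ℤ → ℝ, ∑ q ∈ Omm n, F (zl q) (zt q) (am n q) =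
    ∑ i, rs (σ i).l (fun j t => ∑ b ∈ range ((σ i).k + 1), ((σ i).k.choose b : ℝ) *
      F ((σ i).H - j) ((σ i).Λ + j - 2 * b) ((σ i).A - t))
  len_le : ∀ i, (σ i).l.length + (σ i).k ≤ (σ i).H
  H_le : ∀ i, (σ i).H ≤ n
  y_le : ∀ i, ∀ y ∈ (σ i).l, y ≤ 2 * n + 2
  sum_le : ∀ i, 8 * (σ i).l.sum ≤ 5 * (σ i).A
  A_le : ∀ i, (σ i).A ≤ 2 * n ^ 2
  lam_le : ∀ i, |(σ i).Λ| ≤ 2 * n
  count : ∀ s g τ τ' ρ : ℝ, 0 < s → 0 ≤ τ → 0 ≤ τ' → 0 < ρ → ρ ≤ 1 / 2 →
    ∑ p ∈ Pc (2 * n - 1), wp s g ρ p ≤ 1 + (1 - τ) * (ρ ^ 4 + wp s g ρ tz) +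
      (1 - τ') * (wp s g ρ lc + wp s g ρ ld) →
    ρ ^ n * ∑ i, s ^ (n - (σ i).H) * Real.exp (g * (σ i).Λ) *
      ((1 + s * Real.exp g) * τ) ^ (σ i).l.length *
      ((1 + Real.exp (-(2 * g))) * τ') ^ (σ i).k ≤ 8 * (capKM n s g ρ) ^ 2

/-- potentials of the four states of the automaton of the word `jp jp jm jm` -/
noncomputable def vj (ρ : ℝ) : ℕ → ℝ
  | 0 => 1
  | 1 => 1 - ρ ^ 3
  | 2 => 1 - ρ ^ 3 - ρ ^ 2
  | _ => 1 - ρ

/-- sum over the marked arches of gap `x` with `2 m` steps of a function of (level of the mark,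
lateral position of the mark, area functional) -/
noncomputable def AE (n : ℕ) (x : ℤ) (m : ℕ) (F : ℤ → ℤ → ℤ → ℝ) : ℝ :=
  ∑ a ∈ MArch x (2 * m), F (mlev a) (mlat x a) (ArM (2 * n - 1) x a)

/-- shift of a function of (level, lateral, area) -/
def sh (h l A : ℤ) (F : ℤ → ℤ → ℤ → ℝ) : ℤ → ℤ → ℤ → ℝ := fun h' l' A' => F (h + h') (l + l') (A + A')

/-- state `j` of the automaton: the words at gap `x` which, put after the first `j` letters of
`jp jp jm jm`, do not complete an occurrence of this word which begins in these letters -/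
noncomputable def StE (n : ℕ) (x : ℤ) (m : ℕ) (j : ℕ) (F : ℤ → ℤ → ℤ → ℝ) : ℝ :=
  match j with
  | 0 => AE n x m F
  | 1 => AE n x m F - AE n (x - 1) (m - 3) (sh 3 0 (6 * x + 1) F)
  | 2 => AE n x m F - AE n (x - 1) (m - 3) (sh 3 0 (6 * x + 1) F) -
      AE n (x - 2) (m - 2) (sh 2 0 (4 * x - 4) F)
  | _ => AE n x m F - AE n (x - 1) (m - 1) (sh 1 0 (2 * x - 1) F)

/-- the state after a further `jp` -/
def nxE (j : ℕ) : ℕ := if j = 1 ∨ j = 2 then 2 else 1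

/-- least gap in the state `j` -/
def gpE (j : ℕ) : ℤ := if j = 0 then 1 else if j = 2 then 3 else 2

/-- the pieces other than `jp`, `jm`, `tz` which can be the first piece of a marked arch of gap `x`
with `2 m` steps -/
noncomputable def othE (n : ℕ) (x : ℤ) (m : ℕ) : Finset (Wd × Wd) :=
  (allowed (2 * n - 1) x).filter (fun p => p ≠ jp ∧ p ≠ jm ∧ p ≠ tz ∧ hl p ≤ m)

/-- the multiset `M` describes the state `j` at gap `x` with half length `m` -/
structure ASkE (n : ℕ) (x : ℤ) (m j : ℕ) (M : Multiset Sk2) : Prop where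
  repr : ∀ F : ℤ → ℤ → ℤ → ℝ, StE n x m j F =
    (M.map (fun σ => rs σ.l (fun j t => ∑ b ∈ range (σ.k + 1), (σ.k.choose b : ℝ) *
      F (σ.H - j) (σ.Λ + j - 2 * b) (σ.A - t)))).sum
  len_le : ∀ σ ∈ M, σ.l.length + σ.k ≤ σ.H
  H_le : ∀ σ ∈ M, σ.H ≤ m
  y_le : ∀ σ ∈ M, ∀ y ∈ σ.l, y ≤ 2 * m + 2
  sum_le : ∀ σ ∈ M, 8 * σ.l.sum ≤ 5 * σ.A
  A_le : ∀ σ ∈ M, σ.A ≤ 2 * m ^ 2
  lam_le : ∀ σ ∈ M, |σ.Λ| ≤ 2 * m
  count : ∀ s g τ τ' ρ : ℝ, 0 < s → 0 ≤ τ → 0 ≤ τ' → 0 < ρ → ρ ≤ 1 / 2 →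
    ∑ p ∈ Pc (2 * n - 1), wp s g ρ p ≤ 1 + (1 - τ) * (ρ ^ 4 + wp s g ρ tz) +
      (1 - τ') * (wp s g ρ lc + wp s g ρ ld) →
    ρ ^ m * (M.map (fun σ => s ^ (m - σ.H) * Real.exp (g * σ.Λ) *
      ((1 + s * Real.exp g) * τ) ^ σ.l.length *
      ((1 + Real.exp (-(2 * g))) * τ') ^ σ.k)).sum ≤ 8 * vj ρ j * capKM m s g ρ

/-- weight of a skeleton (sum of the weights of its words) -/
noncomputable def vsE (n : ℕ) (s g : ℝ) (a : Sk2) : ℝ :=
  s ^ (n - a.H) * Real.exp (g * a.Λ) * (1 + s * Real.exp g) ^ a.l.length *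
    (1 + Real.exp (-(2 * g))) ^ a.k

/-- a sequence of forces and a sequence of differences of the marks which is typical for it, on
which the rescaled area functional is asymptotically as without the condition -/
structure RegE (b : ℝ) (f g : ℕ → ℝ) (h : ℕ → ℕ) (t : ℕ → ℤ) : Prop where
  one : 1 ≤ b
  box : ∀ n, BoxE b b (f n) (g n)
  fin : Tendsto f atTop atTop
  sn : ∀ᶠ n : ℕ in atTop, 1 ≤ Real.exp (-(f n)) * n
  low : ∃ c : ℝ, 0 < c ∧ ∀ᶠ n : ℕ in atTop, c / wd n (f n) * Zm n (Real.exp (-(f n))) (g n) ≤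
    UM n (Real.exp (-(f n))) (g n) (h n) (t n) (fun _ => 1)
  eqv : ∀ φ : ℝ → ℝ, (∀ y, |φ y| ≤ 1) → LipschitzWith 1 φ →
    Tendsto (fun n : ℕ => UM n (Real.exp (-(f n))) (g n) (h n) (t n) φ /
        UM n (Real.exp (-(f n))) (g n) (h n) (t n) (fun _ => 1) -
      (∑ q ∈ Omm n, wm n (Real.exp (-(f n))) (g n) q * φ (rm n q)) /
        Zm n (Real.exp (-(f n))) (g n)) atTop (𝓝 0)

/-- the condition on the second point: `e n ≤ |z|_1 ≤ n` and `|z|_∞ ≤ (1 - e) n` -/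
def okE (e : ℝ) (n : ℕ) (z : ℤ × ℤ) : Prop :=
  e * n ≤ ((|z.1| + |z.2| : ℤ) : ℝ) ∧ |z.1| + |z.2| ≤ n ∧
    ((max |z.1| |z.2| : ℤ) : ℝ) ≤ (1 - e) * n

end Pool.Agent.TPE
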