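import Pool.Agent.TPE.Stmts
import Pool.Agent.NSP.TAZ

/-!
# Project TPE: marked caps have many backward steps (module ECAP)
-/

set_option autoImplicit false

namespace Pool.Agent.TPE

open Finset
open Pool.Agent.Lib27 Pool.Agent.SapR Pool.Agent.TPT

/-- Module ECAP. -/
theorem t_ECAP : ECAP_Stmt := by
  classical
  intro x m a hx ha
  obtain ⟨w, j⟩ := a
  unfold MCap MArch at ha
  rw [mem_filter, mem_filter, mem_product] at ha
  obtain ⟨⟨⟨hw, _⟩, hA, _⟩, hcut⟩ := ha
  simp only at hw hA hcut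
  obtain ⟨H, hH⟩ : ∃ H : ℕ, H = mlev (w, j) := ⟨_, rfl⟩
  rw [← hH] at hcut ⊢
  rcases Nat.eq_zero_or_pos H with h0 | hpos
  · omega
  have hlev : lev (ep 0 (w.take j)) = H := by
    unfold mlev at hH
    simp only at hH
    omega
  have hlen : w.length = 2 * m := (Pool.Agent.Lib27.mem_words _ _).1 hw
  have hend : lev (ep 0 w) = 0 := by
    rw [hA.2.1]
    simp [lev]
  have hep : ep (ep 0 (w.take j)) (w.drop j) = ep 0 w := by
    rw [← ep_append, List.take_append_drop]
  have hvt : vt 0 w = vs 0 (w.take j) ++ vt (ep 0 (w.take j)) (w.drop j) := by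
    rw [← vt_append, List.take_append_drop]
  have hU : ∀ k : ℤ, 0 ≤ k → k < H → 0 < cnt (vs 0 (w.take j)) k := by
    intro k hk1 hk2
    have h1 := (cnt_pos _ _).2 (exists_level (w.take j) 0 k (by rw [lev_zero]; exact hk1)
      (by omega))
    have h2 : vt 0 (w.take j) = vs 0 (w.take j) ++ [ep 0 (w.take j)] := rfl
    rw [h2, cnt_append, cnt_cons, if_neg (by omega)] at h1
    simpa [cnt] using h1
  have hD : ∀ k : ℤ, 0 ≤ k → k ≤ H → 0 < cnt (vt (ep 0 (w.take j)) (w.drop j)) k := by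
    intro k hk1 hk2
    exact (cnt_pos _ _).2 (exists_level' _ _ _ (by omega) (by rw [hep, hend]; exact hk1))
  obtain ⟨H', rfl⟩ : ∃ H', H = H' + 1 := ⟨H - 1, by omega⟩
  push_cast at hcut hU hD
  have h3 : ∀ k ∈ range H', 3 ≤ cnt (vt 0 w) (1 + (k : ℤ)) := by
    intro k hk
    rw [mem_range] at hk
    have h4 : 2 ≤ cnt (vt 0 w) (1 + (k : ℤ)) := by
      rw [hvt, cnt_append]
      have := hU (1 + k) (by omega) (by omega)
      have := hD (1 + k) (by omega) (by omega)
      omega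
    have h5 : 0 < cnt (vt 0 w) (1 + (k : ℤ) - 1) := by
      rw [hvt, cnt_append]
      have := hU (1 + k - 1) (by omega) (by omega)
      omega
    have h6 : 0 < cnt (vt 0 w) (1 + (k : ℤ) + 1) := by
      rw [hvt, cnt_append]
      have := hD (1 + k + 1) (by omega) (by omega)
      omega
    have h7 := hcut (1 + k) (by omega) (by omega)
    by_contra hlt
    exact h7 ⟨by omega, h5, h6⟩
  have h8 := Pool.Agent.NSP.TAZ.sum_cnt 1 (H' + 1) (vt 0 w)
  rw [sum_range_succ] at h8
  have h9 : 0 < cnt (vt 0 w) (1 + (H' : ℤ)) := by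
    rw [hvt, cnt_append]
    have := hD (1 + H') (by omega) (by omega)
    omega
  have h10 := Pool.Agent.NSP.TAZ.cntI_strand hA.1 1 (1 + ((H' + 1 : ℕ) : ℤ) - 1) (by omega)
    (by rw [hend]; omega)
  have h11 : ∑ k ∈ range H', 3 ≤ ∑ k ∈ range H', cnt (vt 0 w) (1 + (k : ℤ)) := sum_le_sum h3
  rw [sum_const, card_range, smul_eq_mul] at h11
  omega

end Pool.Agent.TPE
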