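import Pool.Agent.TPE.Stmts
import Pool.Agent.Lib_helper27.Transl
import Pool.Agent.Lib_helper58.SapR.Root

/-!
# Project TPE (MP_f6626d_co): module ENOB, pairs with `NoB` have many backward steps
-/

set_option autoImplicit false

namespace Pool.Agent.TPE

open Finset
open Pool.Agent.Lib27 Pool.Agent.SapR Pool.Agent.AreaLaw Pool.Agent.FL Pool.Agent.TPT

namespace ENOB

lemma ivt (f : ℕ → ℤ) (h : ℤ) (a b : ℕ) (hab : a ≤ b)
    (hs : ∀ i, a ≤ i → i < b → |f (i + 1) - f i| ≤ 1) (h1 : f a ≤ h) (h2 : h ≤ f b) :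
    ∃ k, a ≤ k ∧ k ≤ b ∧ f k = h := by
  induction b, hab using Nat.le_induction with
  | base => exact ⟨a, le_rfl, le_rfl, by omega⟩
  | succ b hab ih =>
    rcases le_or_gt h (f b) with h3 | h3
    · obtain ⟨k, k1, k2, k3⟩ := ih (fun i hi hi' => hs i hi (by omega)) h3
      exact ⟨k, k1, by omega, k3⟩
    · have h4 := abs_le.1 (hs b hab (by omega))
      exact ⟨b + 1, by omega, le_rfl, by omega⟩

lemma seq_bound (f : ℕ → ℤ) (N j : ℕ) (h0 : f 0 = 0) (hN : f N = 0) (hj : j < N)
    (hs : ∀ i < N, |f (i + 1) - f i| ≤ 1)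
    (hc : ∀ h : ℤ, 0 < h → h < f j → ((range N).filter (fun i => f i = h)).card ≠ 2) :
    3 * f j ≤ N + 1 := by
  rcases le_or_gt (f j) 0 with hz | hz
  · omega
  have hj0 : j ≠ 0 := by
    rintro rfl
    omega
  have hthree : ∀ h ∈ Ioo (0 : ℤ) (f j), 3 ≤ ((range N).filter (fun i => f i = h)).card := by
    intro h hh
    rw [mem_Ioo] at hh
    obtain ⟨i₁, -, a1, a2⟩ := ivt f h 0 j (Nat.zero_le _) (fun i _ hi => hs i (by omega))
      (by omega) (by omega)
    obtain ⟨i₂, b0, b1, b2⟩ := ivt (fun i => - f i) (-h) j N hj.le (fun i _ hi => by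
      have := hs i hi
      rw [show -f (i + 1) - -f i = -(f (i + 1) - f i) by ring, abs_neg]
      exact this) (by omega) (by omega)
    have b3 : f i₂ = h := by simpa using b2
    have c1 : i₁ ≠ j := by rintro rfl; omega
    have c2 : i₂ ≠ j := by rintro rfl; omega
    have c3 : i₂ ≠ N := by rintro rfl; omega
    have hsub : ({i₁, i₂} : Finset ℕ) ⊆ (range N).filter (fun i => f i = h) := by
      intro x hx
      simp only [mem_insert, mem_singleton] at hx
      rw [mem_filter, mem_range]
      rcases hx with rfl | rfl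
      · exact ⟨by omega, a2⟩
      · exact ⟨by omega, b3⟩
    have hcard : ({i₁, i₂} : Finset ℕ).card = 2 := card_pair (by omega)
    have hle := card_le_card hsub
    have hne := hc h hh.1 hh.2
    omega
  have hsum : ∑ h ∈ Ioo (0 : ℤ) (f j), ((range N).filter (fun i => f i = h)).card ≤ N - 2 := by
    rw [← card_biUnion (fun a _ b _ hab => by
      rw [Function.onFun, disjoint_left]
      intro x hx hx'
      rw [mem_filter] at hx hx'
      exact hab (hx.2.symm.trans hx'.2))]
    have hsub : (Ioo (0 : ℤ) (f j)).biUnion (fun h => (range N).filter (fun i => f i = h)) ⊆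
        ((range N).erase 0).erase j := by
      intro x hx
      rw [mem_biUnion] at hx
      obtain ⟨h, hh, hx⟩ := hx
      rw [mem_filter] at hx
      rw [mem_Ioo] at hh
      rw [mem_erase, mem_erase]
      refine ⟨?_, ?_, hx.1⟩
      · rintro rfl
        omega
      · rintro rfl
        omega
    refine (card_le_card hsub).trans ?_
    rw [card_erase_of_mem (mem_erase.2 ⟨hj0, mem_range.2 hj⟩),
      card_erase_of_mem (mem_range.2 (by omega)), card_range]
    omega
  have h3 := (card_nsmul_le_sum _ _ 3 hthree).trans hsum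
  rw [Int.card_Ioo, smul_eq_mul] at h3
  omega

end ENOB

open ENOB in
theorem t_ENOB : ENOB_Stmt := by
  intro n w j hw hj hB
  have hclosed : pos n w (2 * n) = 0 := by
    unfold SAP at hw
    exact (mem_filter.1 hw).2.1
  have h := seq_bound (fun i => slev n w i) (2 * n) j ?_ ?_ hj ?_ (fun h h0 h1 => hB h h0 h1)
  · simpa using h
  · show slev n w 0 = 0
    unfold slev
    rw [pos_eq n w 0 (Nat.zero_le _)]
    simp
  · show slev n w (2 * n) = 0
    unfold slev
    rw [hclosed, lev_zero]
  · intro i hi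
    show |slev n w (i + 1) - slev n w i| ≤ 1
    unfold slev
    rw [pos_eq n w (i + 1) hi, pos_eq n w i hi.le]
    have h1 := Pool.Agent.SapR.H58.L_succ (List.ofFn w) i (by rw [List.length_ofFn]; exact hi)
    unfold Pool.Agent.SapR.H58.L at h1
    rw [h1, Pool.Agent.SapR.H58.lev_dv]
    split_ifs <;> simp

end Pool.Agent.TPE
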