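import Pool.Agent.TPE.Stmts
import Pool.Agent.TPT.EQM

/-!
# Project TPE: equivalence of the ensembles, `s n → ∞` (module EQE1)
-/

set_option autoImplicit false

namespace Pool.Agent.TPE.EQE1

open Finset Filter Topology MeasureTheory
open Pool.Agent.Lib27 Pool.Agent.SapR Pool.Agent.AreaLaw Pool.Agent.FL Pool.Agent.TPT
open Pool.Agent.FS (sc)
open Pool.Agent.FS.EQ (chi chi_nonneg chi_le_one chi_abs chi_continuous chi_supp chi_half
  sq_le_exp compare)
open Pool.Agent.TPT.EQM (wm_nonneg Zm_nonneg KS sum_group)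

/-- the product of the hat functions -/
noncomputable def ch (d r : ℝ) (n h : ℕ) (t : ℤ) (p : ℕ × ℤ) : ℝ :=
  chi d (((p.1 : ℝ) - h) / r) * chi d (((p.2 : ℝ) - t) / Real.sqrt n)

lemma ch_nonneg (d r : ℝ) (n h : ℕ) (t : ℤ) (p : ℕ × ℤ) : 0 ≤ ch d r n h t p :=
  mul_nonneg (chi_nonneg _ _) (chi_nonneg _ _)

/-- lower bound for the sum of the hat functions -/
lemma sum_ch (d r : ℝ) (hd : 0 < d) (hd1 : d ≤ 1) (n h : ℕ) (t : ℤ) (hn : 1 ≤ n)
    (hr : 0 < r) (hr1 : r ≤ Real.sqrt n) (he : Even ((h : ℤ) + t)) :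
    d ^ 2 / 32 * (r * Real.sqrt n) / 4 ≤ ∑ p ∈ KS n h t, ch d r n h t p := by
  have hn1 : (1 : ℝ) ≤ n := by exact_mod_cast hn
  have hs : 0 < Real.sqrt n := Real.sqrt_pos.2 (by linarith)
  have hsn : Real.sqrt n ≤ n := by
    rw [Real.sqrt_le_left (by linarith)]
    nlinarith
  obtain ⟨m, hm⟩ : ∃ m : ℕ, m = ⌊d * r / 4⌋₊ := ⟨_, rfl⟩
  obtain ⟨k, hk⟩ : ∃ k : ℕ, k = ⌊d * Real.sqrt n / 8⌋₊ := ⟨_, rfl⟩
  have hpos : 0 ≤ d * r / 4 := by positivity
  have hpos' : 0 ≤ d * Real.sqrt n / 8 := by positivity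
  have hm1 : (m : ℝ) ≤ d * r / 4 := by rw [hm]; exact Nat.floor_le hpos
  have hm2 : d * r / 4 < (m : ℝ) + 1 := by rw [hm]; exact Nat.lt_floor_add_one _
  have hk1 : (k : ℝ) ≤ d * Real.sqrt n / 8 := by rw [hk]; exact Nat.floor_le hpos'
  have hk2 : d * Real.sqrt n / 8 < (k : ℝ) + 1 := by rw [hk]; exact Nat.lt_floor_add_one _
  have hdr : d * r ≤ d * Real.sqrt n := mul_le_mul_of_nonneg_left hr1 hd.le
  have hdn : d * Real.sqrt n ≤ n := by nlinarith
  have hmn : 4 * m ≤ n := by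
    have : (4 : ℝ) * m ≤ n := by linarith
    exact_mod_cast this
  have hkn : 8 * k ≤ n := by
    have : (8 : ℝ) * k ≤ n := by linarith
    exact_mod_cast this
  let F : ℕ × ℕ → ℕ × ℤ := fun ij => (h + ij.1, t + ij.1 + 2 * ij.2)
  have hinj : Set.InjOn F (((range (m + 1)) ×ˢ (range (k + 1)) : Finset (ℕ × ℕ)) : Set (ℕ × ℕ)) := by
    rintro ⟨a, b⟩ _ ⟨c, e⟩ _ hab
    have h1 := (Prod.ext_iff.1 hab).1
    have h2 := (Prod.ext_iff.1 hab).2
    simp only [F] at h1 h2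
    refine Prod.ext ?_ ?_
    · simp only; omega
    · simp only; omega
  have hsub : ((range (m + 1)) ×ˢ (range (k + 1))).image F ⊆ KS n h t := by
    intro x hx
    rw [mem_image] at hx
    obtain ⟨⟨i, j⟩, hj, rfl⟩ := hx
    rw [mem_product, mem_range, mem_range] at hj
    unfold KS
    simp only at hj
    have h4 := abs_nonneg t
    have h5 := le_abs_self t
    have h6 := neg_abs_le t
    rw [mem_filter, mem_product, mem_range, mem_Icc]
    simp only [F]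
    refine ⟨⟨by omega, by omega, by omega⟩, ?_⟩
    obtain ⟨r, hr⟩ := he
    refine ⟨r + i + j, ?_⟩
    push_cast
    linarith
  have hval : ∀ ij ∈ (range (m + 1)) ×ˢ (range (k + 1)), (1 / 4 : ℝ) ≤ ch d r n h t (F ij) := by
    rintro ⟨i, j⟩ hij
    rw [mem_product, mem_range, mem_range] at hij
    simp only at hij
    have hi : (i : ℝ) ≤ m := by exact_mod_cast Nat.lt_succ_iff.1 hij.1
    have hj : (j : ℝ) ≤ k := by exact_mod_cast Nat.lt_succ_iff.1 hij.2
    have hi0 : (0 : ℝ) ≤ i := Nat.cast_nonneg _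
    have hj0 : (0 : ℝ) ≤ j := Nat.cast_nonneg _
    have h1 : 1 / 2 ≤ chi d ((((h + i : ℕ) : ℝ) - h) / r) := by
      refine chi_half d _ hd ?_
      push_cast
      rw [abs_div, abs_of_pos hr, div_le_iff₀ hr, abs_le]
      constructor
      · nlinarith
      · nlinarith
    have h2 : 1 / 2 ≤ chi d ((((t + i + 2 * j : ℤ) : ℝ) - t) / Real.sqrt n) := by
      refine chi_half d _ hd ?_
      push_cast
      rw [abs_div, abs_of_pos hs, div_le_iff₀ hs, abs_le]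
      constructor
      · nlinarith
      · nlinarith
    simp only [ch, F]
    nlinarith
  calc d ^ 2 / 32 * (r * Real.sqrt n) / 4 ≤
      ∑ ij ∈ (range (m + 1)) ×ˢ (range (k + 1)), (1 / 4 : ℝ) := by
        rw [Finset.sum_const, card_product, card_range, card_range, nsmul_eq_mul]
        push_cast
        have h4 : (d * r / 4) * (d * Real.sqrt n / 8) ≤ ((m : ℝ) + 1) * (k + 1) :=
          mul_le_mul hm2.le hk2.le hpos' (by positivity)
        have h5 : (d * r / 4) * (d * Real.sqrt n / 8) = d ^ 2 / 32 * (r * Real.sqrt n) := by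
          ring
        linarith
    _ ≤ ∑ ij ∈ (range (m + 1)) ×ˢ (range (k + 1)), ch d r n h t (F ij) := Finset.sum_le_sum hval
    _ = ∑ p ∈ ((range (m + 1)) ×ˢ (range (k + 1))).image F, ch d r n h t p := by
        rw [Finset.sum_image hinj]
    _ ≤ _ := Finset.sum_le_sum_of_subset_of_nonneg hsub fun _ _ _ => ch_nonneg _ _ _ _ _ _

/-- localisation to the difference `(h, t)` -/
lemma localise (hH : HGM_Stmt) (C Z d r e : ℝ) (hZ : 0 ≤ Z) (hd : 0 < d) (hr : 0 < r)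
    (n h : ℕ) (t : ℤ) (hn : 1 ≤ n) (s g : ℝ) (φ : ℝ → ℝ)
    (hφ : ∀ (h' : ℕ) (t' : ℤ), Even ((h' : ℤ) + t') → |UM n s g h' t' φ - UM n s g h t φ| ≤
      C / (r * Real.sqrt n) * (e + |(h' : ℝ) - h| / r + |(t' : ℝ) - t| / Real.sqrt n) * Z)
    (hC : 0 ≤ C) :
    |∑ q ∈ Omm n, wm n s g q * (ch d r n h t (zl q, zt q) * φ (rm n q)) -
      (∑ p ∈ KS n h t, ch d r n h t p) * UM n s g h t φ| ≤
    (∑ p ∈ KS n h t, ch d r n h t p) *
      (C / (r * Real.sqrt n) * (e + 2 * d) * Z) := by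
  have hn0 : (0 : ℝ) < n := by exact_mod_cast hn
  have hs : 0 < Real.sqrt n := Real.sqrt_pos.2 hn0
  rw [sum_group hH n h t s g (ch d r n h t) φ, sum_mul, sum_mul, ← sum_sub_distrib]
  refine (Finset.abs_sum_le_sum_abs _ _).trans (Finset.sum_le_sum fun p hp => ?_)
  rw [← mul_sub, abs_mul, abs_of_nonneg (ch_nonneg _ _ _ _ _ _)]
  by_cases hk : ch d r n h t p = 0
  · rw [hk, zero_mul, zero_mul]
  refine mul_le_mul_of_nonneg_left ?_ (ch_nonneg _ _ _ _ _ _)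
  have hev : Even ((p.1 : ℤ) + p.2) := (mem_filter.1 hp).2
  refine (hφ p.1 p.2 hev).trans ?_
  have hk1 : chi d (((p.1 : ℝ) - h) / r) ≠ 0 := fun h0 => hk (by
    unfold ch; rw [h0, zero_mul])
  have hk2 : chi d (((p.2 : ℝ) - t) / Real.sqrt n) ≠ 0 := fun h0 => hk (by
    unfold ch; rw [h0, mul_zero])
  have h1 := chi_supp d _ hd hk1
  rw [abs_div, abs_of_pos hr] at h1
  have h1' := chi_supp d _ hd hk2
  rw [abs_div, abs_of_pos hs] at h1'
  refine mul_le_mul_of_nonneg_right ?_ hZ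
  refine mul_le_mul_of_nonneg_left ?_ (by positivity)
  linarith

lemma se_pos {n : ℕ} {f : ℝ} (hn : 1 ≤ n) : 0 < se n f := by
  unfold se
  have hn0 : (0 : ℝ) < n := by exact_mod_cast hn
  exact Real.sqrt_pos.2 (mul_pos (Real.exp_pos _) hn0)

lemma se_sq (n : ℕ) (f : ℝ) : se n f ^ 2 = Real.exp (-f) * n := by
  unfold se
  exact Real.sq_sqrt (by positivity)

lemma se_le (n : ℕ) {f : ℝ} (hf : 0 ≤ f) : se n f ≤ Real.sqrt n := by
  unfold se
  refine Real.sqrt_le_sqrt ?_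
  have h1 : Real.exp (-f) ≤ 1 := Real.exp_le_one_iff.2 (by linarith)
  have h2 : (0 : ℝ) ≤ n := Nat.cast_nonneg n
  nlinarith

section Main

variable {b : ℝ} {f g : ℕ → ℝ} {h : ℕ → ℕ} {t : ℕ → ℤ}

/-- exponential moments -/
lemma expm (hE : EXPE1_Stmt) (h1 : 1 ≤ b) (hf : ∀ n, BoxE b b (f n) (g n))
    (hsn : Tendsto (fun n : ℕ => Real.exp (-(f n)) * n) atTop atTop)
    (hC : ∀ᶠ n in atTop, CenM n (f n) (g n) (h n) (t n)) (u v : ℝ) : ∃ C : ℝ, 0 < C ∧
    ∀ᶠ n in atTop, ∑ q ∈ Omm n, wm n (Real.exp (-(f n))) (g n) q *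
      Real.exp (u * (((zl q : ℝ) - h n) / se n (f n)) +
        v * (((zt q : ℝ) - t n) / Real.sqrt n)) ≤ C * Zm n (Real.exp (-(f n))) (g n) := by
  obtain ⟨C, v0, hC0, _, N, hN⟩ := hE b b u v (by linarith) le_rfl
  refine ⟨C, hC0, ?_⟩
  filter_upwards [hC, eventually_ge_atTop N, hsn.eventually_ge_atTop v0] with n h1 h2 h3
  exact hN n h2 (f n) (g n) (h n) (t n) (hf n) h3 h1

/-- second moment of the level -/
lemma secondl (hE : EXPE1_Stmt) (h1 : 1 ≤ b) (hf : ∀ n, BoxE b b (f n) (g n))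
    (hsn : Tendsto (fun n : ℕ => Real.exp (-(f n)) * n) atTop atTop)
    (hC : ∀ᶠ n in atTop, CenM n (f n) (g n) (h n) (t n)) : ∃ K : ℝ, 0 < K ∧ ∀ᶠ n : ℕ in atTop,
      ∑ q ∈ Omm n, wm n (Real.exp (-(f n))) (g n) q * ((zl q : ℝ) - h n) ^ 2 ≤
        K * (Real.exp (-(f n)) * n) * Zm n (Real.exp (-(f n))) (g n) := by
  obtain ⟨C1, hC1, h1'⟩ := expm hE h1 hf hsn hC 1 0
  obtain ⟨C2, hC2, h2'⟩ := expm hE h1 hf hsn hC (-1) 0
  refine ⟨2 * (C1 + C2), by positivity, ?_⟩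
  filter_upwards [h1', h2', eventually_ge_atTop 1] with n h1 h2 h5
  have hn : (0 : ℝ) < Real.exp (-(f n)) * n := by
    have : (0 : ℝ) < n := by exact_mod_cast h5
    positivity
  simp only [zero_mul, add_zero] at h1 h2
  have h6 : ∀ q ∈ Omm n, wm n (Real.exp (-(f n))) (g n) q * ((zl q : ℝ) - h n) ^ 2 ≤
      Real.exp (-(f n)) * n * (2 * (wm n (Real.exp (-(f n))) (g n) q *
        Real.exp (1 * (((zl q : ℝ) - h n) / se n (f n))) +
      wm n (Real.exp (-(f n))) (g n) q *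
        Real.exp (-1 * (((zl q : ℝ) - h n) / se n (f n))))) := by
    intro q _
    have h7 := sq_le_exp (((zl q : ℝ) - h n) / se n (f n))
    have h8 := wm_nonneg n (Real.exp (-(f n))) (g n) (Real.exp_pos _).le q
    rw [div_pow, se_sq, div_le_iff₀ hn] at h7
    have h9 := mul_le_mul_of_nonneg_left h7 h8
    refine h9.trans (le_of_eq ?_)
    ring
  refine (Finset.sum_le_sum h6).trans ?_
  rw [← mul_sum, ← mul_sum, sum_add_distrib]
  have h10 : ∀ x1 x2 Z : ℝ, x1 ≤ C1 * Z → x2 ≤ C2 * Z →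
      Real.exp (-(f n)) * n * (2 * (x1 + x2)) ≤
        2 * (C1 + C2) * (Real.exp (-(f n)) * n) * Z := by
    intro x1 x2 Z e1 e2
    have : Real.exp (-(f n)) * n * (2 * (x1 + x2)) ≤
        Real.exp (-(f n)) * n * (2 * (C1 * Z + C2 * Z)) := by
      refine mul_le_mul_of_nonneg_left ?_ hn.le
      linarith
    refine this.trans (le_of_eq ?_)
    ring
  exact h10 _ _ _ h1 h2

/-- second moment of the lateral coordinate -/
lemma secondt (hE : EXPE1_Stmt) (h1 : 1 ≤ b) (hf : ∀ n, BoxE b b (f n) (g n))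
    (hsn : Tendsto (fun n : ℕ => Real.exp (-(f n)) * n) atTop atTop)
    (hC : ∀ᶠ n in atTop, CenM n (f n) (g n) (h n) (t n)) : ∃ K : ℝ, 0 < K ∧ ∀ᶠ n : ℕ in atTop,
      ∑ q ∈ Omm n, wm n (Real.exp (-(f n))) (g n) q * ((zt q : ℝ) - t n) ^ 2 ≤
        K * n * Zm n (Real.exp (-(f n))) (g n) := by
  obtain ⟨C1, hC1, h1'⟩ := expm hE h1 hf hsn hC 0 1
  obtain ⟨C2, hC2, h2'⟩ := expm hE h1 hf hsn hC 0 (-1)
  refine ⟨2 * (C1 + C2), by positivity, ?_⟩
  filter_upwards [h1', h2', eventually_ge_atTop 1] with n h1 h2 h5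
  have hn : (0 : ℝ) < n := by exact_mod_cast h5
  simp only [zero_mul, zero_add] at h1 h2
  have h6 : ∀ q ∈ Omm n, wm n (Real.exp (-(f n))) (g n) q * ((zt q : ℝ) - t n) ^ 2 ≤
      n * (2 * (wm n (Real.exp (-(f n))) (g n) q *
        Real.exp (1 * (((zt q : ℝ) - t n) / Real.sqrt n)) +
      wm n (Real.exp (-(f n))) (g n) q *
        Real.exp (-1 * (((zt q : ℝ) - t n) / Real.sqrt n)))) := by
    intro q _
    have h7 := sq_le_exp (((zt q : ℝ) - t n) / Real.sqrt n)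
    have h8 := wm_nonneg n (Real.exp (-(f n))) (g n) (Real.exp_pos _).le q
    rw [div_pow, Real.sq_sqrt hn.le, div_le_iff₀ hn] at h7
    have h9 := mul_le_mul_of_nonneg_left h7 h8
    refine h9.trans (le_of_eq ?_)
    ring
  refine (Finset.sum_le_sum h6).trans ?_
  rw [← mul_sum, ← mul_sum, sum_add_distrib]
  have h10 : ∀ x1 x2 Z : ℝ, x1 ≤ C1 * Z → x2 ≤ C2 * Z →
      (n : ℝ) * (2 * (x1 + x2)) ≤ 2 * (C1 + C2) * n * Z := by
    intro x1 x2 Z e1 e2
    have : (n : ℝ) * (2 * (x1 + x2)) ≤ n * (2 * (C1 * Z + C2 * Z)) := by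
      refine mul_le_mul_of_nonneg_left ?_ hn.le
      linarith
    refine this.trans (le_of_eq ?_)
    ring
  exact h10 _ _ _ h1 h2

/-- positivity of the total weight -/
lemma Zpos (hZB : ZBME_Stmt) (h1 : 1 ≤ b) (hf : ∀ n, BoxE b b (f n) (g n)) :
    ∀ᶠ n in atTop, 0 < Zm n (Real.exp (-(f n))) (g n) := by
  obtain ⟨C, θ, hC, _, _, N, hN⟩ := hZB b b (by linarith) le_rfl
  filter_upwards [eventually_ge_atTop N] with n h1
  obtain ⟨rho, _, _, _, _, h4, _⟩ := hN n h1 (f n) (g n) (hf n)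
  have h5 : 0 < C⁻¹ := inv_pos.2 hC
  by_contra hc
  have h6 : 0 ≤ Zm n (Real.exp (-(f n))) (g n) := Zm_nonneg n _ _ (Real.exp_pos _).le
  have h7 : Zm n (Real.exp (-(f n))) (g n) = 0 := le_antisymm (not_lt.1 hc) h6
  rw [h7, mul_zero] at h4
  linarith

/-- the lower bound for the weight of the words -/
lemma lower (hL : LOCCE_Stmt) (hE : EXPE1_Stmt) (h1 : 1 ≤ b)
    (hf : ∀ n, BoxE b b (f n) (g n))
    (hsn : Tendsto (fun n : ℕ => Real.exp (-(f n)) * n) atTop atTop)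
    (hC : ∀ᶠ n in atTop, CenM n (f n) (g n) (h n) (t n))
    (hev : ∀ n, Even ((h n : ℤ) + t n)) :
    ∃ c : ℝ, 0 < c ∧ ∀ᶠ n : ℕ in atTop,
      c / wd n (f n) * Zm n (Real.exp (-(f n))) (g n) ≤
      UM n (Real.exp (-(f n))) (g n) (h n) (t n) (fun _ => 1) := by
  obtain ⟨K1, hK1, h1'⟩ := secondl hE h1 hf hsn hC
  obtain ⟨K2, hK2, h2'⟩ := secondt hE h1 hf hsn hC
  obtain ⟨c, v0, hc, _, N, hN⟩ := hL b h1 (max K1 K2) (lt_max_of_lt_left hK1)
  refine ⟨c, hc, ?_⟩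
  filter_upwards [h1', h2', eventually_ge_atTop N, hsn.eventually_ge_atTop v0] with n h3 h4 h5 h6
  have hZ : 0 ≤ Zm n (Real.exp (-(f n))) (g n) := Zm_nonneg n _ _ (Real.exp_pos _).le
  refine hN n h5 (f n) (g n) (hf n) h6 (h n) (t n) (hev n) (h3.trans ?_) (h4.trans ?_)
  · refine mul_le_mul_of_nonneg_right ?_ hZ
    exact mul_le_mul_of_nonneg_right (le_max_left _ _) (by positivity)
  · refine mul_le_mul_of_nonneg_right ?_ hZ
    exact mul_le_mul_of_nonneg_right (le_max_right _ _) (by positivity)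

end Main

end Pool.Agent.TPE.EQE1

namespace Pool.Agent.TPE

open Finset Filter Topology MeasureTheory
open Pool.Agent.Lib27 Pool.Agent.SapR Pool.Agent.AreaLaw Pool.Agent.FL Pool.Agent.TPT
open Pool.Agent.FS (sc)
open Pool.Agent.FS.EQ (chi chi_nonneg chi_le_one chi_abs chi_continuous chi_supp chi_half
  sq_le_exp compare)

/-- EQE1 : equivalence of the ensembles. -/
theorem t_EQE1 (hB : LOCBE_Stmt) (hC : LOCCE_Stmt) (hI : INDE_Stmt) (hE : EXPE1_Stmt)
    (hZ : ZBME_Stmt) (hH : HGM_Stmt) : EQE1_Stmt := by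
  intro b h0 f g h t hf hfin hsn hCe hev
  obtain ⟨c, hc, hlow⟩ := EQE1.lower hC hE h0 hf hsn hCe hev
  refine ⟨h0, hf, hfin, hsn.eventually_ge_atTop 1, ⟨c, hc, hlow⟩, fun φ hφ1 hφL => ?_⟩
  obtain ⟨C, hC0, N, hN⟩ := hB b h0
  have hZp := EQE1.Zpos hZ h0 hf
  have hs0 : Tendsto (fun n : ℕ => Real.exp (-(f n))) atTop (𝓝 0) :=
    Real.tendsto_exp_neg_atTop_nhds_zero.comp hfin
  rw [Metric.tendsto_atTop]
  suffices H : ∀ ε : ℝ, 0 < ε → ∀ᶠ n : ℕ in atTop,
      |UM n (Real.exp (-(f n))) (g n) (h n) (t n) φ /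
          UM n (Real.exp (-(f n))) (g n) (h n) (t n) (fun _ => 1) -
        (∑ q ∈ Omm n, wm n (Real.exp (-(f n))) (g n) q * φ (rm n q)) /
          Zm n (Real.exp (-(f n))) (g n)| < ε by
    intro ε hε
    obtain ⟨M, hM⟩ := eventually_atTop.1 (H ε hε)
    refine ⟨M, fun n hn => ?_⟩
    rw [Real.dist_eq, sub_zero]
    exact hM n hn
  intro ε hε
  obtain ⟨d, hd⟩ : ∃ d, d = min 1 (ε * c / (16 * C)) := ⟨_, rfl⟩
  have hd0 : 0 < d := by rw [hd]; positivity
  have hd1 : d ≤ 1 := by rw [hd]; exact min_le_left _ _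
  have hd2 : 2 * C / c * (2 * d) ≤ ε / 4 := by
    have : d ≤ ε * c / (16 * C) := by rw [hd]; exact min_le_right _ _
    calc 2 * C / c * (2 * d) ≤ 2 * C / c * (2 * (ε * c / (16 * C))) := by gcongr
      _ = ε / 4 := by field_simp; norm_num
  have hr1 : ∀ᶠ n : ℕ in atTop, 1 ≤ se n (f n) := by
    filter_upwards [hsn.eventually_ge_atTop 1] with n hn
    unfold se
    exact Real.one_le_sqrt.2 hn
  have hind := hI b b (by linarith) le_rfl f g (fun n => (h n : ℝ)) (fun n => (t n : ℝ))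
    (fun n => se n (f n)) hf hfin hr1
    (fun u v => by
      obtain ⟨C', _, h1⟩ := EQE1.expm hE h0 hf hsn hCe u v
      exact ⟨C', h1⟩) (chi d) (chi d) φ (chi_continuous d)
    (chi_continuous d) hφL.continuous (fun x => ⟨chi_nonneg d x, chi_le_one d x hd0⟩)
    (fun x => chi_abs d x hd0) hφ1
  have hind' : ∀ᶠ n : ℕ in atTop,
      |(∑ q ∈ Omm n, wm n (Real.exp (-(f n))) (g n) q *
        (EQE1.ch d (se n (f n)) n (h n) (t n) (zl q, zt q) * φ (rm n q))) /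
          Zm n (Real.exp (-(f n))) (g n) -
      (∑ q ∈ Omm n, wm n (Real.exp (-(f n))) (g n) q *
        (EQE1.ch d (se n (f n)) n (h n) (t n) (zl q, zt q))) /
          Zm n (Real.exp (-(f n))) (g n) *
      ((∑ q ∈ Omm n, wm n (Real.exp (-(f n))) (g n) q * φ (rm n q)) /
        Zm n (Real.exp (-(f n))) (g n))| ≤
        ε * (c * (d ^ 2 / 32)) / 16 := by
    obtain ⟨M, hM⟩ := (Metric.tendsto_atTop.1 hind) (ε * (c * (d ^ 2 / 32)) / 16)
      (by positivity)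
    filter_upwards [eventually_ge_atTop M] with n hn
    have := hM n hn
    rw [Real.dist_eq, sub_zero] at this
    unfold EQE1.ch
    exact this.le
  have hsq' : ∀ᶠ n : ℕ in atTop, 2 * C / c * Real.exp (-(f n)) < ε / 4 := by
    have h1 := hs0.const_mul (2 * C / c)
    rw [mul_zero] at h1
    exact h1.eventually (gt_mem_nhds (by positivity))
  filter_upwards [hlow, hZp, hind', hsq', eventually_ge_atTop N, eventually_ge_atTop 1,
    hsn.eventually_ge_atTop 1] with n h1 h2 h3 h4 h5 h6 h6'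
  have hn0 : (0 : ℝ) < n := by exact_mod_cast h6
  have hse := EQE1.se_pos (n := n) (f := f n) h6
  have hsq0 : 0 < Real.sqrt n := Real.sqrt_pos.2 hn0
  have hfn : 0 ≤ f n := by linarith [(hf n).1]
  have h7 := hN n h5 (f n) (g n) (hf n) h6'
  have h8 := EQE1.localise hH C (Zm n (Real.exp (-(f n))) (g n)) d (se n (f n))
    (Real.exp (-(f n))) h2.le hd0 hse n (h n) (t n) h6
    (Real.exp (-(f n))) (g n) φ
    (fun h' t' he => h7 h' (h n) t' (t n) φ he (hev n) hφ1 hφL) hC0.le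
  have h9 := EQE1.localise hH C (Zm n (Real.exp (-(f n))) (g n)) d (se n (f n))
    (Real.exp (-(f n))) h2.le hd0 hse n (h n) (t n) h6
    (Real.exp (-(f n))) (g n)
    (fun _ => 1) (fun h' t' he => h7 h' (h n) t' (t n) (fun _ => 1) he (hev n) (fun _ => by simp)
      (LipschitzWith.const' (1 : ℝ))) hC0.le
  have hEE : |(∑ q ∈ Omm n, wm n (Real.exp (-(f n))) (g n) q * φ (rm n q)) /
      Zm n (Real.exp (-(f n))) (g n)| ≤ 1 := by
    rw [abs_div, abs_of_pos h2, div_le_one h2]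
    refine (Finset.abs_sum_le_sum_abs _ _).trans ?_
    unfold Zm
    refine Finset.sum_le_sum fun q _ => ?_
    have h10 := TPT.EQM.wm_nonneg n (Real.exp (-(f n))) (g n) (Real.exp_pos _).le q
    rw [abs_mul, abs_of_nonneg h10]
    calc _ ≤ wm n (Real.exp (-(f n))) (g n) q * 1 := mul_le_mul_of_nonneg_left (hφ1 _) h10
      _ = _ := mul_one _
  simp only [mul_one] at h9
  have h10 := compare c (C * (Real.exp (-(f n)) + 2 * d))
    (Zm n (Real.exp (-(f n))) (g n)) (d ^ 2 / 32)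
    (ε * (c * (d ^ 2 / 32)) / 16) _ _ _ _ _ _
    (C / (se n (f n) * Real.sqrt n) * (Real.exp (-(f n)) + 2 * d))
    (se n (f n) * Real.sqrt n) (by positivity) hc h2 (by positivity)
    (EQE1.sum_ch d (se n (f n)) hd0 hd1 n (h n) (t n) h6 hse (EQE1.se_le n hfn) (hev n))
    (by ring) (by positivity) hEE h8 h9 h3 h1
  refine h10.trans_lt ?_
  have h11 : 4 * (ε * (c * (d ^ 2 / 32)) / 16) / (c * (d ^ 2 / 32)) = ε / 4 := by
    field_simp
    norm_num
  have h12 : 2 * (C * (Real.exp (-(f n)) + 2 * d)) / c =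
      2 * C / c * Real.exp (-(f n)) + 2 * C / c * (2 * d) := by ring
  rw [h11, h12]
  linarith

end Pool.Agent.TPE
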