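import Pool.Agent.TPE.Stmts
import Pool.Agent.Lib_helper74.FS.EQ

/-!
# Project TPE: equivalence of the ensembles, fixed number of backward steps (module EQE2)
-/

set_option autoImplicit false

namespace Pool.Agent.TPE.EQE2

open Finset Filter Topology MeasureTheory
open Pool.Agent.Lib27 Pool.Agent.SapR Pool.Agent.AreaLaw Pool.Agent.FL Pool.Agent.TPT
open Pool.Agent.FS (sc)
open Pool.Agent.FS.EQ (chi chi_nonneg chi_le_one chi_abs chi_continuous chi_supp chi_half
  sq_le_exp compare)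

lemma wm_nonneg (n : ℕ) (s g : ℝ) (hs : 0 ≤ s) (q : QM) : 0 ≤ wm n s g q := by
  unfold wm
  positivity

lemma Zm_nonneg (n : ℕ) (s g : ℝ) (hs : 0 ≤ s) : 0 ≤ Zm n s g :=
  Finset.sum_nonneg fun q _ => wm_nonneg n s g hs q

/-- the index set of the lateral coordinates -/
noncomputable def KT (n h : ℕ) (t : ℤ) : Finset ℤ :=
  (Icc (-(3 * (n : ℤ) + |t|)) (3 * (n : ℤ) + |t|)).filter (fun l => Even ((h : ℤ) + l))

/-- the hat function of the lateral coordinate -/
noncomputable def cy (d : ℝ) (n : ℕ) (t l : ℤ) : ℝ := chi d (((l : ℝ) - t) / Real.sqrt n)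

lemma cy_nonneg (d : ℝ) (n : ℕ) (t l : ℤ) : 0 ≤ cy d n t l := chi_nonneg _ _

/-- the hat function on the integers is an indicator -/
lemma chi_ind (k h : ℕ) : chi (1 / 2) (((k : ℝ) - h) / 1) = if k = h then 1 else 0 := by
  rw [div_one]
  split_ifs with e
  · rw [e, sub_self]
    unfold Pool.Agent.FS.EQ.chi
    simp
  · by_contra hc
    have h1 := chi_supp (1 / 2) _ (by norm_num) hc
    have h2 : (1 : ℝ) ≤ |(k : ℝ) - h| := by
      have h3 : (1 : ℤ) ≤ |(k : ℤ) - h| := Int.one_le_abs (by omega)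
      have h4 : ((|(k : ℤ) - h| : ℤ) : ℝ) = |(k : ℝ) - h| := by push_cast; rfl
      rw [← h4]
      exact_mod_cast h3
    linarith

/-- grouping by the lateral coordinate -/
lemma sum_group (hH : HGM_Stmt) (n h : ℕ) (t : ℤ) (s g : ℝ) (c : ℤ → ℝ) (φ : ℝ → ℝ) :
    ∑ q ∈ Omm n, wm n s g q * (chi (1 / 2) (((zl q : ℝ) - h) / 1) * c (zt q) * φ (rm n q)) =
      ∑ l ∈ KT n h t, c l * UM n s g h l φ := by
  have hmap : ∀ q ∈ (Omm n).filter (fun q => zl q = h), zt q ∈ KT n h t := by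
    intro q hq
    rw [mem_filter] at hq
    obtain ⟨h1, h2, h3, _⟩ := hH.2.2.2 n q hq.1
    unfold KT
    rw [mem_filter, mem_Icc]
    rw [abs_le] at h2
    have h4 := abs_nonneg t
    rw [hq.2] at h3
    refine ⟨⟨?_, ?_⟩, h3⟩
    · omega
    · omega
  have h1 : ∑ q ∈ Omm n, wm n s g q *
      (chi (1 / 2) (((zl q : ℝ) - h) / 1) * c (zt q) * φ (rm n q)) =
      ∑ q ∈ (Omm n).filter (fun q => zl q = h), wm n s g q * (c (zt q) * φ (rm n q)) := by
    rw [sum_filter]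
    refine sum_congr rfl fun q _ => ?_
    rw [chi_ind]
    split_ifs with e
    · ring
    · ring
  rw [h1, ← Finset.sum_fiberwise_of_maps_to (t := KT n h t) (g := fun q => zt q) hmap]
  refine sum_congr rfl fun l _ => ?_
  unfold UM
  rw [mul_sum, filter_filter]
  refine sum_congr rfl fun q hq => ?_
  have h5 := (mem_filter.1 hq).2
  rw [h5.2]
  ring

/-- lower bound for the sum of the hat functions -/
lemma sum_cy (d : ℝ) (hd : 0 < d) (hd1 : d ≤ 1) (n h : ℕ) (t : ℤ) (hn : 1 ≤ n)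
    (he : Even ((h : ℤ) + t)) :
    d / 2 * Real.sqrt n / 4 ≤ ∑ l ∈ KT n h t, cy d n t l := by
  have hn1 : (1 : ℝ) ≤ n := by exact_mod_cast hn
  have hs : 0 < Real.sqrt n := Real.sqrt_pos.2 (by linarith)
  have hsn : Real.sqrt n ≤ n := by
    rw [Real.sqrt_le_left (by linarith)]
    nlinarith
  obtain ⟨m, hm⟩ : ∃ m : ℕ, m = ⌊d * Real.sqrt n / 4⌋₊ := ⟨_, rfl⟩
  have hpos : 0 ≤ d * Real.sqrt n / 4 := by positivity
  have hm1 : (m : ℝ) ≤ d * Real.sqrt n / 4 := by rw [hm]; exact Nat.floor_le hpos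
  have hm2 : d * Real.sqrt n / 4 < (m : ℝ) + 1 := by rw [hm]; exact Nat.lt_floor_add_one _
  have hmn : 4 * m ≤ n := by
    have : (4 : ℝ) * m ≤ n := by nlinarith
    exact_mod_cast this
  let F : ℕ → ℤ := fun j => t + 2 * j
  have hinj : Set.InjOn F ((range (m + 1) : Finset ℕ) : Set ℕ) := by
    intro a _ c _ hab
    simp only [F] at hab
    omega
  have hsub : (range (m + 1)).image F ⊆ KT n h t := by
    intro k hk
    rw [mem_image] at hk
    obtain ⟨j, hj, rfl⟩ := hk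
    rw [mem_range] at hj
    unfold KT
    have h4 := abs_nonneg t
    have h5 := le_abs_self t
    have h6 := neg_abs_le t
    rw [mem_filter, mem_Icc]
    simp only [F]
    refine ⟨⟨by omega, by omega⟩, ?_⟩
    obtain ⟨r, hr⟩ := he
    refine ⟨r + j, ?_⟩
    linarith
  have hval : ∀ j ∈ range (m + 1), (1 / 2 : ℝ) ≤ cy d n t (F j) := by
    intro j hj
    rw [mem_range] at hj
    have hj' : (j : ℝ) ≤ m := by exact_mod_cast Nat.lt_succ_iff.1 hj
    have hj0 : (0 : ℝ) ≤ j := Nat.cast_nonneg _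
    unfold cy
    refine chi_half d _ hd ?_
    simp only [F]
    push_cast
    rw [abs_div, abs_of_pos hs, div_le_iff₀ hs, abs_le]
    constructor
    · nlinarith
    · nlinarith
  calc d / 2 * Real.sqrt n / 4 ≤ ∑ j ∈ range (m + 1), (1 / 2 : ℝ) := by
        rw [Finset.sum_const, card_range, nsmul_eq_mul]
        push_cast
        linarith
    _ ≤ ∑ j ∈ range (m + 1), cy d n t (F j) := Finset.sum_le_sum hval
    _ = ∑ p ∈ (range (m + 1)).image F, cy d n t p := by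
        rw [Finset.sum_image hinj]
    _ ≤ _ := Finset.sum_le_sum_of_subset_of_nonneg hsub fun _ _ _ => cy_nonneg _ _ _ _

/-- localisation to the difference `(h, t)` -/
lemma localise (hH : HGM_Stmt) (C Z d : ℝ) (hZ : 0 ≤ Z) (hd : 0 < d) (n h : ℕ) (t : ℤ)
    (hn : 1 ≤ n) (s g : ℝ) (φ : ℝ → ℝ)
    (hφ : ∀ l : ℤ, Even ((h : ℤ) + l) → |UM n s g h l φ - UM n s g h t φ| ≤
      C / Real.sqrt n * (1 / n + |(l : ℝ) - t| / Real.sqrt n) * Z) (hC : 0 ≤ C) :
    |∑ q ∈ Omm n, wm n s g q *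
        (chi (1 / 2) (((zl q : ℝ) - h) / 1) * cy d n t (zt q) * φ (rm n q)) -
      (∑ l ∈ KT n h t, cy d n t l) * UM n s g h t φ| ≤
    (∑ l ∈ KT n h t, cy d n t l) * (C / Real.sqrt n * (1 / n + d) * Z) := by
  have hn0 : (0 : ℝ) < n := by exact_mod_cast hn
  have hs : 0 < Real.sqrt n := Real.sqrt_pos.2 hn0
  rw [sum_group hH n h t s g (cy d n t) φ, sum_mul, sum_mul, ← sum_sub_distrib]
  refine (Finset.abs_sum_le_sum_abs _ _).trans (Finset.sum_le_sum fun p hp => ?_)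
  rw [← mul_sub, abs_mul, abs_of_nonneg (cy_nonneg _ _ _ _)]
  by_cases hk : cy d n t p = 0
  · rw [hk, zero_mul, zero_mul]
  refine mul_le_mul_of_nonneg_left ?_ (cy_nonneg _ _ _ _)
  have hev : Even ((h : ℤ) + p) := (mem_filter.1 hp).2
  refine (hφ p hev).trans ?_
  have h1 := chi_supp d _ hd hk
  rw [abs_div, abs_of_pos hs] at h1
  refine mul_le_mul_of_nonneg_right ?_ hZ
  refine mul_le_mul_of_nonneg_left ?_ (by positivity)
  linarith

end Pool.Agent.TPE.EQE2

namespace Pool.Agent.TPE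

open Finset Filter Topology MeasureTheory
open Pool.Agent.Lib27 Pool.Agent.SapR Pool.Agent.AreaLaw Pool.Agent.FL Pool.Agent.TPT
open Pool.Agent.FS (sc)
open Pool.Agent.FS.EQ (chi chi_nonneg chi_le_one chi_abs chi_continuous chi_supp chi_half
  sq_le_exp compare)

/-- EQE2 : equivalence of the ensembles, fixed number of backward steps. -/
theorem t_EQE2 (hB : LOCBE_Stmt) (hC : BDLE_Stmt) (hI : INDE_Stmt) (hE : EXPE2_Stmt)
    (hZ : ZBME_Stmt) (hH : HGM_Stmt) : EQE2_Stmt := by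
  intro b hb g δ t hg hcen hev
  have hb0 : 0 < b := by linarith
  obtain ⟨f, hf⟩ : ∃ f : ℕ → ℝ, f = fun n : ℕ => max b (Real.log n) := ⟨_, rfl⟩
  have hfn : ∀ n : ℕ, max b (Real.log n) = f n := fun n => by rw [hf]
  simp only [hfn] at hcen
  rw [← hf]
  have hbox : ∀ n, BoxE b b (f n) (g n) := fun n => ⟨by rw [hf]; exact le_max_left _ _, hg n⟩
  have hlog : Tendsto (fun n : ℕ => Real.log (n : ℝ)) atTop atTop :=
    Real.tendsto_log_atTop.comp tendsto_natCast_atTop_atTop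
  have hfin : Tendsto f atTop atTop := by
    rw [hf]
    exact tendsto_atTop_mono (fun n => le_max_right _ _) hlog
  have hexp : ∀ᶠ n : ℕ in atTop, Real.exp (-(f n)) = (n : ℝ)⁻¹ := by
    filter_upwards [hlog.eventually_ge_atTop b, eventually_ge_atTop 1] with n h1 h2
    have hn0 : (0 : ℝ) < n := by exact_mod_cast h2
    rw [hf]
    show Real.exp (-(max b (Real.log n))) = _
    rw [max_eq_right h1, Real.exp_neg, Real.exp_log hn0]
  have hsn : ∀ᶠ n : ℕ in atTop, Real.exp (-(f n)) * n = 1 := by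
    filter_upwards [hexp, eventually_ge_atTop 1] with n h1 h2
    have hn0 : (0 : ℝ) < n := by exact_mod_cast h2
    rw [h1, inv_mul_cancel₀ hn0.ne']
  -- positivity of the total weight
  have hZp : ∀ᶠ n in atTop, 0 < Zm n (Real.exp (-(f n))) (g n) := by
    obtain ⟨C, θ, hC, _, _, N, hN⟩ := hZ b b hb0 le_rfl
    filter_upwards [eventually_ge_atTop N] with n h1
    obtain ⟨rho, _, _, _, _, h4, _⟩ := hN n h1 (f n) (g n) (hbox n)
    have h5 : 0 < C⁻¹ := inv_pos.2 hC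
    by_contra hc
    have h6 : 0 ≤ Zm n (Real.exp (-(f n))) (g n) := EQE2.Zm_nonneg n _ _ (Real.exp_pos _).le
    have h7 : Zm n (Real.exp (-(f n))) (g n) = 0 := le_antisymm (not_lt.1 hc) h6
    rw [h7, mul_zero] at h4
    linarith
  -- exponential moments
  have hmom : ∀ u v : ℝ, ∃ C : ℝ, 0 < C ∧ ∀ᶠ n : ℕ in atTop,
      ∑ q ∈ Omm n, wm n (Real.exp (-(f n))) (g n) q *
        Real.exp (u * ((n : ℝ) - zl q) + v * (((zt q : ℝ) - t n) / Real.sqrt n)) ≤
        C * Zm n (Real.exp (-(f n))) (g n) := by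
    intro u v
    obtain ⟨C, hC0, N, hN⟩ := hE b b u v 1 hb0 le_rfl one_pos
    refine ⟨C, hC0, ?_⟩
    filter_upwards [hcen, hsn, eventually_ge_atTop N] with n h1 h2 h3
    exact hN n h3 (f n) (g n) (t n) (hbox n) h2.le h1
  -- the second moment of the lateral coordinate
  obtain ⟨K, hK, hsec⟩ : ∃ K : ℝ, 1 ≤ K ∧ ∀ᶠ n : ℕ in atTop,
      ∑ q ∈ Omm n, wm n (Real.exp (-(f n))) (g n) q * ((zt q : ℝ) - t n) ^ 2 ≤
        K * n * Zm n (Real.exp (-(f n))) (g n) := by
    obtain ⟨C3, hC3, h3⟩ := hmom 0 1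
    obtain ⟨C4, hC4, h4⟩ := hmom 0 (-1)
    refine ⟨1 + 2 * (C3 + C4), by linarith, ?_⟩
    filter_upwards [h3, h4, hZp, eventually_ge_atTop 1] with n h3 h4 hZn h5
    have hn : (0 : ℝ) < n := by exact_mod_cast h5
    simp only [zero_mul, zero_add] at h3 h4
    have h6 : ∀ q ∈ Omm n, wm n (Real.exp (-(f n))) (g n) q * ((zt q : ℝ) - t n) ^ 2 ≤
        n * (2 * (wm n (Real.exp (-(f n))) (g n) q *
          Real.exp (1 * (((zt q : ℝ) - t n) / Real.sqrt n)) +
        wm n (Real.exp (-(f n))) (g n) q *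
          Real.exp (-1 * (((zt q : ℝ) - t n) / Real.sqrt n)))) := by
      intro q _
      have h7 := sq_le_exp (((zt q : ℝ) - t n) / Real.sqrt n)
      have h8 := EQE2.wm_nonneg n (Real.exp (-(f n))) (g n) (Real.exp_pos _).le q
      rw [div_pow, Real.sq_sqrt hn.le, div_le_iff₀ hn] at h7
      refine (mul_le_mul_of_nonneg_left h7 h8).trans (le_of_eq ?_)
      ring
    refine (Finset.sum_le_sum h6).trans ?_
    rw [← mul_sum, ← mul_sum, sum_add_distrib]
    have h10 : ∀ x3 x4 Z : ℝ, 0 < Z → x3 ≤ C3 * Z → x4 ≤ C4 * Z →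
        n * (2 * (x3 + x4)) ≤ (1 + 2 * (C3 + C4)) * n * Z := by
      intro x3 x4 Z e0 e3 e4
      have h11 : (n : ℝ) * (2 * (x3 + x4)) ≤ n * (2 * (C3 * Z + C4 * Z)) := by
        refine mul_le_mul_of_nonneg_left ?_ hn.le
        linarith
      have h12 : 0 < n * Z := mul_pos hn e0
      nlinarith
    exact h10 _ _ _ hZn h3 h4
  -- the lower bound
  obtain ⟨c, hc, hlow⟩ : ∃ c : ℝ, 0 < c ∧ ∀ᶠ n : ℕ in atTop,
      c / wd n (f n) * Zm n (Real.exp (-(f n))) (g n) ≤
        UM n (Real.exp (-(f n))) (g n) (n - δ) (t n) (fun _ => 1) := by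
    obtain ⟨c, hc, N, hN⟩ := hC b hb K (by linarith) δ
    refine ⟨c, hc, ?_⟩
    filter_upwards [hsec, hsn, eventually_ge_atTop N] with n h1 h2 h3
    exact hN n h3 (f n) (g n) (hbox n) h2.ge (h2.le.trans hK) (t n) (hev n) h1
  refine ⟨hb, hbox, hfin, hsn.mono fun n h => h.ge, ⟨c, hc, hlow⟩, fun φ hφ1 hφL => ?_⟩
  obtain ⟨C, hC0, N, hN⟩ := hB b hb
  rw [Metric.tendsto_atTop]
  suffices H : ∀ ε : ℝ, 0 < ε → ∀ᶠ n : ℕ in atTop,
      |UM n (Real.exp (-(f n))) (g n) (n - δ) (t n) φ /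
          UM n (Real.exp (-(f n))) (g n) (n - δ) (t n) (fun _ => 1) -
        (∑ q ∈ Omm n, wm n (Real.exp (-(f n))) (g n) q * φ (rm n q)) /
          Zm n (Real.exp (-(f n))) (g n)| < ε by
    intro ε hε
    obtain ⟨M, hM⟩ := eventually_atTop.1 (H ε hε)
    refine ⟨M, fun n hn => ?_⟩
    rw [Real.dist_eq, sub_zero]
    exact hM n hn
  intro ε hε
  obtain ⟨d, hd⟩ : ∃ d, d = min 1 (ε * c / (8 * C)) := ⟨_, rfl⟩
  have hd0 : 0 < d := by rw [hd]; positivity
  have hd1 : d ≤ 1 := by rw [hd]; exact min_le_left _ _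
  have hd2 : 2 * C / c * d ≤ ε / 4 := by
    have : d ≤ ε * c / (8 * C) := by rw [hd]; exact min_le_right _ _
    calc 2 * C / c * d ≤ 2 * C / c * (ε * c / (8 * C)) := by gcongr
      _ = ε / 4 := by field_simp; norm_num
  have hind := hI b b hb0 le_rfl f g (fun n => ((n - δ : ℕ) : ℝ)) (fun n => (t n : ℝ))
    (fun _ => 1) hbox hfin (Eventually.of_forall fun _ => le_rfl) (fun u v => by
      obtain ⟨C', hC', h1⟩ := hmom (-u) v
      refine ⟨Real.exp (u * δ) * C', ?_⟩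
      filter_upwards [h1, eventually_ge_atTop δ] with n h2 h3
      have h4 : ∀ q ∈ Omm n, wm n (Real.exp (-(f n))) (g n) q *
          Real.exp (u * (((zl q : ℝ) - ((n - δ : ℕ) : ℝ)) / 1) +
            v * (((zt q : ℝ) - t n) / Real.sqrt n)) =
          Real.exp (u * δ) * (wm n (Real.exp (-(f n))) (g n) q *
          Real.exp (-u * ((n : ℝ) - zl q) + v * (((zt q : ℝ) - t n) / Real.sqrt n))) := by
        intro q _
        have h5 : Real.exp (u * (((zl q : ℝ) - ((n - δ : ℕ) : ℝ)) / 1) +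
            v * (((zt q : ℝ) - t n) / Real.sqrt n)) = Real.exp (u * δ) *
            Real.exp (-u * ((n : ℝ) - zl q) + v * (((zt q : ℝ) - t n) / Real.sqrt n)) := by
          rw [← Real.exp_add]
          congr 1
          rw [Nat.cast_sub h3]
          ring
        rw [h5]
        ring
      rw [Finset.sum_congr rfl h4, ← mul_sum, mul_assoc]
      exact mul_le_mul_of_nonneg_left h2 (Real.exp_pos _).le)
    (chi (1 / 2)) (chi d) φ (chi_continuous _)
    (chi_continuous d) hφL.continuous (fun x => ⟨chi_nonneg _ x, chi_le_one _ x (by norm_num)⟩)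
    (fun x => chi_abs d x hd0) hφ1
  have hind' : ∀ᶠ n : ℕ in atTop,
      |(∑ q ∈ Omm n, wm n (Real.exp (-(f n))) (g n) q *
        (chi (1 / 2) (((zl q : ℝ) - ((n - δ : ℕ) : ℝ)) / 1) *
          EQE2.cy d n (t n) (zt q) * φ (rm n q))) / Zm n (Real.exp (-(f n))) (g n) -
      (∑ q ∈ Omm n, wm n (Real.exp (-(f n))) (g n) q *
        (chi (1 / 2) (((zl q : ℝ) - ((n - δ : ℕ) : ℝ)) / 1) *
          EQE2.cy d n (t n) (zt q))) / Zm n (Real.exp (-(f n))) (g n) *
      ((∑ q ∈ Omm n, wm n (Real.exp (-(f n))) (g n) q * φ (rm n q)) /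
        Zm n (Real.exp (-(f n))) (g n))| ≤
        ε * (c * (d / 2)) / 16 := by
    obtain ⟨M, hM⟩ := (Metric.tendsto_atTop.1 hind) (ε * (c * (d / 2)) / 16)
      (by positivity)
    filter_upwards [eventually_ge_atTop M] with n hn
    have := hM n hn
    rw [Real.dist_eq, sub_zero] at this
    unfold EQE2.cy
    exact this.le
  have hinv : ∀ᶠ n : ℕ in atTop, 2 * C / c * (1 / (n : ℝ)) < ε / 4 := by
    have h1 := (tendsto_one_div_atTop_nhds_zero_nat (𝕜 := ℝ)).const_mul (2 * C / c)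
    rw [mul_zero] at h1
    exact h1.eventually (gt_mem_nhds (by positivity))
  filter_upwards [hlow, hZp, hind', hinv, hexp, hsn, eventually_ge_atTop N, eventually_ge_atTop 1]
    with n h1 h2 h3 h4 he hs1 h5 h6
  have hn0 : (0 : ℝ) < n := by exact_mod_cast h6
  have hsq0 : 0 < Real.sqrt n := Real.sqrt_pos.2 hn0
  have hse : se n (f n) = 1 := by
    unfold se
    rw [hs1, Real.sqrt_one]
  have hwd : wd n (f n) = Real.sqrt n := by
    unfold wd
    rw [hse, one_mul]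
  have h7 : ∀ φ : ℝ → ℝ, (∀ y, |φ y| ≤ 1) → LipschitzWith 1 φ → ∀ l : ℤ,
      Even (((n - δ : ℕ) : ℤ) + l) →
      |UM n (Real.exp (-(f n))) (g n) (n - δ) l φ -
        UM n (Real.exp (-(f n))) (g n) (n - δ) (t n) φ| ≤
      C / Real.sqrt n * (1 / n + |(l : ℝ) - t n| / Real.sqrt n) *
        Zm n (Real.exp (-(f n))) (g n) := by
    intro φ hφ1 hφL l hl
    have h8 := hN n h5 (f n) (g n) (hbox n) hs1.ge (n - δ) (n - δ) l (t n) φ hl (hev n) hφ1 hφL
    rw [hwd, hse, sub_self, abs_zero, zero_div, add_zero] at h8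
    have h9 : (1 : ℝ) / n = Real.exp (-(f n)) := by rw [he, one_div]
    rw [h9]
    exact h8
  have h8 := EQE2.localise hH C (Zm n (Real.exp (-(f n))) (g n)) d h2.le hd0 n (n - δ) (t n) h6
    (Real.exp (-(f n))) (g n) φ (h7 φ hφ1 hφL) hC0.le
  have h9 := EQE2.localise hH C (Zm n (Real.exp (-(f n))) (g n)) d h2.le hd0 n (n - δ) (t n) h6
    (Real.exp (-(f n))) (g n) (fun _ => 1)
    (h7 (fun _ => 1) (fun _ => by simp) (LipschitzWith.const' (1 : ℝ))) hC0.le
  have hEE : |(∑ q ∈ Omm n, wm n (Real.exp (-(f n))) (g n) q * φ (rm n q)) /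
      Zm n (Real.exp (-(f n))) (g n)| ≤ 1 := by
    rw [abs_div, abs_of_pos h2, div_le_one h2]
    refine (Finset.abs_sum_le_sum_abs _ _).trans ?_
    unfold Zm
    refine Finset.sum_le_sum fun q _ => ?_
    have h10 := EQE2.wm_nonneg n (Real.exp (-(f n))) (g n) (Real.exp_pos _).le q
    rw [abs_mul, abs_of_nonneg h10]
    calc _ ≤ wm n (Real.exp (-(f n))) (g n) q * 1 := mul_le_mul_of_nonneg_left (hφ1 _) h10
      _ = _ := mul_one _
  simp only [mul_one] at h9
  rw [hwd] at h1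
  have h10 := compare c (C * (1 / n + d))
    (Zm n (Real.exp (-(f n))) (g n)) (d / 2)
    (ε * (c * (d / 2)) / 16) _ _ _ _ _ _
    (C / Real.sqrt n * (1 / n + d))
    (Real.sqrt n) hsq0 hc h2 (by positivity) (EQE2.sum_cy d hd0 hd1 n (n - δ) (t n) h6 (hev n))
    (by ring) (by positivity) hEE h8 h9 h3 h1
  refine h10.trans_lt ?_
  have h11 : 4 * (ε * (c * (d / 2)) / 16) / (c * (d / 2)) = ε / 4 := by
    field_simp
    norm_num
  have h12 : 2 * (C * (1 / n + d)) / c =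
      2 * C / c * (1 / n) + 2 * C / c * d := by ring
  rw [h11, h12]
  linarith

end Pool.Agent.TPE
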