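import Pool.Agent.TPE.Stmts
import Pool.Agent.TPT.EXPMM

/-!
# Project TPE: module EXPE1 (helper71), exponential moments for large `s n`
-/

set_option autoImplicit false

namespace Pool.Agent.TPE

open Finset Filter Topology MeasureTheory
open Pool.Agent.Lib27 Pool.Agent.SapR Pool.Agent.AreaLaw Pool.Agent.FL Pool.Agent.TPT
open Pool.Agent.FS (sc)

theorem t_EXPE1 (hZ : ZBME_Stmt) (hR : RHOE_Stmt) (hH : HGM_Stmt) : EXPE1_Stmt := by
  intro a b u v ha hab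
  obtain ⟨C, θ, hC, hθ0, hθ1, N, hN⟩ := hZ (a / 2) (2 * b) (by positivity) (by linarith)
  obtain ⟨CR, cR, η, hCR, -, hη, NR, hNR⟩ := hR a b ha hab
  set κ : ℝ := min (min η (a / 2)) (1 / 2) with hκ
  have hκ0 : 0 < κ := lt_min (lt_min hη (by positivity)) (by norm_num)
  have hκ1 : κ ≤ η := (min_le_left _ _).trans (min_le_left _ _)
  have hκ2 : κ ≤ a / 2 := (min_le_left _ _).trans (min_le_right _ _)
  have hκ3 : κ ≤ 1 / 2 := min_le_right _ _
  have hκ4 : 0 < κ / 2 := half_pos hκ0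
  have hlim : Tendsto (fun n : ℕ => |v| / Real.sqrt n) atTop (𝓝 0) :=
    tendsto_const_nhds.div_atTop (Real.tendsto_sqrt_atTop.comp tendsto_natCast_atTop_atTop)
  obtain ⟨N1, hN1⟩ := Filter.eventually_atTop.1 (hlim.eventually (ge_mem_nhds hκ4))
  have hu1p : 0 < |u| + 1 := by have := abs_nonneg u; linarith
  have hw0 : 0 < 2 * (|u| + 1) / κ := by positivity
  refine ⟨2 * (C ^ 4 * Real.exp (CR * (u ^ 2 + v ^ 2))), (2 * (|u| + 1) / κ) ^ 2, by positivity,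
    by positivity, max (max N NR) (max N1 1), fun n hn f g h t hbox hsn hcen => ?_⟩
  have n1 : N ≤ n := (le_max_left _ _).trans ((le_max_left _ _).trans hn)
  have n2 : NR ≤ n := (le_max_right _ _).trans ((le_max_left _ _).trans hn)
  have n3 : N1 ≤ n := (le_max_left _ _).trans ((le_max_right _ _).trans hn)
  have n4 : 1 ≤ n := (le_max_right _ _).trans ((le_max_right _ _).trans hn)
  have hnr : (0 : ℝ) < n := by exact_mod_cast n4
  have hsq : 0 < Real.sqrt n := Real.sqrt_pos.2 hnr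
  have hsmall := hN1 n n3
  have hs0 : 0 < Real.exp (-f) := Real.exp_pos _
  have hse : 2 * (|u| + 1) / κ ≤ se n f := by
    unfold se
    exact Real.le_sqrt_of_sq_le hsn
  have hse0 : 0 < se n f := lt_of_lt_of_le hw0 hse
  have hse2 : se n f ^ 2 = Real.exp (-f) * n := by
    unfold se
    exact Real.sq_sqrt (by positivity)
  set u' : ℝ := u / se n f with hu'
  set v' : ℝ := v / Real.sqrt n with hv'
  have hub : |u'| ≤ κ / 2 := by
    rw [hu', abs_div, abs_of_pos hse0, div_le_iff₀ hse0]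
    have h1 : κ / 2 * (2 * (|u| + 1) / κ) ≤ κ / 2 * se n f := mul_le_mul_of_nonneg_left hse hκ4.le
    have h2 : κ / 2 * (2 * (|u| + 1) / κ) = |u| + 1 := by field_simp
    linarith
  have hvb : |v'| ≤ κ / 2 := by
    rw [hv', abs_div, abs_of_pos hsq]
    exact hsmall
  have habs : |u'| + |v'| ≤ κ := by linarith
  have hu0 := abs_nonneg u'
  have hv0 := abs_nonneg v'
  have hu1 := abs_le.1 (le_refl |u'|)
  have hv1 := abs_le.1 (le_refl |v'|)
  obtain ⟨hf1, hg⟩ := hbox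
  have hg1 := abs_le.1 hg
  -- the three boxes
  have box0 : BoxE (a / 2) (2 * b) f g := ⟨by linarith, by linarith⟩
  have box1 : BoxE (a / 2) (2 * b) (f + u') (g + v') :=
    ⟨by linarith, abs_le.2 ⟨by linarith, by linarith⟩⟩
  have box2 : BoxE (a / 2) (2 * b) (f - u') (g - v') :=
    ⟨by linarith, abs_le.2 ⟨by linarith, by linarith⟩⟩
  obtain ⟨ρ, c0, -, -, -, l0, -⟩ := hN n n1 f g box0
  obtain ⟨ρ₁, c1, -, -, -, -, m1⟩ := hN n n1 (f + u') (g + v') box1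
  obtain ⟨ρ₂, c2, -, -, -, -, m2⟩ := hN n n1 (f - u') (g - v') box2
  have hlog := (hNR n n2 f g ρ ⟨hf1, hg⟩ c0).2.2.2 u' v' ρ₁ ρ₂ (by linarith) (by linarith) c1 c2
  have r0 : 0 < ρ := c0.1
  have r1 : 0 < ρ₁ := c1.1
  have r2 : 0 < ρ₂ := c2.1
  have hsc : 0 < sc n := by
    by_contra hcon
    have hZ0 : 0 ≤ Zm n (Real.exp (-f)) g := (abs_nonneg _).trans hcen.1
    have h1 : sc n * ρ ^ n * Zm n (Real.exp (-f)) g ≤ 0 :=
      mul_nonpos_of_nonpos_of_nonneg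
        (mul_nonpos_of_nonpos_of_nonneg (not_lt.1 hcon) (by positivity)) hZ0
    have h2 : 0 < C⁻¹ := inv_pos.2 hC
    linarith
  set Z : ℝ := Zm n (Real.exp (-f)) g with hZdef
  set Z1 : ℝ := Zm n (Real.exp (-(f + u'))) (g + v') with hZ1
  set Z2 : ℝ := Zm n (Real.exp (-(f - u'))) (g - v') with hZ2
  have hZpos : 0 < Z := by
    have h1 : 0 < sc n * ρ ^ n * Z := lt_of_lt_of_le (inv_pos.2 hC) l0
    exact (mul_pos_iff_of_pos_left (by positivity)).1 h1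
  have hZ1n : 0 ≤ Z1 := Finset.sum_nonneg fun q _ => (EXPMM.wm_pos n _ _ q).le
  have hZ2n : 0 ≤ Z2 := Finset.sum_nonneg fun q _ => (EXPMM.wm_pos n _ _ q).le
  -- the two sums
  have hA := EXPMM.sum_shift hH n f g u' v' h t
  have hB := EXPMM.sum_shift hH n f g (-u') (-v') h t
  rw [← sub_eq_add_neg, ← sub_eq_add_neg, ← hZ2] at hB
  rw [← hZ1] at hA
  have hlow := EXPMM.lower n f g (-u') (-v') h t hcen (by rw [abs_neg, abs_neg]; linarith)
  rw [← hZdef] at hlow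
  have hexp : ∀ q : QM, u * (((zl q : ℝ) - h) / se n f) + v * (((zt q : ℝ) - t) / Real.sqrt n)
      = u' * ((zl q : ℝ) - h) + v' * ((zt q : ℝ) - t) := by
    intro q
    rw [hu', hv']
    ring
  rw [Finset.sum_congr rfl fun q _ => by rw [hexp q]]
  set SA : ℝ := ∑ q ∈ Omm n, wm n (Real.exp (-f)) g q *
      Real.exp (u' * ((zl q : ℝ) - h) + v' * ((zt q : ℝ) - t)) with hSA
  set SB : ℝ := ∑ q ∈ Omm n, wm n (Real.exp (-f)) g q *
      Real.exp (-u' * ((zl q : ℝ) - h) + -v' * ((zt q : ℝ) - t)) with hSB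
  have hAB : SA * SB = Z1 * Z2 := by
    rw [hA, hB]
    have h1 : Real.exp (u' * ((n : ℝ) - h) - v' * t) * Real.exp (-u' * ((n : ℝ) - h) - -v' * t) = 1 := by
      rw [← Real.exp_add, ← Real.exp_zero]
      congr 1
      ring
    linear_combination (Z1 * Z2) * h1
  -- the ratio of the critical weights
  have hratio : ρ ^ n * ρ ^ n ≤ Real.exp (CR * (u ^ 2 + v ^ 2)) * (ρ₁ ^ n * ρ₂ ^ n) := by
    have h1 := (abs_le.1 hlog).1
    have h2 : Real.exp (-f) * u' ^ 2 + v' ^ 2 = (u ^ 2 + v ^ 2) / n := by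
      rw [hu', hv', div_pow, div_pow, Real.sq_sqrt hnr.le, hse2]
      field_simp
    rw [h2] at h1
    have h3 : (n : ℝ) * -(Real.log (ρ₁ / ρ) + Real.log (ρ₂ / ρ)) ≤ CR * (u ^ 2 + v ^ 2) := by
      have h4 : -(Real.log (ρ₁ / ρ) + Real.log (ρ₂ / ρ)) ≤ CR * ((u ^ 2 + v ^ 2) / n) := by linarith
      calc (n : ℝ) * -(Real.log (ρ₁ / ρ) + Real.log (ρ₂ / ρ))
          ≤ n * (CR * ((u ^ 2 + v ^ 2) / n)) := mul_le_mul_of_nonneg_left h4 hnr.le
        _ = CR * (u ^ 2 + v ^ 2) := by field_simp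
    have h5 : Real.exp (n * -(Real.log (ρ₁ / ρ) + Real.log (ρ₂ / ρ))) =
        (ρ ^ n * ρ ^ n) / (ρ₁ ^ n * ρ₂ ^ n) := by
      rw [Real.exp_nat_mul, neg_add, Real.exp_add, Real.exp_neg, Real.exp_neg,
        Real.exp_log (div_pos r1 r0), Real.exp_log (div_pos r2 r0), mul_pow, inv_pow, inv_pow,
        div_pow, div_pow]
      field_simp
    have h6 := Real.exp_le_exp.2 h3
    rw [h5, div_le_iff₀ (by positivity)] at h6
    exact h6
  have hprod : Z1 * Z2 ≤ C ^ 4 * Real.exp (CR * (u ^ 2 + v ^ 2)) * (Z * Z) := by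
    have h1 : (sc n * ρ₁ ^ n * Z1) * (sc n * ρ₂ ^ n * Z2) ≤ C * C :=
      mul_le_mul m1 m2 (by positivity) hC.le
    have h2 : 1 ≤ C * (sc n * ρ ^ n * Z) := by
      have := mul_le_mul_of_nonneg_left l0 hC.le
      rwa [mul_inv_cancel₀ hC.ne'] at this
    have h3 : 1 ≤ (C * (sc n * ρ ^ n * Z)) * (C * (sc n * ρ ^ n * Z)) :=
      one_le_mul_of_one_le_of_one_le h2 h2
    have h4 : 0 < (sc n * ρ₁ ^ n) * (sc n * ρ₂ ^ n) := by positivity
    have h5 : ((sc n * ρ₁ ^ n) * (sc n * ρ₂ ^ n)) * (Z1 * Z2) ≤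
        ((sc n * ρ₁ ^ n) * (sc n * ρ₂ ^ n)) *
          (C ^ 4 * Real.exp (CR * (u ^ 2 + v ^ 2)) * (Z * Z)) := by
      calc ((sc n * ρ₁ ^ n) * (sc n * ρ₂ ^ n)) * (Z1 * Z2)
          = (sc n * ρ₁ ^ n * Z1) * (sc n * ρ₂ ^ n * Z2) := by ring
        _ ≤ C * C := h1
        _ ≤ C * C * ((C * (sc n * ρ ^ n * Z)) * (C * (sc n * ρ ^ n * Z))) :=
            le_mul_of_one_le_right (by positivity) h3
        _ = C ^ 4 * (sc n * sc n) * (Z * Z) * (ρ ^ n * ρ ^ n) := by ring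
        _ ≤ C ^ 4 * (sc n * sc n) * (Z * Z) *
              (Real.exp (CR * (u ^ 2 + v ^ 2)) * (ρ₁ ^ n * ρ₂ ^ n)) :=
            mul_le_mul_of_nonneg_left hratio (by positivity)
        _ = ((sc n * ρ₁ ^ n) * (sc n * ρ₂ ^ n)) *
          (C ^ 4 * Real.exp (CR * (u ^ 2 + v ^ 2)) * (Z * Z)) := by ring
    exact le_of_mul_le_mul_left h5 h4
  have hSA0 : 0 ≤ SA := Finset.sum_nonneg fun q _ =>
    mul_nonneg (EXPMM.wm_pos n _ _ q).le (Real.exp_pos _).le
  have hfin : SA * (Z / 2) ≤ C ^ 4 * Real.exp (CR * (u ^ 2 + v ^ 2)) * (Z * Z) := by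
    calc SA * (Z / 2) ≤ SA * SB := mul_le_mul_of_nonneg_left hlow hSA0
      _ = Z1 * Z2 := hAB
      _ ≤ _ := hprod
  have h9 : SA * (Z / 2) ≤ (2 * (C ^ 4 * Real.exp (CR * (u ^ 2 + v ^ 2))) * Z) * (Z / 2) := by
    refine hfin.trans (le_of_eq ?_)
    ring
  exact le_of_mul_le_mul_right h9 (by positivity)

end Pool.Agent.TPE
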