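import Pool.Agent.TPE.Stmts
import Pool.Agent.TPT.EXPMM
import Pool.Agent.NSP.EXPZ

/-!
# Project TPE: module EXPE2 (exponential moments, `s n` bounded)
-/

set_option autoImplicit false

namespace Pool.Agent.TPE

open Finset Filter Topology MeasureTheory
open Pool.Agent.Lib27 Pool.Agent.SapR Pool.Agent.AreaLaw Pool.Agent.FL Pool.Agent.TPT
open Pool.Agent.FS (sc)

namespace EXPE2

/-- `f` is large if `s n` is bounded -/
theorem f_large {M A f : ℝ} {n : ℕ} (hM : 0 < M) (h : Real.exp (-f) * n ≤ M)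
    (hn : M * Real.exp A ≤ n) : A ≤ f := by
  have h1 : Real.exp (-f) * (M * Real.exp A) ≤ M :=
    (mul_le_mul_of_nonneg_left hn (Real.exp_pos _).le).trans h
  have h2 : Real.exp (A - f) ≤ 1 := by
    have h3 : M * Real.exp (A - f) ≤ M * 1 := by
      rw [sub_eq_add_neg, Real.exp_add]
      linarith
    exact le_of_mul_le_mul_left h3 hM
  have := Real.exp_le_one_iff.1 h2
  linarith

theorem pos_of {S r Z C : ℝ} (hC : 0 < C) (hr : 0 < r) (hZ : 0 ≤ Z) (h : C⁻¹ ≤ S * r * Z) :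
    0 < S ∧ 0 < Z := by
  have h0 : 0 < S * r * Z := lt_of_lt_of_le (inv_pos.2 hC) h
  have hZ' : 0 < Z := lt_of_le_of_ne hZ (fun e => by rw [← e] at h0; simp at h0)
  have h1 : 0 < S * r := (pos_iff_pos_of_mul_pos h0).2 hZ'
  exact ⟨(pos_iff_pos_of_mul_pos h1).2 hr, hZ'⟩

/-- exponential moments of the number of backward steps -/
theorem J_bound (hZ : ZBME_Stmt) (hR : RHOE_Stmt) (hH : HGM_Stmt) (a b w M : ℝ) (ha : 0 < a)
    (hab : a ≤ b) (hM : 0 < M) : ∃ C : ℝ, 0 < C ∧ ∃ N : ℕ, ∀ n : ℕ, N ≤ n → ∀ f g : ℝ,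
      BoxE a b f g → Real.exp (-f) * n ≤ M →
      ∑ q ∈ Omm n, wm n (Real.exp (-f)) g q * Real.exp (w * ((n : ℝ) - zl q)) ≤
        C * Zm n (Real.exp (-f)) g := by
  obtain ⟨C, θ, hC, -, -, N, hN⟩ := hZ a b ha hab
  obtain ⟨CR, c, η, hCR, -, -, NR, hNR⟩ := hR a b ha hab
  have hK0 : 0 < CR * M * Real.exp w := by positivity
  refine ⟨C ^ 2 * Real.exp (2 * (CR * M * Real.exp w)), by positivity,
    max (max N NR) (⌈M * Real.exp (a + |w|)⌉₊ + ⌈2 * (CR * M * Real.exp w)⌉₊ + 1), ?_⟩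
  intro n hn f g hbox hs
  have n1 : N ≤ n := (le_max_left _ _).trans ((le_max_left _ _).trans hn)
  have n2 : NR ≤ n := (le_max_right _ _).trans ((le_max_left _ _).trans hn)
  have n3 : ⌈M * Real.exp (a + |w|)⌉₊ + ⌈2 * (CR * M * Real.exp w)⌉₊ + 1 ≤ n :=
    (le_max_right _ _).trans hn
  have hnr : (0 : ℝ) < n := by exact_mod_cast (by omega : 0 < n)
  have n4 : M * Real.exp (a + |w|) ≤ n :=
    (Nat.le_ceil _).trans (by exact_mod_cast (by omega : ⌈M * Real.exp (a + |w|)⌉₊ ≤ n))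
  have n5 : 2 * (CR * M * Real.exp w) ≤ n :=
    (Nat.le_ceil _).trans (by exact_mod_cast (by omega : ⌈2 * (CR * M * Real.exp w)⌉₊ ≤ n))
  obtain ⟨hf, hg⟩ := hbox
  have hfl : a + |w| ≤ f := f_large hM hs n4
  have hw1 := le_abs_self w
  have box1 : BoxE a b (f + -w) g := ⟨by linarith, hg⟩
  obtain ⟨ρ, c0, -, -, -, l0, -⟩ := hN n n1 f g ⟨hf, hg⟩
  obtain ⟨ρ₁, c1, -, -, -, -, m1⟩ := hN n n1 (f + -w) g box1
  have e0 := (hNR n n2 f g ρ ⟨hf, hg⟩ c0).1.2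
  have e1 := (hNR n n2 (f + -w) g ρ₁ box1 c1).1.1
  have r0 : 0 < ρ := c0.1
  have r1 : 0 < ρ₁ := c1.1
  have hZn : 0 ≤ Zm n (Real.exp (-f)) g := Finset.sum_nonneg fun q _ => (EXPMM.wm_pos n _ _ q).le
  obtain ⟨hS, hZp⟩ := pos_of hC (pow_pos r0 n) hZn l0
  set κ : ℝ := 2 + Real.exp g + Real.exp (-g) with hκ
  have hκ0 : 0 < κ := by positivity
  set x : ℝ := CR * Real.exp (-(f + -w)) with hx
  have hx0 : 0 ≤ x := by positivity
  have hxn : x * n ≤ CR * M * Real.exp w := by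
    have h1 : x = CR * Real.exp w * Real.exp (-f) := by
      rw [hx, show -(f + -w) = w + -f by ring, Real.exp_add]
      ring
    calc x * n = CR * Real.exp w * (Real.exp (-f) * n) := by rw [h1]; ring
      _ ≤ CR * Real.exp w * M := mul_le_mul_of_nonneg_left hs (by positivity)
      _ = CR * M * Real.exp w := by ring
  have hx2 : x ≤ 1 / 2 := by
    have h1 : 2 * (x * n) ≤ n := by linarith
    have h2 : (2 * x) * n ≤ 1 * n := by linarith
    have := le_of_mul_le_mul_right h2 hnr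
    linarith
  have hpow := NSP.EXPZ.inv_pow_le hx0 hx2 n
  have hK : ρ ^ n ≤ Real.exp (2 * (CR * M * Real.exp w)) * ρ₁ ^ n := by
    have h1 : (ρ * κ) ^ n ≤ 1 := pow_le_one₀ (by positivity) e0
    have h2 : (1 - x) ^ n ≤ (ρ₁ * κ) ^ n := pow_le_pow_left₀ (by linarith) e1 n
    have h3 : Real.exp (2 * x * n) ≤ Real.exp (2 * (CR * M * Real.exp w)) :=
      Real.exp_le_exp.2 (by linarith)
    have h4 : (ρ * κ) ^ n ≤ Real.exp (2 * (CR * M * Real.exp w)) * (ρ₁ * κ) ^ n := by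
      refine h1.trans (hpow.trans ?_)
      exact mul_le_mul h3 h2 (pow_nonneg (by linarith) n) (Real.exp_pos _).le
    rw [mul_pow, mul_pow, ← mul_assoc] at h4
    exact le_of_mul_le_mul_right h4 (pow_pos hκ0 n)
  have hfin := NSP.EXPZ.ratio hC hS (pow_pos r1 n) (pow_pos r0 n) m1 l0 hK hZn
  refine le_trans (le_of_eq ?_) hfin
  unfold Zm
  refine Finset.sum_congr rfl fun q hq => ?_
  have h1 := EXPMM.wm_shift n f g (-w) 0 q (hH.2.2.2 n q hq).1
  rw [add_zero] at h1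
  rw [h1]
  congr 2
  ring

/-- exponential moments of the lateral coordinate -/
theorem Y_bound (hZ : ZBME_Stmt) (hR : RHOE_Stmt) (hH : HGM_Stmt) (a b w : ℝ) (ha : 0 < a)
    (hab : a ≤ b) : ∃ C : ℝ, 0 < C ∧ ∃ N : ℕ, ∀ n : ℕ, N ≤ n → ∀ f g t : ℝ,
      BoxE a b f g →
      |∑ q ∈ Omm n, wm n (Real.exp (-f)) g q * ((zt q : ℝ) - t)| ≤ Zm n (Real.exp (-f)) g →
      ∑ q ∈ Omm n, wm n (Real.exp (-f)) g q * Real.exp (w * (((zt q : ℝ) - t) / Real.sqrt n)) ≤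
        C * Zm n (Real.exp (-f)) g := by
  obtain ⟨C, θ, hC, hθ0, hθ1, N, hN⟩ := hZ a (2 * b) ha (by linarith)
  obtain ⟨CR, c, η, hCR, -, hη, NR, hNR⟩ := hR a b ha hab
  set κ : ℝ := min (min η (a / 2)) (1 / 2) with hκ
  have hκ0 : 0 < κ := lt_min (lt_min hη (by positivity)) (by norm_num)
  have hκ1 : κ ≤ η := (min_le_left _ _).trans (min_le_left _ _)
  have hκ2 : κ ≤ a / 2 := (min_le_left _ _).trans (min_le_right _ _)
  have hκ3 : κ ≤ 1 / 2 := min_le_right _ _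
  have hlim : Tendsto (fun n : ℕ => |w| / Real.sqrt n) atTop (𝓝 0) :=
    tendsto_const_nhds.div_atTop (Real.tendsto_sqrt_atTop.comp tendsto_natCast_atTop_atTop)
  obtain ⟨N1, hN1⟩ := Filter.eventually_atTop.1 (hlim.eventually (ge_mem_nhds hκ0))
  refine ⟨2 * (C ^ 4 * Real.exp (CR * w ^ 2)), by positivity, max (max N NR) (max N1 1),
    fun n hn f g t hbox hcen => ?_⟩
  have n1 : N ≤ n := (le_max_left _ _).trans ((le_max_left _ _).trans hn)
  have n2 : NR ≤ n := (le_max_right _ _).trans ((le_max_left _ _).trans hn)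
  have n3 : N1 ≤ n := (le_max_left _ _).trans ((le_max_right _ _).trans hn)
  have n4 : 1 ≤ n := (le_max_right _ _).trans ((le_max_right _ _).trans hn)
  have hnr : (0 : ℝ) < n := by exact_mod_cast n4
  have hsq : 0 < Real.sqrt n := Real.sqrt_pos.2 hnr
  have hsmall := hN1 n n3
  set v' : ℝ := w / Real.sqrt n with hv'
  have habs : |v'| ≤ κ := by
    rw [hv', abs_div, abs_of_pos hsq]
    exact hsmall
  have hv0 := abs_nonneg v'
  have hv1 := abs_le.1 (le_refl |v'|)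
  obtain ⟨hf, hg⟩ := hbox
  have hg1 := abs_le.1 hg
  -- the three boxes
  have box0 : BoxE a (2 * b) f g := ⟨hf, by linarith⟩
  have box1 : BoxE a (2 * b) (f + 0) (g + v') :=
    ⟨by linarith, abs_le.2 ⟨by linarith, by linarith⟩⟩
  have box2 : BoxE a (2 * b) (f - 0) (g - v') :=
    ⟨by linarith, abs_le.2 ⟨by linarith, by linarith⟩⟩
  obtain ⟨ρ, c0, -, -, -, l0, -⟩ := hN n n1 f g box0
  obtain ⟨ρ₁, c1, -, -, -, -, m1⟩ := hN n n1 (f + 0) (g + v') box1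
  obtain ⟨ρ₂, c2, -, -, -, -, m2⟩ := hN n n1 (f - 0) (g - v') box2
  have hlog := (hNR n n2 f g ρ ⟨hf, hg⟩ c0).2.2.2 0 v' ρ₁ ρ₂ (by rw [abs_zero]; exact hη.le)
    (by linarith) c1 c2
  have r0 : 0 < ρ := c0.1
  have r1 : 0 < ρ₁ := c1.1
  have r2 : 0 < ρ₂ := c2.1
  have hZn : 0 ≤ Zm n (Real.exp (-f)) g := Finset.sum_nonneg fun q _ => (EXPMM.wm_pos n _ _ q).le
  obtain ⟨hsc, hZpos⟩ := pos_of hC (pow_pos r0 n) hZn l0
  set Z : ℝ := Zm n (Real.exp (-f)) g with hZdef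
  set Z1 : ℝ := Zm n (Real.exp (-(f + 0))) (g + v') with hZ1
  set Z2 : ℝ := Zm n (Real.exp (-(f - 0))) (g - v') with hZ2
  have hZ1n : 0 ≤ Z1 := Finset.sum_nonneg fun q _ => (EXPMM.wm_pos n _ _ q).le
  have hZ2n : 0 ≤ Z2 := Finset.sum_nonneg fun q _ => (EXPMM.wm_pos n _ _ q).le
  -- a centre for the level
  obtain ⟨h, hh⟩ : ∃ h : ℝ, CenM n f g h t := by
    refine ⟨(∑ q ∈ Omm n, wm n (Real.exp (-f)) g q * (zl q : ℝ)) / Z, ?_, hcen⟩
    rw [← hZdef]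
    have h1 : ∑ q ∈ Omm n, wm n (Real.exp (-f)) g q * ((zl q : ℝ) -
        (∑ q ∈ Omm n, wm n (Real.exp (-f)) g q * (zl q : ℝ)) / Z) = 0 := by
      simp only [mul_sub]
      rw [Finset.sum_sub_distrib, ← Finset.sum_mul]
      have h2 : ∑ q ∈ Omm n, wm n (Real.exp (-f)) g q = Z := rfl
      rw [h2, mul_div_cancel₀ _ hZpos.ne', sub_self]
    rw [h1, abs_zero]
    exact hZpos.le
  -- the two sums
  have hA := EXPMM.sum_shift hH n f g 0 v' h t
  have hB := EXPMM.sum_shift hH n f g (-0) (-v') h t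
  rw [← sub_eq_add_neg, ← sub_eq_add_neg, ← hZ2] at hB
  rw [← hZ1] at hA
  have hlow := EXPMM.lower n f g (-0) (-v') h t hh (by rw [abs_neg, abs_neg, abs_zero]; linarith)
  rw [← hZdef] at hlow
  have hexp : ∀ q : QM, w * (((zt q : ℝ) - t) / Real.sqrt n)
      = 0 * ((zl q : ℝ) - h) + v' * ((zt q : ℝ) - t) := by
    intro q
    rw [hv']
    ring
  rw [Finset.sum_congr rfl fun q _ => by rw [hexp q]]
  set SA : ℝ := ∑ q ∈ Omm n, wm n (Real.exp (-f)) g q *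
      Real.exp (0 * ((zl q : ℝ) - h) + v' * ((zt q : ℝ) - t)) with hSA
  set SB : ℝ := ∑ q ∈ Omm n, wm n (Real.exp (-f)) g q *
      Real.exp (-0 * ((zl q : ℝ) - h) + -v' * ((zt q : ℝ) - t)) with hSB
  have hAB : SA * SB = Z1 * Z2 := by
    rw [hA, hB]
    have h1 : Real.exp (0 * ((n : ℝ) - h) - v' * t) * Real.exp (-0 * ((n : ℝ) - h) - -v' * t) = 1 := by
      rw [← Real.exp_add, ← Real.exp_zero]
      congr 1
      ring
    linear_combination (Z1 * Z2) * h1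
  -- the ratio of the critical weights
  have hratio : ρ ^ n * ρ ^ n ≤ Real.exp (CR * w ^ 2) * (ρ₁ ^ n * ρ₂ ^ n) := by
    have h1 := (abs_le.1 hlog).1
    have h2 : v' ^ 2 = w ^ 2 / n := by
      rw [hv', div_pow, Real.sq_sqrt hnr.le]
    rw [h2] at h1
    have h3 : (n : ℝ) * -(Real.log (ρ₁ / ρ) + Real.log (ρ₂ / ρ)) ≤ CR * w ^ 2 := by
      have h4 : -(Real.log (ρ₁ / ρ) + Real.log (ρ₂ / ρ)) ≤ CR * (w ^ 2 / n) := by
        have h40 : CR * (Real.exp (-f) * 0 ^ 2 + w ^ 2 / n) = CR * (w ^ 2 / n) := by ring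
        linarith
      calc (n : ℝ) * -(Real.log (ρ₁ / ρ) + Real.log (ρ₂ / ρ))
          ≤ n * (CR * (w ^ 2 / n)) := mul_le_mul_of_nonneg_left h4 hnr.le
        _ = CR * w ^ 2 := by field_simp
    have h5 : Real.exp (n * -(Real.log (ρ₁ / ρ) + Real.log (ρ₂ / ρ))) =
        (ρ ^ n * ρ ^ n) / (ρ₁ ^ n * ρ₂ ^ n) := by
      rw [Real.exp_nat_mul, neg_add, Real.exp_add, Real.exp_neg, Real.exp_neg,
        Real.exp_log (div_pos r1 r0), Real.exp_log (div_pos r2 r0), mul_pow, inv_pow, inv_pow,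
        div_pow, div_pow]
      field_simp
    have h6 := Real.exp_le_exp.2 h3
    rw [h5, div_le_iff₀ (by positivity)] at h6
    exact h6
  have hprod : Z1 * Z2 ≤ C ^ 4 * Real.exp (CR * w ^ 2) * (Z * Z) := by
    have h1 : (sc n * ρ₁ ^ n * Z1) * (sc n * ρ₂ ^ n * Z2) ≤ C * C :=
      mul_le_mul m1 m2 (by positivity) hC.le
    have h2 : 1 ≤ C * (sc n * ρ ^ n * Z) := by
      have := mul_le_mul_of_nonneg_left l0 hC.le
      rwa [mul_inv_cancel₀ hC.ne'] at this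
    have h3 : 1 ≤ (C * (sc n * ρ ^ n * Z)) * (C * (sc n * ρ ^ n * Z)) :=
      one_le_mul_of_one_le_of_one_le h2 h2
    have h4 : 0 < (sc n * ρ₁ ^ n) * (sc n * ρ₂ ^ n) := by positivity
    have h5 : ((sc n * ρ₁ ^ n) * (sc n * ρ₂ ^ n)) * (Z1 * Z2) ≤
        ((sc n * ρ₁ ^ n) * (sc n * ρ₂ ^ n)) *
          (C ^ 4 * Real.exp (CR * w ^ 2) * (Z * Z)) := by
      calc ((sc n * ρ₁ ^ n) * (sc n * ρ₂ ^ n)) * (Z1 * Z2)
          = (sc n * ρ₁ ^ n * Z1) * (sc n * ρ₂ ^ n * Z2) := by ring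
        _ ≤ C * C := h1
        _ ≤ C * C * ((C * (sc n * ρ ^ n * Z)) * (C * (sc n * ρ ^ n * Z))) :=
            le_mul_of_one_le_right (by positivity) h3
        _ = C ^ 4 * (sc n * sc n) * (Z * Z) * (ρ ^ n * ρ ^ n) := by ring
        _ ≤ C ^ 4 * (sc n * sc n) * (Z * Z) *
              (Real.exp (CR * w ^ 2) * (ρ₁ ^ n * ρ₂ ^ n)) :=
            mul_le_mul_of_nonneg_left hratio (by positivity)
        _ = ((sc n * ρ₁ ^ n) * (sc n * ρ₂ ^ n)) *
          (C ^ 4 * Real.exp (CR * w ^ 2) * (Z * Z)) := by ring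
    exact le_of_mul_le_mul_left h5 h4
  have hSA0 : 0 ≤ SA := Finset.sum_nonneg fun q _ =>
    mul_nonneg (EXPMM.wm_pos n _ _ q).le (Real.exp_pos _).le
  have hfin : SA * (Z / 2) ≤ C ^ 4 * Real.exp (CR * w ^ 2) * (Z * Z) := by
    calc SA * (Z / 2) ≤ SA * SB := mul_le_mul_of_nonneg_left hlow hSA0
      _ = Z1 * Z2 := hAB
      _ ≤ _ := hprod
  have h9 : SA * (Z / 2) ≤ (2 * (C ^ 4 * Real.exp (CR * w ^ 2)) * Z) * (Z / 2) := by
    refine hfin.trans (le_of_eq ?_)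
    ring
  exact le_of_mul_le_mul_right h9 (by positivity)

end EXPE2

theorem t_EXPE2 (hZ : ZBME_Stmt) (hR : RHOE_Stmt) (hH : HGM_Stmt) : EXPE2_Stmt := by
  intro a b u v M ha hab hM
  obtain ⟨C1, hC1, N1, h1⟩ := EXPE2.J_bound hZ hR hH a b (2 * u) M ha hab hM
  obtain ⟨C2, hC2, N2, h2⟩ := EXPE2.Y_bound hZ hR hH a b (2 * v) ha hab
  refine ⟨C1 + C2, by positivity, max N1 N2, fun n hn f g t hbox hs hcen => ?_⟩
  have e1 := h1 n ((le_max_left _ _).trans hn) f g hbox hs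
  have e2 := h2 n ((le_max_right _ _).trans hn) f g t hbox hcen
  rw [add_mul]
  refine le_trans ?_ (add_le_add e1 e2)
  rw [← Finset.sum_add_distrib]
  refine Finset.sum_le_sum fun q _ => ?_
  rw [← mul_add]
  refine mul_le_mul_of_nonneg_left ?_ (EXPMM.wm_pos n _ _ q).le
  set X : ℝ := u * ((n : ℝ) - zl q) with hX
  set Y : ℝ := v * (((zt q : ℝ) - t) / Real.sqrt n) with hY
  have hX2 : 2 * u * ((n : ℝ) - zl q) = X + X := by rw [hX]; ring
  have hY2 : 2 * v * (((zt q : ℝ) - t) / Real.sqrt n) = Y + Y := by rw [hY]; ring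
  rw [hX2, hY2, Real.exp_add, Real.exp_add, Real.exp_add]
  nlinarith [sq_nonneg (Real.exp X - Real.exp Y), Real.exp_pos X, Real.exp_pos Y,
    mul_pos (Real.exp_pos X) (Real.exp_pos Y)]

end Pool.Agent.TPE
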