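import Pool.Agent.TPE.Stmts

/-!
# Project TPE, module FIXE: fixed `e` (helper23)
-/

set_option autoImplicit false

namespace Pool.Agent.TPE

open Finset Filter Topology MeasureTheory
open Pool.Agent.Lib27 Pool.Agent.SapR Pool.Agent.AreaLaw Pool.Agent.FL Pool.Agent.TPT
open Pool.Agent.FS (sc rs bp)
open Pool.Agent.NSP (lc ld tz)
open Pool.Agent.KCS (airyMoment)
open Pool.Agent.KCC (areaMoment)

namespace FIXEx

/-- The subsequence argument for a function `G n z`. -/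
theorem aux (G : ℕ → ℤ × ℤ → ℝ) (L : ℝ) (e : ℝ) (he : 0 < e)
    (hF : ∀ e : ℝ, 0 < e → ∀ z : ℕ → ℤ × ℤ,
      (∀ᶠ n : ℕ in atTop, e * n ≤ ((|(z n).1| + |(z n).2| : ℤ) : ℝ) ∧
        ((|(z n).1| + |(z n).2| : ℤ) : ℝ) ≤ (1 - e) * n) →
      Tendsto (fun n : ℕ => G n (z n)) atTop (𝓝 L))
    (hN : ∀ e : ℝ, 0 < e → ∀ z : ℕ → ℤ × ℤ,
      (∀ᶠ n : ℕ in atTop, 0 ≤ lev (z n) ∧ lev (z n) ≤ n ∧
        ((|lat (z n)| : ℤ) : ℝ) ≤ (1 - e) * n) →
      Tendsto (fun n : ℕ => (lev (z n) : ℝ) / n) atTop (𝓝 1) →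
      Tendsto (fun n : ℕ => G n (z n)) atTop (𝓝 L))
    (hS : ∀ z : ℤ × ℤ, ∃ z' : ℤ × ℤ, lev z' = |z.1| + |z.2| ∧
      |lat z'| = |(|z.1| - |z.2|)| ∧ ∀ n : ℕ, G n z = G n z')
    (z : ℕ → ℤ × ℤ) (hz : ∀ᶠ n : ℕ in atTop, okE e n (z n)) :
    Tendsto (fun n : ℕ => G n (z n)) atTop (𝓝 L) := by
  classical
  have he1 : e ≤ 1 := by
    obtain ⟨n, hn, hn1⟩ := (hz.and (eventually_ge_atTop 1)).exists
    obtain ⟨h1, h2, -⟩ := hn
    have h3 : ((|(z n).1| + |(z n).2| : ℤ) : ℝ) ≤ n := by exact_mod_cast h2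
    have h4 : (1 : ℝ) ≤ n := by exact_mod_cast hn1
    by_contra h5
    push Not at h5
    nlinarith
  rw [Metric.tendsto_nhds]
  intro ε hε
  by_contra hcon
  rw [not_eventually] at hcon
  by_cases hc : ∃ c : ℝ, c < 1 ∧ ∃ᶠ n : ℕ in atTop,
      ¬ dist (G n (z n)) L < ε ∧ ((|(z n).1| + |(z n).2| : ℤ) : ℝ) ≤ c * n
  · obtain ⟨c, hc1, hc⟩ := hc
    let w : ℕ → ℤ × ℤ := fun n =>
      if ¬ dist (G n (z n)) L < ε ∧ ((|(z n).1| + |(z n).2| : ℤ) : ℝ) ≤ c * n then z n
      else (((n / 2 : ℕ) : ℤ), 0)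
    set e' : ℝ := min e (min (1 - c) (1 / 4)) with he'
    have hp' : 0 < e' := lt_min he (lt_min (by linarith) (by norm_num))
    have hb1 : e' ≤ e := min_le_left _ _
    have hb2 : e' ≤ 1 - c := (min_le_right _ _).trans (min_le_left _ _)
    have hb3 : e' ≤ 1 / 4 := (min_le_right _ _).trans (min_le_right _ _)
    have h1 : ∀ᶠ n : ℕ in atTop, e' * n ≤ ((|(w n).1| + |(w n).2| : ℤ) : ℝ) ∧
        ((|(w n).1| + |(w n).2| : ℤ) : ℝ) ≤ (1 - e') * n := by
      filter_upwards [hz, eventually_ge_atTop 2] with n hn hn2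
      have hn0 : (0 : ℝ) ≤ n := Nat.cast_nonneg n
      by_cases hp : ¬ dist (G n (z n)) L < ε ∧ ((|(z n).1| + |(z n).2| : ℤ) : ℝ) ≤ c * n
      · have e1 : w n = z n := if_pos hp
        rw [e1]
        refine ⟨(mul_le_mul_of_nonneg_right hb1 hn0).trans hn.1, hp.2.trans ?_⟩
        exact mul_le_mul_of_nonneg_right (by linarith) hn0
      · have e1 : w n = (((n / 2 : ℕ) : ℤ), 0) := if_neg hp
        rw [e1]
        have e2 : ((|((((n / 2 : ℕ) : ℤ), (0 : ℤ)) : ℤ × ℤ).1| +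
            |((((n / 2 : ℕ) : ℤ), (0 : ℤ)) : ℤ × ℤ).2| : ℤ) : ℝ) = ((n / 2 : ℕ) : ℝ) := by
          simp only [abs_zero, add_zero]
          rw [abs_of_nonneg (Int.natCast_nonneg _)]
          exact Int.cast_natCast _
        rw [e2]
        have h2 : (n : ℝ) ≤ 4 * ((n / 2 : ℕ) : ℝ) := by
          have : n ≤ 4 * (n / 2) := by omega
          exact_mod_cast this
        have h3 : 2 * ((n / 2 : ℕ) : ℝ) ≤ n := by
          have : 2 * (n / 2) ≤ n := by omega
          exact_mod_cast this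
        have h4 : e' * n ≤ 1 / 4 * n := mul_le_mul_of_nonneg_right hb3 hn0
        constructor <;> linarith
    have h2 := (Metric.tendsto_nhds.1 (hF e' hp' w h1)) ε hε
    obtain ⟨n, hn1, hn2⟩ := (hc.and_eventually h2).exists
    have e1 : w n = z n := if_pos hn1
    rw [e1] at hn2
    exact hn1.1 hn2
  · push Not at hc
    choose y hy1 hy2 hy3 using fun n => hS (z n)
    let w : ℕ → ℤ × ℤ := fun n =>
      if ¬ dist (G n (z n)) L < ε then y n else ((((n + 1) / 2 : ℕ) : ℤ), ((n / 2 : ℕ) : ℤ))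
    have hlev : ∀ n : ℕ, lev (((((n + 1) / 2 : ℕ) : ℤ), ((n / 2 : ℕ) : ℤ))) = n := by
      intro n
      simp only [lev]
      omega
    have hlat : ∀ n : ℕ, |lat (((((n + 1) / 2 : ℕ) : ℤ), ((n / 2 : ℕ) : ℤ)))| ≤ 1 := by
      intro n
      simp only [lat]
      rw [abs_le]
      constructor <;> omega
    have h1 : ∀ᶠ n : ℕ in atTop, 0 ≤ lev (w n) ∧ lev (w n) ≤ n ∧
        ((|lat (w n)| : ℤ) : ℝ) ≤ (1 - e / 2) * n := by
      filter_upwards [hz, hc (1 - e) (by linarith), eventually_ge_atTop 2] with n hn hn2 hn3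
      have hn0 : (2 : ℝ) ≤ n := by exact_mod_cast hn3
      by_cases hp : ¬ dist (G n (z n)) L < ε
      · have e1 : w n = y n := if_pos hp
        rw [e1]
        have h2 := hn2 (not_lt.1 hp)
        obtain ⟨-, h3, h4⟩ := hn
        refine ⟨?_, ?_, ?_⟩
        · rw [hy1 n]
          positivity
        · rw [hy1 n]
          exact h3
        · rw [hy2 n]
          have h5 : (|(|(z n).1| - |(z n).2|)| : ℤ) =
              2 * max |(z n).1| |(z n).2| - (|(z n).1| + |(z n).2|) := by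
            rcases le_total |(z n).1| |(z n).2| with h6 | h6
            · rw [max_eq_right h6, abs_of_nonpos (by linarith)]
              ring
            · rw [max_eq_left h6, abs_of_nonneg (by linarith)]
              ring
          rw [h5]
          push_cast at h4 h2 ⊢
          nlinarith
      · have e1 : w n = ((((n + 1) / 2 : ℕ) : ℤ), ((n / 2 : ℕ) : ℤ)) := if_neg hp
        rw [e1]
        refine ⟨?_, ?_, ?_⟩
        · rw [hlev n]
          positivity
        · rw [hlev n]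
        · have h6 : ((|lat (((((n + 1) / 2 : ℕ) : ℤ), ((n / 2 : ℕ) : ℤ)))| : ℤ) : ℝ) ≤ 1 := by
            exact_mod_cast hlat n
          refine h6.trans ?_
          nlinarith
    have h2 : Tendsto (fun n : ℕ => (lev (w n) : ℝ) / n) atTop (𝓝 1) := by
      rw [Metric.tendsto_nhds]
      intro δ hδ
      filter_upwards [h1, hc (1 - δ) (by linarith), eventually_ge_atTop 1] with n hn1 hn2 hn3
      have hn0 : (0 : ℝ) < n := by exact_mod_cast hn3
      rw [Real.dist_eq, abs_lt]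
      have h4 : (lev (w n) : ℝ) / n ≤ 1 := by
        rw [div_le_one hn0]
        exact_mod_cast hn1.2.1
      have h5 : 1 - δ < (lev (w n) : ℝ) / n := by
        rw [lt_div_iff₀ hn0]
        by_cases hp : ¬ dist (G n (z n)) L < ε
        · have e1 : w n = y n := if_pos hp
          rw [e1, hy1 n]
          exact hn2 (not_lt.1 hp)
        · have e1 : w n = ((((n + 1) / 2 : ℕ) : ℤ), ((n / 2 : ℕ) : ℤ)) := if_neg hp
          rw [e1, hlev n]
          push_cast
          nlinarith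
      constructor <;> linarith
    have h3 := (Metric.tendsto_nhds.1 (hN (e / 2) (by linarith) w h1 h2)) ε hε
    obtain ⟨n, hn1, hn2⟩ := (hcon.and_eventually h3).exists
    have e1 : w n = y n := if_pos hn1
    rw [e1, ← hy3 n] at hn2
    exact hn1 hn2

end FIXEx

theorem t_FIXE (hF : FIXM_Stmt) (hN : NEARE_Stmt) (hS : SYME_Stmt) : FIXE_Stmt := by
  intro μ hμ e he z hz
  constructor
  · intro x hx
    refine FIXEx.aux (fun n y => areaCdf n (Thr n y) x) (μ (Set.Iic x)).toReal e he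
      (fun e' he' w hw => (hF μ hμ.1 hμ.2.1 hμ.2.2 e' he' w hw).1 x hx)
      (fun e' he' w hw hw2 => (hN μ hμ e' he' w hw hw2).1 x hx) (fun y => ?_) z hz
    obtain ⟨y', -, h2, h3, h4⟩ := hS y
    exact ⟨y', h2, h3, fun n => (h4 n).1 x⟩
  · intro r
    refine FIXEx.aux (fun n y => areaMoment n (Thr n y) r) (airyMoment r) e he
      (fun e' he' w hw => (hF μ hμ.1 hμ.2.1 hμ.2.2 e' he' w hw).2 r)
      (fun e' he' w hw hw2 => (hN μ hμ e' he' w hw hw2).2 r) (fun y => ?_) z hz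
    obtain ⟨y', -, h2, h3, h4⟩ := hS y
    exact ⟨y', h2, h3, fun n => (h4 n).2 r⟩

end Pool.Agent.TPE
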