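import Pool.Agent.TPE.Stmts
import Pool.Agent.TPT.FLM

/-!
# Project TPE, module FLME (port of `TPT/FLM.lean`)
-/

set_option autoImplicit false

namespace Pool.Agent.TPE

open Finset Filter Topology MeasureTheory
open Pool.Agent.Lib27 Pool.Agent.SapR Pool.Agent.AreaLaw Pool.Agent.TPT
open Pool.Agent.FL (Wd hl htn HG_Stmt)
open Pool.Agent.FS (sc)
open Pool.Agent.Gap (IsCap closeP B0 B0_isSol qn cap1 stair)
open Pool.Agent.KCS (airyMoment)

theorem t_FLME (hMo : MODME_Stmt) (hF : TPK.QFIN_Stmt) (hMk : TPK.MOMK_Stmt) (hU : NSP.UNQ_Stmt)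
    (hH : HGM_Stmt) : FLME_Stmt := by
  intro μ hμ hst a b ha hab f g hbox
  obtain ⟨μ', hμ', hold, hnew⟩ := hF
  have hst' : ∀ x : ℝ, μ' {x} = 0 →
      Tendsto (fun n : ℕ => areaCdf n (Staircase n) x) atTop (𝓝 (μ' (Set.Iic x)).toReal) := by
    intro x hx
    have key : Tendsto (fun n : ℕ => areaCdf n (Short 1 n) x) atTop
        (𝓝 (μ' (Set.Iic x)).toReal) := by
      refine (hold (M41.mdl 1 le_rfl) x hx).congr' ?_
      filter_upwards [eventually_gt_atTop 1] with n hn
      exact (M41.short_cdf 1 le_rfl n (by omega) x).symm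
    refine key.congr' ?_
    filter_upwards [eventually_ge_atTop 2] with n hn
    exact (M41.stair_cdf n hn x).symm
  have hEq : μ' = μ :=
    hU μ' μ hμ' hμ (fun n x => areaCdf n (Staircase n) x) hst' hst
  subst hEq
  obtain ⟨D, hD2, N, hN, hQ⟩ := hMo a b ha hab
  obtain ⟨Q, hn, hb, hq⟩ := hQ f g hbox
  have hslow := FLM.slow_const hD2
  refine ⟨fun x hx => ?_, fun r => ?_⟩
  · refine (hnew (fun _ => D) hslow Q x hx).congr' ?_
    filter_upwards [eventually_ge_atTop N] with n hn'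
    obtain ⟨_, h2, _⟩ := hq n hn'
    rw [h2 x]
    rfl
  · refine (hMk (fun _ => D) hslow Q hn hb r).congr' ?_
    filter_upwards [eventually_ge_atTop N] with n hn'
    obtain ⟨_, _, h3, _⟩ := hq n hn'
    rw [h3 r]
    rfl

end Pool.Agent.TPE
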