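import Pool.Agent.TPE.Stmts
import Pool.Agent.TPT.INDM

/-!
# Asymptotic independence of the two coordinates of the second mark and of the area, large force
-/

set_option autoImplicit false

namespace Pool.Agent.TPE

open Finset Filter Topology MeasureTheory
open Pool.Agent.Lib27 Pool.Agent.SapR Pool.Agent.AreaLaw Pool.Agent.FL Pool.Agent.TPT
open Pool.Agent.FS (sc)

namespace INDEaux

open Pool.Agent.TPT.INDMaux (ev mul_bdd ev_congr tilt_sum wm_nonneg Zm_nonneg rm_nonneg wm_tilt
  ev_eq sqrt_small)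

/-! ### Abstract part -/

/-- the hypotheses -/
structure Hyp {α : ℕ → Type} (P : ∀ n, Finset (α n)) (W X Y A : ∀ n, α n → ℝ) : Prop where
  nn : ∀ n x, 0 ≤ W n x
  an : ∀ n x, 0 ≤ A n x
  one : ∀ᶠ n in atTop, ∑ x ∈ P n, W n x = 1
  ex : ∀ u v : ℝ, ∃ C : ℝ, ∀ᶠ n in atTop,
    ev P W n (fun x => Real.exp (u * X n x + v * Y n x)) ≤ C
  a1 : ∃ C : ℝ, ∀ᶠ n in atTop, ev P W n (fun x => A n x) ≤ C
  a2 : ∃ C : ℝ, ∀ᶠ n in atTop, ev P W n (fun x => A n x ^ 2) ≤ C
  st : ∀ u v lam : ℝ, 0 ≤ lam → Tendsto (fun n =>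
    ev P W n (fun x => Real.exp (u * X n x + v * Y n x) * Real.exp (-(lam * A n x))) -
      ev P W n (fun x => Real.exp (u * X n x + v * Y n x)) *
        ev P W n (fun x => Real.exp (-(lam * A n x)))) atTop (𝓝 0)

section

variable {α : ℕ → Type} {P : ∀ n, Finset (α n)} {W X Y A : ∀ n, α n → ℝ}

theorem ev_nonneg (H : Hyp P W X Y A) {n : ℕ} {F : α n → ℝ} (h : ∀ x, 0 ≤ F x) :
    0 ≤ ev P W n F := Finset.sum_nonneg fun x _ => mul_nonneg (H.nn n x) (h x)

theorem ev_mono (H : Hyp P W X Y A) {n : ℕ} {F G : α n → ℝ} (h : ∀ x, F x ≤ G x) :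
    ev P W n F ≤ ev P W n G :=
  Finset.sum_le_sum fun x _ => mul_le_mul_of_nonneg_left (h x) (H.nn n x)

theorem abs_ev_le (H : Hyp P W X Y A) {n : ℕ} {F G : α n → ℝ} (h : ∀ x, |F x| ≤ G x) :
    |ev P W n F| ≤ ev P W n G := by
  refine (Finset.abs_sum_le_sum_abs _ _).trans (Finset.sum_le_sum fun x _ => ?_)
  rw [abs_mul, abs_of_nonneg (H.nn n x)]
  exact mul_le_mul_of_nonneg_left (h x) (H.nn n x)

theorem ex1 (H : Hyp P W X Y A) (v : ℝ) : ∃ C : ℝ, 0 ≤ C ∧ ∀ᶠ n in atTop,
    ev P W n (fun x => Real.exp (v * Y n x)) ≤ C := by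
  obtain ⟨C, hC⟩ := H.ex 0 v
  refine ⟨|C|, abs_nonneg _, ?_⟩
  filter_upwards [hC] with n hn
  refine le_trans (le_of_eq ?_) (hn.trans (le_abs_self C))
  exact ev_congr fun x => by rw [zero_mul, zero_add]

theorem one' (H : Hyp P W X Y A) : ∀ᶠ n in atTop, ev P W n (fun _ => 1) = 1 := by
  filter_upwards [H.one] with n hn
  have h1 : ev P W n (fun _ => 1) = ∑ x ∈ P n, W n x :=
    Finset.sum_congr rfl fun x _ => mul_one _
  rw [h1, hn]

/-- lower bound of the exponential moments -/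
theorem lb (H : Hyp P W X Y A) (v : ℝ) : ∃ c : ℝ, 0 < c ∧ ∀ᶠ n in atTop,
    c ≤ ev P W n (fun x => Real.exp (v * Y n x)) := by
  obtain ⟨C1, _, h1⟩ := ex1 H 1
  obtain ⟨C2, _, h2⟩ := ex1 H (-1)
  refine ⟨Real.exp (-(|v| * (C1 + C2))), Real.exp_pos _, ?_⟩
  filter_upwards [h1, h2, one' H] with n e1 e2 e3
  obtain ⟨m, hm⟩ : ∃ m, m = ev P W n (fun x => Y n x) := ⟨_, rfl⟩
  have hm1 : |m| ≤ C1 + C2 := by
    rw [hm]
    refine (abs_ev_le H (G := fun x => Real.exp (1 * Y n x) + Real.exp (-1 * Y n x))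
      fun x => ?_).trans ?_
    · have a1 := Real.add_one_le_exp (1 * Y n x)
      have a2 := Real.add_one_le_exp (-1 * Y n x)
      have a3 := Real.exp_pos (1 * Y n x)
      have a4 := Real.exp_pos (-1 * Y n x)
      exact abs_le.2 ⟨by linarith, by linarith⟩
    · have a5 : ev P W n (fun x => Real.exp (1 * Y n x) + Real.exp (-1 * Y n x)) =
          ev P W n (fun x => Real.exp (1 * Y n x)) + ev P W n (fun x => Real.exp (-1 * Y n x)) := by
        unfold ev
        rw [← Finset.sum_add_distrib]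
        exact Finset.sum_congr rfl fun x _ => by ring
      rw [a5]
      exact add_le_add e1 e2
  have hm2 : -(|v| * (C1 + C2)) ≤ v * m := by
    have b1 : |v * m| ≤ |v| * (C1 + C2) := by
      rw [abs_mul]
      exact mul_le_mul_of_nonneg_left hm1 (abs_nonneg _)
    exact (neg_le_neg b1).trans (neg_abs_le _)
  refine (Real.exp_le_exp.2 hm2).trans ?_
  have h3 : ev P W n (fun x => Real.exp (v * m) * (1 + v * Y n x - v * m)) ≤
      ev P W n (fun x => Real.exp (v * Y n x)) := ev_mono H fun x => by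
    have c1 := Real.add_one_le_exp (v * Y n x - v * m)
    have c2 : Real.exp (v * Y n x) = Real.exp (v * m) * Real.exp (v * Y n x - v * m) := by
      rw [← Real.exp_add]
      congr 1
      ring
    rw [c2]
    exact mul_le_mul_of_nonneg_left (by linarith) (Real.exp_pos _).le
  refine le_trans (le_of_eq ?_) h3
  have h4 : ev P W n (fun x => Real.exp (v * m) * (1 + v * Y n x - v * m)) =
      Real.exp (v * m) * ((1 - v * m) * ev P W n (fun _ => 1) + v * ev P W n (fun x => Y n x)) := by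
    unfold ev
    rw [Finset.mul_sum, Finset.mul_sum, ← Finset.sum_add_distrib, Finset.mul_sum]
    exact Finset.sum_congr rfl fun x _ => by ring
  rw [h4, e3, ← hm]
  ring

/-- S1 : independence for the weights with an exponential factor -/
theorem S1 (hI : FS.IND_Stmt) (H : Hyp P W X Y A) (v : ℝ) (χ φ : ℝ → ℝ) (hχ : Continuous χ)
    (hφ : Continuous φ) (hχ1 : ∀ x, |χ x| ≤ 1) (hφ1 : ∀ x, |φ x| ≤ 1) :
    Tendsto (fun n => ev P W n (fun x => Real.exp (v * Y n x) * (χ (X n x) * φ (A n x))) -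
      ev P W n (fun x => Real.exp (v * Y n x) * χ (X n x)) *
        (ev P W n (fun x => Real.exp (v * Y n x) * φ (A n x)) /
          ev P W n (fun x => Real.exp (v * Y n x)))) atTop (𝓝 0) := by
  set M : ℕ → ℝ := fun n => ev P W n (fun x => Real.exp (v * Y n x)) with hM
  obtain ⟨c, hc0, hlb'⟩ := lb H v
  have hlb : ∀ᶠ n in atTop, c ≤ M n := hlb'
  have hM0 : ∀ n, 0 ≤ M n := fun n => ev_nonneg H fun x => (Real.exp_pos _).le
  obtain ⟨C, hC0, hC⟩ := ex1 H v
  have key := hI α P (fun n x => W n x * Real.exp (v * Y n x) / M n) X A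
    (fun n x => div_nonneg (mul_nonneg (H.nn n x) (Real.exp_pos _).le) (hM0 n)) H.an ?_ ?_ ?_ ?_
    χ φ hχ hφ hχ1 hφ1
  · -- multiply by `M`
    have h1 := mul_bdd key C (b := M) (by
      filter_upwards [hC] with n hn
      rw [abs_of_nonneg (hM0 n)]
      exact hn)
    refine h1.congr' ?_
    filter_upwards [hlb] with n hn
    have hMn : M n ≠ 0 := by
      intro h0
      rw [h0] at hn
      linarith
    rw [tilt_sum, tilt_sum, tilt_sum]
    have e5 : ev P W n (fun x => Real.exp (v * Y n x)) = M n := rfl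
    rw [e5]
    field_simp
  · filter_upwards [hlb] with n hn
    have : ∑ x ∈ P n, W n x * Real.exp (v * Y n x) / M n = M n / M n := by
      rw [← Finset.sum_div]
      rfl
    rw [this, div_self (by linarith)]
  · intro t
    obtain ⟨C', hC'⟩ := H.ex t v
    refine ⟨|C'| / c, ?_⟩
    filter_upwards [hlb, hC'] with n hn h1
    rw [tilt_sum]
    refine div_le_div₀ (abs_nonneg _) ?_ hc0 hn
    have e1 : ev P W n (fun x => Real.exp (v * Y n x) * Real.exp (t * X n x)) =
        ev P W n (fun x => Real.exp (t * X n x + v * Y n x)) :=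
      ev_congr fun x => by rw [← Real.exp_add, add_comm]
    rw [e1]
    exact h1.trans (le_abs_self C')
  · obtain ⟨C1, hC1⟩ := H.ex 0 (2 * v)
    obtain ⟨C2, hC2⟩ := H.a2
    refine ⟨(|C1| + |C2|) / c, ?_⟩
    filter_upwards [hlb, hC1, hC2] with n hn h1 h2
    rw [tilt_sum]
    refine div_le_div₀ (by positivity) ?_ hc0 hn
    have h3 : ev P W n (fun x => Real.exp (v * Y n x) * A n x) ≤
        1 / 2 * ev P W n (fun x => Real.exp (0 * X n x + 2 * v * Y n x)) +
          1 / 2 * ev P W n (fun x => A n x ^ 2) := by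
      unfold ev
      rw [Finset.mul_sum, Finset.mul_sum, ← Finset.sum_add_distrib]
      refine Finset.sum_le_sum fun x _ => ?_
      dsimp only
      have e2 : Real.exp (0 * X n x + 2 * v * Y n x) = Real.exp (v * Y n x) ^ 2 := by
        rw [← Real.exp_nat_mul]
        congr 1
        push_cast
        ring
      rw [e2]
      have h4 : Real.exp (v * Y n x) * A n x ≤
          1 / 2 * Real.exp (v * Y n x) ^ 2 + 1 / 2 * A n x ^ 2 := by
        nlinarith [sq_nonneg (Real.exp (v * Y n x) - A n x)]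
      have h5 := mul_le_mul_of_nonneg_left h4 (H.nn n x)
      linarith
    have h4 := le_abs_self C1
    have h5 := le_abs_self C2
    have h6 := abs_nonneg C1
    have h7 := abs_nonneg C2
    linarith
  · intro t lam hlam
    have s1 := H.st t v lam hlam
    have s2 := H.st 0 v lam hlam
    obtain ⟨C', hC'⟩ := H.ex t v
    -- the two errors
    have b1 : ∀ᶠ n in atTop, |(M n)⁻¹| ≤ c⁻¹ := by
      filter_upwards [hlb] with n hn
      rw [abs_of_nonneg (inv_nonneg.2 (hM0 n))]
      exact inv_anti₀ hc0 hn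
    have b2 : ∀ᶠ n in atTop, |-(ev P W n (fun x => Real.exp (t * X n x + v * Y n x)) *
        ((M n)⁻¹ * (M n)⁻¹))| ≤ |C'| * (c⁻¹ * c⁻¹) := by
      filter_upwards [b1, hC'] with n h1 h2
      rw [abs_neg, abs_mul, abs_mul]
      refine mul_le_mul ?_ (mul_le_mul h1 h1 (abs_nonneg _) (by positivity)) (by positivity)
        (abs_nonneg _)
      rw [abs_of_nonneg (ev_nonneg H fun x => (Real.exp_pos _).le)]
      exact h2.trans (le_abs_self _)
    have t1 := (mul_bdd s1 _ b1).add (mul_bdd s2 _ b2)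
    rw [add_zero] at t1
    refine t1.congr' ?_
    filter_upwards [hlb] with n hn
    have hMn : M n ≠ 0 := by
      intro h0
      rw [h0] at hn
      linarith
    rw [tilt_sum, tilt_sum, tilt_sum]
    have e1 : ev P W n (fun x => Real.exp (v * Y n x) * Real.exp (t * X n x)) =
        ev P W n (fun x => Real.exp (t * X n x + v * Y n x)) :=
      ev_congr fun x => by rw [← Real.exp_add, add_comm]
    have e2 : ev P W n (fun x => Real.exp (v * Y n x) *
        (Real.exp (t * X n x) * Real.exp (-(lam * A n x)))) =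
        ev P W n (fun x => Real.exp (t * X n x + v * Y n x) * Real.exp (-(lam * A n x))) :=
      ev_congr fun x => by rw [← mul_assoc, ← Real.exp_add, add_comm (v * Y n x)]
    have e3 : ev P W n (fun x => Real.exp (v * Y n x) * Real.exp (-(lam * A n x))) =
        ev P W n (fun x => Real.exp (0 * X n x + v * Y n x) * Real.exp (-(lam * A n x))) :=
      ev_congr fun x => by rw [zero_mul, zero_add]
    have e4 : ev P W n (fun x => Real.exp (0 * X n x + v * Y n x)) = M n :=
      ev_congr fun x => by rw [zero_mul, zero_add]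
    rw [e1, e2, e3, e4]
    field_simp
    ring

/-- S2 -/
theorem S2 (hI : FS.IND_Stmt) (H : Hyp P W X Y A) (v lam : ℝ) (hlam : 0 ≤ lam) (χ : ℝ → ℝ)
    (hχ : Continuous χ) (hχ1 : ∀ x, |χ x| ≤ 1) :
    Tendsto (fun n => ev P W n (fun x => Real.exp (v * Y n x) *
        (χ (X n x) * Real.exp (-(lam * A n x)))) -
      ev P W n (fun x => Real.exp (v * Y n x) * χ (X n x)) *
        ev P W n (fun x => Real.exp (-(lam * A n x)))) atTop (𝓝 0) := by
  set M : ℕ → ℝ := fun n => ev P W n (fun x => Real.exp (v * Y n x)) with hM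
  obtain ⟨c, hc0, hlb'⟩ := lb H v
  have hlb : ∀ᶠ n in atTop, c ≤ M n := hlb'
  have hM0 : ∀ n, 0 ≤ M n := fun n => ev_nonneg H fun x => (Real.exp_pos _).le
  obtain ⟨C, hC0, hC⟩ := ex1 H v
  have h1 := S1 hI H v χ (fun a => Real.exp (-(lam * |a|))) hχ (by fun_prop) hχ1 (fun a => by
    rw [abs_of_pos (Real.exp_pos _)]
    exact Real.exp_le_one_iff.2 (by have := mul_nonneg hlam (abs_nonneg a); linarith))
  have h2 := H.st 0 v lam hlam
  have b1 : ∀ᶠ n in atTop, |ev P W n (fun x => Real.exp (v * Y n x) * χ (X n x)) * (M n)⁻¹| ≤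
      C * c⁻¹ := by
    filter_upwards [hlb, hC] with n hn h3
    rw [abs_mul, abs_of_nonneg (inv_nonneg.2 (hM0 n))]
    refine mul_le_mul ?_ ?_ (inv_nonneg.2 (hM0 n)) hC0
    · refine (abs_ev_le H (G := fun x => Real.exp (v * Y n x)) fun x => ?_).trans h3
      rw [abs_mul, abs_of_pos (Real.exp_pos _)]
      have := mul_le_mul_of_nonneg_left (hχ1 (X n x)) (Real.exp_pos (v * Y n x)).le
      rwa [mul_one] at this
    · exact inv_anti₀ hc0 hn
  have t1 := h1.add (mul_bdd h2 _ b1)
  rw [add_zero] at t1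
  refine t1.congr' ?_
  filter_upwards [hlb] with n hn
  have hMn : M n ≠ 0 := by
    intro h0
    rw [h0] at hn
    linarith
  have ha : ∀ x : α n, |A n x| = A n x := fun x => abs_of_nonneg (H.an n x)
  have e1 : ev P W n (fun x => Real.exp (v * Y n x) * (χ (X n x) * Real.exp (-(lam * |A n x|)))) =
      ev P W n (fun x => Real.exp (v * Y n x) * (χ (X n x) * Real.exp (-(lam * A n x)))) :=
    ev_congr fun x => by rw [ha]
  have e2 : ev P W n (fun x => Real.exp (v * Y n x) * Real.exp (-(lam * |A n x|))) =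
      ev P W n (fun x => Real.exp (v * Y n x) * Real.exp (-(lam * A n x))) :=
    ev_congr fun x => by rw [ha]
  have e3 : ev P W n (fun x => Real.exp (0 * X n x + v * Y n x) * Real.exp (-(lam * A n x))) =
      ev P W n (fun x => Real.exp (v * Y n x) * Real.exp (-(lam * A n x))) :=
    ev_congr fun x => by rw [zero_mul, zero_add]
  have e4 : ev P W n (fun x => Real.exp (0 * X n x + v * Y n x)) = M n :=
    ev_congr fun x => by rw [zero_mul, zero_add]
  rw [e1, e2, e3, e4]
  have e5 : ev P W n (fun x => Real.exp (v * Y n x)) = M n := rfl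
  rw [e5]
  field_simp
  ring

/-- S3 : independence if `χ` is bounded below -/
theorem S3 (hI : FS.IND_Stmt) (H : Hyp P W X Y A) (χ ψ φ : ℝ → ℝ) (hχ : Continuous χ)
    (hψ : Continuous ψ) (hφ : Continuous φ) (hχ0 : ∀ x, 1 / 2 ≤ χ x) (hχ1 : ∀ x, χ x ≤ 1)
    (hψ1 : ∀ x, |ψ x| ≤ 1) (hφ1 : ∀ x, |φ x| ≤ 1) :
    Tendsto (fun n => ev P W n (fun x => χ (X n x) * ψ (Y n x) * φ (A n x)) -
      ev P W n (fun x => χ (X n x) * ψ (Y n x)) * ev P W n (fun x => φ (A n x)))
      atTop (𝓝 0) := by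
  have hχa : ∀ x, |χ x| ≤ 1 := fun x => abs_le.2 ⟨by linarith [hχ0 x], hχ1 x⟩
  set N : ℕ → ℝ := fun n => ev P W n (fun x => χ (X n x)) with hN
  have hN0 : ∀ n, 0 ≤ N n := fun n => ev_nonneg H fun x => by linarith [hχ0 (X n x)]
  have hN1 : ∀ᶠ n in atTop, N n ≤ 1 := by
    filter_upwards [one' H] with n hn
    rw [← hn]
    exact ev_mono H fun x => hχ1 _
  have hlb : ∀ᶠ n in atTop, 1 / 2 ≤ N n := by
    filter_upwards [one' H] with n hn
    have : ev P W n (fun _ => 1 / 2) = 1 / 2 * ev P W n (fun _ => 1) := by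
      unfold ev
      rw [Finset.mul_sum]
      exact Finset.sum_congr rfl fun x _ => by ring
    rw [hn, mul_one] at this
    rw [← this]
    exact ev_mono H fun x => hχ0 _
  have b1 : ∀ᶠ n in atTop, |(N n)⁻¹| ≤ 2 := by
    filter_upwards [hlb] with n hn
    rw [abs_of_nonneg (inv_nonneg.2 (hN0 n)), inv_le_comm₀ (by linarith) (by norm_num)]
    linarith
  have key := hI α P (fun n x => W n x * χ (X n x) / N n) Y A
    (fun n x => div_nonneg (mul_nonneg (H.nn n x) (by linarith [hχ0 (X n x)])) (hN0 n)) H.an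
    ?_ ?_ ?_ ?_ ψ φ hψ hφ hψ1 hφ1
  · have h1 := mul_bdd key 1 (b := N) (by
      filter_upwards [hN1] with n hn
      rw [abs_of_nonneg (hN0 n)]
      exact hn)
    have h2 := S1 hI H 0 χ φ hχ hφ hχa hφ1
    have b2 : ∀ᶠ n in atTop, |ev P W n (fun x => χ (X n x) * ψ (Y n x)) * (N n)⁻¹| ≤ 1 * 2 := by
      filter_upwards [b1, one' H] with n h3 h4
      rw [abs_mul]
      refine mul_le_mul ?_ h3 (abs_nonneg _) zero_le_one
      rw [← h4]
      refine abs_ev_le H fun x => ?_
      rw [abs_mul]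
      have := mul_le_mul (hχa (X n x)) (hψ1 (Y n x)) (abs_nonneg _) zero_le_one
      rwa [mul_one] at this
    have t1 := h1.add (mul_bdd h2 _ b2)
    rw [add_zero] at t1
    refine t1.congr' ?_
    filter_upwards [hlb, one' H] with n hn h4
    have hNn : N n ≠ 0 := by
      intro h0
      rw [h0] at hn
      norm_num at hn
    rw [tilt_sum, tilt_sum, tilt_sum]
    have z1 : ∀ F : α n → ℝ, ev P W n (fun x => Real.exp (0 * Y n x) * F x) = ev P W n F :=
      fun F => ev_congr fun x => by rw [zero_mul, Real.exp_zero, one_mul]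
    have z2 : ev P W n (fun x => Real.exp (0 * Y n x)) = 1 := by
      rw [← h4]
      exact ev_congr fun x => by rw [zero_mul, Real.exp_zero]
    rw [z2]
    simp only [z1]
    have e5 : ev P W n (fun x => χ (X n x)) = N n := rfl
    have e6 : ev P W n (fun x => χ (X n x) * (ψ (Y n x) * φ (A n x))) =
        ev P W n (fun x => χ (X n x) * ψ (Y n x) * φ (A n x)) :=
      ev_congr fun x => by rw [mul_assoc]
    rw [e5, e6]
    field_simp
    ring
  · filter_upwards [hlb] with n hn
    have : ∑ x ∈ P n, W n x * χ (X n x) / N n = N n / N n := by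
      rw [← Finset.sum_div]
      rfl
    rw [this, div_self (by linarith)]
  · intro t
    obtain ⟨C', _, hC'⟩ := ex1 H t
    refine ⟨2 * |C'|, ?_⟩
    filter_upwards [hlb, hC'] with n hn h1
    rw [tilt_sum, div_le_iff₀ (by linarith)]
    have h2 : ev P W n (fun x => χ (X n x) * Real.exp (t * Y n x)) ≤
        ev P W n (fun x => Real.exp (t * Y n x)) := ev_mono H fun x => by
      have := mul_le_mul_of_nonneg_right (hχ1 (X n x)) (Real.exp_pos (t * Y n x)).le
      rwa [one_mul] at this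
    have h3 := le_abs_self C'
    have h4 := abs_nonneg C'
    nlinarith
  · obtain ⟨C', hC'⟩ := H.a1
    refine ⟨2 * |C'|, ?_⟩
    filter_upwards [hlb, hC'] with n hn h1
    rw [tilt_sum, div_le_iff₀ (by linarith)]
    have h2 : ev P W n (fun x => χ (X n x) * A n x) ≤ ev P W n (fun x => A n x) :=
      ev_mono H fun x => by
        have := mul_le_mul_of_nonneg_right (hχ1 (X n x)) (H.an n x)
        rwa [one_mul] at this
    have h3 := le_abs_self C'
    have h4 := abs_nonneg C'
    nlinarith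
  · intro t lam hlam
    have s1 := S2 hI H t lam hlam χ hχ hχa
    have s2 := S2 hI H 0 lam hlam χ hχ hχa
    obtain ⟨C', hC0', hC'⟩ := ex1 H t
    have b2 : ∀ᶠ n in atTop, |-(ev P W n (fun x => Real.exp (t * Y n x) * χ (X n x)) *
        ((N n)⁻¹ * (N n)⁻¹))| ≤ C' * (2 * 2) := by
      filter_upwards [b1, hC'] with n h1 h2
      rw [abs_neg, abs_mul, abs_mul]
      refine mul_le_mul ?_ (mul_le_mul h1 h1 (abs_nonneg _) (by norm_num)) (by positivity) hC0'
      refine (abs_ev_le H (G := fun x => Real.exp (t * Y n x)) fun x => ?_).trans h2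
      rw [abs_mul, abs_of_pos (Real.exp_pos _)]
      have := mul_le_mul_of_nonneg_left (hχa (X n x)) (Real.exp_pos (t * Y n x)).le
      rwa [mul_one] at this
    have t1 := (mul_bdd s1 2 b1).add (mul_bdd s2 _ b2)
    rw [add_zero] at t1
    refine t1.congr' ?_
    filter_upwards [hlb] with n hn
    have hNn : N n ≠ 0 := by
      intro h0
      rw [h0] at hn
      norm_num at hn
    rw [tilt_sum, tilt_sum, tilt_sum]
    have z1 : ∀ F : α n → ℝ, ev P W n (fun x => Real.exp (0 * Y n x) * F x) = ev P W n F :=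
      fun F => ev_congr fun x => by rw [zero_mul, Real.exp_zero, one_mul]
    simp only [z1]
    have e1 : ev P W n (fun x => χ (X n x) * Real.exp (t * Y n x)) =
        ev P W n (fun x => Real.exp (t * Y n x) * χ (X n x)) := ev_congr fun x => mul_comm _ _
    have e2 : ev P W n (fun x => χ (X n x) * (Real.exp (t * Y n x) * Real.exp (-(lam * A n x)))) =
        ev P W n (fun x => Real.exp (t * Y n x) * (χ (X n x) * Real.exp (-(lam * A n x)))) :=
      ev_congr fun x => by ring
    have e5 : ev P W n (fun x => χ (X n x)) = N n := rfl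
    rw [e1, e2, e5]
    field_simp
    ring

/-- The abstract theorem. -/
theorem indep2 (hI : FS.IND_Stmt) (H : Hyp P W X Y A) (χ ψ φ : ℝ → ℝ) (hχ : Continuous χ)
    (hψ : Continuous ψ) (hφ : Continuous φ) (hχ1 : ∀ x, 0 ≤ χ x ∧ χ x ≤ 1)
    (hψ1 : ∀ x, |ψ x| ≤ 1) (hφ1 : ∀ x, |φ x| ≤ 1) :
    Tendsto (fun n => ev P W n (fun x => χ (X n x) * ψ (Y n x) * φ (A n x)) -
      ev P W n (fun x => χ (X n x) * ψ (Y n x)) * ev P W n (fun x => φ (A n x)))
      atTop (𝓝 0) := by
  have h1 := S3 hI H (fun x => (χ x + 1) / 2) ψ φ (by fun_prop) hψ hφ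
    (fun x => by linarith [(hχ1 x).1]) (fun x => by linarith [(hχ1 x).2]) hψ1 hφ1
  have h2 := S3 hI H (fun _ => 1 / 2) ψ φ continuous_const hψ hφ
    (fun x => le_rfl) (fun x => by norm_num) hψ1 hφ1
  have t1 := (h1.const_mul 2).sub (h2.const_mul 2)
  rw [mul_zero, sub_zero] at t1
  refine t1.congr fun n => ?_
  have e1 : ev P W n (fun x => χ (X n x) * ψ (Y n x) * φ (A n x)) =
      2 * ev P W n (fun x => (χ (X n x) + 1) / 2 * ψ (Y n x) * φ (A n x)) -
      2 * ev P W n (fun x => 1 / 2 * ψ (Y n x) * φ (A n x)) := by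
    unfold ev
    rw [Finset.mul_sum, Finset.mul_sum, ← Finset.sum_sub_distrib]
    exact Finset.sum_congr rfl fun x _ => by ring
  have e2 : ev P W n (fun x => χ (X n x) * ψ (Y n x)) =
      2 * ev P W n (fun x => (χ (X n x) + 1) / 2 * ψ (Y n x)) -
      2 * ev P W n (fun x => 1 / 2 * ψ (Y n x)) := by
    unfold ev
    rw [Finset.mul_sum, Finset.mul_sum, ← Finset.sum_sub_distrib]
    exact Finset.sum_congr rfl fun x _ => by ring
  rw [e1, e2]
  ring

end

/-! ### Concrete part -/

/-- the tilt identity for the Laplace transform -/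
theorem lap_tilt (hH : HGM_Stmt) (n : ℕ) (f g u v h t r lam : ℝ)
    (hZ : 0 < Zm n (Real.exp (-f)) g) :
    ∑ q ∈ Omm n, wm n (Real.exp (-f)) g q *
      (Real.exp (u * (((zl q : ℝ) - h) / r) + v * (((zt q : ℝ) - t) / Real.sqrt n)) *
        Real.exp (-(lam * rm n q))) =
    (∑ q ∈ Omm n, wm n (Real.exp (-f)) g q *
      Real.exp (u * (((zl q : ℝ) - h) / r) + v * (((zt q : ℝ) - t) / Real.sqrt n))) *
      lapM n (Real.exp (-(f + u / r))) (g + v / Real.sqrt n) lam := by
  obtain ⟨u', hu⟩ : ∃ u', u' = u / r := ⟨_, rfl⟩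
  obtain ⟨v', hv⟩ : ∃ v', v' = v / Real.sqrt n := ⟨_, rfl⟩
  have hX : ∀ q : QM,
      u * (((zl q : ℝ) - h) / r) + v * (((zt q : ℝ) - t) / Real.sqrt n) =
        u' * ((zl q : ℝ) - h) + v' * ((zt q : ℝ) - t) := by
    intro q
    rw [hu, hv]
    ring
  simp only [hX, ← hu, ← hv]
  have e1 : ∑ q ∈ Omm n, wm n (Real.exp (-f)) g q *
      Real.exp (u' * ((zl q : ℝ) - h) + v' * ((zt q : ℝ) - t)) =
      Real.exp (u' * ((n : ℝ) - h) - v' * t) * Zm n (Real.exp (-(f + u'))) (g + v') := by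
    unfold Zm
    rw [mul_sum]
    exact sum_congr rfl fun q hq => wm_tilt hH n f g u' v' h t q hq
  have e2 : ∑ q ∈ Omm n, wm n (Real.exp (-f)) g q *
      (Real.exp (u' * ((zl q : ℝ) - h) + v' * ((zt q : ℝ) - t)) * Real.exp (-(lam * rm n q))) =
      Real.exp (u' * ((n : ℝ) - h) - v' * t) *
        ∑ q ∈ Omm n, wm n (Real.exp (-(f + u'))) (g + v') q * Real.exp (-(lam * rm n q)) := by
    rw [mul_sum]
    refine sum_congr rfl fun q hq => ?_
    rw [← mul_assoc, wm_tilt hH n f g u' v' h t q hq]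
    ring
  have hZ' : 0 < Zm n (Real.exp (-(f + u'))) (g + v') := by
    have h1 : ∃ q ∈ Omm n, 0 < wm n (Real.exp (-f)) g q := by
      by_contra hc
      push Not at hc
      exact absurd hZ (not_lt.2 (Finset.sum_nonpos hc))
    obtain ⟨q, hq, _⟩ := h1
    refine Finset.sum_pos' (fun q _ => wm_nonneg n _ _ (Real.exp_pos _).le q) ⟨q, hq, ?_⟩
    unfold wm
    positivity
  rw [e1, e2]
  unfold lapM
  field_simp

theorem hyp (hL : LAPE_Stmt) (hM : MOMME_Stmt) (hZ : ZBME_Stmt) (hH : HGM_Stmt)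
    (a b : ℝ) (ha : 0 < a) (hab : a ≤ b) (f g h t r : ℕ → ℝ)
    (hB : ∀ n, BoxE a b (f n) (g n)) (hf : Tendsto f atTop atTop) (hr : ∀ᶠ n in atTop, 1 ≤ r n)
    (hE : ∀ u v : ℝ, ∃ C : ℝ, ∀ᶠ n : ℕ in atTop, ∑ q ∈ Omm n, wm n (Real.exp (-(f n))) (g n) q *
      Real.exp (u * (((zl q : ℝ) - h n) / r n) + v * (((zt q : ℝ) - t n) / Real.sqrt n)) ≤
        C * Zm n (Real.exp (-(f n))) (g n)) :
    Hyp (α := fun _ => QM) Omm
      (fun n q => wm n (Real.exp (-(f n))) (g n) q / Zm n (Real.exp (-(f n))) (g n))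
      (fun n q => ((zl q : ℝ) - h n) / r n) (fun n q => ((zt q : ℝ) - t n) / Real.sqrt n)
      rm := by
  have hZp : ∀ᶠ n in atTop, 0 < Zm n (Real.exp (-(f n))) (g n) := by
    obtain ⟨C, θ, hC, _, _, N, hN⟩ := hZ a b ha hab
    filter_upwards [eventually_ge_atTop N] with n h1
    obtain ⟨rho, _, _, _, _, h4, _⟩ := hN n h1 (f n) (g n) (hB n)
    have h5 : 0 < C⁻¹ := inv_pos.2 hC
    by_contra hc
    have h6 : 0 ≤ Zm n (Real.exp (-(f n))) (g n) := Zm_nonneg n _ _ (Real.exp_pos _).le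
    have h7 : Zm n (Real.exp (-(f n))) (g n) = 0 := le_antisymm (not_lt.1 hc) h6
    rw [h7, mul_zero] at h4
    linarith
  have hex : ∀ u v : ℝ, ∃ C : ℝ, ∀ᶠ n in atTop,
      (∑ q ∈ Omm n, wm n (Real.exp (-(f n))) (g n) q *
        Real.exp (u * (((zl q : ℝ) - h n) / r n) +
          v * (((zt q : ℝ) - t n) / Real.sqrt n))) / Zm n (Real.exp (-(f n))) (g n) ≤ C := by
    intro u v
    obtain ⟨C, hN⟩ := hE u v
    refine ⟨C, ?_⟩
    filter_upwards [hN, hZp] with n h1 h2
    rw [div_le_iff₀ h2]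
    exact h1
  refine ⟨fun n q => div_nonneg (wm_nonneg n _ _ (Real.exp_pos _).le q)
      (Zm_nonneg n _ _ (Real.exp_pos _).le), fun n q => rm_nonneg n q, ?_, ?_, ?_, ?_, ?_⟩
  · filter_upwards [hZp] with n hn
    rw [← Finset.sum_div]
    exact div_self hn.ne'
  · intro u v
    obtain ⟨C, hC'⟩ := hex u v
    refine ⟨C, ?_⟩
    filter_upwards [hC'] with n hn
    rw [ev_eq]
    exact hn
  · obtain ⟨C, _, N, hN⟩ := hM a b ha hab 1
    refine ⟨C, ?_⟩
    filter_upwards [hZp, eventually_ge_atTop N] with n h2 h3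
    rw [ev_eq, div_le_iff₀ h2]
    have h4 := (hN n h3 (f n) (g n) (hB n)).1
    simpa only [pow_one] using h4
  · obtain ⟨C, _, N, hN⟩ := hM a b ha hab 2
    refine ⟨C, ?_⟩
    filter_upwards [hZp, eventually_ge_atTop N] with n h2 h3
    rw [ev_eq, div_le_iff₀ h2]
    exact (hN n h3 (f n) (g n) (hB n)).1
  · intro u v lam hlam
    have hb : 0 < b := by linarith
    obtain ⟨N, hN⟩ := eventually_atTop.1
      (((hf.eventually_ge_atTop (a + |u|)).and hr).and (sqrt_small |v| b (by linarith)))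
    -- the shift of the first force is at most `|u|`
    have hur : ∀ n, N ≤ n → -|u| ≤ u / r n := by
      intro n hn
      have h1 : 1 ≤ r n := (hN n hn).1.2
      have h2 : |u / r n| ≤ |u| := by
        rw [abs_div, abs_of_pos (by linarith : 0 < r n)]
        exact div_le_self (abs_nonneg _) h1
      exact (neg_le_neg h2).trans (neg_abs_le _)
    have hf' : Tendsto (fun n => if N ≤ n then f n + u / r n else f n) atTop atTop := by
      refine tendsto_atTop_mono (f := fun n => f n + -|u|) (fun n => ?_)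
        (tendsto_atTop_add_const_right _ _ hf)
      split_ifs with hn
      · have := hur n hn
        linarith
      · have := abs_nonneg u
        linarith
    have hg' : Tendsto (fun n : ℕ => (if N ≤ n then g n + v / Real.sqrt n else g n) - g n) atTop
        (𝓝 0) := by
      have h1 : Tendsto (fun n : ℕ => Real.sqrt (n : ℝ)) atTop atTop :=
        Real.tendsto_sqrt_atTop.comp tendsto_natCast_atTop_atTop
      have h2 : Tendsto (fun n : ℕ => v / Real.sqrt n) atTop (𝓝 0) := h1.const_div_atTop v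
      refine h2.congr' ?_
      filter_upwards [eventually_ge_atTop N] with n hn
      rw [if_pos hn, add_sub_cancel_left]
    have hL' := hL (a / 2) (2 * b) lam (by linarith) (by linarith) hlam
      (fun n => if N ≤ n then f n + u / r n else f n)
      (fun n => if N ≤ n then g n + v / Real.sqrt n else g n) f g
      (fun n => by
        obtain ⟨b1, b3⟩ := hB n
        split_ifs with hn
        · have d1 := hur n hn
          obtain ⟨⟨d2, _⟩, d3⟩ := hN n hn
          have c2 : |v / Real.sqrt n| = |v| / Real.sqrt n := by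
            rw [abs_div, abs_of_nonneg (Real.sqrt_nonneg _)]
          rw [← c2] at d3
          refine ⟨by linarith, ?_⟩
          have := abs_add_le (g n) (v / Real.sqrt n)
          linarith
        · exact ⟨by linarith, by linarith⟩)
      (fun n => by
        obtain ⟨b1, b3⟩ := hB n
        exact ⟨by linarith, by linarith⟩) hf' hf hg'
    obtain ⟨C, hC'⟩ := hex u v
    have hb' : ∀ᶠ n in atTop, |(∑ q ∈ Omm n, wm n (Real.exp (-(f n))) (g n) q *
        Real.exp (u * (((zl q : ℝ) - h n) / r n) +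
          v * (((zt q : ℝ) - t n) / Real.sqrt n))) / Zm n (Real.exp (-(f n))) (g n)| ≤ C := by
      filter_upwards [hC', hZp] with n h2 h3
      rw [abs_of_nonneg (div_nonneg (Finset.sum_nonneg fun q _ =>
        mul_nonneg (wm_nonneg n _ _ (Real.exp_pos _).le q) (Real.exp_pos _).le) h3.le)]
      exact h2
    have t1 := mul_bdd hL' C hb'
    refine t1.congr' ?_
    filter_upwards [hZp, eventually_ge_atTop N] with n h3 h4
    rw [if_pos h4, if_pos h4]
    have h5 := lap_tilt hH n (f n) (g n) u v (h n) (t n) (r n) lam h3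
    rw [ev_eq, ev_eq, ev_eq, h5]
    unfold lapM
    ring

end INDEaux

theorem t_INDE (hI : FS.IND_Stmt) (hL : LAPE_Stmt) (hM : MOMME_Stmt) (hZ : ZBME_Stmt)
    (hH : HGM_Stmt) : INDE_Stmt := by
  intro a b ha hab f g h t r hB hf hr hE χ ψ φ hχ hψ hφ hχ1 hψ1 hφ1
  have key := INDEaux.indep2 hI (INDEaux.hyp hL hM hZ hH a b ha hab f g h t r hB hf hr hE) χ ψ φ
    hχ hψ hφ hχ1 hψ1 hφ1
  refine key.congr fun n => ?_
  rw [INDMaux.ev_eq, INDMaux.ev_eq, INDMaux.ev_eq]

end Pool.Agent.TPE
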