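import Pool.Agent.TPE.Stmts
import Pool.Agent.TPT.EXPMM

/-!
# Project TPE: module JBE (mean of the number of backward steps)
-/

set_option autoImplicit false

namespace Pool.Agent.TPE

open Finset Filter Topology MeasureTheory
open Pool.Agent.Lib27 Pool.Agent.SapR Pool.Agent.AreaLaw Pool.Agent.FL Pool.Agent.TPT
open Pool.Agent.FS (sc)

namespace JBE

/-- tangent line at `δ` -/
lemma tangent (hH : HGM_Stmt) (n : ℕ) (f g u δ : ℝ) :
    Real.exp (u * δ) * (Zm n (Real.exp (-f)) g +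
      u * ∑ q ∈ Omm n, wm n (Real.exp (-f)) g q * ((n : ℝ) - zl q - δ)) ≤
      Zm n (Real.exp (-(f - u))) g := by
  unfold Zm
  rw [Finset.mul_sum, ← Finset.sum_add_distrib, Finset.mul_sum]
  refine Finset.sum_le_sum fun q hq => ?_
  have h0 := EXPMM.wm_shift n f g (-u) 0 q (hH.2.2.2 n q hq).1
  rw [add_zero, ← sub_eq_add_neg, zero_mul, add_zero] at h0
  have h1 := Real.add_one_le_exp (u * ((n : ℝ) - zl q - δ))
  have h2 : Real.exp (-(-u * ((n : ℝ) - zl q))) =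
      Real.exp (u * δ) * Real.exp (u * ((n : ℝ) - zl q - δ)) := by
    rw [← Real.exp_add]
    congr 1
    ring
  have h3 := (EXPMM.wm_pos n f g q).le
  rw [h0, h2]
  calc Real.exp (u * δ) * (wm n (Real.exp (-f)) g q +
        u * (wm n (Real.exp (-f)) g q * ((n : ℝ) - zl q - δ)))
      = (Real.exp (u * δ) * wm n (Real.exp (-f)) g q) * (u * ((n : ℝ) - zl q - δ) + 1) := by ring
    _ ≤ (Real.exp (u * δ) * wm n (Real.exp (-f)) g q) * Real.exp (u * ((n : ℝ) - zl q - δ)) :=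
        mul_le_mul_of_nonneg_left h1 (mul_nonneg (Real.exp_pos _).le h3)
    _ = _ := by ring

/-- comparison of two total weights -/
lemma ratio (n : ℕ) {C scn ρ ρ' Z Z' : ℝ} (hC : 0 < C) (hsc : 0 < scn) (hρ : 0 < ρ)
    (hρ' : 0 < ρ') (h1 : C⁻¹ ≤ scn * ρ ^ n * Z) (h2 : scn * ρ' ^ n * Z' ≤ C) :
    Z' ≤ C ^ 2 * Real.exp (-(n * Real.log (ρ' / ρ))) * Z := by
  set a := Real.log (ρ' / ρ) with ha
  have e1 : ρ' = ρ * Real.exp a := by
    rw [ha, Real.exp_log (div_pos hρ' hρ)]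
    field_simp
  rw [e1, mul_pow, ← Real.exp_nat_mul] at h2
  have h3 : 1 ≤ C * (scn * ρ ^ n * Z) := by
    have := mul_le_mul_of_nonneg_left h1 hC.le
    rwa [mul_inv_cancel₀ hC.ne'] at this
  have hp : 0 < scn * ρ ^ n := by positivity
  have h4 : scn * ρ ^ n * (Real.exp (n * a) * Z') ≤ scn * ρ ^ n * (C ^ 2 * Z) := by
    calc scn * ρ ^ n * (Real.exp (n * a) * Z') = scn * (ρ ^ n * Real.exp (n * a)) * Z' := by ring
      _ ≤ C := h2
      _ ≤ C * (C * (scn * ρ ^ n * Z)) := by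
          calc C = C * 1 := (mul_one C).symm
            _ ≤ _ := mul_le_mul_of_nonneg_left h3 hC.le
      _ = _ := by ring
  have h5 : Real.exp (n * a) * Z' ≤ C ^ 2 * Z := le_of_mul_le_mul_left h4 hp
  have h6 := mul_le_mul_of_nonneg_left h5 (Real.exp_pos (-(n * a))).le
  rw [← mul_assoc, ← Real.exp_add, neg_add_cancel, Real.exp_zero, one_mul] at h6
  calc Z' ≤ _ := h6
    _ = _ := by ring

/-- the exponential form of the comparison: `u δ ≤ 2 log C - n log (ρ'/ρ)` -/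
lemma main (hH : HGM_Stmt) {n : ℕ} {C f g u δ ρ ρ' : ℝ} (hn : 0 < n) (hC : 0 < C)
    (hρ : 0 < ρ) (hρ' : 0 < ρ')
    (h1 : C⁻¹ ≤ sc n * ρ ^ n * Zm n (Real.exp (-f)) g)
    (h2 : sc n * ρ' ^ n * Zm n (Real.exp (-(f - u))) g ≤ C)
    (h3 : ∑ q ∈ Omm n, wm n (Real.exp (-f)) g q * ((n : ℝ) - zl q - δ) = 0) :
    u * δ ≤ 2 * Real.log C - n * Real.log (ρ' / ρ) := by
  have hn0 : (0 : ℝ) < n := by exact_mod_cast hn
  have hsc0 : 0 < sc n := by unfold sc; positivity
  have hZ0 : 0 < Zm n (Real.exp (-f)) g := by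
    by_contra hlt
    push Not at hlt
    have h4 : 0 < C⁻¹ := inv_pos.2 hC
    have h5 : 0 < sc n * ρ ^ n := mul_pos hsc0 (pow_pos hρ n)
    have h6 : sc n * ρ ^ n * Zm n (Real.exp (-f)) g ≤ 0 :=
      mul_nonpos_of_nonneg_of_nonpos h5.le hlt
    linarith
  have h4 := tangent hH n f g u δ
  rw [h3, mul_zero, add_zero] at h4
  have h5 := ratio n hC hsc0 hρ hρ' h1 h2
  have h6 := le_of_mul_le_mul_right (h4.trans h5) hZ0
  have hC2 : C ^ 2 = Real.exp (2 * Real.log C) := by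
    rw [two_mul, Real.exp_add, Real.exp_log hC, sq]
  rw [hC2, ← Real.exp_add, Real.exp_le_exp] at h6
  linarith

end JBE

open JBE in
/-- The mean of the number of backward steps is of order `s n`. -/
theorem t_JBE (hZ : ZBME_Stmt) (hR : RHOE_Stmt) (hH : HGM_Stmt) : JBE_Stmt := by
  intro a b ha hab
  obtain ⟨R, c, η, hR0, hc, hη, N1, hR⟩ := hR a b ha hab
  obtain ⟨K, θ, hK, -, -, N2, hZ⟩ := hZ (a / 2) b (by positivity) (by linarith)
  set u0 : ℝ := min η (a / 2) with hu0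
  have hu0p : 0 < u0 := lt_min hη (by positivity)
  set L : ℝ := |Real.log K| with hL
  have hL0 : 0 ≤ L := abs_nonneg _
  have hLK : Real.log K ≤ L := le_abs_self _
  set C : ℝ := η / c + R + 2 * L / η + 2 * L / u0 + 1 with hCdef
  have e1 : 0 < η / c := by positivity
  have e2 : 0 ≤ 2 * L / η := by positivity
  have e3 : 0 ≤ 2 * L / u0 := by positivity
  have hC0 : 0 < C := by rw [hCdef]; linarith
  refine ⟨C, hC0, max (max N1 N2) 1, fun n hn f g hbox => ?_⟩
  have hn1 : N1 ≤ n := (le_max_left _ _).trans ((le_max_left _ _).trans hn)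
  have hn2 : N2 ≤ n := (le_max_right _ _).trans ((le_max_left _ _).trans hn)
  have hn3 : 0 < n := lt_of_lt_of_le Nat.zero_lt_one ((le_max_right _ _).trans hn)
  have hn0 : (0 : ℝ) < n := by exact_mod_cast hn3
  obtain ⟨hf, hg⟩ := hbox
  obtain ⟨ρ, hcr, -, -, -, hZl, -⟩ := hZ n hn2 f g ⟨by linarith, hg⟩
  obtain ⟨ρm, hcrm, -, -, -, -, hZm⟩ := hZ n hn2 (f - u0) g
    ⟨by have := min_le_right η (a / 2); linarith, hg⟩
  obtain ⟨ρp, hcrp, -, -, -, -, hZp⟩ := hZ n hn2 (f + η) g ⟨by linarith, hg⟩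
  obtain ⟨-, hRb, hRc, -⟩ := hR n hn1 f g ρ ⟨hf, hg⟩ hcr
  have hb := hRb (-u0) 0 ρm (by rw [abs_neg, abs_of_pos hu0p]; exact min_le_left _ _)
    (by rw [abs_zero]; exact hη.le) (by rw [add_zero, ← sub_eq_add_neg]; exact hcrm)
  have hc' := hRc ρp hcrp
  rw [abs_neg, abs_of_pos hu0p, abs_zero, add_zero] at hb
  have hb' := (abs_le.1 hb).1
  have hsc0 : 0 < sc n := by unfold sc; positivity
  have hZ0 : 0 < Zm n (Real.exp (-f)) g := by
    by_contra hlt
    push Not at hlt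
    have h4 : 0 < K⁻¹ := inv_pos.2 hK
    have h5 : 0 < sc n * ρ ^ n := mul_pos hsc0 (pow_pos hcr.1 n)
    have h6 : sc n * ρ ^ n * Zm n (Real.exp (-f)) g ≤ 0 :=
      mul_nonpos_of_nonneg_of_nonpos h5.le hlt
    linarith
  set S : ℝ := ∑ q ∈ Omm n, wm n (Real.exp (-f)) g q * ((n : ℝ) - zl q) with hS
  set Z : ℝ := Zm n (Real.exp (-f)) g with hZdef
  set s : ℝ := Real.exp (-f) with hs
  have hs0 : 0 < s := Real.exp_pos _
  set δ : ℝ := S / Z with hδ
  have hSZ : S = δ * Z := by rw [hδ]; field_simp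
  have h3 : ∑ q ∈ Omm n, wm n s g q * ((n : ℝ) - zl q - δ) = 0 := by
    have h4 : ∑ q ∈ Omm n, wm n s g q * ((n : ℝ) - zl q - δ) = S - δ * Z := by
      rw [hS, hZdef]
      unfold Zm
      rw [Finset.mul_sum, ← Finset.sum_sub_distrib]
      refine Finset.sum_congr rfl fun q _ => ?_
      ring
    rw [h4, hSZ, sub_self]
  have hup := JBE.main hH hn3 hK hcr.1 hcrm.1 hZl hZm h3
  have hlo := JBE.main hH (u := -η) hn3 hK hcr.1 hcrp.1 hZl (by rw [sub_neg_eq_add]; exact hZp) h3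
  have hsn : 0 ≤ s * n := by positivity
  -- upper bound for `δ`
  have u1 : u0 * δ ≤ 2 * L + n * (R * (s * u0)) := by
    have := mul_le_mul_of_nonneg_left hb' hn0.le
    linarith
  have u2 : δ ≤ 2 * L / u0 + R * (s * n) := by
    rw [← sub_nonneg]
    have h4 : 0 ≤ (2 * L + n * (R * (s * u0)) - u0 * δ) / u0 :=
      div_nonneg (by linarith) hu0p.le
    have h5 : (2 * L + n * (R * (s * u0)) - u0 * δ) / u0 = 2 * L / u0 + R * (s * n) - δ := by
      field_simp
    linarith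
  have l1 : c * (s * n) - 2 * L ≤ η * δ := by
    have := mul_le_mul_of_nonneg_left hc' hn0.le
    linarith
  have l2 : c / η * (s * n) - 2 * L / η ≤ δ := by
    rw [← sub_nonneg]
    have h4 : 0 ≤ (η * δ - (c * (s * n) - 2 * L)) / η := div_nonneg (by linarith) hη.le
    have h5 : (η * δ - (c * (s * n) - 2 * L)) / η = δ - (c / η * (s * n) - 2 * L / η) := by
      field_simp
    linarith
  have hCi : C⁻¹ ≤ c / η := by
    have h4 : η / c ≤ C := by rw [hCdef]; linarith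
    have h5 := inv_anti₀ e1 h4
    rwa [inv_div] at h5
  have hCR : R ≤ C := by rw [hCdef]; linarith
  have hCL : 2 * L / u0 ≤ C := by rw [hCdef]; linarith
  have hCL' : 2 * L / η ≤ C := by rw [hCdef]; linarith
  rw [hSZ]
  refine ⟨mul_le_mul_of_nonneg_right ?_ hZ0.le, mul_le_mul_of_nonneg_right ?_ hZ0.le⟩
  · have := mul_le_mul_of_nonneg_right hCi hsn
    linarith
  · have := mul_le_mul_of_nonneg_right hCR hsn
    linarith

end Pool.Agent.TPE
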