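import Pool.Agent.TPE.Stmts
import Pool.Agent.TPT.KBIGM

/-!
# Project TPE, module KBIGE: skeletons with few tokens of one kind are negligible
-/

set_option autoImplicit false

namespace Pool.Agent.TPE

open Finset Filter Topology MeasureTheory
open Pool.Agent.Lib27 Pool.Agent.SapR Pool.Agent.AreaLaw Pool.Agent.FL Pool.Agent.TPT
open Pool.Agent.FS (sc rs bp)
open Pool.Agent.NSP (lc ld tz)
open Pool.Agent.KCS (airyMoment)
open Pool.Agent.KCC (areaMoment)
open Pool.Agent.FS.KBIG (eventually_small)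
open Pool.Agent.TPT.KBIGM (wp_nonneg pieces caps Zm_nonneg two_pow_le)

namespace KBIGE

/-- lower bound for the weight of the letter `lc` (height and half length `1`), uniform in `f` -/
lemma lc_le {C b f g rho : ℝ} (hC : 0 < C) (hg : |g| ≤ b) (hr : C⁻¹ ≤ rho) :
    C⁻¹ * Real.exp (-(b * |(kap lc : ℝ)|)) ≤ wp (Real.exp (-f)) g rho lc := by
  have h1 : hl lc = 1 := by decide
  have h2 : htn lc = 1 := by decide
  unfold wp
  rw [h1, h2, pow_one, Nat.sub_self, pow_zero, mul_one]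
  have h3 : Real.exp (-(b * |(kap lc : ℝ)|)) ≤ Real.exp (g * kap lc) := by
    refine Real.exp_le_exp.2 ?_
    have h4 : |g * (kap lc : ℝ)| ≤ b * |(kap lc : ℝ)| := by
      rw [abs_mul]
      exact mul_le_mul_of_nonneg_right hg (abs_nonneg _)
    have := neg_abs_le (g * (kap lc : ℝ))
    linarith
  exact mul_le_mul hr h3 (Real.exp_pos _).le ((inv_nonneg.2 hC.le).trans hr)

/-- the summand of `count` -/
noncomputable def tm (n : ℕ) (s g τ τ' : ℝ) (a : Sk2) : ℝ :=
  s ^ (n - a.H) * Real.exp (g * a.Λ) * ((1 + s * Real.exp g) * τ) ^ a.l.length *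
    ((1 + Real.exp (-(2 * g))) * τ') ^ a.k

lemma tm_nonneg (n : ℕ) {s τ τ' : ℝ} (hs : 0 < s) (g : ℝ) (hτ : 0 ≤ τ) (hτ' : 0 ≤ τ') (a : Sk2) :
    0 ≤ tm n s g τ τ' a := by
  unfold tm
  positivity

lemma vsE_nonneg (n : ℕ) {s : ℝ} (hs : 0 < s) (g : ℝ) (a : Sk2) : 0 ≤ vsE n s g a := by
  unfold vsE
  positivity

lemma vsE_eq1 (n : ℕ) (s g : ℝ) (a : Sk2) :
    vsE n s g a = 2 ^ a.l.length * tm n s g (1 / 2) 1 a := by
  unfold vsE tm
  have h1 : (1 + s * Real.exp g) ^ a.l.length =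
      2 ^ a.l.length * ((1 + s * Real.exp g) * (1 / 2)) ^ a.l.length := by
    rw [← mul_pow]
    congr 1
    ring
  rw [h1, mul_one]
  ring

lemma vsE_eq2 (n : ℕ) (s g : ℝ) (a : Sk2) :
    vsE n s g a = 2 ^ a.k * tm n s g 1 (1 / 2) a := by
  unfold vsE tm
  have h1 : (1 + Real.exp (-(2 * g))) ^ a.k =
      2 ^ a.k * ((1 + Real.exp (-(2 * g))) * (1 / 2)) ^ a.k := by
    rw [← mul_pow]
    congr 1
    ring
  rw [h1, mul_one]
  ring

end KBIGE

open KBIGE in
theorem t_KBIGE (hT : TMGE_Stmt) (hZ : ZBME_Stmt) (hg : HG_Stmt) (hH : HGM_Stmt) :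
    KBIGE_Stmt := by
  intro a b ha hab
  obtain ⟨C, θ, hC, hθ, hθ1, N, hN⟩ := hZ a b ha hab
  -- the parameters
  set θ' : ℝ := (1 + θ) / 2 with hθ'def
  have hθ' : 0 < θ' := by rw [hθ'def]; linarith
  have hθ'1 : θ' < 1 := by rw [hθ'def]; linarith
  have hθθ' : θ < θ' := by rw [hθ'def]; linarith
  set S : ℝ := ∑' m : ℕ, (m : ℝ) * θ' ^ m with hSdef
  have hS : 0 ≤ S := tsum_nonneg fun m => by positivity
  set L : ℝ := C⁻¹ * Real.exp (-(b * |(kap lc : ℝ)|)) with hLdef
  have hL : 0 < L := by rw [hLdef]; positivity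
  have hC4 : 0 < C⁻¹ ^ 4 := by positivity
  set δ : ℝ := (1 / 2) * min (C⁻¹ ^ 4) L with hδdef
  have hδ : 0 < δ := by
    have := lt_min hC4 hL
    rw [hδdef]; positivity
  set κ : ℝ := min (Real.log 2) (min (Real.log (θ' / θ)) (δ / (C * S + 1))) with hκdef
  have hlog : 0 < Real.log (θ' / θ) := Real.log_pos (by rw [one_lt_div hθ]; exact hθθ')
  have hκ : 0 < κ := lt_min (Real.log_pos (by norm_num)) (lt_min hlog (by positivity))
  have hκ2 : Real.exp κ ≤ 2 := by
    calc Real.exp κ ≤ Real.exp (Real.log 2) := Real.exp_le_exp.mpr (min_le_left _ _)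
      _ = 2 := Real.exp_log (by norm_num)
  have hle : Real.exp κ * θ ≤ θ' := by
    have h1 : Real.exp κ ≤ θ' / θ := by
      rw [← Real.exp_log (show 0 < θ' / θ by positivity)]
      exact Real.exp_le_exp.mpr ((min_le_right _ _).trans (min_le_left _ _))
    calc Real.exp κ * θ ≤ θ' / θ * θ := mul_le_mul_of_nonneg_right h1 hθ.le
      _ = θ' := by field_simp
  have hκS : C * κ * S ≤ δ := by
    have h1 : κ ≤ δ / (C * S + 1) := (min_le_right _ _).trans (min_le_right _ _)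
    have h2 : 0 < C * S + 1 := by positivity
    calc C * κ * S = κ * (C * S) := by ring
      _ ≤ δ / (C * S + 1) * (C * S) := mul_le_mul_of_nonneg_right h1 (by positivity)
      _ ≤ δ / (C * S + 1) * (C * S + 1) := mul_le_mul_of_nonneg_left (by linarith) (by positivity)
      _ = δ := by field_simp
  set C' : ℝ := C * (1 - θ')⁻¹ with hC'def
  obtain ⟨N', hN'⟩ := eventually_small (16 * C' ^ 2 * C) (κ / 2) (by positivity)
  refine ⟨κ / 4, by positivity, max 6 (max N N'), le_max_left _ _, ?_⟩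
  intro n hn f g hbox k σ hσ
  have hnN : N ≤ n := (le_max_left N N').trans ((le_max_right _ _).trans hn)
  have hnN' : N' ≤ n := (le_max_right N N').trans ((le_max_right _ _).trans hn)
  obtain ⟨rho, hcrit, htails, hr1, hr2, hZ1, hZ2⟩ := hN n hnN f g hbox
  have hrho := hcrit.1
  have hp := pieces hC hθ hκ hcrit htails hθ' hθ'1 hle
  obtain ⟨hc0, hc1⟩ := caps hC hθ hrho htails hθ' hθ'1 hle
  set s : ℝ := Real.exp (-f) with hsdef
  have hs : 0 < s := Real.exp_pos _
  set rho' : ℝ := rho * Real.exp κ with hrho'def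
  have hrho' : 0 < rho' := by positivity
  have hrr : rho ≤ rho' := by
    rw [hrho'def]
    have := Real.add_one_le_exp κ
    nlinarith
  have hcap2 : (capKM n s g rho') ^ 2 ≤ C' ^ 2 := pow_le_pow_left₀ hc0 hc1 2
  have hrho'2 : rho' ≤ 1 / 2 := by
    rw [hrho'def]
    calc rho * Real.exp κ ≤ 1 / 4 * 2 := mul_le_mul hr2 hκ2 (Real.exp_pos _).le (by norm_num)
      _ = 1 / 2 := by norm_num
  have hlow1 : C⁻¹ ^ 4 ≤ rho' ^ 4 := pow_le_pow_left₀ (by positivity) (hr1.trans hrr) 4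
  have hlow2 : L ≤ wp s g rho' lc := lc_le hC hbox.2 (hr1.trans hrr)
  have hp' : ∑ p ∈ Pc (2 * n - 1), wp s g rho' p ≤ 1 + δ := by
    refine hp.trans ?_
    rw [← hSdef]
    linarith
  -- the counts
  have hcount1 := hσ.count s g (1 / 2) 1 rho' hs (by norm_num) (by norm_num) hrho' hrho'2 (by
    refine hp'.trans ?_
    have h1 := wp_nonneg (g := g) hs hrho' tz
    have h2 : δ ≤ 1 / 2 * C⁻¹ ^ 4 := by
      rw [hδdef]
      exact mul_le_mul_of_nonneg_left (min_le_left _ _) (by norm_num)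
    linarith)
  have hcount2 := hσ.count s g 1 (1 / 2) rho' hs (by norm_num) (by norm_num) hrho' hrho'2 (by
    refine hp'.trans ?_
    have h1 := wp_nonneg (g := g) hs hrho' ld
    have h2 : δ ≤ 1 / 2 * L := by
      rw [hδdef]
      exact mul_le_mul_of_nonneg_left (min_le_right _ _) (by norm_num)
    linarith)
  have hE1 : ∑ i, tm n s g (1 / 2) 1 (σ i) ≤ 8 * C' ^ 2 * (rho' ^ n)⁻¹ := by
    rw [← div_eq_mul_inv, le_div_iff₀ (by positivity), mul_comm]
    exact hcount1.trans (mul_le_mul_of_nonneg_left hcap2 (by norm_num))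
  have hE2 : ∑ i, tm n s g 1 (1 / 2) (σ i) ≤ 8 * C' ^ 2 * (rho' ^ n)⁻¹ := by
    rw [← div_eq_mul_inv, le_div_iff₀ (by positivity), mul_comm]
    exact hcount2.trans (mul_le_mul_of_nonneg_left hcap2 (by norm_num))
  have hfew1 : ∑ i ∈ univ.filter (fun i : Fin k => ((σ i).l.length : ℝ) < κ / 4 * n),
      vsE n s g (σ i) ≤ Real.exp (κ / 4 * n) * ∑ i, tm n s g (1 / 2) 1 (σ i) := by
    rw [Finset.mul_sum]
    refine (Finset.sum_le_sum (fun i hi => ?_)).trans
      (Finset.sum_le_sum_of_subset_of_nonneg (Finset.filter_subset _ _) fun i _ _ =>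
        mul_nonneg (Real.exp_pos _).le (tm_nonneg n hs g (by norm_num) (by norm_num) _))
    rw [Finset.mem_filter] at hi
    rw [vsE_eq1]
    exact mul_le_mul_of_nonneg_right (two_pow_le _ hi.2.le)
      (tm_nonneg n hs g (by norm_num) (by norm_num) _)
  have hfew2 : ∑ i ∈ univ.filter (fun i : Fin k => ((σ i).k : ℝ) < κ / 4 * n),
      vsE n s g (σ i) ≤ Real.exp (κ / 4 * n) * ∑ i, tm n s g 1 (1 / 2) (σ i) := by
    rw [Finset.mul_sum]
    refine (Finset.sum_le_sum (fun i hi => ?_)).trans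
      (Finset.sum_le_sum_of_subset_of_nonneg (Finset.filter_subset _ _) fun i _ _ =>
        mul_nonneg (Real.exp_pos _).le (tm_nonneg n hs g (by norm_num) (by norm_num) _))
    rw [Finset.mem_filter] at hi
    rw [vsE_eq2]
    exact mul_le_mul_of_nonneg_right (two_pow_le _ hi.2.le)
      (tm_nonneg n hs g (by norm_num) (by norm_num) _)
  have hfew : ∑ i ∈ univ.filter (fun i : Fin k => ((σ i).l.length : ℝ) < κ / 4 * n ∨
      ((σ i).k : ℝ) < κ / 4 * n), vsE n s g (σ i) ≤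
      Real.exp (κ / 4 * n) * (2 * (8 * C' ^ 2 * (rho' ^ n)⁻¹)) := by
    have h1 : ∑ i ∈ univ.filter (fun i : Fin k => ((σ i).l.length : ℝ) < κ / 4 * n ∨
        ((σ i).k : ℝ) < κ / 4 * n), vsE n s g (σ i) ≤
        ∑ i ∈ univ.filter (fun i : Fin k => ((σ i).l.length : ℝ) < κ / 4 * n),
          vsE n s g (σ i) +
        ∑ i ∈ univ.filter (fun i : Fin k => ((σ i).k : ℝ) < κ / 4 * n), vsE n s g (σ i) := by
      rw [Finset.filter_or]
      have h2 := Finset.sum_union_inter (f := fun i => vsE n s g (σ i))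
        (s₁ := univ.filter (fun i : Fin k => ((σ i).l.length : ℝ) < κ / 4 * n))
        (s₂ := univ.filter (fun i : Fin k => ((σ i).k : ℝ) < κ / 4 * n))
      have h3 : 0 ≤ ∑ i ∈ univ.filter (fun i : Fin k => ((σ i).l.length : ℝ) < κ / 4 * n) ∩
          univ.filter (fun i : Fin k => ((σ i).k : ℝ) < κ / 4 * n), vsE n s g (σ i) :=
        Finset.sum_nonneg fun i _ => vsE_nonneg n hs g _
      linarith
    have h4 := hfew1.trans (mul_le_mul_of_nonneg_left hE1 (Real.exp_pos (κ / 4 * n)).le)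
    have h5 := hfew2.trans (mul_le_mul_of_nonneg_left hE2 (Real.exp_pos (κ / 4 * n)).le)
    linarith
  have hZ' : (rho ^ n)⁻¹ ≤ C * sc n * Zm n s g := by
    have h1 : 0 < rho ^ n := by positivity
    rw [inv_le_iff_one_le_mul₀ h1]
    have h2 : C * C⁻¹ ≤ C * (sc n * rho ^ n * Zm n s g) := mul_le_mul_of_nonneg_left hZ1 hC.le
    rw [mul_inv_cancel₀ hC.ne'] at h2
    linarith
  have hZq := Zm_nonneg n hs g
  have hr' : (rho' ^ n)⁻¹ = Real.exp (-(κ * n)) * (rho ^ n)⁻¹ := by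
    rw [hrho'def, mul_pow, mul_inv, ← Real.exp_nat_mul, Real.exp_neg, mul_comm (n : ℝ) κ,
      mul_comm]
  have hsmall := hN' n hnN'
  have hC'0 : 0 ≤ 8 * C' ^ 2 := by positivity
  calc ∑ i ∈ univ.filter (fun i : Fin k => ((σ i).l.length : ℝ) < κ / 4 * n ∨
        ((σ i).k : ℝ) < κ / 4 * n), vsE n s g (σ i)
      ≤ Real.exp (κ / 4 * n) * (2 * (8 * C' ^ 2 * (rho' ^ n)⁻¹)) := hfew
    _ = Real.exp (κ / 4 * n) * (2 * (8 * C' ^ 2 * (Real.exp (-(κ * n)) * (rho ^ n)⁻¹))) := by rw [hr']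
    _ ≤ Real.exp (κ / 4 * n) * (2 * (8 * C' ^ 2 * (Real.exp (-(κ * n)) * (C * sc n * Zm n s g)))) := by
        refine mul_le_mul_of_nonneg_left ?_ (Real.exp_pos _).le
        refine mul_le_mul_of_nonneg_left ?_ (by norm_num)
        refine mul_le_mul_of_nonneg_left ?_ hC'0
        exact mul_le_mul_of_nonneg_left hZ' (Real.exp_pos _).le
    _ = Real.exp (-(κ / 4 * n)) *
        ((16 * C' ^ 2 * C * sc n * Real.exp (-(κ / 2 * n))) * Zm n s g) := by
        have h1 : Real.exp (κ / 4 * n) * Real.exp (-(κ * n)) =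
            Real.exp (-(κ / 4 * n)) * Real.exp (-(κ / 2 * n)) := by
          rw [← Real.exp_add, ← Real.exp_add]
          congr 1
          ring
        calc Real.exp (κ / 4 * n) *
              (2 * (8 * C' ^ 2 * (Real.exp (-(κ * n)) * (C * sc n * Zm n s g))))
            = (Real.exp (κ / 4 * n) * Real.exp (-(κ * n))) *
                (16 * C' ^ 2 * C * sc n * Zm n s g) := by ring
          _ = (Real.exp (-(κ / 4 * n)) * Real.exp (-(κ / 2 * n))) *
              (16 * C' ^ 2 * C * sc n * Zm n s g) := by rw [h1]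
          _ = _ := by ring
    _ ≤ Real.exp (-(κ / 4 * n)) * (1 * Zm n s g) := by
        refine mul_le_mul_of_nonneg_left ?_ (Real.exp_pos _).le
        exact mul_le_mul_of_nonneg_right hsmall hZq
    _ = Real.exp (-(κ / 4 * n)) * Zm n s g := by rw [one_mul]

end Pool.Agent.TPE
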