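import Pool.Agent.TPE.Stmts
import Pool.Agent.TPT.LAPM

/-!
# Project TPE: module LAPE, asymptotic continuity of the Laplace transforms for large force
-/

set_option autoImplicit false

namespace Pool.Agent.TPE

open Finset Filter Topology MeasureTheory
open Pool.Agent.Lib27 Pool.Agent.SapR Pool.Agent.AreaLaw Pool.Agent.TPT
open Pool.Agent.FL (Wd hl htn)
open Pool.Agent.FS (sc)
open Pool.Agent.Gap (IsCap closeP lap mn epsn)

namespace LAPE

open Pool.Agent.TPT.LAPM (nz yy qq cmp lim_stair)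

/-- the limit of the third parameter -/
noncomputable def l3 (g : ℝ) : ℝ := 2 / (2 + Real.exp g + Real.exp (-g))

lemma exp_sub_le {b x y : ℝ} (hx : x ≤ b) (hy : y ≤ b) :
    |Real.exp x - Real.exp y| ≤ Real.exp b * |x - y| := by
  have key : ∀ u v : ℝ, u ≤ b → Real.exp u - Real.exp v ≤ Real.exp b * |u - v| := by
    intro u v hu
    have h1 := Real.add_one_le_exp (v - u)
    have h2 : Real.exp v = Real.exp u * Real.exp (v - u) := by
      rw [← Real.exp_add]; congr 1; ring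
    have h3 : Real.exp u - Real.exp v ≤ Real.exp u * (u - v) := by
      rw [h2]
      have := mul_le_mul_of_nonneg_left h1 (Real.exp_pos u).le
      linarith
    refine h3.trans ?_
    calc Real.exp u * (u - v) ≤ Real.exp u * |u - v| :=
          mul_le_mul_of_nonneg_left (le_abs_self _) (Real.exp_pos u).le
      _ ≤ Real.exp b * |u - v| :=
          mul_le_mul_of_nonneg_right (Real.exp_le_exp.2 hu) (abs_nonneg _)
  rw [abs_le]
  constructor
  · have := key y x hy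
    rw [abs_sub_comm] at this
    linarith
  · exact key x y hx

lemma l3_lip {b g g' : ℝ} (hg : |g| ≤ b) (hg' : |g'| ≤ b) :
    |l3 g - l3 g'| ≤ 2 * Real.exp b * |g - g'| := by
  obtain ⟨a1, a2⟩ := abs_le.1 hg
  obtain ⟨a3, a4⟩ := abs_le.1 hg'
  have h1 := exp_sub_le a2 a4
  have h2 := exp_sub_le (b := b) (x := -g) (y := -g') (by linarith) (by linarith)
  have h2' : |(-g) - (-g')| = |g - g'| := by
    rw [← abs_neg]; congr 1; ring
  rw [h2'] at h2
  have p1 := Real.exp_pos g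
  have p2 := Real.exp_pos (-g)
  have p3 := Real.exp_pos g'
  have p4 := Real.exp_pos (-g')
  obtain ⟨X, hX⟩ : ∃ X, X = 2 + Real.exp g + Real.exp (-g) := ⟨_, rfl⟩
  obtain ⟨Y, hY⟩ : ∃ Y, Y = 2 + Real.exp g' + Real.exp (-g') := ⟨_, rfl⟩
  have hX2 : 2 ≤ X := by rw [hX]; linarith
  have hY2 : 2 ≤ Y := by rw [hY]; linarith
  have hXY : |Y - X| ≤ 2 * Real.exp b * |g - g'| := by
    have e : Y - X = -(Real.exp g - Real.exp g') - (Real.exp (-g) - Real.exp (-g')) := by
      rw [hX, hY]; ring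
    rw [e]
    calc _ ≤ |-(Real.exp g - Real.exp g')| + |Real.exp (-g) - Real.exp (-g')| := abs_sub _ _
      _ ≤ Real.exp b * |g - g'| + Real.exp b * |g - g'| := by
        rw [abs_neg]; exact add_le_add h1 h2
      _ = _ := by ring
  have e : l3 g - l3 g' = 2 * (Y - X) / (X * Y) := by
    unfold l3
    rw [← hX, ← hY]
    field_simp
  have hXY4 : 2 ≤ X * Y := by nlinarith
  rw [e, abs_div, abs_of_pos (by linarith : (0 : ℝ) < X * Y), abs_mul, abs_two]
  refine le_trans ?_ hXY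
  rw [div_le_iff₀ (by linarith)]
  nlinarith [abs_nonneg (Y - X)]

/-- the data of a sequence of forces -/
lemma seqdat (hPA : TPK.QPAR_Stmt) (hR : TPK.QRAT_Stmt) {D : ℝ} (hD2 : 2 ≤ D) {N : ℕ}
    {a b : ℝ} (hdat : ∀ n : ℕ, N ≤ n → ∀ f g : ℝ, BoxE a b f g →
      ∃ d : KData n (Real.exp (-f)) g, KOk D n f g d) {lam : ℝ} (hlam : 0 ≤ lam)
    {f g : ℕ → ℝ} (hF : ∀ n, BoxE a b (f n) (g n)) :
    ∃ (q : ℕ → ℝ × ℝ × ℝ) (rho : ℕ → ℝ), (∀ n, ∃ G : TPK.GapKernel, TPK.Cls D (1 - D⁻¹) G ∧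
        q n = qq G) ∧
      (∀ n, N ≤ n → CritM n (Real.exp (-(f n))) (g n) (rho n) ∧
        q n = (par n (Real.exp (-(f n))) (g n) (rho n) 0,
          par n (Real.exp (-(f n))) (g n) (rho n) 1,
          par n (Real.exp (-(f n))) (g n) (rho n) 2)) ∧
      Tendsto (fun n : ℕ => lapM n (Real.exp (-(f n))) (g n) lam -
        lap EXW.QSIDE.P0 (nz n (q n)) (yy n (q n) lam)) atTop (𝓝 0) := by
  classical
  choose d hd using fun (n : ℕ) (hn : N ≤ n) => hdat n hn (f n) (g n) (hF n)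
  refine ⟨fun n => if h : N ≤ n then qq (d n h).G else qq (d N le_rfl).G,
    fun n => if h : N ≤ n then (d n h).G.rho else 1, ?_, ?_, ?_⟩
  · intro n
    by_cases h : N ≤ n
    · simp only [dif_pos h]
      exact ⟨_, (hd n h).cls, rfl⟩
    · simp only [dif_neg h]
      exact ⟨_, (hd N le_rfl).cls, rfl⟩
  · intro n h
    simp only [dif_pos h]
    refine ⟨(d n h).crit, ?_⟩
    unfold qq
    rw [(d n h).mbar, (d n h).hbar, (d n h).sig2]
  · rw [Metric.tendsto_atTop]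
    intro δ hδ
    obtain ⟨N2, hN2⟩ := cmp hPA hR hD2 hlam (half_pos hδ)
    refine ⟨max N N2, fun n hn => ?_⟩
    have h : N ≤ n := (le_max_left _ _).trans hn
    have h2 := hN2 n ((le_max_right _ _).trans hn) (f n) (g n) (d n h) (hd n h)
    simp only [dif_pos h]
    rw [Real.dist_eq, sub_zero]
    linarith

end LAPE

open LAPE in
open Pool.Agent.TPT.LAPM (nz yy qq cmp lim_stair) in
theorem t_LAPE (hD : DATBE_Stmt) (hPE : PARE_Stmt) (hPA : TPK.QPAR_Stmt) (hR : TPK.QRAT_Stmt)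
    (o1 : Gap.LT1_Stmt) (oM2 : Gap.M2_Stmt) (oB : Gap.BAL_Stmt) : LAPE_Stmt := by
  intro a b lam ha hab hlam f g f' g' hF hF' hf hf' hclose
  obtain ⟨L, m0, C', hL0, hm0, hC', hL, hexp⟩ := Gap.stair_side o1 oM2 oB
  obtain ⟨hpos0, hmean0, hlap0⟩ := EXW.QSIDE.stair_mean oM2 oB hL0 hL hexp
  obtain ⟨D, hD2, N, hN3, hdat⟩ := hD a b ha hab
  obtain ⟨CP, hCP, N1, hP⟩ := hPE a b ha hab
  obtain ⟨Kp, hpar⟩ := TPK.par_bounds
  have hD0 : 0 < D := by linarith
  obtain ⟨q, rho, q1, q2, q3⟩ := seqdat hPA hR hD2 hdat hlam hF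
  obtain ⟨q', rho', q1', q2', q3'⟩ := seqdat hPA hR hD2 hdat hlam hF'
  have hpos : ∀ {p : ℕ → ℝ × ℝ × ℝ}, (∀ n, ∃ G : TPK.GapKernel, TPK.Cls D (1 - D⁻¹) G ∧
      p n = qq G) → ∀ n, 0 < (p n).1 ∧ 0 < (p n).2.1 ∧ 0 < (p n).2.2 := by
    intro p hp n
    obtain ⟨G, hG, e⟩ := hp n
    obtain ⟨p1, -, p3, -, p5, -⟩ := hpar D hD2 G hG
    rw [e]
    exact ⟨lt_of_lt_of_le one_pos p1, lt_of_lt_of_le one_pos p3,
      lt_of_lt_of_le (inv_pos.2 hD0) p5⟩
  have hIcc : ∀ n, q n ∈ Set.Icc ((1 : ℝ), (1 : ℝ), D⁻¹) (D ^ Kp, D ^ Kp, D ^ Kp) := by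
    intro n
    obtain ⟨G, hG, e⟩ := q1 n
    obtain ⟨p1, p2, p3, p4, p5, p6⟩ := hpar D hD2 G hG
    rw [e, Set.mem_Icc]
    exact ⟨⟨p1, p3, p5⟩, ⟨p2, p4, p6⟩⟩
  -- the parameters of the two sequences are close
  have hexp0 : ∀ u : ℕ → ℝ, Tendsto u atTop atTop →
      Tendsto (fun n : ℕ => Real.exp (-(u n))) atTop (𝓝 0) := fun u hu =>
    Real.tendsto_exp_neg_atTop_nhds_zero.comp hu
  have hgap : Tendsto (fun n : ℕ => CP * Real.exp (-(f n)) + 2 * Real.exp b * |g n - g' n| +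
      CP * Real.exp (-(f' n))) atTop (𝓝 0) := by
    have h1 := (((hexp0 f hf).const_mul CP).add (hclose.abs.const_mul (2 * Real.exp b))).add
      ((hexp0 f' hf').const_mul CP)
    simpa using h1
  have hdist : Tendsto (fun n => dist (q n) (q' n)) atTop (𝓝 0) := by
    refine squeeze_zero' (Eventually.of_forall fun n => dist_nonneg) ?_ hgap
    filter_upwards [eventually_ge_atTop N, eventually_ge_atTop N1] with n k2 k3
    have h1 := hP n k3 (f n) (g n) (rho n) (hF n) (q2 n k2).1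
    have h1' := hP n k3 (f' n) (g' n) (rho' n) (hF' n) (q2' n k2).1
    have hl := l3_lip (hF n).2 (hF' n).2
    have hnn : 0 ≤ 2 * Real.exp b * |g n - g' n| := by positivity
    have h2 : ∀ i : Fin 3, dist (par n (Real.exp (-(f n))) (g n) (rho n) i)
        (par n (Real.exp (-(f' n))) (g' n) (rho' n) i) ≤
        CP * Real.exp (-(f n)) + 2 * Real.exp b * |g n - g' n| + CP * Real.exp (-(f' n)) := by
      have key : ∀ x y u v : ℝ, |x - u| ≤ CP * Real.exp (-(f n)) →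
          |y - v| ≤ CP * Real.exp (-(f' n)) → |u - v| ≤ 2 * Real.exp b * |g n - g' n| →
          dist x y ≤ CP * Real.exp (-(f n)) + 2 * Real.exp b * |g n - g' n| +
            CP * Real.exp (-(f' n)) := by
        intro x y u v c1 c2 c3
        rw [Real.dist_eq]
        have e : x - y = (x - u) + (u - v) + (v - y) := by ring
        rw [e]
        rw [abs_sub_comm] at c2
        exact (abs_add_three _ _ _).trans (add_le_add (add_le_add c1 c3) c2)
      intro i
      fin_cases i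
      · refine key _ _ _ _ (h1 0) (h1' 0) ?_
        simpa using hnn
      · refine key _ _ _ _ (h1 1) (h1' 1) ?_
        simpa using hnn
      · refine key _ _ _ _ (h1 2) (h1' 2) ?_
        exact hl
    rw [(q2 n k2).2, (q2' n k2).2, Prod.dist_eq, Prod.dist_eq]
    exact max_le (h2 0) (max_le (h2 1) (h2 2))
  refine tendsto_of_subseq_tendsto fun ns hns => ?_
  obtain ⟨q0, hq0, φ, hφ, hlim⟩ := (isCompact_Icc (a := ((1 : ℝ), (1 : ℝ), D⁻¹))
    (b := (D ^ Kp, D ^ Kp, D ^ Kp))).tendsto_subseq (x := fun k => q (ns k)) (fun k => hIcc _)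
  rw [Set.mem_Icc] at hq0
  have z1 : 0 < q0.1 := lt_of_lt_of_le one_pos hq0.1.1
  have z2 : 0 < q0.2.1 := lt_of_lt_of_le one_pos hq0.1.2.1
  have z3 : 0 < q0.2.2 := lt_of_lt_of_le (inv_pos.2 hD0) hq0.1.2.2
  have hm : Tendsto (fun k => ns (φ k)) atTop atTop := hns.comp hφ.tendsto_atTop
  have hlim1 : Tendsto (fun k => q (ns (φ k))) atTop (𝓝 q0) := hlim
  have hlim2 : Tendsto (fun k => q' (ns (φ k))) atTop (𝓝 q0) :=
    tendsto_of_tendsto_of_dist hlim1 (hdist.comp hm)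
  refine ⟨φ, ?_⟩
  have s1 := lim_stair hpos0 hmean0 hlap0 hm hlim1 z1 z2 z3 (fun k => hpos q1 _) hlam
  have s2 := lim_stair hpos0 hmean0 hlap0 hm hlim2 z1 z2 z3 (fun k => hpos q1' _) hlam
  have t1 := (q3.comp hm).add s1
  have t2 := (q3'.comp hm).add s2
  have t3 := t1.sub t2
  rw [sub_self] at t3
  refine t3.congr fun k => ?_
  simp only [Function.comp_apply]
  ring

end Pool.Agent.TPE
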