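import Pool.Agent.TPE.Stmts
import Pool.Agent.TPT.LOCA
import Pool.Agent.NSP.LOCZ

/-!
# TPE_LOCAE: moments of the area functional at fixed difference of the marks, large force (MP_f6626d_co)
-/

set_option autoImplicit false

namespace Pool.Agent.TPE.LOCAE

open Finset Filter Topology MeasureTheory
open Pool.Agent.Lib27 Pool.Agent.SapR Pool.Agent.AreaLaw Pool.Agent.FL Pool.Agent.TPT
open Pool.Agent.FS (sc rs bp rs_mul rs_add rs_mono rs_congr rs_nonneg)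
open Pool.Agent.TPT.LOCA (sum_choose sum_ind)

lemma key {n k : ℕ} {σ : Fin k → Sk2} (h : IsSkE n k σ) (s g : ℝ) (G : ℤ → ℤ → ℤ → ℝ) :
    ∑ q ∈ Omm n, wm n s g q * G (zl q) (zt q) (am n q) =
      ∑ i, s ^ (n - (σ i).H) * Real.exp (g * (σ i).Λ) * rs (σ i).l (fun j t =>
        (s * Real.exp g) ^ j * ∑ b ∈ range ((σ i).k + 1), ((σ i).k.choose b : ℝ) *
          (Real.exp (-(2 * g)) ^ b * G ((σ i).H - j) ((σ i).Λ + j - 2 * b) ((σ i).A - t))) := by
  have h1 := h.repr (fun a b c => s ^ (n - a.toNat) * Real.exp (g * b) * G a b c)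
  have h2 : ∀ q ∈ Omm n, wm n s g q * G (zl q) (zt q) (am n q) =
      s ^ (n - (zl q : ℤ).toNat) * Real.exp (g * ((zt q : ℤ) : ℝ)) *
        G (zl q) (zt q) (am n q) := fun q _ => by
    rw [Int.toNat_natCast]; rfl
  rw [sum_congr rfl h2, h1]
  refine sum_congr rfl fun i _ => ?_
  rw [← rs_mul]
  refine rs_congr _ _ _ fun j t hj ht => ?_
  have h3 := h.len_le i
  have h4 := h.H_le i
  rw [mul_sum, mul_sum]
  refine sum_congr rfl fun b _ => ?_
  have e1 : n - (((σ i).H : ℤ) - (j : ℤ)).toNat = (n - (σ i).H) + j := by omega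
  have e2 : Real.exp (g * (((σ i).Λ + (j : ℤ) - 2 * (b : ℤ) : ℤ) : ℝ)) =
      Real.exp (g * (σ i).Λ) * Real.exp g ^ j * Real.exp (-(2 * g)) ^ b := by
    rw [← Real.exp_nat_mul, ← Real.exp_nat_mul, ← Real.exp_add, ← Real.exp_add]
    congr 1
    push_cast
    ring
  rw [e1, e2, pow_add, mul_pow]
  ring

lemma area_ge {n k : ℕ} {σ : Fin k → Sk2} (sk : IsSkE n k σ) (i : Fin k) {t : ℕ}
    (ht : t ≤ (σ i).l.sum) :
    3 / 8 * ((σ i).A : ℝ) ≤ ((((σ i).A : ℤ) - (t : ℤ) : ℤ) : ℝ) ∧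
      ((((σ i).A : ℤ) - (t : ℤ) : ℤ) : ℝ) ≤ ((σ i).A : ℝ) := by
  have h1 := sk.sum_le i
  have h2 : 8 * (t : ℝ) ≤ 5 * ((σ i).A : ℝ) := by
    have : 8 * t ≤ 5 * (σ i).A := by omega
    exact_mod_cast this
  have h3 : (0 : ℝ) ≤ t := by positivity
  push_cast
  constructor <;> linarith

lemma vpos (n : ℕ) {s : ℝ} (hs : 0 < s) (g : ℝ) (a : Sk2) : 0 ≤ vsE n s g a := by
  unfold vsE
  positivity

lemma Z_eq {n k : ℕ} {σ : Fin k → Sk2} (sk : IsSkE n k σ) (s g : ℝ) :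
    Zm n s g = ∑ i, vsE n s g (σ i) := by
  have h := key sk s g (fun _ _ _ => 1)
  simp only [mul_one] at h
  unfold Zm
  rw [h]
  refine sum_congr rfl fun i _ => ?_
  have h2 : ∀ j : ℕ, (s * Real.exp g) ^ j *
      ∑ b ∈ range ((σ i).k + 1), ((σ i).k.choose b : ℝ) * Real.exp (-(2 * g)) ^ b =
      (1 + Real.exp (-(2 * g))) ^ (σ i).k * (s * Real.exp g) ^ j := fun j => by
    rw [sum_choose, mul_comm]
  simp only [h2]
  rw [rs_mul (σ i).l _ (fun j _ => (s * Real.exp g) ^ j), Pool.Agent.FS.LOC.rs_pow]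
  unfold vsE
  ring

lemma sumA {n k : ℕ} {σ : Fin k → Sk2} (sk : IsSkE n k σ) (hn : 1 ≤ n) {s g CA : ℝ} (hs : 0 < s)
    (r : ℕ) (arm : ∑ q ∈ Omm n, wm n s g q * rm n q ^ r ≤ CA * Zm n s g) :
    ∑ i, vsE n s g (σ i) * (((σ i).A : ℝ) / sc n) ^ r ≤ (8 / 3) ^ r * CA * Zm n s g := by
  have h := key sk s g (fun _ _ c => ((c : ℝ) / sc n) ^ r)
  have h2 : ∑ q ∈ Omm n, wm n s g q * rm n q ^ r =
      ∑ q ∈ Omm n, wm n s g q * ((((am n q : ℕ) : ℤ) : ℝ) / sc n) ^ r := by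
    refine sum_congr rfl fun q _ => ?_
    unfold rm
    push_cast
    rfl
  rw [h2, h] at arm
  have hsc := Pool.Agent.NSP.LOCM.scpos hn
  have h3 : ∑ i, vsE n s g (σ i) * ((3 / 8 : ℝ) ^ r * (((σ i).A : ℝ) / sc n) ^ r) ≤
      ∑ i, s ^ (n - (σ i).H) * Real.exp (g * (σ i).Λ) * rs (σ i).l (fun j t =>
        (s * Real.exp g) ^ j * ∑ b ∈ range ((σ i).k + 1), ((σ i).k.choose b : ℝ) *
          (Real.exp (-(2 * g)) ^ b *
            ((((((σ i).A : ℤ) - (t : ℤ) : ℤ)) : ℝ) / sc n) ^ r)) := by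
    refine sum_le_sum fun i _ => ?_
    have e1 : vsE n s g (σ i) * ((3 / 8 : ℝ) ^ r * (((σ i).A : ℝ) / sc n) ^ r) =
        s ^ (n - (σ i).H) * Real.exp (g * (σ i).Λ) * ((1 + s * Real.exp g) ^ (σ i).l.length *
          ((1 + Real.exp (-(2 * g))) ^ (σ i).k *
            ((3 / 8 : ℝ) ^ r * (((σ i).A : ℝ) / sc n) ^ r))) := by
      unfold vsE
      ring
    rw [e1]
    refine mul_le_mul_of_nonneg_left ?_ (by positivity)
    rw [← Pool.Agent.FS.LOC.rs_pow, mul_comm, ← rs_mul]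
    refine rs_mono _ _ _ fun j t _ ht => ?_
    obtain ⟨h4, _⟩ := area_ge sk i ht
    rw [mul_comm]
    refine mul_le_mul_of_nonneg_left ?_ (by positivity)
    rw [← sum_choose, sum_mul]
    refine sum_le_sum fun b _ => ?_
    rw [mul_assoc]
    refine mul_le_mul_of_nonneg_left (mul_le_mul_of_nonneg_left ?_ (by positivity))
      (by positivity)
    have h5 : 3 / 8 * (((σ i).A : ℝ) / sc n) ≤ ((((σ i).A : ℤ) - (t : ℤ) : ℤ) : ℝ) / sc n := by
      rw [← mul_div_assoc]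
      exact div_le_div_of_nonneg_right h4 hsc.le
    have h6 : (0 : ℝ) ≤ 3 / 8 * (((σ i).A : ℝ) / sc n) := by positivity
    rw [← mul_pow]
    exact pow_le_pow_left₀ h6 h5 r
  have h4 := h3.trans arm
  have h5 : ∑ i, vsE n s g (σ i) * ((3 / 8 : ℝ) ^ r * (((σ i).A : ℝ) / sc n) ^ r) =
      (3 / 8 : ℝ) ^ r * ∑ i, vsE n s g (σ i) * (((σ i).A : ℝ) / sc n) ^ r := by
    rw [mul_sum]
    exact sum_congr rfl fun i _ => by ring
  rw [h5] at h4
  have h6 : (8 / 3 : ℝ) ^ r * (3 / 8 : ℝ) ^ r = 1 := by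
    rw [← mul_pow]
    norm_num
  calc ∑ i, vsE n s g (σ i) * (((σ i).A : ℝ) / sc n) ^ r
      = ((8 / 3 : ℝ) ^ r * (3 / 8 : ℝ) ^ r) *
          ∑ i, vsE n s g (σ i) * (((σ i).A : ℝ) / sc n) ^ r := by rw [h6, one_mul]
    _ = (8 / 3 : ℝ) ^ r * ((3 / 8 : ℝ) ^ r *
          ∑ i, vsE n s g (σ i) * (((σ i).A : ℝ) / sc n) ^ r) := by ring
    _ ≤ (8 / 3 : ℝ) ^ r * (CA * Zm n s g) := mul_le_mul_of_nonneg_left h4 (by positivity)
    _ = _ := by ring

lemma small_a {n k : ℕ} {σ : Fin k → Sk2} (sk : IsSkE n k σ) (hn : 1 ≤ n) (r : ℕ) (i : Fin k) :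
    (((σ i).A : ℝ) / sc n) ^ r ≤ 2 ^ r * (n : ℝ) ^ r := by
  have h1 : ((σ i).A : ℝ) ≤ 2 * (n : ℝ) ^ 2 := by exact_mod_cast sk.A_le i
  have hn1 : (1 : ℝ) ≤ n := by exact_mod_cast hn
  have hsc := Pool.Agent.NSP.LOCM.scpos hn
  rw [← mul_pow]
  refine pow_le_pow_left₀ (by positivity) ?_ r
  rw [div_le_iff₀ hsc]
  refine h1.trans ?_
  unfold Pool.Agent.FS.sc
  have h2 : (1 : ℝ) ≤ Real.sqrt n := by
    rw [Real.one_le_sqrt]
    exact hn1
  nlinarith [mul_nonneg (show (0 : ℝ) ≤ 2 * (n : ℝ) ^ 2 by positivity) (sub_nonneg.2 h2)]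

/-- one skeleton -/
lemma one_sk {n k : ℕ} {σ : Fin k → Sk2} (sk : IsSkE n k σ) (hn : 1 ≤ n) {s : ℝ} (hs : 0 < s)
    (g : ℝ) (r : ℕ) (h : ℕ) (t : ℤ) (i : Fin k) :
    s ^ (n - (σ i).H) * Real.exp (g * (σ i).Λ) * rs (σ i).l (fun j τ =>
        (s * Real.exp g) ^ j * ∑ b ∈ range ((σ i).k + 1), ((σ i).k.choose b : ℝ) *
          (Real.exp (-(2 * g)) ^ b * (if (((σ i).H : ℤ) - (j : ℤ)) = (h : ℤ) ∧
            ((σ i).Λ + (j : ℤ) - 2 * (b : ℤ)) = t then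
              (((((σ i).A : ℤ) - (τ : ℤ) : ℤ) : ℝ) / sc n) ^ r else 0))) ≤
      vsE n s g (σ i) * (bp (σ i).l.length (s * Real.exp g / (1 + s * Real.exp g))
        ((σ i).H - h) * (bp (σ i).k (Real.exp (-(2 * g)) / (1 + Real.exp (-(2 * g))))
          (((σ i).Λ + ((σ i).H - h) - t) / 2) * (((σ i).A : ℝ) / sc n) ^ r)) := by
  have hsc := Pool.Agent.NSP.LOCM.scpos hn
  have hw : 0 < s * Real.exp g := mul_pos hs (Real.exp_pos _)
  have hw2 : 0 < Real.exp (-(2 * g)) := Real.exp_pos _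
  obtain ⟨w, hwe⟩ : ∃ w, w = s * Real.exp g := ⟨_, rfl⟩
  obtain ⟨w2, hw2e⟩ : ∃ w, w = Real.exp (-(2 * g)) := ⟨_, rfl⟩
  unfold vsE
  rw [← hwe, ← hw2e]
  rw [← hwe] at hw
  rw [← hw2e] at hw2
  have e1 : s ^ (n - (σ i).H) * Real.exp (g * (σ i).Λ) * (1 + w) ^ (σ i).l.length *
      (1 + w2) ^ (σ i).k * (bp (σ i).l.length (w / (1 + w)) ((σ i).H - h) *
        (bp (σ i).k (w2 / (1 + w2)) (((σ i).Λ + ((σ i).H - h) - t) / 2) *
          (((σ i).A : ℝ) / sc n) ^ r)) =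
      s ^ (n - (σ i).H) * Real.exp (g * (σ i).Λ) * ((1 + w) ^ (σ i).l.length *
        (bp (σ i).l.length (w / (1 + w)) ((σ i).H - h) * ((1 + w2) ^ (σ i).k *
          (bp (σ i).k (w2 / (1 + w2)) (((σ i).Λ + ((σ i).H - h) - t) / 2) *
          (((σ i).A : ℝ) / sc n) ^ r)))) := by ring
  rw [e1]
  refine mul_le_mul_of_nonneg_left ?_ (by positivity)
  rw [← Pool.Agent.FS.LOC.rs_ind Pool.Agent.FS.SMP_thm hw]
  refine rs_mono _ _ _ fun j τ _ hτ => mul_le_mul_of_nonneg_left ?_ (by positivity)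
  obtain ⟨h4, h5⟩ := area_ge sk i hτ
  have h6 : (0 : ℝ) ≤ ((((σ i).A : ℤ) - (τ : ℤ) : ℤ) : ℝ) :=
    le_trans (by positivity) h4
  have h7 : ((((σ i).A : ℤ) - (τ : ℤ) : ℤ) : ℝ) / sc n ≤ ((σ i).A : ℝ) / sc n :=
    div_le_div_of_nonneg_right h5 hsc.le
  have h8 := pow_le_pow_left₀ (div_nonneg h6 hsc.le) h7 r
  split_ifs with hj
  · rw [← sum_ind hw2]
    refine sum_le_sum fun b _ => mul_le_mul_of_nonneg_left
      (mul_le_mul_of_nonneg_left ?_ (by positivity)) (by positivity)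
    split_ifs with hb1 hb2 hb2
    · exact h8
    · exfalso
      apply hb2
      obtain ⟨hb3, hb4⟩ := hb1
      omega
    · positivity
    · exact le_rfl
  · refine le_of_eq (sum_eq_zero fun b _ => ?_)
    rw [if_neg, mul_zero, mul_zero]
    rintro ⟨hb3, -⟩
    apply hj
    omega

lemma wpos {n : ℕ} {f : ℝ} (h1 : 1 ≤ Real.exp (-f) * n) (hn : 1 ≤ n) : 0 < wd n f := by
  have hn1 : (1 : ℝ) ≤ n := by exact_mod_cast hn
  unfold wd se
  exact mul_pos (Real.sqrt_pos.2 (by linarith)) (Real.sqrt_pos.2 (by linarith))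

lemma w_le {n : ℕ} {f : ℝ} (hf : 0 ≤ f) : wd n f ≤ n := by
  unfold wd se
  have hn0 : (0 : ℝ) ≤ n := by positivity
  have h1 : Real.exp (-f) * n ≤ n := by
    have : Real.exp (-f) ≤ 1 := Real.exp_le_one_iff.2 (by linarith)
    nlinarith
  calc Real.sqrt (Real.exp (-f) * n) * Real.sqrt n ≤ Real.sqrt n * Real.sqrt n :=
        mul_le_mul_of_nonneg_right (Real.sqrt_le_sqrt h1) (Real.sqrt_nonneg _)
    _ = n := Real.mul_self_sqrt hn0

theorem core {n k : ℕ} {σ : Fin k → Sk2} {f g c p CA CB CZ : ℝ} {r : ℕ} (sk : IsSkE n k σ)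
    (hn : 1 ≤ n) (hf : 0 ≤ f) (hsn : 1 ≤ Real.exp (-f) * n) (hc : 0 < c) (hCA : 0 < CA)
    (hCB : 0 < CB) (hCZ : 0 < CZ) (hp : 0 < p)
    (arm : ∑ q ∈ Omm n, wm n (Real.exp (-f)) g q * rm n q ^ r ≤ CA * Zm n (Real.exp (-f)) g)
    (kb : ∑ i ∈ univ.filter (fun i : Fin k => ((σ i).l.length : ℝ) < c * n ∨
      ((σ i).k : ℝ) < c * n), vsE n (Real.exp (-f)) g (σ i) ≤
        Real.exp (-(c * n)) * Zm n (Real.exp (-f)) g)
    (pge : p * Real.exp (-f) ≤
      Real.exp (-f) * Real.exp g / (1 + Real.exp (-f) * Real.exp g))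
    (bin1 : ∀ (m : ℕ) (j : ℤ), 1 ≤ m →
      bp m (Real.exp (-f) * Real.exp g / (1 + Real.exp (-f) * Real.exp g)) j ≤
        CZ / Real.sqrt (m * (Real.exp (-f) * Real.exp g / (1 + Real.exp (-f) * Real.exp g))))
    (bin2 : ∀ (m : ℕ) (j : ℤ), 1 ≤ m →
      bp m (Real.exp (-(2 * g)) / (1 + Real.exp (-(2 * g)))) j ≤ CB / Real.sqrt m)
    (h : ℕ) (t : ℤ) :
    UM n (Real.exp (-f)) g h t (fun a => a ^ r) ≤
      (CZ / Real.sqrt (c * p) * (CB / Real.sqrt c) * ((8 / 3) ^ r * CA) +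
      (CB + 1) * 2 ^ r * (((r + 1).factorial : ℝ) / c ^ (r + 1))) / wd n f *
        Zm n (Real.exp (-f)) g := by
  have hs : 0 < Real.exp (-f) := Real.exp_pos _
  have hwd := wpos hsn hn
  have hwn : wd n f ≤ n := w_le hf
  obtain ⟨W, hW⟩ : ∃ W, W = wd n f := ⟨_, rfl⟩
  have hWe : W = Real.sqrt (Real.exp (-f) * n) * Real.sqrt n := hW
  rw [← hW] at hwd hwn ⊢
  obtain ⟨s, hse⟩ : ∃ s, s = Real.exp (-f) := ⟨_, rfl⟩
  rw [← hse] at hs hsn arm kb pge bin1 hWe ⊢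
  have hn1 : (1 : ℝ) ≤ n := by exact_mod_cast hn
  have hn0 : (0 : ℝ) < n := by linarith
  have hsc := Pool.Agent.NSP.LOCM.scpos hn
  have hZ0 : 0 ≤ Zm n s g := by
    rw [Z_eq sk]
    exact sum_nonneg fun i _ => vpos n hs g _
  have hsn0 : 0 < s * n := by linarith
  have hsqn : 0 < Real.sqrt n := Real.sqrt_pos.2 hn0
  have hsqs : 0 < Real.sqrt (s * n) := Real.sqrt_pos.2 hsn0
  have hscc : 0 < Real.sqrt c := Real.sqrt_pos.2 hc
  have hscp : 0 < Real.sqrt (c * p) := Real.sqrt_pos.2 (by positivity)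
  have h1 := key sk s g (fun a b x => if a = (h : ℤ) ∧ b = t then ((x : ℝ) / sc n) ^ r else 0)
  have h2 : UM n s g h t (fun a => a ^ r) = ∑ q ∈ Omm n, wm n s g q *
      (if ((zl q : ℕ) : ℤ) = (h : ℤ) ∧ zt q = t then
        ((((am n q : ℕ) : ℤ) : ℝ) / sc n) ^ r else 0) := by
    unfold UM rm
    rw [sum_filter]
    refine sum_congr rfl fun q _ => ?_
    by_cases hq : zl q = h ∧ zt q = t
    · rw [if_pos hq, if_pos ⟨by exact_mod_cast hq.1, hq.2⟩]
      push_cast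
      rfl
    · rw [if_neg hq, if_neg (fun hq' => hq ⟨by exact_mod_cast hq'.1, hq'.2⟩), mul_zero]
  rw [h2, h1]
  have hw : 0 < s * Real.exp g := mul_pos hs (Real.exp_pos _)
  have hw2 : 0 < Real.exp (-(2 * g)) := Real.exp_pos _
  have hp01 : ∀ w : ℝ, 0 < w → 0 ≤ w / (1 + w) ∧ w / (1 + w) ≤ 1 := by
    intro w hw
    refine ⟨by positivity, ?_⟩
    rw [div_le_one (by positivity)]
    linarith
  have hb1 : ∀ (m : ℕ) (j : ℤ), 0 ≤ bp m (s * Real.exp g / (1 + s * Real.exp g)) j :=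
    fun m j => Pool.Agent.FS.LOC.bp_nonneg (hp01 _ hw).1 (hp01 _ hw).2 m j
  have hb2 : ∀ (m : ℕ) (j : ℤ), 0 ≤ bp m (Real.exp (-(2 * g)) / (1 + Real.exp (-(2 * g)))) j :=
    fun m j => Pool.Agent.FS.LOC.bp_nonneg (hp01 _ hw2).1 (hp01 _ hw2).2 m j
  have hone : ∀ i : Fin k, ∀ j : ℤ,
      bp (σ i).l.length (s * Real.exp g / (1 + s * Real.exp g)) j ≤ 1 :=
    fun i j => Pool.Agent.NSP.LOCZ.bp_le_one Pool.Agent.FS.SMP_thm hw (σ i).l j
  have hbig : ∀ (m : ℕ) (j : ℤ), c * n ≤ m →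
      bp m (s * Real.exp g / (1 + s * Real.exp g)) j ≤
        CZ / (Real.sqrt (c * p) * Real.sqrt (s * n)) := by
    intro m j hm
    have hm1 : 1 ≤ m := by
      by_contra h0
      have h00 : m = 0 := by omega
      rw [h00] at hm
      have : 0 < c * n := by positivity
      push_cast at hm
      linarith
    refine (bin1 m j hm1).trans ?_
    rw [← Real.sqrt_mul (by positivity)]
    have h5 : c * p * (s * n) ≤ m * (s * Real.exp g / (1 + s * Real.exp g)) := by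
      calc c * p * (s * n) = (c * n) * (p * s) := by ring
        _ ≤ m * (s * Real.exp g / (1 + s * Real.exp g)) :=
          mul_le_mul hm pge (by positivity) (by positivity)
    exact div_le_div_of_nonneg_left hCZ.le (Real.sqrt_pos.2 (by positivity))
      (Real.sqrt_le_sqrt h5)
  have hE := Pool.Agent.NSP.LOCM.exp_small hc r hn
  have hFpos : 0 < ((r + 1).factorial : ℝ) / c ^ (r + 1) := by positivity
  obtain ⟨B, hB⟩ : ∃ B : ℝ, B = CZ / Real.sqrt (c * p) * (CB / Real.sqrt c) := ⟨_, rfl⟩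
  have hB0 : 0 < B := by rw [hB]; positivity
  have hsq : CZ / (Real.sqrt (c * p) * Real.sqrt (s * n)) *
      (CB / (Real.sqrt c * Real.sqrt n)) = B / W := by
    rw [hB, hWe]
    field_simp
  rw [← hB]
  have h4 : ∀ i : Fin k, vsE n s g (σ i) * (bp (σ i).l.length
        (s * Real.exp g / (1 + s * Real.exp g)) ((σ i).H - h) *
        (bp (σ i).k (Real.exp (-(2 * g)) / (1 + Real.exp (-(2 * g))))
          (((σ i).Λ + ((σ i).H - h) - t) / 2) * (((σ i).A : ℝ) / sc n) ^ r)) ≤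
      B / W * (vsE n s g (σ i) * (((σ i).A : ℝ) / sc n) ^ r) +
        (CB + 1) * (2 ^ r * (n : ℝ) ^ r) *
          (if ((σ i).l.length : ℝ) < c * n ∨ ((σ i).k : ℝ) < c * n then
            vsE n s g (σ i) else 0) := by
    intro i
    have hv := vpos n hs g (σ i)
    have ha : 0 ≤ (((σ i).A : ℝ) / sc n) ^ r := by positivity
    have hx1 := hb1 (σ i).l.length ((σ i).H - h)
    have hx2 := hb2 (σ i).k (((σ i).Λ + ((σ i).H - h) - t) / 2)
    by_cases hi : ((σ i).l.length : ℝ) < c * n ∨ ((σ i).k : ℝ) < c * n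
    · rw [if_pos hi]
      have h5 : bp (σ i).l.length (s * Real.exp g / (1 + s * Real.exp g)) ((σ i).H - h) *
          (bp (σ i).k (Real.exp (-(2 * g)) / (1 + Real.exp (-(2 * g))))
            (((σ i).Λ + ((σ i).H - h) - t) / 2) * (((σ i).A : ℝ) / sc n) ^ r) ≤
          1 * ((CB + 1) * (2 ^ r * (n : ℝ) ^ r)) :=
        mul_le_mul (hone i _)
          (mul_le_mul (Pool.Agent.NSP.LOCM.bple hCB bin2 _ _) (small_a sk hn r i) ha
            (by positivity)) (mul_nonneg hx2 ha) (by norm_num)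
      have h6 := mul_le_mul_of_nonneg_left h5 hv
      have h7 : 0 ≤ B / W *
          (vsE n s g (σ i) * (((σ i).A : ℝ) / sc n) ^ r) := by positivity
      refine h6.trans ?_
      have e3 : vsE n s g (σ i) * (1 * ((CB + 1) * (2 ^ r * (n : ℝ) ^ r))) =
          (CB + 1) * (2 ^ r * (n : ℝ) ^ r) * vsE n s g (σ i) := by ring
      rw [e3]
      linarith
    · rw [if_neg hi, mul_zero, add_zero]
      push Not at hi
      have h5 := hbig _ ((σ i).H - h : ℤ) hi.1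
      have h6 := Pool.Agent.NSP.LOCM.bpbig hCB hc bin2 hn _
        (((σ i).Λ + ((σ i).H - h) - t) / 2 : ℤ) hi.2
      have h7 : 0 ≤ CZ / (Real.sqrt (c * p) * Real.sqrt (s * n)) := by positivity
      have h8 := mul_le_mul h5 h6 hx2 h7
      rw [hsq] at h8
      have h9 := mul_le_mul_of_nonneg_left (mul_le_mul_of_nonneg_right h8 ha) hv
      refine (le_of_eq ?_).trans (h9.trans (le_of_eq (by ring)))
      ring
  refine (sum_le_sum fun i _ => (one_sk sk hn hs g r h t i).trans (h4 i)).trans ?_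
  rw [sum_add_distrib, ← mul_sum, ← mul_sum, ← sum_filter]
  have h5 : B / W * ∑ i, vsE n s g (σ i) * (((σ i).A : ℝ) / sc n) ^ r ≤
      B / W * ((8 / 3) ^ r * CA * Zm n s g) :=
    mul_le_mul_of_nonneg_left (sumA sk hn hs r arm) (by positivity)
  have h6 : (CB + 1) * (2 ^ r * (n : ℝ) ^ r) *
      ∑ i ∈ univ.filter (fun i : Fin k => ((σ i).l.length : ℝ) < c * n ∨
        ((σ i).k : ℝ) < c * n), vsE n s g (σ i) ≤
      (CB + 1) * 2 ^ r * (((r + 1).factorial : ℝ) / c ^ (r + 1)) / W * Zm n s g := by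
    refine (mul_le_mul_of_nonneg_left kb (by positivity)).trans ?_
    have h7 : ((r + 1).factorial : ℝ) / c ^ (r + 1) / n ≤
        ((r + 1).factorial : ℝ) / c ^ (r + 1) / W :=
      div_le_div_of_nonneg_left hFpos.le hwd hwn
    calc (CB + 1) * (2 ^ r * (n : ℝ) ^ r) * (Real.exp (-(c * n)) * Zm n s g)
        = (CB + 1) * 2 ^ r * Zm n s g * ((n : ℝ) ^ r * Real.exp (-(c * n))) := by ring
      _ ≤ (CB + 1) * 2 ^ r * Zm n s g * (((r + 1).factorial : ℝ) / c ^ (r + 1) / W) :=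
          mul_le_mul_of_nonneg_left (hE.trans h7) (by positivity)
      _ = _ := by ring
  refine (add_le_add h5 h6).trans (le_of_eq ?_)
  field_simp

end Pool.Agent.TPE.LOCAE

namespace Pool.Agent.TPE

open Finset Filter Topology MeasureTheory
open Pool.Agent.Lib27 Pool.Agent.SapR Pool.Agent.AreaLaw Pool.Agent.FL Pool.Agent.TPT
open Pool.Agent.FS (sc rs bp)
open Pool.Agent.NSP (lc ld tz)

theorem t_LOCAE (hS : SKELE_Stmt) (hK : KBIGE_Stmt) (hBZ : NSP.BINZ_Stmt) (hB : FS.BIN_Stmt)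
    (hM : MOMME_Stmt) (_hH : HGM_Stmt) : LOCAE_Stmt := by
  intro b hb1 r
  have hb : 0 < b := by linarith
  obtain ⟨CA, hCA, NA, hA'⟩ := hM b b hb le_rfl r
  obtain ⟨c, hc, NK, hNK6, hKB'⟩ := hK b b hb le_rfl
  obtain ⟨⟨CZ, hCZ, hz1⟩, _⟩ := hBZ
  have hp0 : 0 < Real.exp (-(2 * b)) / (1 + Real.exp (-(2 * b))) := by positivity
  have hmono : ∀ u v : ℝ, 0 < u → u ≤ v → u / (1 + u) ≤ v / (1 + v) := by
    intro u v hu huv
    have hv : 0 < v := lt_of_lt_of_le hu huv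
    rw [div_le_div_iff₀ (by positivity) (by positivity)]
    nlinarith
  have hp1 : Real.exp (2 * b) / (1 + Real.exp (2 * b)) < 1 := by
    rw [div_lt_one (by positivity)]
    linarith
  obtain ⟨⟨CB, hCB, hb1'⟩, _⟩ := hB (Real.exp (-(2 * b)) / (1 + Real.exp (-(2 * b))))
    (Real.exp (2 * b) / (1 + Real.exp (2 * b))) hp0
    (hmono _ _ (Real.exp_pos _) (Real.exp_le_exp.2 (by linarith))) hp1
  obtain ⟨p, hp⟩ : ∃ p : ℝ, p = Real.exp (-b) / 2 := ⟨_, rfl⟩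
  have hp00 : 0 < p := by rw [hp]; positivity
  refine ⟨CZ / Real.sqrt (c * p) * (CB / Real.sqrt c) * ((8 / 3) ^ r * CA) +
      (CB + 1) * 2 ^ r * (((r + 1).factorial : ℝ) / c ^ (r + 1)), ?_,
      max NA NK, fun n hn f g hbox hsn h t => ?_⟩
  · have h1 : 0 < Real.sqrt (c * p) := Real.sqrt_pos.2 (by positivity)
    have h2 : 0 < Real.sqrt c := Real.sqrt_pos.2 hc
    positivity
  have hn1 : NA ≤ n := (le_max_left _ _).trans hn
  have hn2 : NK ≤ n := (le_max_right _ _).trans hn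
  have hbox' := hbox
  obtain ⟨hf1, hg⟩ := hbox
  obtain ⟨hg1, hg2⟩ := abs_le.1 hg
  have hs : 0 < Real.exp (-f) := Real.exp_pos _
  obtain ⟨k, σ, hσ⟩ := hS n (by omega)
  have hw : 0 < Real.exp (-f) * Real.exp g := by positivity
  have hw1 : Real.exp (-f) * Real.exp g ≤ 1 := by
    rw [← Real.exp_add]
    exact Real.exp_le_one_iff.2 (by linarith)
  have hpp : 0 < Real.exp (-f) * Real.exp g / (1 + Real.exp (-f) * Real.exp g) := by positivity
  have hph : Real.exp (-f) * Real.exp g / (1 + Real.exp (-f) * Real.exp g) ≤ 1 / 2 := by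
    rw [div_le_div_iff₀ (by positivity) (by norm_num)]
    linarith
  refine LOCAE.core hσ (by omega) (by linarith) hsn hc hCA hCB hCZ hp00 (hA' n hn1 f g hbox').1
      (hKB' n hn2 f g hbox' k σ hσ) ?_ ?_ ?_ h t
  · rw [le_div_iff₀ (by positivity)]
    have h1 : Real.exp (-b) ≤ Real.exp g := Real.exp_le_exp.2 (by linarith)
    have h2 : p * Real.exp (-f) * (1 + Real.exp (-f) * Real.exp g) ≤
        p * Real.exp (-f) * 2 := mul_le_mul_of_nonneg_left (by linarith) (by positivity)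
    refine h2.trans ?_
    rw [hp]
    calc Real.exp (-b) / 2 * Real.exp (-f) * 2 = Real.exp (-f) * Real.exp (-b) := by ring
      _ ≤ _ := mul_le_mul_of_nonneg_left h1 hs.le
  · intro m j hm
    exact (hz1 _ hpp hph m j hm).1
  · intro m j hm
    refine (hb1' _ ?_ ?_ m j hm).1
    · exact hmono _ _ (Real.exp_pos _) (Real.exp_le_exp.2 (by linarith))
    · exact hmono _ _ (Real.exp_pos _) (Real.exp_le_exp.2 (by linarith))

end Pool.Agent.TPE
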