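import Pool.Agent.TPE.Stmts
import Pool.Agent.TPT.LOCB
import Pool.Agent.NSP.LOCZ

/-!
# TPE_LOCBE: local regularity in both coordinates, large force (MP_f6626d_co)
-/

set_option autoImplicit false

namespace Pool.Agent.TPE.LOCBE

open Finset Filter Topology MeasureTheory
open Pool.Agent.Lib27 Pool.Agent.SapR Pool.Agent.AreaLaw Pool.Agent.FL Pool.Agent.TPT
open Pool.Agent.FS (sc rs bp rs_add rs_mul rs_mono rs_congr rs_zero rs_nonneg rs_ge_zero rs_nil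
  rs_cons)
open Pool.Agent.FS.LOC (rs_pow choose_pow bp_nonneg rs_ind rs_abs exp_small)
open Pool.Agent.NSP.LOCZ (rs_tot bp_le_one bp_lip0)
open Pool.Agent.TPT.LOCB (sum_pow sum_ind scpos R_small rs_b)

/-! ### the key identity -/

lemma keyE {n M : ℕ} {σ : Fin M → Sk2} (h : IsSkE n M σ) (s g : ℝ) (G : ℤ → ℤ → ℤ → ℝ) :
    ∑ q ∈ Omm n, wm n s g q * G (zl q) (zt q) (am n q) =
      ∑ i, s ^ (n - (σ i).H) * Real.exp (g * (σ i).Λ) * rs (σ i).l (fun j t =>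
        (s * Real.exp g) ^ j * ∑ b ∈ range ((σ i).k + 1), ((σ i).k.choose b : ℝ) *
          (Real.exp (-(2 * g)) ^ b * G ((σ i).H - j) ((σ i).Λ + j - 2 * b) ((σ i).A - t))) := by
  have h1 := h.repr (fun a b c => s ^ (n - a.toNat) * Real.exp (g * b) * G a b c)
  have h2 : ∀ q ∈ Omm n, wm n s g q * G (zl q) (zt q) (am n q) =
      s ^ (n - (zl q : ℤ).toNat) * Real.exp (g * zt q) * G (zl q) (zt q) (am n q) := fun q _ => by
    rw [Int.toNat_natCast]; rfl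
  rw [sum_congr rfl h2, h1]
  refine sum_congr rfl fun i _ => ?_
  rw [← rs_mul]
  refine rs_congr _ _ _ fun j t hj ht => ?_
  have h3 := h.len_le i
  have h4 := h.H_le i
  rw [← mul_assoc, mul_sum]
  refine sum_congr rfl fun b _ => ?_
  have e1 : n - (((σ i).H : ℤ) - (j : ℤ)).toNat = (n - (σ i).H) + j := by omega
  have e2 : Real.exp (g * (((σ i).Λ + j - 2 * b : ℤ) : ℝ)) =
      Real.exp (g * (σ i).Λ) * Real.exp g ^ j * Real.exp (-(2 * g)) ^ b := by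
    rw [← Real.exp_nat_mul, ← Real.exp_nat_mul, ← Real.exp_add, ← Real.exp_add]
    congr 1
    push_cast
    ring
  rw [e1, e2, pow_add, mul_pow]
  ring

lemma allE {n M : ℕ} {σ : Fin M → Sk2} (h : IsSkE n M σ) (Q : ℤ → ℤ → ℤ → Prop)
    (hQ : ∀ q ∈ Omm n, Q (zl q) (zt q) (am n q)) (i : Fin M) :
    Q (σ i).H (σ i).Λ (σ i).A := by
  classical
  by_contra hc
  have h1 := h.repr (fun a b c => if Q a b c then 0 else 1)
  have h2 : ∑ q ∈ Omm n, (if Q (zl q) (zt q) (am n q) then (0 : ℝ) else 1) = 0 := by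
    refine Finset.sum_eq_zero fun q hq => ?_
    rw [if_pos (hQ q hq)]
  rw [h2] at h1
  have h3 : ∀ j ∈ (univ : Finset (Fin M)), 0 ≤ rs (σ j).l (fun a t =>
      ∑ b ∈ range ((σ j).k + 1), ((σ j).k.choose b : ℝ) *
      (if Q ((σ j).H - a) ((σ j).Λ + a - 2 * b) ((σ j).A - t) then (0 : ℝ) else 1)) := by
    intro j _
    refine rs_nonneg _ _ fun a t _ _ => ?_
    refine sum_nonneg fun b _ => ?_
    split_ifs <;> simp
  have h4 := (Finset.sum_eq_zero_iff_of_nonneg h3).1 h1.symm i (Finset.mem_univ i)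
  have h5 := rs_ge_zero (σ i).l (fun a t => ∑ b ∈ range ((σ i).k + 1), ((σ i).k.choose b : ℝ) *
      (if Q ((σ i).H - a) ((σ i).Λ + a - 2 * b) ((σ i).A - t) then (0 : ℝ) else 1)) (by
    intro a t _ _
    refine sum_nonneg fun b _ => ?_
    split_ifs <;> simp)
  rw [h4] at h5
  have h6 : ((σ i).k.choose 0 : ℝ) * (if Q ((σ i).H - (0 : ℕ)) ((σ i).Λ + (0 : ℕ) - 2 * (0 : ℕ))
      ((σ i).A - (0 : ℕ)) then (0 : ℝ) else 1) ≤ ∑ b ∈ range ((σ i).k + 1),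
      ((σ i).k.choose b : ℝ) * (if Q ((σ i).H - (0 : ℕ)) ((σ i).Λ + (0 : ℕ) - 2 * b)
        ((σ i).A - (0 : ℕ)) then (0 : ℝ) else 1) := by
    refine single_le_sum (f := fun b : ℕ => ((σ i).k.choose b : ℝ) *
      (if Q ((σ i).H - (0 : ℕ)) ((σ i).Λ + (0 : ℕ) - 2 * b)
        ((σ i).A - (0 : ℕ)) then (0 : ℝ) else 1)) (fun b _ => ?_) (mem_range.2 (Nat.succ_pos _))
    split_ifs <;> simp
  simp only [Nat.cast_zero, sub_zero, add_zero, mul_zero, Nat.choose_zero_right, Nat.cast_one,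
    one_mul] at h6 h5
  rw [if_neg hc] at h6
  linarith

/-! ### the context -/

structure Ctx (n M : ℕ) (σ : Fin M → Sk2) (s g q1 q2 κ c CA CB : ℝ) : Prop where
  sk : IsSkE n M σ
  hn : 3 ≤ n
  hs : 0 < s
  hs1 : s ≤ 1
  hsn : 1 ≤ s * n
  e1 : q1 = s * Real.exp g
  e2 : q2 = Real.exp (-(2 * g))
  hq : q1 ≤ 1
  hκ : 0 < κ
  k1 : q1 ≤ κ * s
  k2 : s ≤ κ * q1
  hc : 0 < c
  hCA : 0 < CA
  hCB : 0 < CB
  smp : FS.SMP_Stmt
  par : ∀ i, Even (((σ i).H : ℤ) + (σ i).Λ)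
  arm : ∑ q ∈ Omm n, wm n s g q * rm n q ^ 2 ≤ CA * Zm n s g
  kb : ∑ i ∈ univ.filter (fun i : Fin M => ((σ i).l.length : ℝ) < c * n ∨ ((σ i).k : ℝ) < c * n),
    vsE n s g (σ i) ≤ 1 / (n : ℝ) ^ 3 * Zm n s g
  bin1 : ∀ (m : ℕ) (j : ℤ), 1 ≤ m →
    bp m (q1 / (1 + q1)) j ≤ CB / Real.sqrt (m * (q1 / (1 + q1))) ∧
    |bp m (q1 / (1 + q1)) (j + 1) - bp m (q1 / (1 + q1)) j| ≤ CB / (m * (q1 / (1 + q1))) ∧
    bp m (q1 / (1 + q1)) j * j ≤ CB * Real.sqrt (m * (q1 / (1 + q1)))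
  bin2 : ∀ (m : ℕ) (j : ℤ), 1 ≤ m → bp m (q2 / (1 + q2)) j ≤ CB / Real.sqrt m ∧
    |bp m (q2 / (1 + q2)) (j + 1) - bp m (q2 / (1 + q2)) j| ≤ CB / m

variable {n M : ℕ} {σ : Fin M → Sk2} {s g q1 q2 κ c CA CB : ℝ}

lemma Ctx.n1 (X : Ctx n M σ s g q1 q2 κ c CA CB) : (3 : ℝ) ≤ n := by exact_mod_cast X.hn

lemma Ctx.h1 (X : Ctx n M σ s g q1 q2 κ c CA CB) : 0 < q1 := by
  rw [X.e1]
  have := X.hs
  positivity

lemma Ctx.h2 (X : Ctx n M σ s g q1 q2 κ c CA CB) : 0 < q2 := by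
  rw [X.e2]
  positivity

lemma Ctx.snpos (X : Ctx n M σ s g q1 q2 κ c CA CB) : 0 < s * n := lt_of_lt_of_le one_pos X.hsn

lemma Ctx.sn_le (X : Ctx n M σ s g q1 q2 κ c CA CB) : s * n ≤ n := by
  have := X.hs1
  have := X.n1
  nlinarith

lemma Ctx.vs (X : Ctx n M σ s g q1 q2 κ c CA CB) (a : Sk2) : vsE n s g a =
    s ^ (n - a.H) * Real.exp (g * a.Λ) * ((1 + q1) ^ a.l.length * (1 + q2) ^ a.k) := by
  unfold vsE
  rw [X.e1, X.e2]
  ring

lemma Ctx.vpos (X : Ctx n M σ s g q1 q2 κ c CA CB) (a : Sk2) : 0 ≤ vsE n s g a := by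
  rw [X.vs]
  have := X.hs
  have := X.h1
  have := X.h2
  positivity

lemma Ctx.key (X : Ctx n M σ s g q1 q2 κ c CA CB) (G : ℤ → ℤ → ℤ → ℝ) :
    ∑ q ∈ Omm n, wm n s g q * G (zl q) (zt q) (am n q) =
      ∑ i, s ^ (n - (σ i).H) * Real.exp (g * (σ i).Λ) * rs (σ i).l (fun j t =>
        q1 ^ j * ∑ b ∈ range ((σ i).k + 1), ((σ i).k.choose b : ℝ) *
          (q2 ^ b * G ((σ i).H - j) ((σ i).Λ + j - 2 * b) ((σ i).A - t))) := by
  rw [X.e1, X.e2]
  exact keyE X.sk s g G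

lemma Ctx.Z (X : Ctx n M σ s g q1 q2 κ c CA CB) : Zm n s g = ∑ i, vsE n s g (σ i) := by
  have h := X.key (fun _ _ _ => 1)
  simp only [mul_one] at h
  unfold Zm
  rw [h]
  refine sum_congr rfl fun i _ => ?_
  have h2 := rs_b (σ i).l (σ i).k q1 q2 (fun _ _ => 1)
  simp only [mul_one] at h2
  rw [h2, rs_pow, X.vs]
  ring

lemma Ctx.Zpos (X : Ctx n M σ s g q1 q2 κ c CA CB) : 0 ≤ Zm n s g := by
  rw [X.Z]
  exact sum_nonneg fun i _ => X.vpos _

lemma Ctx.split (X : Ctx n M σ s g q1 q2 κ c CA CB) (f u : Fin M → ℝ) (D : ℝ)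
    (hD : 0 ≤ D) (hg : ∀ i, 0 ≤ u i)
    (hbig : ∀ i, c * n ≤ ((σ i).l.length : ℝ) → c * n ≤ ((σ i).k : ℝ) →
      f i ≤ vsE n s g (σ i) * u i)
    (hsmall : ∀ i, f i ≤ vsE n s g (σ i) * D) :
    ∑ i, f i ≤ ∑ i, vsE n s g (σ i) * u i + D / (n : ℝ) ^ 3 * Zm n s g := by
  classical
  have h1 : ∀ i, f i ≤ vsE n s g (σ i) * u i +
      (if ((σ i).l.length : ℝ) < c * n ∨ ((σ i).k : ℝ) < c * n then vsE n s g (σ i) * D
        else 0) := by
    intro i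
    have hv := X.vpos (σ i)
    by_cases h : ((σ i).l.length : ℝ) < c * n ∨ ((σ i).k : ℝ) < c * n
    · rw [if_pos h]
      have := hsmall i
      have := mul_nonneg hv (hg i)
      linarith
    · rw [if_neg h]
      push Not at h
      have := hbig i h.1 h.2
      linarith
  refine (sum_le_sum fun i _ => h1 i).trans ?_
  rw [sum_add_distrib]
  refine add_le_add le_rfl ?_
  rw [← sum_filter, ← sum_mul]
  calc _ ≤ 1 / (n : ℝ) ^ 3 * Zm n s g * D := mul_le_mul_of_nonneg_right X.kb hD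
    _ = _ := by ring

lemma Ctx.sumA (X : Ctx n M σ s g q1 q2 κ c CA CB) :
    ∑ i, vsE n s g (σ i) * (((σ i).A : ℝ) / sc n) ^ 2 ≤ 8 * CA * Zm n s g := by
  have h := X.key (fun _ _ b => ((b : ℝ) / sc n) ^ 2)
  have h1 := X.arm
  have h2 : ∑ q ∈ Omm n, wm n s g q * rm n q ^ 2 =
      ∑ q ∈ Omm n, wm n s g q * ((((am n q : ℕ) : ℤ) : ℝ) / sc n) ^ 2 := by
    refine sum_congr rfl fun q _ => ?_
    unfold rm
    push_cast
    rfl
  rw [h2, h] at h1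
  have hs := X.hs
  have hq1 := X.h1
  have hq2 := X.h2
  have hsc := scpos X.hn
  have h3 : ∑ i, vsE n s g (σ i) * (9 / 64 * (((σ i).A : ℝ) / sc n) ^ 2) ≤
      ∑ i, s ^ (n - (σ i).H) * Real.exp (g * (σ i).Λ) * rs (σ i).l (fun j t =>
        q1 ^ j * ∑ b ∈ range ((σ i).k + 1), ((σ i).k.choose b : ℝ) *
          (q2 ^ b * ((((((σ i).A : ℤ) - (t : ℤ) : ℤ)) : ℝ) / sc n) ^ 2)) := by
    refine sum_le_sum fun i _ => ?_
    rw [rs_b (σ i).l (σ i).k q1 q2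
      (fun _ t => ((((((σ i).A : ℤ) - (t : ℤ) : ℤ)) : ℝ) / sc n) ^ 2), X.vs, mul_assoc]
    refine mul_le_mul_of_nonneg_left ?_ (by positivity)
    rw [mul_comm ((1 + q1) ^ (σ i).l.length), mul_assoc]
    refine mul_le_mul_of_nonneg_left ?_ (by positivity)
    rw [← rs_pow, mul_comm, ← rs_mul]
    refine rs_mono _ _ _ fun j t _ ht => ?_
    have h4 : 3 / 8 * ((σ i).A : ℝ) ≤ ((((σ i).A : ℤ) - (t : ℤ) : ℤ) : ℝ) := by
      have h5 := X.sk.sum_le i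
      have h6 : 8 * (t : ℝ) ≤ 5 * ((σ i).A : ℝ) := by
        have : 8 * t ≤ 5 * (σ i).A := by omega
        exact_mod_cast this
      push_cast
      linarith
    rw [mul_comm]
    refine mul_le_mul_of_nonneg_left ?_ (by positivity)
    have h5 : 3 / 8 * (((σ i).A : ℝ) / sc n) ≤ ((((σ i).A : ℤ) - (t : ℤ) : ℤ) : ℝ) / sc n := by
      rw [← mul_div_assoc]
      exact div_le_div_of_nonneg_right h4 hsc.le
    have h6 : (0 : ℝ) ≤ 3 / 8 * (((σ i).A : ℝ) / sc n) := by positivity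
    calc 9 / 64 * (((σ i).A : ℝ) / sc n) ^ 2 = (3 / 8 * (((σ i).A : ℝ) / sc n)) ^ 2 := by ring
      _ ≤ _ := pow_le_pow_left₀ h6 h5 2
  have h4 := h3.trans h1
  have h5 : ∑ i, vsE n s g (σ i) * (9 / 64 * (((σ i).A : ℝ) / sc n) ^ 2) =
      9 / 64 * ∑ i, vsE n s g (σ i) * (((σ i).A : ℝ) / sc n) ^ 2 := by
    rw [mul_sum]
    exact sum_congr rfl fun i _ => by ring
  rw [h5] at h4
  have h6 : 0 ≤ CA * Zm n s g := mul_nonneg X.hCA.le X.Zpos
  linarith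

lemma Ctx.sumV (X : Ctx n M σ s g q1 q2 κ c CA CB) :
    ∑ i, vsE n s g (σ i) * (1 + (((σ i).A : ℝ) / sc n) ^ 2) ≤ (1 + 8 * CA) * Zm n s g := by
  have h := X.sumA
  have h1 := X.Z
  simp only [mul_add, mul_one, sum_add_distrib]
  rw [← h1]
  linarith

/-! ### the binomial weights -/

lemma Ctx.p0 {q : ℝ} (h : 0 < q) : 0 ≤ q / (1 + q) := by positivity

lemma Ctx.p1 {q : ℝ} (h : 0 < q) : q / (1 + q) ≤ 1 := by
  rw [div_le_one (by positivity)]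
  linarith

lemma bp_one (hS : FS.SMP_Stmt) {q : ℝ} (hq : 0 < q) (k : ℕ) (m : ℤ) :
    bp k (q / (1 + q)) m ≤ 1 := by
  have h := bp_le_one hS hq (List.replicate k 0) m
  rwa [List.length_replicate] at h

/-- `len p₁ ≥ (c / (2 κ)) s n` -/
lemma Ctx.kp (X : Ctx n M σ s g q1 q2 κ c CA CB) (m : ℕ) (hm : c * n ≤ m) :
    c / (2 * κ) * (s * n) ≤ m * (q1 / (1 + q1)) := by
  have hc := X.hc
  have hn := X.n1
  have hs := X.hs
  have hq := X.h1
  have hκ := X.hκ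
  have h1 : q1 / 2 ≤ q1 / (1 + q1) :=
    div_le_div_of_nonneg_left hq.le (by positivity) (by linarith [X.hq])
  have h2 : s / (2 * κ) ≤ q1 / 2 := by
    rw [div_le_div_iff₀ (by positivity) (by norm_num)]
    have := X.k2
    nlinarith
  calc c / (2 * κ) * (s * n) = (c * n) * (s / (2 * κ)) := by ring
    _ ≤ m * (q1 / (1 + q1)) := mul_le_mul hm (h2.trans h1) (by positivity) (by positivity)

lemma one_le_of {c : ℝ} {n m : ℕ} (hn : 3 ≤ n) (hc : 0 < c) (hm : c * n ≤ m) : 1 ≤ m := by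
  by_contra h
  have hn' : (3 : ℝ) ≤ n := by exact_mod_cast hn
  have : m = 0 := by omega
  rw [this] at hm
  have : 0 < c * n := by positivity
  push_cast at hm
  linarith

lemma Ctx.big1 (X : Ctx n M σ s g q1 q2 κ c CA CB) (m : ℕ) (j : ℤ) (hm : c * n ≤ m) :
    bp m (q1 / (1 + q1)) j ≤ CB / (Real.sqrt (c / (2 * κ)) * Real.sqrt (s * n)) := by
  have hc := X.hc
  have hκ := X.hκ
  have hCB := X.hCB
  have hsn := X.snpos
  refine (X.bin1 m j (one_le_of X.hn hc hm)).1.trans ?_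
  rw [← Real.sqrt_mul (by positivity)]
  have h2 : Real.sqrt (c / (2 * κ) * (s * n)) ≤ Real.sqrt (m * (q1 / (1 + q1))) :=
    Real.sqrt_le_sqrt (X.kp m hm)
  have h3 : 0 < Real.sqrt (c / (2 * κ) * (s * n)) := Real.sqrt_pos.2 (by positivity)
  exact div_le_div_of_nonneg_left hCB.le h3 h2

lemma Ctx.big2 (X : Ctx n M σ s g q1 q2 κ c CA CB) (m : ℕ) (j : ℤ) (hm : c * n ≤ m) :
    bp m (q2 / (1 + q2)) j ≤ CB / (Real.sqrt c * Real.sqrt n) := by
  have hc := X.hc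
  have hCB := X.hCB
  have hn := X.n1
  refine (X.bin2 m j (one_le_of X.hn hc hm)).1.trans ?_
  rw [← Real.sqrt_mul hc.le]
  have h2 : Real.sqrt (c * n) ≤ Real.sqrt m := Real.sqrt_le_sqrt hm
  have h3 : 0 < Real.sqrt (c * n) := Real.sqrt_pos.2 (by positivity)
  exact div_le_div_of_nonneg_left hCB.le h3 h2

/-! ### contribution of a skeleton -/

/-- number of lateral tokens of the second kind -/
def cb (a : Sk2) (h : ℕ) (t : ℤ) : ℤ := (a.Λ + (a.H - h) - t) / 2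

/-- sum over the span tokens -/
noncomputable def R (n : ℕ) (q1 : ℝ) (a : Sk2) (h : ℕ) (φ : ℝ → ℝ) : ℝ :=
  rs a.l (fun j t => q1 ^ j * (if (j : ℤ) = a.H - h then
    φ ((((a.A : ℤ) - (t : ℤ) : ℤ) : ℝ) / sc n) else 0))

/-- contribution of a skeleton -/
noncomputable def ui (n : ℕ) (s g q1 q2 : ℝ) (a : Sk2) (h : ℕ) (t : ℤ) (φ : ℝ → ℝ) : ℝ :=
  s ^ (n - a.H) * Real.exp (g * a.Λ) *
    ((1 + q2) ^ a.k * (bp a.k (q2 / (1 + q2)) (cb a h t) * R n q1 a h φ))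

lemma two_cb {a : Sk2} {h : ℕ} {t : ℤ} (h1 : Even ((a.H : ℤ) + a.Λ)) (h2 : Even ((h : ℤ) + t)) :
    2 * cb a h t = a.Λ + (a.H - h) - t := by
  obtain ⟨x, hx⟩ := h1
  obtain ⟨y, hy⟩ := h2
  unfold cb
  omega

lemma Ctx.U_eq (X : Ctx n M σ s g q1 q2 κ c CA CB) (h : ℕ) (t : ℤ) (hp : Even ((h : ℤ) + t))
    (φ : ℝ → ℝ) : UM n s g h t φ = ∑ i, ui n s g q1 q2 (σ i) h t φ := by
  classical
  have h1 := X.key (fun a b c => if a = (h : ℤ) ∧ b = t then φ ((c : ℝ) / sc n) else 0)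
  have h2 : UM n s g h t φ = ∑ q ∈ Omm n, wm n s g q *
      (if (zl q : ℤ) = (h : ℤ) ∧ zt q = t then φ ((((am n q : ℕ) : ℤ) : ℝ) / sc n) else 0) := by
    unfold UM rm
    rw [sum_filter]
    refine sum_congr rfl fun q _ => ?_
    by_cases h3 : zl q = h ∧ zt q = t
    · rw [if_pos h3, if_pos ⟨by exact_mod_cast h3.1, h3.2⟩]
      push_cast
      rfl
    · rw [if_neg h3, if_neg (fun h4 => h3 ⟨by exact_mod_cast h4.1, h4.2⟩), mul_zero]
  rw [h2, h1]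
  refine sum_congr rfl fun i _ => ?_
  unfold ui R
  congr 1
  rw [← mul_assoc, ← rs_mul]
  refine rs_congr _ _ _ fun j t' _ _ => ?_
  have hcb := two_cb (a := σ i) (X.par i) hp
  by_cases hj : (j : ℤ) = (σ i).H - h
  · rw [if_pos hj]
    have h3 := sum_ind X.h2 (σ i).k (cb (σ i) h t) (φ (((((σ i).A : ℤ) - (t' : ℤ) : ℤ) : ℝ) / sc n))
    have h4 : ∑ b ∈ range ((σ i).k + 1), ((σ i).k.choose b : ℝ) * (q2 ^ b *
        (if ((σ i).H : ℤ) - (j : ℤ) = (h : ℤ) ∧ (σ i).Λ + (j : ℤ) - 2 * (b : ℤ) = t then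
          φ (((((σ i).A : ℤ) - (t' : ℤ) : ℤ) : ℝ) / sc n) else 0)) =
        ∑ b ∈ range ((σ i).k + 1), ((σ i).k.choose b : ℝ) * (q2 ^ b *
        (if (b : ℤ) = cb (σ i) h t then
          φ (((((σ i).A : ℤ) - (t' : ℤ) : ℤ) : ℝ) / sc n) else 0)) := by
      refine sum_congr rfl fun b _ => ?_
      by_cases hb : (b : ℤ) = cb (σ i) h t
      · rw [if_pos hb, if_pos ⟨by omega, by omega⟩]
      · rw [if_neg hb, if_neg (by rintro ⟨h5, h6⟩; exact hb (by omega))]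
    rw [h4, h3]
    ring
  · rw [if_neg hj]
    have h4 : ∑ b ∈ range ((σ i).k + 1), ((σ i).k.choose b : ℝ) * (q2 ^ b *
        (if ((σ i).H : ℤ) - (j : ℤ) = (h : ℤ) ∧ (σ i).Λ + (j : ℤ) - 2 * (b : ℤ) = t then
          φ (((((σ i).A : ℤ) - (t' : ℤ) : ℤ) : ℝ) / sc n) else 0)) = 0 := by
      refine sum_eq_zero fun b _ => ?_
      rw [if_neg (by rintro ⟨h5, h6⟩; exact hj (by omega))]
      ring
    rw [h4]
    ring

lemma Ctx.ui_small (X : Ctx n M σ s g q1 q2 κ c CA CB) (i : Fin M) (h : ℕ)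
    (t : ℤ) (φ : ℝ → ℝ) (hφ : ∀ a, |φ a| ≤ 1) :
    |ui n s g q1 q2 (σ i) h t φ| ≤ vsE n s g (σ i) * 1 := by
  have hs := X.hs
  have hq1 := X.h1
  have hq2 := X.h2
  have h1 := R_small X.smp X.h1 (σ i).l ((σ i).H - h)
    (fun t => φ (((((σ i).A : ℤ) - (t : ℤ) : ℤ) : ℝ) / sc n)) (fun t => hφ _)
  have h2 := bp_one X.smp X.h1 (σ i).l.length ((σ i).H - h)
  have h3 := bp_one X.smp X.h2 (σ i).k (cb (σ i) h t)
  have h4 := bp_nonneg (Ctx.p0 X.h2) (Ctx.p1 X.h2) (σ i).k (cb (σ i) h t)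
  have h5 : |R n q1 (σ i) h φ| ≤ (1 + q1) ^ (σ i).l.length * 1 :=
    h1.trans (mul_le_mul_of_nonneg_left h2 (by positivity))
  unfold ui
  rw [abs_mul, abs_of_nonneg (show 0 ≤ s ^ (n - (σ i).H) * Real.exp (g * (σ i).Λ) by positivity),
    X.vs, mul_assoc _ _ (1 : ℝ)]
  refine mul_le_mul_of_nonneg_left ?_ (by positivity)
  rw [abs_mul, abs_mul, abs_of_nonneg h4, abs_of_nonneg (show 0 ≤ (1 + q2) ^ (σ i).k by positivity)]
  calc (1 + q2) ^ (σ i).k * (bp (σ i).k (q2 / (1 + q2)) (cb (σ i) h t) * |R n q1 (σ i) h φ|)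
      ≤ (1 + q2) ^ (σ i).k * (1 * ((1 + q1) ^ (σ i).l.length * 1)) := by
        refine mul_le_mul_of_nonneg_left ?_ (by positivity)
        exact mul_le_mul h3 h5 (abs_nonneg _) (by positivity)
    _ = _ := by ring

/-- the function of the area may be evaluated at the area of the skeleton -/
lemma Ctx.R_big (X : Ctx n M σ s g q1 q2 κ c CA CB) (i : Fin M)
    (hi : c * n ≤ ((σ i).l.length : ℝ)) (h : ℕ) (φ : ℝ → ℝ) (hL : LipschitzWith 1 φ) :
    |R n q1 (σ i) h φ - (1 + q1) ^ (σ i).l.length *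
        (bp (σ i).l.length (q1 / (1 + q1)) ((σ i).H - h) * φ (((σ i).A : ℝ) / sc n))| ≤
      (1 + q1) ^ (σ i).l.length * (CB * Real.sqrt (κ / c) *
        (1 + (((σ i).A : ℝ) / sc n) ^ 2) * (s / Real.sqrt (s * n))) := by
  have hn := X.n1
  have hs := X.hs
  have hq := X.h1
  have hκ := X.hκ
  have hsc := scpos X.hn
  have hCB := X.hCB
  have hc := X.hc
  have hsn0 := X.snpos
  have hsn : 0 < Real.sqrt (s * n) := Real.sqrt_pos.2 hsn0
  have hcn : 0 < c * n := by positivity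
  have hlen : (0 : ℝ) < (σ i).l.length := lt_of_lt_of_le hcn hi
  obtain ⟨m, hm⟩ : ∃ m : ℤ, m = (σ i).H - h := ⟨_, rfl⟩
  obtain ⟨p, hp⟩ : ∃ p, p = q1 / (1 + q1) := ⟨_, rfl⟩
  have hp0 : 0 < p := by rw [hp]; positivity
  have hps : p ≤ κ * s := by
    refine le_trans ?_ X.k1
    rw [hp, div_le_iff₀ (by positivity)]
    nlinarith
  have h1 := rs_abs (σ i).l (fun j t => q1 ^ j * (if (j : ℤ) = m then
    φ (((((σ i).A : ℤ) - (t : ℤ) : ℤ) : ℝ) / sc n) else 0))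
    (fun j _ => q1 ^ j * (if (j : ℤ) = m then φ (((σ i).A : ℝ) / sc n) else 0))
    (fun j t => 1 / sc n * (q1 ^ j * (if (j : ℤ) = m then (t : ℝ) else 0)))
    (fun j t _ _ => by
      rw [← mul_sub, abs_mul, abs_of_nonneg (show 0 ≤ q1 ^ j by positivity)]
      rw [← mul_assoc, mul_comm (1 / sc n), mul_assoc]
      refine mul_le_mul_of_nonneg_left ?_ (by positivity)
      split_ifs
      · have h2 := hL.dist_le_mul (((((σ i).A : ℤ) - (t : ℤ) : ℤ) : ℝ) / sc n)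
          (((σ i).A : ℝ) / sc n)
        rw [Real.dist_eq, Real.dist_eq] at h2
        refine h2.trans (le_of_eq ?_)
        simp only [Int.cast_sub, Int.cast_natCast, NNReal.coe_one]
        rw [one_mul, ← sub_div, abs_div, abs_of_pos hsc]
        rw [show ((σ i).A : ℝ) - t - ((σ i).A : ℝ) = - (t : ℝ) by ring, abs_neg,
          abs_of_nonneg (show (0 : ℝ) ≤ t by positivity)]
        ring
      · simp)
  rw [rs_ind X.smp hq, rs_mul, rs_tot X.smp hq, ← hp] at h1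
  -- size of the sum of the entries
  have hA0 : (0 : ℝ) ≤ ((σ i).A : ℝ) := by positivity
  have hS4 : 8 * ((σ i).l.sum : ℝ) ≤ 5 * ((σ i).A : ℝ) := by exact_mod_cast X.sk.sum_le i
  have hS0 : (0 : ℝ) ≤ ((σ i).l.sum : ℝ) := by positivity
  obtain ⟨a, ha⟩ : ∃ a : ℝ, a = ((σ i).A : ℝ) / sc n := ⟨_, rfl⟩
  have ha0 : 0 ≤ a := by rw [ha]; positivity
  have hA : ((σ i).A : ℝ) = a * sc n := by rw [ha]; field_simp
  have hlen1 : 1 ≤ (σ i).l.length := by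
    have : (0 : ℕ) < (σ i).l.length := by exact_mod_cast hlen
    omega
  have hthird := (X.bin1 (σ i).l.length m hlen1).2.2
  rw [← hp] at hthird
  obtain ⟨K, hK⟩ : ∃ K : ℝ, K = ((σ i).l.length : ℝ) := ⟨_, rfl⟩
  rw [← hK] at hthird hi hlen
  have hsum : ((σ i).l.sum : ℝ) / sc n ≤ 1 + a ^ 2 := by
    have h5 : ((σ i).l.sum : ℝ) / sc n ≤ a := by
      rw [div_le_iff₀ hsc, ← hA]
      linarith
    nlinarith [sq_nonneg (a - 1)]
  have hsq : Real.sqrt (K * p) / K ≤ Real.sqrt (κ / c) * (s / Real.sqrt (s * n)) := by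
    have hK0 : 0 < Real.sqrt K := Real.sqrt_pos.2 hlen
    have hs0 : 0 < Real.sqrt s := Real.sqrt_pos.2 hs
    have hn0 : 0 < Real.sqrt n := Real.sqrt_pos.2 (by linarith)
    have e1 : Real.sqrt (K * p) = Real.sqrt K * Real.sqrt p := Real.sqrt_mul hlen.le p
    have e2 : Real.sqrt (s * n) = Real.sqrt s * Real.sqrt n := Real.sqrt_mul hs.le _
    have e3 : Real.sqrt K * Real.sqrt p / K = Real.sqrt p / Real.sqrt K := by
      rw [div_eq_div_iff hlen.ne' hK0.ne']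
      have h0 : Real.sqrt K * Real.sqrt K = K := Real.mul_self_sqrt hlen.le
      calc Real.sqrt K * Real.sqrt p * Real.sqrt K = Real.sqrt p * (Real.sqrt K * Real.sqrt K) := by
            ring
        _ = _ := by rw [h0]
    have e4 : s / (Real.sqrt s * Real.sqrt n) = Real.sqrt s / Real.sqrt n := by
      rw [div_eq_div_iff (by positivity) hn0.ne']
      have h0 : Real.sqrt s * Real.sqrt s = s := Real.mul_self_sqrt hs.le
      calc s * Real.sqrt n = (Real.sqrt s * Real.sqrt s) * Real.sqrt n := by rw [h0]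
        _ = _ := by ring
    have e5 : Real.sqrt (κ / c) * (Real.sqrt s / Real.sqrt n) =
        Real.sqrt (κ * s) / Real.sqrt (c * n) := by
      rw [Real.sqrt_div' κ hc.le, Real.sqrt_mul hκ.le, Real.sqrt_mul hc.le, div_mul_div_comm]
    rw [e1, e2, e3, e4, e5]
    have h5 : Real.sqrt (c * n) ≤ Real.sqrt K := Real.sqrt_le_sqrt hi
    have h6 : Real.sqrt p ≤ Real.sqrt (κ * s) := Real.sqrt_le_sqrt hps
    have h7 : 0 < Real.sqrt (c * n) := Real.sqrt_pos.2 hcn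
    exact div_le_div₀ (Real.sqrt_nonneg _) h6 h7 h5
  have h6 : 1 / sc n * ((1 + q1) ^ (σ i).l.length *
      (bp (σ i).l.length p m * m * ((σ i).l.sum / K))) ≤
      (1 + q1) ^ (σ i).l.length * (CB * Real.sqrt (κ / c) * (1 + a ^ 2) *
        (s / Real.sqrt (s * n))) := by
    have e : 1 / sc n * ((1 + q1) ^ (σ i).l.length *
      (bp (σ i).l.length p m * m * ((σ i).l.sum / K))) = (1 + q1) ^ (σ i).l.length *
      (bp (σ i).l.length p m * m / K * ((σ i).l.sum / sc n)) := by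
      field_simp
    rw [e]
    refine mul_le_mul_of_nonneg_left ?_ (by positivity)
    have h7 : bp (σ i).l.length p m * m / K ≤ CB * (Real.sqrt (K * p) / K) := by
      rw [← mul_div_assoc]
      exact div_le_div_of_nonneg_right hthird hlen.le
    have h8 : CB * (Real.sqrt (K * p) / K) ≤ CB * (Real.sqrt (κ / c) * (s / Real.sqrt (s * n))) :=
      mul_le_mul_of_nonneg_left hsq hCB.le
    have h9 : 0 ≤ CB * (Real.sqrt (κ / c) * (s / Real.sqrt (s * n))) := by positivity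
    calc _ ≤ (CB * (Real.sqrt (κ / c) * (s / Real.sqrt (s * n)))) * (1 + a ^ 2) :=
          mul_le_mul (h7.trans h8) hsum (by positivity) h9
      _ = _ := by ring
  rw [← hK] at h1
  have h7 := h1.trans h6
  unfold R
  rw [← hm, ← hp, ← ha]
  rw [← ha] at h7
  exact h7

lemma Ctx.ui_big (X : Ctx n M σ s g q1 q2 κ c CA CB) (i : Fin M)
    (hi : c * n ≤ ((σ i).l.length : ℝ)) (hk : c * n ≤ ((σ i).k : ℝ)) (h h' : ℕ) (t t' : ℤ)
    (hp : Even ((h : ℤ) + t)) (hp' : Even ((h' : ℤ) + t')) (φ : ℝ → ℝ) (hφ : ∀ a, |φ a| ≤ 1)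
    (hL : LipschitzWith 1 φ) (W1 W2 : ℝ)
    (hW1 : W1 = CB / (Real.sqrt (c / (2 * κ)) * Real.sqrt (s * n)))
    (hW2 : W2 = CB / (Real.sqrt c * Real.sqrt n)) :
    |ui n s g q1 q2 (σ i) h t φ - ui n s g q1 q2 (σ i) h' t' φ| ≤
      vsE n s g (σ i) * (2 * (W2 * (CB * Real.sqrt (κ / c) *
        (1 + (((σ i).A : ℝ) / sc n) ^ 2) * (s / Real.sqrt (s * n)))) +
        (W2 * (|(h : ℝ) - h'| * (CB / (c / (2 * κ) * (s * n)))) +
        W1 * ((|(h : ℝ) - h'| + |(t : ℝ) - t'|) * (CB / (c * n))))) := by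
  have hn := X.n1
  have hs := X.hs
  have hq1 := X.h1
  have hq2 := X.h2
  have hCB := X.hCB
  have hc := X.hc
  have hκ := X.hκ
  have hsn0 := X.snpos
  have hcn : 0 < c * n := by positivity
  have hlen : (0 : ℝ) < (σ i).l.length := lt_of_lt_of_le hcn hi
  have hlen1 : 1 ≤ (σ i).l.length := one_le_of X.hn hc hi
  have hkk : (0 : ℝ) < (σ i).k := lt_of_lt_of_le hcn hk
  have hk1 : 1 ≤ (σ i).k := one_le_of X.hn hc hk
  obtain ⟨D, hD⟩ : ∃ D, D = CB * Real.sqrt (κ / c) *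
        (1 + (((σ i).A : ℝ) / sc n) ^ 2) * (s / Real.sqrt (s * n)) := ⟨_, rfl⟩
  obtain ⟨y, hy⟩ : ∃ y : ℝ, y = φ (((σ i).A : ℝ) / sc n) := ⟨_, rfl⟩
  have hy1 : |y| ≤ 1 := by rw [hy]; exact hφ _
  have hsn : 0 < Real.sqrt n := Real.sqrt_pos.2 (by linarith)
  have hssn : 0 < Real.sqrt (s * n) := Real.sqrt_pos.2 hsn0
  have hscc : 0 < Real.sqrt c := Real.sqrt_pos.2 hc
  have hscc1 : 0 < Real.sqrt (c / (2 * κ)) := Real.sqrt_pos.2 (by positivity)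
  have hW10 : 0 < W1 := by rw [hW1]; positivity
  have hW20 : 0 < W2 := by rw [hW2]; positivity
  have hD0 : 0 ≤ D := by rw [hD]; positivity
  have hb1 : ∀ j, bp (σ i).l.length (q1 / (1 + q1)) j ≤ W1 := fun j => by
    rw [hW1]
    exact X.big1 _ j hi
  have hb2 : ∀ j, bp (σ i).k (q2 / (1 + q2)) j ≤ W2 := fun j => by
    rw [hW2]
    exact X.big2 _ j hk
  have big : ∀ h : ℕ, |R n q1 (σ i) h φ - (1 + q1) ^ (σ i).l.length *
      (bp (σ i).l.length (q1 / (1 + q1)) ((σ i).H - h) * y)| ≤ (1 + q1) ^ (σ i).l.length * D := by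
    intro h
    rw [hy, hD]
    exact X.R_big i hi h φ hL
  have hR := big h
  have hR' := big h'
  obtain ⟨P, hP⟩ : ∃ b, b = bp (σ i).l.length (q1 / (1 + q1)) ((σ i).H - h) := ⟨_, rfl⟩
  obtain ⟨P', hP'⟩ : ∃ b, b = bp (σ i).l.length (q1 / (1 + q1)) ((σ i).H - h') := ⟨_, rfl⟩
  obtain ⟨Q, hQ⟩ : ∃ b, b = bp (σ i).k (q2 / (1 + q2)) (cb (σ i) h t) := ⟨_, rfl⟩
  obtain ⟨Q', hQ'⟩ : ∃ b, b = bp (σ i).k (q2 / (1 + q2)) (cb (σ i) h' t') := ⟨_, rfl⟩
  have hP'0 : 0 ≤ P' := by rw [hP']; exact bp_nonneg (Ctx.p0 hq1) (Ctx.p1 hq1) _ _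
  have hQ0 : 0 ≤ Q := by rw [hQ]; exact bp_nonneg (Ctx.p0 hq2) (Ctx.p1 hq2) _ _
  have hQ'0 : 0 ≤ Q' := by rw [hQ']; exact bp_nonneg (Ctx.p0 hq2) (Ctx.p1 hq2) _ _
  have hP'W : P' ≤ W1 := by rw [hP']; exact hb1 _
  have hQW : Q ≤ W2 := by rw [hQ]; exact hb2 _
  have hQ'W : Q' ≤ W2 := by rw [hQ']; exact hb2 _
  have hPP : |P - P'| ≤ |(h : ℝ) - h'| * (CB / (c / (2 * κ) * (s * n))) := by
    have h4 := bp_lip0 (fun j => (X.bin1 (σ i).l.length j hlen1).2.1)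
      ((σ i).H - h) ((σ i).H - h')
    rw [← hP, ← hP'] at h4
    have h5 : |(((σ i).H - h : ℤ) : ℝ) - (((σ i).H - h' : ℤ) : ℝ)| = |(h : ℝ) - h'| := by
      simp only [Int.cast_sub, Int.cast_natCast]
      rw [show ((σ i).H : ℝ) - h - (((σ i).H : ℝ) - h') = -((h : ℝ) - h') by ring, abs_neg]
    rw [h5] at h4
    have h6 : CB / (((σ i).l.length : ℝ) * (q1 / (1 + q1))) ≤ CB / (c / (2 * κ) * (s * n)) :=
      div_le_div_of_nonneg_left hCB.le (by positivity) (X.kp _ hi)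
    exact h4.trans (mul_le_mul_of_nonneg_left h6 (abs_nonneg _))
  have hQQ : |Q - Q'| ≤ (|(h : ℝ) - h'| + |(t : ℝ) - t'|) * (CB / (c * n)) := by
    have h4 := bp_lip0 (fun j => (X.bin2 (σ i).k j hk1).2) (cb (σ i) h t) (cb (σ i) h' t')
    rw [← hQ, ← hQ'] at h4
    have h6 : CB / ((σ i).k : ℝ) ≤ CB / (c * n) :=
      div_le_div_of_nonneg_left hCB.le hcn hk
    have h7 : |((cb (σ i) h t : ℤ) : ℝ) - ((cb (σ i) h' t' : ℤ) : ℝ)| ≤
        |(h : ℝ) - h'| + |(t : ℝ) - t'| := by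
      have e1 := two_cb (a := σ i) (X.par i) hp
      have e2 := two_cb (a := σ i) (X.par i) hp'
      have e3 : 2 * (((cb (σ i) h t : ℤ) : ℝ) - ((cb (σ i) h' t' : ℤ) : ℝ)) =
          -((h : ℝ) - h') - ((t : ℝ) - t') := by
        have e4 : 2 * (cb (σ i) h t - cb (σ i) h' t') = -((h : ℤ) - h') - (t - t') := by
          linarith
        exact_mod_cast e4
      have e5 : |2 * (((cb (σ i) h t : ℤ) : ℝ) - ((cb (σ i) h' t' : ℤ) : ℝ))| ≤
          |(h : ℝ) - h'| + |(t : ℝ) - t'| := by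
        rw [e3]
        refine (abs_sub _ _).trans (le_of_eq ?_)
        rw [abs_neg]
      rw [abs_mul, abs_of_pos (by norm_num : (0 : ℝ) < 2)] at e5
      have := abs_nonneg (((cb (σ i) h t : ℤ) : ℝ) - ((cb (σ i) h' t' : ℤ) : ℝ))
      linarith
    calc |Q - Q'| ≤ _ := h4
      _ ≤ (|(h : ℝ) - h'| + |(t : ℝ) - t'|) * (CB / (c * n)) :=
        mul_le_mul h7 h6 (by positivity) (by positivity)
  rw [← hP] at hR
  rw [← hP'] at hR'
  obtain ⟨L, hL'⟩ : ∃ L, L = (1 + q1) ^ (σ i).l.length := ⟨_, rfl⟩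
  have hL0 : 0 ≤ L := by rw [hL']; positivity
  rw [← hL'] at hR hR'
  obtain ⟨U1, hU1⟩ : ∃ x, x = |(h : ℝ) - h'| * (CB / (c / (2 * κ) * (s * n))) := ⟨_, rfl⟩
  obtain ⟨U2, hU2⟩ : ∃ x, x = (|(h : ℝ) - h'| + |(t : ℝ) - t'|) * (CB / (c * n)) := ⟨_, rfl⟩
  rw [← hU1] at hPP
  rw [← hU2] at hQQ
  unfold ui
  rw [← mul_sub, ← mul_sub, abs_mul (s ^ (n - (σ i).H) * Real.exp (g * (σ i).Λ)),
    abs_mul ((1 + q2) ^ (σ i).k),
    abs_of_nonneg (show 0 ≤ s ^ (n - (σ i).H) * Real.exp (g * (σ i).Λ) by positivity),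
    abs_of_nonneg (show 0 ≤ (1 + q2) ^ (σ i).k by positivity), X.vs, ← hD, ← hU1, ← hU2,
    mul_assoc _ _ (2 * (W2 * D) + (W2 * U1 + W1 * U2))]
  refine mul_le_mul_of_nonneg_left ?_ (by positivity)
  rw [← hQ, ← hQ', ← hL', mul_comm L, mul_assoc]
  refine mul_le_mul_of_nonneg_left ?_ (by positivity)
  have e1 : Q * R n q1 (σ i) h φ - Q' * R n q1 (σ i) h' φ =
      Q * (R n q1 (σ i) h φ - L * (P * y)) - Q' * (R n q1 (σ i) h' φ - L * (P' * y)) +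
      (L * y) * (Q * (P - P') + P' * (Q - Q')) := by ring
  rw [e1]
  have a1 : |Q * (R n q1 (σ i) h φ - L * (P * y))| ≤ W2 * (L * D) := by
    rw [abs_mul, abs_of_nonneg hQ0]
    exact mul_le_mul hQW hR (abs_nonneg _) hW20.le
  have a2 : |Q' * (R n q1 (σ i) h' φ - L * (P' * y))| ≤ W2 * (L * D) := by
    rw [abs_mul, abs_of_nonneg hQ'0]
    exact mul_le_mul hQ'W hR' (abs_nonneg _) hW20.le
  have a3 : |Q * (P - P') + P' * (Q - Q')| ≤ W2 * U1 + W1 * U2 := by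
    refine (abs_add_le _ _).trans ?_
    rw [abs_mul, abs_mul, abs_of_nonneg hQ0, abs_of_nonneg hP'0]
    have b1 : Q * |P - P'| ≤ W2 * U1 :=
      mul_le_mul hQW hPP (abs_nonneg _) hW20.le
    have b2 : P' * |Q - Q'| ≤ W1 * U2 :=
      mul_le_mul hP'W hQQ (abs_nonneg _) hW10.le
    linarith
  have a4 : |(L * y) * (Q * (P - P') + P' * (Q - Q'))| ≤ L * (W2 * U1 + W1 * U2) := by
    rw [abs_mul, abs_mul, abs_of_nonneg hL0]
    calc L * |y| * |Q * (P - P') + P' * (Q - Q')| ≤ L * 1 * |Q * (P - P') + P' * (Q - Q')| := by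
          refine mul_le_mul_of_nonneg_right ?_ (abs_nonneg _)
          exact mul_le_mul_of_nonneg_left hy1 hL0
      _ ≤ _ := by
          rw [mul_one]
          exact mul_le_mul_of_nonneg_left a3 hL0
  have a5 := abs_add_le (Q * (R n q1 (σ i) h φ - L * (P * y)) -
    Q' * (R n q1 (σ i) h' φ - L * (P' * y))) ((L * y) * (Q * (P - P') + P' * (Q - Q')))
  have a6 := abs_sub (Q * (R n q1 (σ i) h φ - L * (P * y)))
    (Q' * (R n q1 (σ i) h' φ - L * (P' * y)))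
  refine a5.trans (((add_le_add (a6.trans (add_le_add a1 a2)) a4)).trans (le_of_eq ?_))
  ring

lemma Ctx.main (X : Ctx n M σ s g q1 q2 κ c CA CB) (h h' : ℕ) (t t' : ℤ)
    (hp : Even ((h : ℤ) + t)) (hp' : Even ((h' : ℤ) + t')) (φ : ℝ → ℝ) (hφ : ∀ a, |φ a| ≤ 1)
    (hL : LipschitzWith 1 φ) :
    |UM n s g h t φ - UM n s g h' t' φ| ≤
      (2 * CB ^ 2 / Real.sqrt c * Real.sqrt (κ / c) * (1 + 8 * CA) +
        CB ^ 2 / (Real.sqrt c * (c / (2 * κ))) + CB ^ 2 / (Real.sqrt (c / (2 * κ)) * c) + 2) /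
        (Real.sqrt (s * n) * Real.sqrt n) *
        (s + |(h : ℝ) - h'| / Real.sqrt (s * n) + |(t : ℝ) - t'| / Real.sqrt n) * Zm n s g := by
  have hn := X.n1
  have hs := X.hs
  have hCB := X.hCB
  have hCA := X.hCA
  have hZ := X.Zpos
  have hc := X.hc
  have hκ := X.hκ
  have hsn0 := X.snpos
  have hscc : 0 < Real.sqrt c := Real.sqrt_pos.2 hc
  have hscc1 : 0 < Real.sqrt (c / (2 * κ)) := Real.sqrt_pos.2 (by positivity)
  obtain ⟨e, he⟩ : ∃ x, x = Real.sqrt (s * n) := ⟨_, rfl⟩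
  obtain ⟨r, hr⟩ : ∃ x, x = Real.sqrt n := ⟨_, rfl⟩
  have he0 : 0 < e := by rw [he]; exact Real.sqrt_pos.2 hsn0
  have hr0 : 0 < r := by rw [hr]; exact Real.sqrt_pos.2 (by linarith)
  have hee : e * e = s * n := by rw [he]; exact Real.mul_self_sqrt hsn0.le
  have hrr : r * r = n := by rw [hr]; exact Real.mul_self_sqrt (by positivity)
  have her : e ≤ r := by rw [he, hr]; exact Real.sqrt_le_sqrt X.sn_le
  obtain ⟨d, hd⟩ : ∃ x, x = |(h : ℝ) - h'| := ⟨_, rfl⟩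
  obtain ⟨u, hu⟩ : ∃ x, x = |(t : ℝ) - t'| := ⟨_, rfl⟩
  have hd0 : 0 ≤ d := by rw [hd]; positivity
  have hu0 : 0 ≤ u := by rw [hu]; positivity
  obtain ⟨γ, hγ⟩ : ∃ x, x = c / (2 * κ) := ⟨_, rfl⟩
  have hγ0 : 0 < γ := by rw [hγ]; positivity
  obtain ⟨B, hB⟩ : ∃ x, x = Real.sqrt (κ / c) := ⟨_, rfl⟩
  have hB0 : 0 ≤ B := by rw [hB]; positivity
  rw [← hγ] at hscc1
  rw [X.U_eq h t hp, X.U_eq h' t' hp', ← sum_sub_distrib]
  refine (abs_sum_le_sum_abs _ _).trans ?_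
  have h1 := X.split (fun i => |ui n s g q1 q2 (σ i) h t φ - ui n s g q1 q2 (σ i) h' t' φ|)
    (fun i => 2 * (CB / (Real.sqrt c * Real.sqrt n) * (CB * Real.sqrt (κ / c) *
        (1 + (((σ i).A : ℝ) / sc n) ^ 2) * (s / Real.sqrt (s * n)))) +
        (CB / (Real.sqrt c * Real.sqrt n) * (|(h : ℝ) - h'| * (CB / (c / (2 * κ) * (s * n)))) +
        CB / (Real.sqrt (c / (2 * κ)) * Real.sqrt (s * n)) *
          ((|(h : ℝ) - h'| + |(t : ℝ) - t'|) * (CB / (c * n)))))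
    2 (by positivity) (fun i => by positivity)
    (fun i hi hk => X.ui_big i hi hk h h' t t' hp hp' φ hφ hL _ _ rfl rfl)
    (fun i => by
      have h2 := X.ui_small i h t φ hφ
      have h3 := X.ui_small i h' t' φ hφ
      have h4 := abs_sub (ui n s g q1 q2 (σ i) h t φ) (ui n s g q1 q2 (σ i) h' t' φ)
      linarith)
  refine h1.trans ?_
  rw [← he, ← hr, ← hd, ← hu, ← hγ, ← hB]
  obtain ⟨w, hw⟩ : ∃ x, x = e * r := ⟨_, rfl⟩
  have hw0 : 0 < w := by rw [hw]; positivity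
  have h2 : ∑ i, vsE n s g (σ i) * (2 * (CB / (Real.sqrt c * r) * (CB * B *
        (1 + (((σ i).A : ℝ) / sc n) ^ 2) * (s / e))) +
        (CB / (Real.sqrt c * r) * (d * (CB / (γ * (s * n)))) +
        CB / (Real.sqrt γ * e) * ((d + u) * (CB / (c * n))))) =
      2 * CB ^ 2 / Real.sqrt c * B * (s / w) *
        ∑ i, vsE n s g (σ i) * (1 + (((σ i).A : ℝ) / sc n) ^ 2) +
        (CB ^ 2 / (Real.sqrt c * γ) * (d / e / w) +
          CB ^ 2 / (Real.sqrt γ * c) * ((d / r + u / r) / w)) * Zm n s g := by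
    rw [X.Z, mul_sum, mul_sum, ← sum_add_distrib]
    refine sum_congr rfl fun i _ => ?_
    have e1 : CB / (Real.sqrt c * r) * (CB * B * (1 + (((σ i).A : ℝ) / sc n) ^ 2) * (s / e)) =
        CB ^ 2 / Real.sqrt c * B * (s / w) * (1 + (((σ i).A : ℝ) / sc n) ^ 2) := by
      rw [hw]
      field_simp
    have e2 : CB / (Real.sqrt c * r) * (d * (CB / (γ * (s * n)))) =
        CB ^ 2 / (Real.sqrt c * γ) * (d / e / w) := by
      rw [hw, ← hee]
      field_simp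
    have e3 : CB / (Real.sqrt γ * e) * ((d + u) * (CB / (c * n))) =
        CB ^ 2 / (Real.sqrt γ * c) * ((d / r + u / r) / w) := by
      rw [hw, ← hrr]
      field_simp
    rw [e1, e2, e3]
    ring
  rw [h2]
  obtain ⟨c1, hc1⟩ : ∃ x, x = 2 * CB ^ 2 / Real.sqrt c * B := ⟨_, rfl⟩
  obtain ⟨c2, hc2⟩ : ∃ x, x = CB ^ 2 / (Real.sqrt c * γ) := ⟨_, rfl⟩
  obtain ⟨c3, hc3⟩ : ∃ x, x = CB ^ 2 / (Real.sqrt γ * c) := ⟨_, rfl⟩
  have hc10 : 0 ≤ c1 := by rw [hc1]; positivity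
  have hc20 : 0 ≤ c2 := by rw [hc2]; positivity
  have hc30 : 0 ≤ c3 := by rw [hc3]; positivity
  rw [← hc1, ← hc2, ← hc3]
  have h3 : c1 * (s / w) * ∑ i, vsE n s g (σ i) * (1 + (((σ i).A : ℝ) / sc n) ^ 2) ≤
      c1 * (s / w) * ((1 + 8 * CA) * Zm n s g) :=
    mul_le_mul_of_nonneg_left X.sumV (by positivity)
  have h4 : 2 / (n : ℝ) ^ 3 * Zm n s g ≤ 2 * (s / w) * Zm n s g := by
    refine mul_le_mul_of_nonneg_right ?_ hZ
    have h5 : 1 / (n : ℝ) ^ 3 ≤ s / w := by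
      rw [div_le_div_iff₀ (by positivity) hw0, one_mul]
      have h6 : w ≤ n := by
        rw [hw, ← hrr]
        exact mul_le_mul_of_nonneg_right her hr0.le
      have h7 : (n : ℝ) ≤ s * (n : ℝ) ^ 3 := by
        calc (n : ℝ) = 1 * n := by ring
          _ ≤ (s * n) * n ^ 2 := by
            refine mul_le_mul X.hsn ?_ (by positivity) hsn0.le
            nlinarith
          _ = _ := by ring
      exact h6.trans h7
    calc 2 / (n : ℝ) ^ 3 = 2 * (1 / (n : ℝ) ^ 3) := by ring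
      _ ≤ 2 * (s / w) := mul_le_mul_of_nonneg_left h5 (by norm_num)
  obtain ⟨α, hα⟩ : ∃ x, x = s / w := ⟨_, rfl⟩
  obtain ⟨β, hβ⟩ : ∃ x, x = d / e / w := ⟨_, rfl⟩
  obtain ⟨δ, hδ⟩ : ∃ x, x = u / r / w := ⟨_, rfl⟩
  have hα0 : 0 ≤ α := by rw [hα]; positivity
  have hβ0 : 0 ≤ β := by rw [hβ]; positivity
  have hδ0 : 0 ≤ δ := by rw [hδ]; positivity
  have h5 : (d / r + u / r) / w ≤ β + δ := by
    rw [add_div, ← hδ, hβ]
    have h6 : d / r / w ≤ d / e / w :=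
      div_le_div_of_nonneg_right (div_le_div_of_nonneg_left hd0 he0 her) hw0.le
    linarith
  have h6 : c3 * ((d / r + u / r) / w) ≤ c3 * (β + δ) := mul_le_mul_of_nonneg_left h5 hc30
  have h7 : (c2 * (d / e / w) + c3 * ((d / r + u / r) / w)) * Zm n s g ≤
      (c2 * β + c3 * (β + δ)) * Zm n s g := by
    refine mul_le_mul_of_nonneg_right ?_ hZ
    rw [← hβ]
    linarith
  rw [← hα] at h3 h4 ⊢
  have e4 : (c1 * (1 + 8 * CA) + c2 + c3 + 2) / w * (s + d / e + u / r) * Zm n s g =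
      (c1 * (1 + 8 * CA) + c2 + c3 + 2) * (α + β + δ) * Zm n s g := by
    rw [hα, hβ, hδ]
    field_simp
  rw [← hw, e4]
  obtain ⟨S, hS⟩ : ∃ x, x = ∑ i, vsE n s g (σ i) * (1 + (((σ i).A : ℝ) / sc n) ^ 2) := ⟨_, rfl⟩
  rw [← hS] at h3 ⊢
  obtain ⟨Z, hZe⟩ : ∃ x, x = Zm n s g := ⟨_, rfl⟩
  rw [← hZe] at h3 h4 h7 hZ ⊢
  clear h1 h2 hS hZe
  have g1 : 0 ≤ c1 * (1 + 8 * CA) * (β + δ) * Z := by positivity
  have g2 : 0 ≤ c2 * (α + δ) * Z := by positivity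
  have g3 : 0 ≤ c3 * α * Z := by positivity
  have g4 : 0 ≤ 2 * (β + δ) * Z := by positivity
  calc _ ≤ c1 * α * ((1 + 8 * CA) * Z) + (c2 * β + c3 * (β + δ)) * Z +
        2 * α * Z := add_le_add (add_le_add h3 h7) h4
    _ ≤ (c1 * α * ((1 + 8 * CA) * Z) + (c2 * β + c3 * (β + δ)) * Z +
        2 * α * Z) + (c1 * (1 + 8 * CA) * (β + δ) * Z + c2 * (α + δ) * Z +
        c3 * α * Z + 2 * (β + δ) * Z) := by linarith
    _ = _ := by ring

end Pool.Agent.TPE.LOCBE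

namespace Pool.Agent.TPE

open Finset Filter Topology MeasureTheory
open Pool.Agent.Lib27 Pool.Agent.SapR Pool.Agent.AreaLaw Pool.Agent.FL Pool.Agent.TPT

theorem t_LOCBE (hS : SKELE_Stmt) (hK : KBIGE_Stmt) (hBZ : NSP.BINZ_Stmt) (hB : FS.BIN_Stmt)
    (hP : FS.SMP_Stmt) (hM : MOMME_Stmt) (hH : HGM_Stmt) : LOCBE_Stmt := by
  intro b hb1
  have hb : 0 < b := by linarith
  obtain ⟨CA, hCA, NA, hA⟩ := hM b b hb le_rfl 2
  obtain ⟨c, hc, NK, hNK6, hKB⟩ := hK b b hb le_rfl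
  have hmono : ∀ x y : ℝ, 0 < x → x ≤ y → x / (1 + x) ≤ y / (1 + y) := by
    intro x y hx hxy
    have hy : 0 < y := lt_of_lt_of_le hx hxy
    rw [div_le_div_iff₀ (by positivity) (by positivity)]
    nlinarith
  obtain ⟨r0, hr0⟩ : ∃ r, r = Real.exp (-(2 * b)) := ⟨_, rfl⟩
  obtain ⟨r1, hr1⟩ : ∃ r, r = Real.exp (2 * b) := ⟨_, rfl⟩
  have hr0p : 0 < r0 := by rw [hr0]; positivity
  have hr1p : 0 < r1 := by rw [hr1]; positivity
  have hr01 : r0 ≤ r1 := by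
    rw [hr0, hr1]
    exact Real.exp_le_exp.2 (by linarith)
  obtain ⟨⟨C2, hC2, hb2⟩, -⟩ := hB (r0 / (1 + r0)) (r1 / (1 + r1)) (by positivity)
    (hmono _ _ hr0p hr01) (by rw [div_lt_one (by positivity)]; linarith)
  obtain ⟨⟨C1, hC1, hb1'⟩, -⟩ := hBZ
  obtain ⟨CB, hCB'⟩ : ∃ x, x = max C1 C2 := ⟨_, rfl⟩
  have hCB1 : C1 ≤ CB := by rw [hCB']; exact le_max_left _ _
  have hCB2 : C2 ≤ CB := by rw [hCB']; exact le_max_right _ _
  have hCB : 0 < CB := lt_of_lt_of_le hC1 hCB1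
  obtain ⟨κ, hκ'⟩ : ∃ x, x = Real.exp b := ⟨_, rfl⟩
  have hκ : 0 < κ := by rw [hκ']; positivity
  refine ⟨2 * CB ^ 2 / Real.sqrt c * Real.sqrt (κ / c) * (1 + 8 * CA) +
        CB ^ 2 / (Real.sqrt c * (c / (2 * κ))) + CB ^ 2 / (Real.sqrt (c / (2 * κ)) * c) + 2,
        by positivity, max (max NA NK) ⌈24 / c ^ 4⌉₊, ?_⟩
  intro n hn f g hfg hsn h h' t t' φ hp hp' hφ hL
  have hn1 : NA ≤ n := le_trans (le_trans (le_max_left _ _) (le_max_left _ _)) hn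
  have hn2 : NK ≤ n := le_trans (le_trans (le_max_right _ _) (le_max_left _ _)) hn
  have hn3 : ⌈24 / c ^ 4⌉₊ ≤ n := le_trans (le_max_right _ _) hn
  have hn4 : 24 / c ^ 4 ≤ n := (Nat.le_ceil _).trans (by exact_mod_cast hn3)
  obtain ⟨M, σ, hσ⟩ := hS n (by omega)
  obtain ⟨hf1, hg⟩ := id hfg
  have hg' := abs_le.1 hg
  have hZ0 : 0 ≤ Zm n (Real.exp (-f)) g := by
    unfold Zm
    refine sum_nonneg fun q _ => ?_
    unfold wm
    positivity
  have e0 : Real.exp (-f) * Real.exp g = Real.exp (-f + g) := (Real.exp_add _ _).symm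
  have hq1 : Real.exp (-f) * Real.exp g ≤ 1 := by
    rw [e0, ← Real.exp_zero]
    exact Real.exp_le_exp.2 (by linarith)
  have X : LOCBE.Ctx n M σ (Real.exp (-f)) g (Real.exp (-f) * Real.exp g)
      (Real.exp (-(2 * g))) κ c CA CB := by
    refine ⟨hσ, by omega, Real.exp_pos _, ?_, hsn, rfl, rfl, hq1, hκ, ?_, ?_, hc, hCA, hCB, hP,
      ?_, ?_, ?_, ?_, ?_⟩
    · rw [← Real.exp_zero]
      exact Real.exp_le_exp.2 (by linarith)
    · rw [hκ', mul_comm]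
      exact mul_le_mul_of_nonneg_right (Real.exp_le_exp.2 hg'.2) (Real.exp_pos _).le
    · rw [hκ', e0, ← Real.exp_add]
      exact Real.exp_le_exp.2 (by linarith)
    · intro i
      exact LOCBE.allE hσ (fun x y _ => Even (x + y)) (fun q hq => (hH.2.2.2 n q hq).2.2.1) i
    · exact (hA n hn1 f g hfg).1
    · refine (hKB n hn2 f g hfg M σ hσ).trans ?_
      exact mul_le_mul_of_nonneg_right (FS.LOC.exp_small hc hn4 (by omega)) hZ0
    · intro m j hm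
      have p0 : 0 < Real.exp (-f) * Real.exp g / (1 + Real.exp (-f) * Real.exp g) := by positivity
      have p1 : Real.exp (-f) * Real.exp g / (1 + Real.exp (-f) * Real.exp g) ≤ 1 / 2 := by
        rw [div_le_div_iff₀ (by positivity) (by norm_num)]
        linarith
      obtain ⟨a1, a2, a3⟩ := hb1' _ p0 p1 m j hm
      have hm0 : (0 : ℝ) < m := by exact_mod_cast hm
      refine ⟨a1.trans ?_, a2.trans ?_, a3.trans ?_⟩
      · exact div_le_div_of_nonneg_right hCB1 (Real.sqrt_nonneg _)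
      · exact div_le_div_of_nonneg_right hCB1 (by positivity)
      · exact mul_le_mul_of_nonneg_right hCB1 (Real.sqrt_nonneg _)
    · intro m j hm
      have q0 : r0 ≤ Real.exp (-(2 * g)) := by
        rw [hr0]
        exact Real.exp_le_exp.2 (by linarith)
      have q1 : Real.exp (-(2 * g)) ≤ r1 := by
        rw [hr1]
        exact Real.exp_le_exp.2 (by linarith)
      obtain ⟨a1, a2, -⟩ := hb2 _ (hmono _ _ hr0p q0) (hmono _ _ (by positivity) q1) m j hm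
      refine ⟨a1.trans ?_, a2.trans ?_⟩
      · exact div_le_div_of_nonneg_right hCB2 (Real.sqrt_nonneg _)
      · exact div_le_div_of_nonneg_right hCB2 (by positivity)
  exact X.main h h' t t' hp hp' φ hφ hL

end Pool.Agent.TPE
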