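import Pool.Agent.TPE.Stmts
import Pool.Agent.TPT.LOCC

/-!
# TPE_LOCCE: lower bound of the local sums, `s n` large (MP_f6626d_co)
-/

set_option autoImplicit false

namespace Pool.Agent.TPE

open Finset Filter Topology MeasureTheory
open Pool.Agent.Lib27 Pool.Agent.SapR Pool.Agent.AreaLaw Pool.Agent.FL Pool.Agent.TPT
open Pool.Agent.FS (sc rs bp)
open Pool.Agent.NSP (lc ld tz)

namespace LOCCEx

open Pool.Agent.FS Pool.Agent.FS.LOC Pool.Agent.TPT.LOCCx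

variable {n N : ℕ} {σ : Fin N → Sk2}

lemma bs_jensen2 {w : ℝ} (hw : 0 < w) (k : ℕ) (x y β : ℝ) (hβ : 0 ≤ β) :
    (1 + w) ^ k * (x + β * (y - 2 * (w / (1 + w) * k)) ^ 2) ≤
      bs k w (fun b => x + β * (y - 2 * b) ^ 2) := by
  have h1 := rs_jensen hw (List.replicate k 0) (y / 2)
  rw [List.length_replicate] at h1
  have h2 : bs k w (fun b => x + β * (y - 2 * b) ^ 2) = x * (1 + w) ^ k +
      4 * β * rs (List.replicate k 0) (fun j _ => w ^ j * (y / 2 - j) ^ 2) := by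
    rw [← bs_one k w]
    unfold LOCCx.bs
    rw [← rs_mul, ← rs_mul, ← rs_add]
    refine rs_congr _ _ _ fun j t _ _ => ?_
    ring
  rw [h2]
  have h3 : (1 + w) ^ k * (x + β * (y - 2 * (w / (1 + w) * k)) ^ 2) =
      x * (1 + w) ^ k + 4 * β * ((1 + w) ^ k * (y / 2 - w / (1 + w) * k) ^ 2) := by ring
  rw [h3]
  have h4 := mul_le_mul_of_nonneg_left h1 (by positivity : 0 ≤ 4 * β)
  linarith

lemma key (h : IsSkE n N σ) (s g : ℝ) (G : ℤ → ℤ → ℝ) :
    ∑ q ∈ Omm n, wm n s g q * G (zl q) (zt q) =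
      ∑ i, pre n s g (σ i) * rs (σ i).l (fun j _ => (s * Real.exp g) ^ j *
        bs (σ i).k (Real.exp (-(2 * g))) (fun b => G ((σ i).H - j) ((σ i).Λ + j - 2 * b))) := by
  have h1 := h.repr (fun z t _ => s ^ (n - z.toNat) * Real.exp (g * t) * G z t)
  have h2 : ∀ q ∈ Omm n, wm n s g q * G (zl q) (zt q) =
      s ^ (n - (zl q : ℤ).toNat) * Real.exp (g * zt q) * G (zl q) (zt q) := fun q _ => by
    rw [Int.toNat_natCast]; rfl
  rw [sum_congr rfl h2, h1]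
  refine sum_congr rfl fun i _ => ?_
  rw [← rs_mul]
  refine rs_congr _ _ _ fun j t hj ht => ?_
  have h3 := h.len_le i
  have h4 := h.H_le i
  rw [bs_eq, mul_sum, mul_sum]
  refine sum_congr rfl fun b _ => ?_
  have e1 : n - ((((σ i).H : ℤ) - (j : ℤ)).toNat) = (n - (σ i).H) + j := by omega
  rw [e1, pow_add, mul_pow]
  have e2 : Real.exp (g * ((((σ i).Λ + (j : ℤ) - 2 * (b : ℤ) : ℤ)) : ℝ)) =
      Real.exp (g * (σ i).Λ) * Real.exp g ^ j * Real.exp (-(2 * g)) ^ b := by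
    rw [← Real.exp_nat_mul, ← Real.exp_nat_mul, ← Real.exp_add, ← Real.exp_add]
    congr 1
    push_cast
    ring
  rw [e2]
  unfold pre
  ring

lemma vsE_eq (n : ℕ) (s g : ℝ) (a : Sk2) :
    vsE n s g a = pre n s g a * ((1 + s * Real.exp g) ^ a.l.length *
      (1 + Real.exp (-(2 * g))) ^ a.k) := by
  unfold vsE pre
  ring

lemma vsE_nonneg {s : ℝ} (hs : 0 < s) (n : ℕ) (g : ℝ) (a : Sk2) : 0 ≤ vsE n s g a := by
  unfold vsE
  positivity

lemma Z_eq (h : IsSkE n N σ) (s g : ℝ) : Zm n s g = ∑ i, vsE n s g (σ i) := by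
  have h1 := key h s g (fun _ _ => 1)
  simp only [mul_one] at h1
  unfold Zm
  rw [h1]
  refine sum_congr rfl fun i _ => ?_
  rw [vsE_eq, bs_one]
  congr 1
  have e : rs (σ i).l (fun j _ => (s * Real.exp g) ^ j * (1 + Real.exp (-(2 * g))) ^ (σ i).k) =
      (1 + Real.exp (-(2 * g))) ^ (σ i).k * rs (σ i).l (fun j _ => (s * Real.exp g) ^ j) := by
    rw [← rs_mul]
    refine rs_congr _ _ _ fun j t _ _ => ?_
    ring
  rw [e, rs_pow]
  ring

/-- the parity of the skeletons -/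
lemma parity (hH : HGM_Stmt) (h : IsSkE n N σ) (i : Fin N) :
    Even (((σ i).H : ℤ) + (σ i).Λ) := by
  classical
  have h1 := key h 1 0 (fun z t => if Even (z + t) then 0 else 1)
  have h2 : ∑ q ∈ Omm n, wm n 1 0 q * (if Even ((zl q : ℤ) + zt q) then (0 : ℝ) else 1) = 0 := by
    refine sum_eq_zero fun q hq => ?_
    rw [if_pos (hH.2.2.2 n q hq).2.2.1, mul_zero]
  rw [h2] at h1
  have h3 : ∀ i, pre n 1 0 (σ i) * rs (σ i).l (fun j _ => (1 * Real.exp 0) ^ j *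
        bs (σ i).k (Real.exp (-(2 * 0))) (fun b =>
          if Even (((σ i).H - j : ℤ) + ((σ i).Λ + j - 2 * b)) then (0 : ℝ) else 1)) =
      vsE n 1 0 (σ i) * (if Even (((σ i).H : ℤ) + (σ i).Λ) then 0 else 1) := by
    intro i
    have e : ∀ j b : ℕ, (if Even (((σ i).H - j : ℤ) + ((σ i).Λ + j - 2 * b)) then (0 : ℝ) else 1) =
        (if Even (((σ i).H : ℤ) + (σ i).Λ) then 0 else 1) * 1 := by
      intro j b
      rw [mul_one]
      refine if_congr ?_ rfl rfl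
      constructor
      · rintro ⟨r, hr⟩
        exact ⟨r + b, by omega⟩
      · rintro ⟨r, hr⟩
        exact ⟨r - b, by omega⟩
    simp only [e]
    obtain ⟨z, hz⟩ : ∃ z : ℝ, z = (if Even (((σ i).H : ℤ) + (σ i).Λ) then 0 else 1) := ⟨_, rfl⟩
    simp only [← hz]
    have e2 : ∀ (k : ℕ) (w : ℝ), bs k w (fun _ => z * 1) = z * (1 + w) ^ k := by
      intro k w
      rw [← bs_one k w]
      unfold LOCCx.bs
      rw [← rs_mul]
      refine rs_congr _ _ _ fun j t _ _ => ?_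
      ring
    rw [vsE_eq]
    have e3 : rs (σ i).l (fun j _ => (1 * Real.exp 0) ^ j *
        bs (σ i).k (Real.exp (-(2 * 0))) (fun _ => z * 1)) =
        z * (1 + Real.exp (-(2 * 0))) ^ (σ i).k * (1 + 1 * Real.exp 0) ^ (σ i).l.length := by
      rw [← rs_pow, ← rs_mul]
      refine rs_congr _ _ _ fun j t _ _ => ?_
      rw [e2]
      ring
    rw [e3]
    ring
  simp only [h3] at h1
  have h4 := (sum_eq_zero_iff_of_nonneg fun i _ => mul_nonneg (vsE_nonneg one_pos n 0 (σ i)) (by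
    split_ifs <;> norm_num)).1 h1.symm i (mem_univ i)
  by_contra hodd
  rw [if_neg hodd, mul_one] at h4
  have h5 : 0 < vsE n 1 0 (σ i) := by
    unfold vsE
    positivity
  exact h5.ne' h4

/-- the local sums -/
lemma UM_eq (h : IsSkE n N σ) {s : ℝ} (hs : 0 < s) (g : ℝ) (h' : ℕ) (t : ℤ) (b₀ : Fin N → ℤ)
    (hb : ∀ i, 2 * b₀ i = (σ i).Λ + ((σ i).H - h') - t) :
    UM n s g h' t (fun _ => 1) = ∑ i, vsE n s g (σ i) *
      (bp (σ i).l.length (s * Real.exp g / (1 + s * Real.exp g)) ((σ i).H - h') *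
        bp (σ i).k (Real.exp (-(2 * g)) / (1 + Real.exp (-(2 * g)))) (b₀ i)) := by
  classical
  have h1 := key h s g (fun z y => if z = h' ∧ y = t then 1 else 0)
  have h2 : UM n s g h' t (fun _ => 1) = ∑ q ∈ Omm n, wm n s g q *
      (if (zl q : ℤ) = h' ∧ zt q = t then (1 : ℝ) else 0) := by
    unfold UM
    rw [sum_filter]
    refine sum_congr rfl fun q _ => ?_
    by_cases hq : zl q = h' ∧ zt q = t
    · rw [if_pos hq, if_pos ⟨by exact_mod_cast hq.1, hq.2⟩]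
    · rw [if_neg hq, if_neg fun hh => hq ⟨by exact_mod_cast hh.1, hh.2⟩, mul_zero]
  rw [h2, h1]
  refine sum_congr rfl fun i _ => ?_
  have hw1 : 0 < s * Real.exp g := by positivity
  have hw2 : 0 < Real.exp (-(2 * g)) := by positivity
  rw [vsE_eq]
  have e1 : rs (σ i).l (fun j _ => (s * Real.exp g) ^ j * bs (σ i).k (Real.exp (-(2 * g)))
      (fun b => if (((σ i).H : ℤ) - j = h' ∧ (σ i).Λ + j - 2 * b = t) then (1 : ℝ) else 0)) =
      rs (σ i).l (fun j _ => (s * Real.exp g) ^ j * (if (j : ℤ) = ((σ i).H : ℤ) - h' then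
        (1 + Real.exp (-(2 * g))) ^ (σ i).k *
          bp (σ i).k (Real.exp (-(2 * g)) / (1 + Real.exp (-(2 * g)))) (b₀ i) else 0)) := by
    refine rs_congr _ _ _ fun j _ _ _ => ?_
    congr 1
    by_cases hj : (j : ℤ) = ((σ i).H : ℤ) - h'
    · rw [if_pos hj]
      have h3 := bs_ind hw2 (σ i).k (b₀ i) 1
      rw [mul_one] at h3
      rw [← h3]
      congr 1
      funext b
      refine if_congr ?_ rfl rfl
      have := hb i
      constructor
      · rintro ⟨_, h5⟩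
        omega
      · intro h5
        omega
    · rw [if_neg hj]
      have h3 : (fun b : ℕ => if (((σ i).H : ℤ) - j = h' ∧ (σ i).Λ + j - 2 * b = t) then (1 : ℝ)
          else 0) = fun b : ℕ => if (b : ℤ) = 0 then 0 else 0 := by
        funext b
        rw [if_neg (by omega), ite_self]
      rw [h3, bs_ind hw2]
      ring
  rw [e1, rs_ind SMP_thm hw1]
  ring

/-- the second moments -/
lemma second (h : IsSkE n N σ) {s : ℝ} (hs : 0 < s) (g : ℝ) (h' : ℕ) (t : ℤ) (α β : ℝ)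
    (hα : 0 ≤ α) (hβ : 0 ≤ β) :
    ∑ i, vsE n s g (σ i) *
      (α * (((σ i).H : ℝ) - h' - s * Real.exp g / (1 + s * Real.exp g) * (σ i).l.length) ^ 2 +
        β * (((σ i).Λ : ℝ) - t - 2 * (Real.exp (-(2 * g)) / (1 + Real.exp (-(2 * g))) * (σ i).k) +
          s * Real.exp g / (1 + s * Real.exp g) * (σ i).l.length) ^ 2) ≤
      ∑ q ∈ Omm n, wm n s g q * (α * ((zl q : ℝ) - h') ^ 2 + β * ((zt q : ℝ) - t) ^ 2) := by
  have h1 := key h s g (fun z y => α * ((z : ℝ) - h') ^ 2 + β * ((y : ℝ) - t) ^ 2)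
  have h2 : ∑ q ∈ Omm n, wm n s g q * (α * ((zl q : ℝ) - h') ^ 2 + β * ((zt q : ℝ) - t) ^ 2) =
      ∑ q ∈ Omm n, wm n s g q *
        (α * ((((zl q : ℕ) : ℤ) : ℝ) - h') ^ 2 + β * ((zt q : ℝ) - t) ^ 2) := by
    refine sum_congr rfl fun q _ => ?_
    push_cast
    rfl
  rw [h2, h1]
  have hw1 : 0 < s * Real.exp g := by positivity
  have hw2 : 0 < Real.exp (-(2 * g)) := by positivity
  refine sum_le_sum fun i _ => ?_
  rw [vsE_eq, mul_assoc]
  refine mul_le_mul_of_nonneg_left ?_ (pre_nonneg hs n g (σ i))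
  obtain ⟨w1, hw1e⟩ : ∃ w, w = s * Real.exp g := ⟨_, rfl⟩
  obtain ⟨w2, hw2e⟩ : ∃ w, w = Real.exp (-(2 * g)) := ⟨_, rfl⟩
  simp only [← hw1e, ← hw2e] at hw1 hw2 ⊢
  obtain ⟨y, hy⟩ : ∃ y : ℝ, y = ((σ i).Λ : ℝ) - t - 2 * (w2 / (1 + w2) * (σ i).k) := ⟨_, rfl⟩
  have h3 : rs (σ i).l (fun j _ =>
      α * (1 + w2) ^ (σ i).k * (w1 ^ j * (((σ i).H : ℝ) - h' - j) ^ 2) +
      β * (1 + w2) ^ (σ i).k * (w1 ^ j * (-y - j) ^ 2)) ≤
      rs (σ i).l (fun j _ => w1 ^ j * bs (σ i).k w2 (fun b =>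
        α * ((((((σ i).H : ℤ) - (j : ℤ) : ℤ)) : ℝ) - h') ^ 2 +
          β * (((((σ i).Λ + (j : ℤ) - 2 * (b : ℤ) : ℤ)) : ℝ) - t) ^ 2)) := by
    refine rs_mono _ _ _ fun j _ _ _ => ?_
    have h4 := bs_jensen2 hw2 (σ i).k (α * (((σ i).H : ℝ) - j - h') ^ 2)
      (((σ i).Λ : ℝ) + j - t) β hβ
    have h5 : bs (σ i).k w2 (fun b => α * ((((((σ i).H : ℤ) - (j : ℤ) : ℤ)) : ℝ) - h') ^ 2 +
          β * (((((σ i).Λ + (j : ℤ) - 2 * (b : ℤ) : ℤ)) : ℝ) - t) ^ 2) =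
        bs (σ i).k w2 (fun b => α * (((σ i).H : ℝ) - j - h') ^ 2 +
          β * (((σ i).Λ : ℝ) + j - t - 2 * b) ^ 2) := by
      congr 1
      funext b
      push_cast
      ring
    rw [h5]
    refine le_trans (le_of_eq ?_) (mul_le_mul_of_nonneg_left h4 (by positivity))
    rw [hy]
    ring
  refine le_trans ?_ h3
  rw [rs_add (σ i).l (fun j _ => α * (1 + w2) ^ (σ i).k * (w1 ^ j * (((σ i).H : ℝ) - h' - j) ^ 2))
    (fun j _ => β * (1 + w2) ^ (σ i).k * (w1 ^ j * (-y - j) ^ 2)), rs_mul, rs_mul]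
  have h6 := rs_jensen hw1 (σ i).l (((σ i).H : ℝ) - h')
  have h7 := rs_jensen hw1 (σ i).l (-y)
  have hk : 0 ≤ α * (1 + w2) ^ (σ i).k := by positivity
  have hk' : 0 ≤ β * (1 + w2) ^ (σ i).k := by positivity
  have h8 := mul_le_mul_of_nonneg_left h6 hk
  have h9 := mul_le_mul_of_nonneg_left h7 hk'
  refine le_trans (le_of_eq ?_) (add_le_add h8 h9)
  rw [← hy]
  ring

lemma sq_aux {x M R y : ℝ} (hR : 0 ≤ R) (hx : x ^ 2 ≤ M) (hM : M ≤ R ^ 2 * y) :
    |x| ≤ R * Real.sqrt y := by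
  rw [← Real.sqrt_sq_eq_abs]
  have e : R * Real.sqrt y = Real.sqrt (R ^ 2 * y) := by
    rw [Real.sqrt_mul (by positivity), Real.sqrt_sq hR]
  rw [e]
  exact Real.sqrt_le_sqrt (hx.trans hM)

/-- Markov inequality for a finite weighted family -/
lemma markov {ι : Type} [Fintype ι] [DecidableEq ι] (v D : ι → ℝ) (hv : ∀ i, 0 ≤ v i)
    (hD : ∀ i, 0 ≤ D i) {M Z : ℝ} (hM : 0 < M) (h : ∑ i, v i * D i ≤ M * Z) :
    ∑ i ∈ univ.filter (fun i => 8 * M < D i), v i ≤ 1 / 8 * Z := by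
  classical
  have h5 : ∑ i ∈ univ.filter (fun i => 8 * M < D i), v i * (8 * M) ≤ M * Z := by
    refine le_trans ?_ h
    refine le_trans ?_ (sum_le_sum_of_subset_of_nonneg
      (subset_univ (univ.filter (fun i => 8 * M < D i))) fun i _ _ => mul_nonneg (hv i) (hD i))
    refine sum_le_sum fun i hi => mul_le_mul_of_nonneg_left ?_ (hv i)
    exact (mem_filter.1 hi).2.le
  rw [← sum_mul] at h5
  have h7 : (∑ i ∈ univ.filter (fun i => 8 * M < D i), v i) * 8 * M ≤ Z * M := by linarith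
  have h8 := le_of_mul_le_mul_right h7 hM
  linarith

lemma half_sq {x y M : ℝ} (hx : x ^ 2 ≤ M) (hy : y ^ 2 ≤ M) : ((x + y) / 2) ^ 2 ≤ M := by
  nlinarith [sq_nonneg (x - y)]

lemma exp_quarter {x : ℝ} (h : 2 ≤ x) : Real.exp (-x) ≤ 1 / 4 := by
  have h6 : Real.exp (-x) ≤ Real.exp (-2) := Real.exp_le_exp.2 (by linarith)
  refine h6.trans ?_
  rw [Real.exp_neg, inv_eq_one_div]
  refine div_le_div_of_nonneg_left (by norm_num) (by norm_num) ?_
  have h7 : Real.exp 2 = Real.exp 1 * Real.exp 1 := by rw [← Real.exp_add]; norm_num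
  have h8 := Real.exp_one_gt_d9
  rw [h7]
  nlinarith

lemma fin_aux {Q A B C Z : ℝ} (hQ : 0 ≤ Q) (hA : A ≤ 1 / 8 * Z) (hB : B ≤ 1 / 8 * Z)
    (hC : C ≤ 1 / 4 * Z) : Q / 2 * Z ≤ Q * Z - (Q * A + Q * B + Q * C) := by
  have h8 := mul_le_mul_of_nonneg_left hA hQ
  have h9 := mul_le_mul_of_nonneg_left hB hQ
  have h10 := mul_le_mul_of_nonneg_left hC hQ
  linarith

end LOCCEx

open LOCCEx Pool.Agent.FS.LOC in
/-- **TPE_LOCCE.** -/
theorem t_LOCCE (hS : SKELE_Stmt) (hK : KBIGE_Stmt) (hBZ : NSP.BINZ_Stmt) (hB : FS.BIN_Stmt)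
    (hH : HGM_Stmt) : LOCCE_Stmt := by
  classical
  intro b hb1 K hK0
  have hb : 0 < b := lt_of_lt_of_le one_pos hb1
  obtain ⟨c, hc, N₁, hN₁, hK'⟩ := hK b b hb le_rfl
  obtain ⟨L, hL⟩ : ∃ L, L = Real.exp (-(2 * b)) := ⟨_, rfl⟩
  obtain ⟨R, hR⟩ : ∃ R, R = Real.exp (2 * b) := ⟨_, rfl⟩
  obtain ⟨E, hE⟩ : ∃ E, E = Real.exp b := ⟨_, rfl⟩
  obtain ⟨E', hE'⟩ : ∃ E', E' = Real.exp (-b) := ⟨_, rfl⟩
  have hE0 : 0 < E := by rw [hE]; positivity
  have hE'0 : 0 < E' := by rw [hE']; positivity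
  have hL0 : 0 < L := by rw [hL]; positivity
  have hR0 : 0 < R := by rw [hR]; positivity
  have hLR : L ≤ R := by
    rw [hL, hR]
    exact Real.exp_le_exp.2 (by linarith)
  have hp1 : R / (1 + R) < 1 := by
    rw [div_lt_one (by positivity)]
    linarith
  obtain ⟨c1, hc1e⟩ : ∃ c1, c1 = c * (E' / 2) := ⟨_, rfl⟩
  have hc1 : 0 < c1 := by rw [hc1e]; positivity
  obtain ⟨R1, hR1⟩ : ∃ R1, R1 = Real.sqrt (8 * K / c1) := ⟨_, rfl⟩
  obtain ⟨R2, hR2⟩ : ∃ R2, R2 = Real.sqrt (8 * K / c) := ⟨_, rfl⟩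
  have hR10 : 0 < R1 := by rw [hR1]; positivity
  have hR20 : 0 < R2 := by rw [hR2]; positivity
  have hR1s : R1 ^ 2 = 8 * K / c1 := by rw [hR1]; exact Real.sq_sqrt (by positivity)
  have hR2s : R2 ^ 2 = 8 * K / c := by rw [hR2]; exact Real.sq_sqrt (by positivity)
  obtain ⟨d1, v1, hd1, hv1, hbz⟩ := hBZ.2 R1 hR10
  obtain ⟨d2, k0, hd2, hbin⟩ := (hB (L / (1 + L)) (R / (1 + R)) (by positivity)
    (TPT.LOCCx.mono_div hL0 hLR) hp1).2 R2 hR20
  refine ⟨d1 / Real.sqrt E * d2 / 2, v1 / c1, by positivity, by positivity,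
    max N₁ (max ⌈(k0 : ℝ) / c⌉₊ ⌈2 / c⌉₊), ?_⟩
  intro n hn f g hbox hsn h t hht hvh hvt
  have hn1 : N₁ ≤ n := (le_max_left _ _).trans hn
  have hn2 : ⌈(k0 : ℝ) / c⌉₊ ≤ n := ((le_max_left _ _).trans (le_max_right _ _)).trans hn
  have hn3 : ⌈2 / c⌉₊ ≤ n := ((le_max_right _ _).trans (le_max_right _ _)).trans hn
  have hk0 : (k0 : ℝ) ≤ c * n := by
    have h2 : (k0 : ℝ) / c ≤ n := (Nat.le_ceil _).trans (by exact_mod_cast hn2)
    rw [div_le_iff₀ hc] at h2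
    linarith
  have hcn2 : 2 ≤ c * n := by
    have h2 : 2 / c ≤ n := (Nat.le_ceil _).trans (by exact_mod_cast hn3)
    rw [div_le_iff₀ hc] at h2
    linarith
  have hn6 : 6 ≤ n := hN₁.trans hn1
  have hn0 : (0 : ℝ) < n := by
    have : (6 : ℝ) ≤ n := by exact_mod_cast hn6
    linarith
  obtain ⟨N, σ, hσ⟩ := hS n hn6
  have hKB := hK' n hn1 f g hbox N σ hσ
  have hwd : wd n f = Real.sqrt (Real.exp (-f) * n) * Real.sqrt n := rfl
  rw [hwd]
  obtain ⟨s, hs⟩ : ∃ s, s = Real.exp (-f) := ⟨_, rfl⟩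
  have hs0 : 0 < s := by rw [hs]; positivity
  rw [← hs] at hsn hvh hvt hKB ⊢
  obtain ⟨hf1, hg⟩ := hbox
  obtain ⟨hg1, hg2⟩ := abs_le.1 hg
  have hs1 : s ≤ 1 := by
    rw [hs]
    exact Real.exp_le_one_iff.2 (by linarith)
  have hsn0 : 0 < s * n := by positivity
  obtain ⟨w1, hw1⟩ : ∃ w, w = s * Real.exp g := ⟨_, rfl⟩
  obtain ⟨w2, hw2⟩ : ∃ w, w = Real.exp (-(2 * g)) := ⟨_, rfl⟩
  have hw1' : w1 = Real.exp (-f + g) := by rw [hw1, hs, ← Real.exp_add]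
  have hw11 : w1 ≤ 1 := by rw [hw1']; exact Real.exp_le_one_iff.2 (by linarith)
  have hw1L : s * E' ≤ w1 := by
    rw [hw1, hE']
    exact mul_le_mul_of_nonneg_left (Real.exp_le_exp.2 (by linarith)) hs0.le
  have hw1R : w1 ≤ s * E := by
    rw [hw1, hE]
    exact mul_le_mul_of_nonneg_left (Real.exp_le_exp.2 (by linarith)) hs0.le
  have hw2L : L ≤ w2 := by rw [hw2, hL]; exact Real.exp_le_exp.2 (by linarith)
  have hw2R : w2 ≤ R := by rw [hw2, hR]; exact Real.exp_le_exp.2 (by linarith)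
  have hw10 : 0 < w1 := by rw [hw1]; positivity
  have hw20 : 0 < w2 := lt_of_lt_of_le hL0 hw2L
  obtain ⟨p1, hp1e⟩ : ∃ p, p = w1 / (1 + w1) := ⟨_, rfl⟩
  obtain ⟨p2, hp2e⟩ : ∃ p, p = w2 / (1 + w2) := ⟨_, rfl⟩
  have hp10 : 0 < p1 := by rw [hp1e]; positivity
  have hp1h : p1 ≤ 1 / 2 := by
    rw [hp1e, div_le_div_iff₀ (by positivity) (by norm_num)]
    linarith
  have hp1L : s * (E' / 2) ≤ p1 := by
    rw [hp1e, le_div_iff₀ (by positivity)]
    have : s * (E' / 2) * (1 + w1) ≤ s * (E' / 2) * 2 :=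
      mul_le_mul_of_nonneg_left (by linarith) (by positivity)
    linarith
  have hp1R : p1 ≤ s * E := by
    refine le_trans ?_ hw1R
    rw [hp1e]
    exact div_le_self hw10.le (by linarith)
  have hp2L : L / (1 + L) ≤ p2 := by rw [hp2e]; exact TPT.LOCCx.mono_div hL0 hw2L
  have hp2R : p2 ≤ R / (1 + R) := by rw [hp2e]; exact TPT.LOCCx.mono_div hw20 hw2R
  have hp20 : 0 ≤ p2 := le_trans (by positivity) hp2L
  -- the exponents
  have hpar : ∀ i, ∃ b₀ : ℤ, 2 * b₀ = (σ i).Λ + (((σ i).H : ℤ) - h) - t := by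
    intro i
    obtain ⟨r, hr⟩ := parity hH hσ i
    obtain ⟨r', hr'⟩ := hht
    exact ⟨r - r', by omega⟩
  choose b₀ hb₀ using hpar
  have hU := UM_eq hσ hs0 g h t b₀ hb₀
  have hVh := second hσ hs0 g h t 1 0 zero_le_one le_rfl
  have hVt := second hσ hs0 g h t 0 1 le_rfl zero_le_one
  simp only [one_mul, zero_mul, add_zero, zero_add] at hVh hVt
  have hVh2 := hVh.trans hvh
  have hVt2 := hVt.trans hvt
  have hZ := Z_eq hσ s g
  rw [← hw1, ← hw2, ← hp1e, ← hp2e] at hU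
  simp only [← hw1, ← hw2, ← hp1e, ← hp2e] at hVh2 hVt2
  have hv0 : ∀ i, 0 ≤ vsE n s g (σ i) := fun i => vsE_nonneg hs0 n g (σ i)
  have hZ0 : 0 ≤ Zm n s g := by rw [hZ]; exact sum_nonneg fun i _ => hv0 i
  obtain ⟨Dh, hDh⟩ : ∃ D : Fin N → ℝ, D = fun i =>
    (((σ i).H : ℝ) - h - p1 * (σ i).l.length) ^ 2 := ⟨_, rfl⟩
  obtain ⟨Dt, hDt⟩ : ∃ D : Fin N → ℝ, D = fun i =>
    (((σ i).Λ : ℝ) - t - 2 * (p2 * (σ i).k) + p1 * (σ i).l.length) ^ 2 := ⟨_, rfl⟩
  have hVh' : ∑ i, vsE n s g (σ i) * Dh i ≤ K * (s * n) * Zm n s g := by rw [hDh]; exact hVh2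
  have hVt' : ∑ i, vsE n s g (σ i) * Dt i ≤ K * n * Zm n s g := by rw [hDt]; exact hVt2
  have hDh0 : ∀ i, 0 ≤ Dh i := by intro i; rw [hDh]; positivity
  have hDt0 : ∀ i, 0 ≤ Dt i := by intro i; rw [hDt]; positivity
  have h3 := markov (fun i => vsE n s g (σ i)) Dh hv0 hDh0 (by positivity : 0 < K * (s * n)) hVh'
  have h4 := markov (fun i => vsE n s g (σ i)) Dt hv0 hDt0 (by positivity : 0 < K * n) hVt'
  obtain ⟨bad, hbad⟩ : ∃ bad : Finset (Fin N), bad = univ.filter (fun i : Fin N =>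
    8 * (K * (s * n)) < Dh i) := ⟨_, rfl⟩
  obtain ⟨bad1, hbad1⟩ : ∃ bad1 : Finset (Fin N), bad1 = univ.filter (fun i : Fin N =>
    8 * (K * n) < Dt i) := ⟨_, rfl⟩
  obtain ⟨bad2, hbad2⟩ : ∃ bad2 : Finset (Fin N), bad2 = univ.filter (fun i : Fin N =>
    ((σ i).l.length : ℝ) < c * n ∨ ((σ i).k : ℝ) < c * n) := ⟨_, rfl⟩
  rw [← hbad] at h3
  rw [← hbad1] at h4
  have h5 : ∑ i ∈ bad2, vsE n s g (σ i) ≤ 1 / 4 * Zm n s g := by
    rw [hbad2]
    refine hKB.trans (mul_le_mul_of_nonneg_right ?_ hZ0)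
    exact exp_quarter hcn2
  obtain ⟨Q, hQ⟩ : ∃ Q, Q = d1 / Real.sqrt E * d2 / (Real.sqrt (s * n) * Real.sqrt n) :=
    ⟨_, rfl⟩
  have hQ0 : 0 ≤ Q := by rw [hQ]; positivity
  -- lower bound
  have h6 : ∀ i : Fin N, Q * vsE n s g (σ i) -
      (Q * (if i ∈ bad then vsE n s g (σ i) else 0) +
        Q * (if i ∈ bad1 then vsE n s g (σ i) else 0) +
        Q * (if i ∈ bad2 then vsE n s g (σ i) else 0)) ≤
      vsE n s g (σ i) * (bp (σ i).l.length p1 ((σ i).H - h) * bp (σ i).k p2 (b₀ i)) := by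
    intro i
    have hb1 := FS.LOC.bp_nonneg hp10.le (hp1h.trans (by norm_num)) (σ i).l.length ((σ i).H - h)
    have hb2 := FS.LOC.bp_nonneg hp20 (hp2R.trans hp1.le) (σ i).k (b₀ i)
    have hvi := hv0 i
    have hpos : 0 ≤ vsE n s g (σ i) *
        (bp (σ i).l.length p1 ((σ i).H - h) * bp (σ i).k p2 (b₀ i)) := by
      positivity
    have hcv : 0 ≤ Q * vsE n s g (σ i) := mul_nonneg hQ0 hvi
    have t0 : 0 ≤ Q * (if i ∈ bad then vsE n s g (σ i) else 0) := by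
      split_ifs <;> positivity
    have t1 : 0 ≤ Q * (if i ∈ bad1 then vsE n s g (σ i) else 0) := by
      split_ifs <;> positivity
    have t2 : 0 ≤ Q * (if i ∈ bad2 then vsE n s g (σ i) else 0) := by
      split_ifs <;> positivity
    by_cases hi0 : i ∈ bad
    · rw [if_pos hi0] at t0 ⊢
      linarith
    by_cases hi1 : i ∈ bad1
    · rw [if_pos hi1] at t1 ⊢
      linarith
    by_cases hi2 : i ∈ bad2
    · rw [if_pos hi2] at t2 ⊢
      linarith
    rw [if_neg hi0, if_neg hi1, if_neg hi2, mul_zero, add_zero, add_zero, sub_zero, mul_comm]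
    refine mul_le_mul_of_nonneg_left ?_ hvi
    rw [hbad, mem_filter, not_and, not_lt] at hi0
    rw [hbad1, mem_filter, not_and, not_lt] at hi1
    rw [hbad2, mem_filter, not_and, not_or, not_lt, not_lt] at hi2
    have q1 := hi0 (mem_univ i)
    have q2 := hi1 (mem_univ i)
    obtain ⟨hi4, hi5⟩ := hi2 (mem_univ i)
    rw [hDh] at q1
    rw [hDt] at q2
    simp only at q1 q2
    have q3 : ((b₀ i : ℝ) - p2 * (σ i).k) ^ 2 ≤ 8 * (K * n) := by
      have e : (b₀ i : ℝ) = ((σ i).Λ + ((σ i).H - h) - t) / 2 := by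
        have := congrArg (fun z : ℤ => (z : ℝ)) (hb₀ i)
        push_cast at this
        linarith
      have e2 : (b₀ i : ℝ) - p2 * (σ i).k =
          ((((σ i).Λ : ℝ) - t - 2 * (p2 * (σ i).k) + p1 * (σ i).l.length) +
            (((σ i).H : ℝ) - h - p1 * (σ i).l.length)) / 2 := by
        rw [e]
        ring
      rw [e2]
      have e3 : 8 * (K * (s * n)) ≤ 8 * (K * n) := by
        have : s * n ≤ 1 * n := mul_le_mul_of_nonneg_right hs1 hn0.le
        rw [one_mul] at this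
        have := mul_le_mul_of_nonneg_left this hK0.le
        linarith
      exact half_sq q2 (q1.trans e3)
    have hcn : 0 < c * n := by linarith
    have hlen : (0 : ℝ) < (σ i).l.length := lt_of_lt_of_le hcn hi4
    have hklen : (0 : ℝ) < (σ i).k := lt_of_lt_of_le hcn hi5
    have hlp : c1 * (s * n) ≤ ((σ i).l.length : ℝ) * p1 := by
      have := mul_le_mul hi4 hp1L (by positivity) hlen.le
      rw [hc1e]
      linarith
    have r1 : |((σ i).H : ℝ) - h - p1 * (σ i).l.length| ≤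
        R1 * Real.sqrt (((σ i).l.length : ℝ) * p1) := by
      refine sq_aux hR10.le q1 ?_
      rw [hR1s]
      calc 8 * (K * (s * n)) = 8 * K / c1 * (c1 * (s * n)) := by field_simp
        _ ≤ _ := mul_le_mul_of_nonneg_left hlp (by positivity)
    have r2 : |(b₀ i : ℝ) - p2 * (σ i).k| ≤ R2 * Real.sqrt (σ i).k := by
      refine sq_aux hR20.le q3 ?_
      rw [hR2s]
      calc 8 * (K * n) = 8 * K / c * (c * n) := by field_simp
        _ ≤ _ := mul_le_mul_of_nonneg_left hi5 (by positivity)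
    have hkk : k0 ≤ (σ i).k := by exact_mod_cast hk0.trans hi5
    have hvl : v1 ≤ ((σ i).l.length : ℝ) * p1 := by
      refine le_trans ?_ hlp
      rw [div_le_iff₀ hc1] at hsn
      linarith
    have s1 := hbz p1 hp10 hp1h (σ i).l.length (((σ i).H : ℤ) - h) hvl (by
      push_cast
      exact r1)
    have s2 := hbin p2 hp2L hp2R (σ i).k (b₀ i) hkk r2
    have u1 := hσ.len_le i
    have u2 := hσ.H_le i
    have hln : ((σ i).l.length : ℝ) ≤ n := by exact_mod_cast (by omega : (σ i).l.length ≤ n)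
    have x1 : Real.sqrt (((σ i).l.length : ℝ) * p1) ≤ Real.sqrt E * Real.sqrt (s * n) := by
      rw [← Real.sqrt_mul hE0.le]
      refine Real.sqrt_le_sqrt ?_
      have := mul_le_mul hln hp1R hp10.le hn0.le
      linarith
    have x2 : Real.sqrt (σ i).k ≤ Real.sqrt n :=
      Real.sqrt_le_sqrt (by exact_mod_cast (by omega : (σ i).k ≤ n))
    have y1 : d1 / (Real.sqrt E * Real.sqrt (s * n)) ≤
        d1 / Real.sqrt (((σ i).l.length : ℝ) * p1) :=
      div_le_div_of_nonneg_left hd1.le (Real.sqrt_pos.2 (by positivity)) x1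
    have y2 : d2 / Real.sqrt n ≤ d2 / Real.sqrt (σ i).k :=
      div_le_div_of_nonneg_left hd2.le (Real.sqrt_pos.2 hklen) x2
    have e3 : Q = d1 / (Real.sqrt E * Real.sqrt (s * n)) * (d2 / Real.sqrt n) := by
      rw [hQ, div_mul_div_comm, div_mul_eq_mul_div, div_div]
      congr 1
      ring
    rw [e3]
    exact mul_le_mul (y1.trans s1) (y2.trans s2) (by positivity) hb1
  rw [hU]
  refine le_trans ?_ (sum_le_sum fun i _ => h6 i)
  rw [sum_sub_distrib, sum_add_distrib, sum_add_distrib, ← mul_sum, ← mul_sum, ← mul_sum,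
    ← mul_sum, ← hZ]
  have e1 : ∀ B : Finset (Fin N), ∑ i, (if i ∈ B then vsE n s g (σ i) else 0) =
      ∑ i ∈ B, vsE n s g (σ i) := by
    intro B
    rw [← sum_filter]
    congr 1
    ext i
    simp
  rw [e1, e1, e1]
  have e3 : d1 / Real.sqrt E * d2 / 2 / (Real.sqrt (s * n) * Real.sqrt n) * Zm n s g =
      Q / 2 * Zm n s g := by
    rw [hQ, div_right_comm]
  rw [e3]
  exact fin_aux hQ0 h3 h4 h5

end Pool.Agent.TPE
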