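import Pool.Agent.TPE.Stmts
import Pool.Agent.TPT.MEANM

/-!
# Project TPE, module MEANME (port of `TPT/MEANM.lean`)
-/

set_option autoImplicit false

namespace Pool.Agent.TPE

open Finset Filter Topology MeasureTheory
open Pool.Agent.Lib27 Pool.Agent.SapR Pool.Agent.AreaLaw Pool.Agent.TPT
open Pool.Agent.FL (Wd hl htn HG_Stmt)
open Pool.Agent.FS (sc)
open Pool.Agent.Gap (IsCap closeP B0 B0_isSol qn cap1 stair)
open Pool.Agent.KCS (airyMoment)
open Pool.Agent.TPT.MEANMm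

theorem t_MEANME (hD : DATBE_Stmt) (hPA : TPK.QPAR_Stmt) (hR : TPK.QRAT_Stmt) (oM2 : Gap.M2_Stmt)
    (oB : Gap.BAL_Stmt) : MEANME_Stmt := by
  intro a b ha hab
  obtain ⟨D, hD2, N, hN3, hdat⟩ := hD a b ha hab
  obtain ⟨K0, K1, hR⟩ := hR
  obtain ⟨J0, J1, hPA⟩ := hPA
  obtain ⟨p, hp⟩ := TPK.par_bounds
  obtain ⟨c, C, hc, hC, hst⟩ := stair_bounds oM2 oB
  have hD1 : 1 ≤ D := by linarith
  have hD0 : 0 < D := by linarith
  -- the parameters
  obtain ⟨lam, hlam⟩ : ∃ lam, lam = min 1 (c / (8 * D ^ K1)) := ⟨_, rfl⟩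
  have hlam0 : 0 < lam := by rw [hlam]; exact lt_min one_pos (by positivity)
  have hlam1 : lam ≤ 1 := by rw [hlam]; exact min_le_left _ _
  have hlam2 : D ^ K1 * lam ≤ c / 8 := by
    have h1 : lam ≤ c / (8 * D ^ K1) := by rw [hlam]; exact min_le_right _ _
    calc D ^ K1 * lam ≤ D ^ K1 * (c / (8 * D ^ K1)) := mul_le_mul_of_nonneg_left h1 (by positivity)
      _ = c / 8 := by field_simp
  obtain ⟨W, hW⟩ : ∃ W, W = 3 + D ^ K0 + (8 * D ^ K1 / (c * lam)) ^ 2 := ⟨_, rfl⟩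
  have hW3 : 3 ≤ W := by
    rw [hW]
    have h1 : 0 ≤ D ^ K0 := by positivity
    have h2 : 0 ≤ (8 * D ^ K1 / (c * lam)) ^ 2 := by positivity
    linarith
  have hW0 : 0 < W := by linarith
  have hWK : D ^ K0 ≤ W := by
    rw [hW]
    have h2 : 0 ≤ (8 * D ^ K1 / (c * lam)) ^ 2 := by positivity
    linarith
  have hWs : 8 * D ^ K1 / (c * lam) ≤ Real.sqrt W := by
    refine Real.le_sqrt_of_sq_le ?_
    rw [hW]
    have h1 : 0 ≤ D ^ K0 := by positivity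
    linarith
  have hsW : 0 < Real.sqrt W := Real.sqrt_pos.2 hW0
  have hW1 : D ^ K1 / Real.sqrt W / lam ≤ c / 8 := by
    rw [div_div, div_le_iff₀ (by positivity)]
    rw [div_le_iff₀ (by positivity)] at hWs
    have : c / 8 * (Real.sqrt W * lam) = (Real.sqrt W * (c * lam)) / 8 := by ring
    rw [this, le_div_iff₀ (by norm_num)]
    linarith
  have hDW1 : 1 ≤ D * W := by nlinarith
  obtain ⟨N1, hN1⟩ := eventually_atTop.1
    (qn_tendsto.eventually_ge_atTop (4 * (D * W) ^ K1 / (c * lam) + 1))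
  obtain ⟨N2, hN2⟩ := exists_nat_ge ((D * W) ^ (max K0 J0))
  refine ⟨(c / 2 * ((2 * D ^ p)⁻¹ * ((D ^ J1) ^ 2)⁻¹))⁻¹ +
    (C + c) * (D ^ p * D * (D ^ J1) ^ 2), by positivity, max N (max N1 N2),
    fun n hn f g hfg => ?_⟩
  have hnN : N ≤ n := (le_max_left _ _).trans hn
  have hnN1 : N1 ≤ n := ((le_max_left _ _).trans (le_max_right _ _)).trans hn
  have hnN2 : N2 ≤ n := ((le_max_right _ _).trans (le_max_right _ _)).trans hn
  obtain ⟨d, ok⟩ := hdat n hnN f g hfg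
  obtain ⟨p1, p2, p3, p4, p5, p6⟩ := hp D hD2 d.G ok.cls
  have hmb : 0 < d.G.mbar := by linarith
  have hhb : 0 < d.G.hbar := by linarith
  have hsg : 0 < d.G.sig2 := lt_of_lt_of_le (inv_pos.2 hD0) p5
  obtain ⟨n0, hn0⟩ : ∃ n0 : ℕ, n0 = ⌊2 * d.G.sig2 * n / d.G.mbar⌋₊ := ⟨_, rfl⟩
  have hnear : |(n0 : ℝ) * d.G.mbar - 2 * d.G.sig2 * n| ≤ d.G.mbar := by
    rw [hn0]
    exact near_floor _ _ hmb (by positivity)
  have hbig : (D * W) ^ (max K0 J0) ≤ n := hN2.trans (by exact_mod_cast hnN2)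
  have hsc0 : TPK.Sc0 K0 D W d.G n n0 := ⟨hD2, by linarith, ok.cls,
    (pow_le_pow_right₀ hDW1 (le_max_left _ _)).trans hbig, hnear⟩
  have hscJ : TPK.Sc0 J0 D W d.G n n0 := ⟨hD2, by linarith, ok.cls,
    (pow_le_pow_right₀ hDW1 (le_max_right _ _)).trans hbig, hnear⟩
  obtain ⟨⟨hn1, hn01, -, hWn0, hnn0, hn0n⟩, -, -⟩ := hPA D W d.G n n0 0 0
    ⟨hscJ, le_rfl, by rw [zero_mul]; exact hW0.le, by ring⟩
  obtain ⟨V, hV⟩ := ok.csol
  obtain ⟨q1, -, q3⟩ := hR D hD2 d.G ok.cls (2 * n) _ _ V V d.B ok.ccap ok.ccap hV hV d.sol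
    W n n0 hsc0 hWK
  have q3 := q3 lam hlam0 hlam1
  have hn03 : 3 ≤ n0 := by
    have : (3 : ℝ) ≤ n0 := hW3.trans hWn0
    exact_mod_cast this
  obtain ⟨s1, s2⟩ := hst n0 hn03
  rw [← sum_zero d] at q1 q3
  rw [← sum_one d] at q3
  have hnr : (0 : ℝ) < n := by exact_mod_cast hn1
  have hn0r : (0 : ℝ) < n0 := by exact_mod_cast hn01
  obtain ⟨R, hRd⟩ : ∃ R, R = (n : ℝ) * Real.sqrt n := ⟨_, rfl⟩
  obtain ⟨R0, hR0d⟩ : ∃ R, R = (n0 : ℝ) * Real.sqrt n0 := ⟨_, rfl⟩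
  have hRp : 0 < R := by rw [hRd]; positivity
  have hR0p : 0 < R0 := by rw [hR0d]; positivity
  -- positivity of the total weight
  have hZ : 0 < Zm n (Real.exp (-f)) g := by
    by_contra hcon
    have h1 : ((n : ℝ) * Real.sqrt n) * d.G.rho ^ n * Zm n (Real.exp (-f)) g ≤ 0 := by
      refine mul_nonpos_of_nonneg_of_nonpos ?_ (not_lt.1 hcon)
      have := pow_pos d.G.rho_pos n
      positivity
    have h2 : 0 < (D ^ K1)⁻¹ := by positivity
    linarith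
  -- the error
  have hqn := hN1 n hnN1
  have hqn0 : 0 < qn n := by
    have : 0 ≤ 4 * (D * W) ^ K1 / (c * lam) := by positivity
    linarith
  have hE1 : (D * W) ^ K1 / qn n / lam ≤ c / 4 := by
    rw [div_div, div_le_iff₀ (by positivity)]
    have h1 : 4 * (D * W) ^ K1 / (c * lam) ≤ qn n := by linarith
    rw [div_le_iff₀ (by positivity)] at h1
    have : c / 4 * (qn n * lam) = (qn n * (c * lam)) / 4 := by ring
    rw [this, le_div_iff₀ (by norm_num)]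
    linarith
  have hE : ((D * W) ^ K1 / qn n + D ^ K1 / Real.sqrt W) / lam + D ^ K1 * lam ≤ c / 2 := by
    rw [add_div]
    linarith
  have q4 := q3.trans hE
  have hsum : ∑ q ∈ Omm n, wm n (Real.exp (-f)) g q * rm n q =
      (∑ q ∈ Omm n, wm n (Real.exp (-f)) g q * (am n q : ℝ)) / R := by
    rw [Finset.sum_div]
    refine Finset.sum_congr rfl fun q _ => ?_
    unfold rm sc
    rw [← hRd, mul_div_assoc]
  rw [hsum]
  rw [← hR0d] at q4 s1 s2
  have r1 : R0 ≤ (D ^ J1) ^ 2 * R := by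
    rw [hRd, hR0d]
    exact sc_ratio (one_le_pow₀ hD1) hn1 hn01 hn0n
  have r2 : R ≤ (D ^ J1) ^ 2 * R0 := by
    rw [hRd, hR0d]
    exact sc_ratio (one_le_pow₀ hD1) hn01 hn1 hnn0
  generalize (closeP 1 cap1 B0 n0).derivative.eval 1 / (R0 * (closeP 1 cap1 B0 n0).eval 1) = y
    at q4 s1 s2
  generalize (∑ q ∈ Omm n, wm n (Real.exp (-f)) g q * (am n q : ℝ)) = S at q4 ⊢
  generalize Zm n (Real.exp (-f)) g = Z at q4 hZ ⊢
  obtain ⟨x, hx⟩ : ∃ x, x = 2 * d.G.sig2 / (d.G.hbar * R0) * (S / Z) := ⟨_, rfl⟩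
  rw [← hx] at q4
  have hS : S / R = x * ((d.G.hbar / (2 * d.G.sig2)) * (R0 / R)) * Z := by
    rw [hx]
    field_simp
  have x1 : c / 2 ≤ x := by
    have := (abs_le.1 q4).1
    linarith
  have x2 : x ≤ C + c := by
    have := (abs_le.1 q4).2
    linarith
  have x0 : 0 < x := by linarith
  have u1 : (2 * D ^ p)⁻¹ ≤ d.G.hbar / (2 * d.G.sig2) := by
    rw [inv_eq_one_div, div_le_div_iff₀ (by positivity) (by positivity)]
    nlinarith [hsg]
  have u2 : d.G.hbar / (2 * d.G.sig2) ≤ D ^ p * D := by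
    rw [div_le_iff₀ (by positivity)]
    have h1 : 1 ≤ D * d.G.sig2 := by
      have := mul_le_mul_of_nonneg_left p5 hD0.le
      rwa [mul_inv_cancel₀ hD0.ne'] at this
    have h2 : 0 < D ^ p := by positivity
    calc d.G.hbar ≤ D ^ p * 1 := by rw [mul_one]; exact p4
      _ ≤ D ^ p * (D * d.G.sig2) := mul_le_mul_of_nonneg_left h1 h2.le
      _ ≤ D ^ p * D * (2 * d.G.sig2) := by
        have : 0 < D ^ p * (D * d.G.sig2) := by positivity
        linarith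
  have v1 : ((D ^ J1) ^ 2)⁻¹ ≤ R0 / R := by
    rw [le_div_iff₀ hRp, inv_mul_le_iff₀ (by positivity)]
    exact r2
  have v2 : R0 / R ≤ (D ^ J1) ^ 2 := by
    rw [div_le_iff₀ hRp]
    exact r1
  have u0 : 0 < d.G.hbar / (2 * d.G.sig2) := by positivity
  have v0 : 0 < R0 / R := by positivity
  rw [hS]
  obtain ⟨L, hL⟩ : ∃ L, L = c / 2 * ((2 * D ^ p)⁻¹ * ((D ^ J1) ^ 2)⁻¹) := ⟨_, rfl⟩
  obtain ⟨M, hM⟩ : ∃ M, M = (C + c) * (D ^ p * D * (D ^ J1) ^ 2) := ⟨_, rfl⟩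
  have hL0 : 0 < L := by rw [hL]; positivity
  have hM0 : 0 < M := by rw [hM]; positivity
  rw [← hL, ← hM]
  constructor
  · refine mul_le_mul_of_nonneg_right ?_ hZ.le
    have h1 : (L⁻¹ + M)⁻¹ ≤ L := by
      rw [inv_le_comm₀ (by positivity) hL0]
      linarith
    refine h1.trans ?_
    rw [hL]
    exact mul_le_mul x1 (mul_le_mul u1 v1 (by positivity) u0.le) (by positivity) x0.le
  · refine mul_le_mul_of_nonneg_right ?_ hZ.le
    have h1 : x * (d.G.hbar / (2 * d.G.sig2) * (R0 / R)) ≤ M := by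
      rw [hM]
      exact mul_le_mul x2 (mul_le_mul u2 v2 v0.le (by positivity)) (by positivity) (by positivity)
    have h2 : 0 < L⁻¹ := inv_pos.2 hL0
    linarith

end Pool.Agent.TPE
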