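import Pool.Agent.TPE.Stmts

/-!
# Project TPT (MP_f6626d_co): module MOMM, moments
-/

set_option autoImplicit false

namespace Pool.Agent.TPE
namespace MOMMEm

open Finset Filter Topology MeasureTheory
open Pool.Agent.Lib27 Pool.Agent.SapR Pool.Agent.AreaLaw Pool.Agent.FL Pool.Agent.TPT
open Pool.Agent.FS (sc)

lemma wm_pos (n : ℕ) (f g : ℝ) (q : QM) : 0 < wm n (Real.exp (-f)) g q := by
  unfold wm
  positivity

/-- the weighted power sum of the integer area functional -/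
noncomputable def Mr (n : ℕ) (f g : ℝ) (r : ℕ) : ℝ :=
  ∑ q ∈ Omm n, wm n (Real.exp (-f)) g q * (am n q : ℝ) ^ r

/-- the normalised moment -/
noncomputable def R (r n : ℕ) (f g : ℝ) : ℝ :=
  (Mr n f g r / Zm n (Real.exp (-f)) g) / (Mr n f g 1 / Zm n (Real.exp (-f)) g) ^ r

lemma slow_const {D : ℝ} (hD : 2 ≤ D) : EXW.Slow (fun _ => D) where
  two_le := fun _ => hD
  lim := fun K => tendsto_const_div_atTop_nhds_zero_nat (D ^ K)

lemma mr_zero (P : Polynomial ℝ) : KCG.mr 0 P = P.eval 1 := by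
  unfold KCG.mr
  rw [Polynomial.eval_eq_sum]
  simp

/-- the normalised moments are bounded on the box -/
lemma bound (hMo : MODME_Stmt) (hC : TPK.MOMC_Stmt) (a b : ℝ) (ha : 0 < a) (hab : a ≤ b) (r : ℕ) :
    ∃ k : ℕ, ∃ N : ℕ, ∀ n : ℕ, N ≤ n → ∀ f g : ℝ, BoxE a b f g → R r n f g ≤ k := by
  classical
  by_contra hcon
  push Not at hcon
  -- the worst point up to one
  obtain ⟨Pr, hPr⟩ : ∃ Pr : ℕ → ℕ → Prop, ∀ n k : ℕ, Pr n k ↔ ∃ f g : ℝ, BoxE a b f g ∧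
      ((k : ℕ) : ℝ) < R r n f g :=
    ⟨fun (n k : ℕ) => ∃ f g : ℝ, BoxE a b f g ∧ ((k : ℕ) : ℝ) < R r n f g, fun _ _ => Iff.rfl⟩
  have hchoice : ∀ n : ℕ, ∃ fg : ℝ × ℝ, BoxE a b fg.1 fg.2 ∧
      (Pr n (Nat.findGreatest (Pr n) n) → ((Nat.findGreatest (Pr n) n : ℕ) : ℝ) <
        R r n fg.1 fg.2) := by
    intro n
    by_cases h : Pr n (Nat.findGreatest (Pr n) n)
    · obtain ⟨f, g, h1, h2⟩ := (hPr _ _).1 h
      exact ⟨(f, g), h1, fun _ => h2⟩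
    · refine ⟨(a, 0), ⟨le_rfl, ?_⟩, fun h' => absurd h' h⟩
      rw [abs_zero]
      linarith
  choose fg hbox hbig using hchoice
  obtain ⟨D, hD, N, -, hQ⟩ := hMo a b ha hab
  obtain ⟨Q, -, -, hQ⟩ := hQ (fun n => (fg n).1) (fun n => (fg n).2) hbox
  have h1 := (hC (fun _ => D) (slow_const hD) Q).1 r
  have h2 : Tendsto (fun n => R r n (fg n).1 (fg n).2) atTop (𝓝 (KCS.airyMoment r)) := by
    refine h1.congr' ?_
    filter_upwards [eventually_ge_atTop N] with n hn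
    obtain ⟨-, -, -, h3, h4⟩ := hQ n hn
    have h5 : Zm n (Real.exp (-(fg n).1)) (fg n).2 = (Q.P n).eval 1 := by
      rw [h3 1]
      unfold Zm
      refine Finset.sum_congr rfl fun q _ => ?_
      rw [one_pow, mul_one]
    unfold R Mr
    rw [h5, h4 r, h4 1]
  obtain ⟨k0, hk0⟩ := exists_nat_gt (KCS.airyMoment r + 1)
  have h3 : ∀ᶠ n in atTop, R r n (fg n).1 (fg n).2 < KCS.airyMoment r + 1 :=
    h2.eventually (gt_mem_nhds (by linarith))
  obtain ⟨N1, hN1⟩ := eventually_atTop.1 h3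
  obtain ⟨n, hn, f, g, hb, hlt⟩ := hcon k0 (max N1 k0)
  have hn1 : N1 ≤ n := (le_max_left _ _).trans hn
  have hnk : k0 ≤ n := (le_max_right _ _).trans hn
  have hP : Pr n k0 := (hPr _ _).2 ⟨f, g, hb, hlt⟩
  have h4 := Nat.findGreatest_spec (P := Pr n) hnk hP
  have h5 := Nat.le_findGreatest (P := Pr n) hnk hP
  have h6 := hbig n h4
  have h7 := hN1 n hn1
  have h8 : (k0 : ℝ) ≤ ((Nat.findGreatest (Pr n) n : ℕ) : ℝ) := by exact_mod_cast h5
  linarith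

lemma tails_mono {C C' θ θ' : ℝ} (hC : C ≤ C') (hC0 : 0 ≤ C') (hθ : 0 < θ) (hh : θ ≤ θ')
    {n : ℕ} {f g rho : ℝ} (hT : TailsM C θ n f g rho) : TailsM C' θ' n f g rho := by
  obtain ⟨h1, h2, h3⟩ := hT
  have h4 : ∀ m : ℕ, C * θ ^ m ≤ C' * θ' ^ m := fun m =>
    mul_le_mul hC (pow_le_pow_left₀ hθ.le hh m) (by positivity) hC0
  refine ⟨fun m => (h1 m).trans (h4 m), fun m => (h2 m).trans (h4 m), h3.trans ?_⟩
  have h5 := mul_le_mul_of_nonneg_left (h4 n) (sq_nonneg (n : ℝ))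
  calc C * (n : ℝ) ^ 2 * θ ^ n = (n : ℝ) ^ 2 * (C * θ ^ n) := by ring
    _ ≤ (n : ℝ) ^ 2 * (C' * θ' ^ n) := h5
    _ = C' * (n : ℝ) ^ 2 * θ' ^ n := by ring

lemma nlog_ge (n : ℕ) (hn : 2 ≤ n) : (1 : ℝ) ≤ n * Real.log n := by
  have hn2 : (2 : ℝ) ≤ n := by exact_mod_cast hn
  have h3 : Real.log 2 ≤ Real.log n := Real.log_le_log (by norm_num) hn2
  have h4 := Real.log_two_gt_d9
  nlinarith

lemma Zm_pos_of (hZ : ZBME_Stmt) (a b : ℝ) (ha : 0 < a) (hab : a ≤ b) :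
    ∃ N : ℕ, ∀ n : ℕ, N ≤ n → ∀ f g : ℝ, BoxE a b f g → 0 < Zm n (Real.exp (-f)) g := by
  obtain ⟨C, θ, hC, _, _, N, h⟩ := hZ a b ha hab
  refine ⟨N, fun n hn f g hb => ?_⟩
  obtain ⟨rho, _, _, h5, _, h6, _⟩ := h n hn f g hb
  by_contra hc
  push Not at hc
  have hCi : 0 < C⁻¹ := by positivity
  have h7 : 0 ≤ sc n * rho ^ n := by
    have : 0 ≤ rho := by linarith
    unfold sc
    positivity
  have h8 := mul_nonpos_of_nonneg_of_nonpos h7 hc
  linarith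

/-- the differences between the shoelace sum and the area functional -/
lemma diff_part (hZ : ZBME_Stmt) (hP : PDIFM_Stmt) (a b : ℝ) (ha : 0 < a) (hab : a ≤ b)
    (r : ℕ) : ∃ C : ℝ, 0 < C ∧ ∃ N : ℕ, ∀ n : ℕ, N ≤ n → ∀ f g : ℝ, BoxE a b f g →
      ∑ q ∈ Omm n, wm n (Real.exp (-f)) g q * |(dm q : ℝ) - (am n q : ℝ)| ^ r ≤
        C * (n * Real.log n) ^ r * Zm n (Real.exp (-f)) g := by
  obtain ⟨N0, hZp⟩ := Zm_pos_of hZ a b ha hab
  obtain ⟨C, θ, hC, hθ, hθ1, N, hZ⟩ := hZ a b ha hab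
  obtain ⟨K, hK⟩ := hP r
  obtain ⟨D, hD2, hDC, hDθ⟩ : ∃ D : ℝ, 2 ≤ D ∧ C ≤ D ∧ θ ≤ 1 - D⁻¹ := by
    refine ⟨max 2 (max C (1 - θ)⁻¹), le_max_left _ _,
      (le_max_left _ _).trans (le_max_right _ _), ?_⟩
    have h3 : 0 < 1 - θ := by linarith
    have h2 : (1 - θ)⁻¹ ≤ max 2 (max C (1 - θ)⁻¹) :=
      (le_max_right _ _).trans (le_max_right _ _)
    have h4 : (max 2 (max C (1 - θ)⁻¹))⁻¹ ≤ 1 - θ := by
      have := inv_anti₀ (inv_pos.2 h3) h2
      rwa [inv_inv] at this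
    linarith
  have hD0 : 0 < D := by linarith
  refine ⟨(D ^ K) ^ r + D ^ K * C, by positivity, max N0 (max N 2), fun n hn f g hb => ?_⟩
  have hn0 : N0 ≤ n := (le_max_left _ _).trans hn
  have hnN : N ≤ n := ((le_max_left _ _).trans (le_max_right _ _)).trans hn
  have hn2 : 2 ≤ n := ((le_max_right _ _).trans (le_max_right _ _)).trans hn
  obtain ⟨rho, hcrit, hT, _, _, hz, _⟩ := hZ n hnN f g hb
  have hT' := tails_mono hDC hD0.le hθ hDθ hT
  have h2 := hK D hD2 n f g rho hn2 (ha.trans_le hb.1) hcrit hT'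
  have hZq := hZp n hn0 f g hb
  obtain ⟨Z, hZd⟩ : ∃ Z, Z = Zm n (Real.exp (-f)) g := ⟨_, rfl⟩
  rw [← hZd] at h2 hz hZq ⊢
  have hn1 : (1 : ℝ) ≤ n := by
    have : 1 ≤ n := by omega
    exact_mod_cast this
  have hr : 0 < rho ^ n := pow_pos hcrit.1 n
  -- the error term
  have h3 : 1 / ((n : ℝ) ^ 2 * rho ^ n) ≤ C * Z := by
    rw [div_le_iff₀ (by positivity)]
    have h4 : 1 ≤ C * (sc n * rho ^ n * Z) := by
      have := mul_le_mul_of_nonneg_left hz hC.le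
      rwa [mul_inv_cancel₀ hC.ne'] at this
    have h5 : sc n ≤ (n : ℝ) ^ 2 := by
      unfold sc
      have h6 : Real.sqrt n ≤ n := by
        rw [Real.sqrt_le_left (by linarith)]
        nlinarith
      nlinarith
    calc (1 : ℝ) ≤ C * (sc n * rho ^ n * Z) := h4
      _ ≤ C * ((n : ℝ) ^ 2 * rho ^ n * Z) := by gcongr
      _ = C * Z * ((n : ℝ) ^ 2 * rho ^ n) := by ring
  have h6 := nlog_ge n hn2
  have h7 : (1 : ℝ) ≤ (n * Real.log n) ^ r := one_le_pow₀ h6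
  have h8 : (D ^ K * n * Real.log n) ^ r = (D ^ K) ^ r * (n * Real.log n) ^ r := by
    rw [← mul_pow, mul_assoc]
  rw [h8] at h2
  refine le_trans h2 ?_
  have h9 : D ^ K / ((n : ℝ) ^ 2 * rho ^ n) ≤ D ^ K * C * (n * Real.log n) ^ r * Z := by
    calc D ^ K / ((n : ℝ) ^ 2 * rho ^ n) = D ^ K * (1 / ((n : ℝ) ^ 2 * rho ^ n)) := by
          rw [mul_one_div]
      _ ≤ D ^ K * (C * Z) := by gcongr
      _ = D ^ K * C * 1 * Z := by ring
      _ ≤ _ := by gcongr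
  calc (D ^ K) ^ r * (n * Real.log n) ^ r * Z + D ^ K / ((n : ℝ) ^ 2 * rho ^ n)
      ≤ (D ^ K) ^ r * (n * Real.log n) ^ r * Z +
        D ^ K * C * (n * Real.log n) ^ r * Z := by linarith
    _ = _ := by ring

lemma sum_rm (n : ℕ) (f g : ℝ) (r : ℕ) :
    ∑ q ∈ Omm n, wm n (Real.exp (-f)) g q * rm n q ^ r = Mr n f g r / sc n ^ r := by
  unfold Mr
  rw [Finset.sum_div]
  refine Finset.sum_congr rfl fun q _ => ?_
  unfold rm
  rw [div_pow, mul_div_assoc]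

end MOMMEm

open MOMMEm Finset Pool.Agent.TPT in
open Pool.Agent.FS (sc) in
/-- **MOMME** -/
theorem t_MOMME (hMe : MEANME_Stmt) (hMo : MODME_Stmt) (hP : PDIFM_Stmt) (hZ : ZBME_Stmt)
    (hC : TPK.MOMC_Stmt) (hH : HGM_Stmt) : MOMME_Stmt := by
  intro a b ha hab r
  obtain ⟨C1, hC1, N1, h1⟩ := hMe a b ha hab
  obtain ⟨C3, hC3, N3, h3⟩ := diff_part hZ hP a b ha hab r
  obtain ⟨k, N2, h2⟩ := bound hMo hC a b ha hab r
  obtain ⟨N0, h0⟩ := Zm_pos_of hZ a b ha hab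
  obtain ⟨C, hCd⟩ : ∃ C : ℝ, C = k * C1 ^ r + C1 + C3 := ⟨_, rfl⟩
  have hk0 : (0 : ℝ) ≤ k := Nat.cast_nonneg k
  have hkC : 0 ≤ k * C1 ^ r := by positivity
  have hCpos : 0 < C := by rw [hCd]; positivity
  refine ⟨C, hCpos, max (max N0 N1) (max (max N2 N3) 2), fun n hn f g hb => ?_⟩
  have n0 : N0 ≤ n := ((le_max_left _ _).trans (le_max_left _ _)).trans hn
  have n1 : N1 ≤ n := ((le_max_right _ _).trans (le_max_left _ _)).trans hn
  have n2 : N2 ≤ n :=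
    (((le_max_left _ _).trans (le_max_left _ _)).trans (le_max_right _ _)).trans hn
  have n3 : N3 ≤ n :=
    (((le_max_right _ _).trans (le_max_left _ _)).trans (le_max_right _ _)).trans hn
  have n4 : 2 ≤ n := ((le_max_right _ _).trans (le_max_right _ _)).trans hn
  obtain ⟨a1, a2⟩ := h1 n n1 f g hb
  have a3 := h3 n n3 f g hb
  have a4 := h2 n n2 f g hb
  have hZp := h0 n n0 f g hb
  obtain ⟨Z, hZd⟩ : ∃ Z, Z = Zm n (Real.exp (-f)) g := ⟨_, rfl⟩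
  have e1 : ∑ q ∈ Omm n, wm n (Real.exp (-f)) g q * rm n q = Mr n f g 1 / sc n := by
    have := sum_rm n f g 1
    simpa only [pow_one] using this
  have hn1 : (1 : ℝ) ≤ n := by
    have : 1 ≤ n := by omega
    exact_mod_cast this
  have hsc : 0 < sc n := by
    unfold sc
    positivity
  unfold R at a4
  rw [e1] at a1 a2
  rw [← hZd] at a1 a2 a3 a4 hZp ⊢
  refine ⟨?_, ?_, ?_⟩
  · rw [sum_rm]
    have hM1 : 0 < Mr n f g 1 := by
      have : 0 < Mr n f g 1 / sc n := lt_of_lt_of_le (by positivity) a1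
      have h5 := mul_pos this hsc
      rwa [div_mul_cancel₀ _ hsc.ne'] at h5
    have hq : 0 < Mr n f g 1 / Z := by positivity
    rw [div_le_iff₀ (pow_pos hq r)] at a4
    rw [div_le_iff₀ (pow_pos hsc r)]
    have h5 : Mr n f g r ≤ k * (Mr n f g 1 / Z) ^ r * Z := (div_le_iff₀ hZp).1 a4
    have h6 : Mr n f g 1 / Z ≤ C1 * sc n := by
      rw [div_le_iff₀ hZp]
      have h7 := (div_le_iff₀ hsc).1 a2
      linarith
    have h7 : (Mr n f g 1 / Z) ^ r ≤ (C1 * sc n) ^ r := pow_le_pow_left₀ hq.le h6 r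
    calc Mr n f g r ≤ k * (Mr n f g 1 / Z) ^ r * Z := h5
      _ ≤ k * (C1 * sc n) ^ r * Z := by gcongr
      _ = (k * C1 ^ r) * Z * sc n ^ r := by rw [mul_pow]; ring
      _ ≤ C * Z * sc n ^ r := by
        have h8 : k * C1 ^ r ≤ C := by rw [hCd]; linarith
        gcongr
  · rw [e1]
    have h8 : C1 ≤ C := by rw [hCd]; linarith
    refine le_trans ?_ a1
    have h9 : C⁻¹ ≤ C1⁻¹ := inv_anti₀ hC1 h8
    exact mul_le_mul_of_nonneg_right h9 hZp.le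
  · have h8 : C3 ≤ C := by rw [hCd]; linarith
    have h9 := nlog_ge n n4
    have h10 : (0 : ℝ) ≤ (n * Real.log n) ^ r := by positivity
    refine a3.trans ?_
    exact mul_le_mul_of_nonneg_right (mul_le_mul_of_nonneg_right h8 h10) hZp.le

end Pool.Agent.TPE
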