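import Pool.Agent.TPE.MainPre
import Pool.Agent.TPT.Comb
import Pool.Agent.TPK.Fin

/-!
# Project TPE: the final theorem
-/

set_option autoImplicit false

namespace Pool.Agent.TPE

open Pool.Agent.TPT

/-- The area law of the self-avoiding polygons through two given points, with all moments, for all
second points in the ball except its centre and its four corners. -/
theorem main : FIN_TPE :=
  assemble t_tmg t_kwm t_root t_pdifm TPK.m_QGV TPK.m_QPAR TPK.m_QLT TPK.m_QRAT TPK.m_MOMC
    TPK.m_MOMK TPK.m_QFIN (old_fix t_tmg t_kwm t_root t_pdifm TPK.m_QGV TPK.m_QPAR TPK.m_QLT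
      TPK.m_QRAT TPK.m_MOMC TPK.m_MOMK TPK.m_QFIN)

end Pool.Agent.TPE
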