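import Pool.Agent.TPE.Stmts

/-!
# Module N0E: words without backward step

The weight of the words without backward step does not depend on `s`; for `s' → 0` it is the limit of the
total weight, which is at least `C⁻¹ κ^n / sc n`, `κ = 2 + e^g + e^-g`, uniformly in `s'`. For `s n ≤ M` the total
weight is at most `C' κ^n / sc n`.
-/

set_option autoImplicit false

namespace Pool.Agent.TPE

open Finset Filter Topology MeasureTheory
open Pool.Agent.Lib27 Pool.Agent.SapR Pool.Agent.AreaLaw Pool.Agent.FL Pool.Agent.TPT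
open Pool.Agent.FS (sc rs bp)
open Pool.Agent.NSP (lc ld tz)

namespace N0E

lemma wm_nn (n : ℕ) (s g : ℝ) (hs : 0 ≤ s) (q : QM) : 0 ≤ wm n s g q := by
  unfold wm
  positivity

lemma Zm_nn (n : ℕ) (s g : ℝ) (hs : 0 ≤ s) : 0 ≤ Zm n s g :=
  Finset.sum_nonneg fun q _ => wm_nn n s g hs q

/-- the weight of the words without backward step -/
noncomputable def W0 (n : ℕ) (g : ℝ) : ℝ :=
  ∑ q ∈ (Omm n).filter (fun q => zl q = n), Real.exp (g * zt q)

lemma W0_nn (n : ℕ) (g : ℝ) : 0 ≤ W0 n g := Finset.sum_nonneg fun _ _ => (Real.exp_pos _).le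

/-- the weight of the words without backward step does not depend on `s` -/
lemma sum_eq (n : ℕ) (s g : ℝ) :
    ∑ q ∈ (Omm n).filter (fun q => zl q = n), wm n s g q = W0 n g := by
  unfold W0
  refine sum_congr rfl fun q hq => ?_
  rw [mem_filter] at hq
  unfold wm
  rw [hq.2, Nat.sub_self, pow_zero, one_mul]

/-- the total weight for small `s` -/
lemma Zm_le (hH : HGM_Stmt) (n : ℕ) (s g : ℝ) (hs : 0 ≤ s) (hs1 : s ≤ 1) :
    Zm n s g ≤ W0 n g + s * ∑ q ∈ Omm n, Real.exp (g * zt q) := by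
  unfold Zm W0
  rw [sum_filter, mul_sum, ← sum_add_distrib]
  refine sum_le_sum fun q hq => ?_
  have h1 : zl q ≤ n := (hH.2.2.2 n q hq).1
  have he := Real.exp_pos (g * zt q)
  have h0 : wm n s g q = s ^ (n - zl q) * Real.exp (g * zt q) := rfl
  rw [h0]
  by_cases h : zl q = n
  · rw [if_pos h, h, Nat.sub_self, pow_zero, one_mul]
    have := mul_nonneg hs he.le
    linarith
  · rw [if_neg h, zero_add]
    have h2 : 1 ≤ n - zl q := by omega
    have h3 : s ^ (n - zl q) ≤ s ^ 1 := pow_le_pow_of_le_one hs hs1 h2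
    rw [pow_one] at h3
    exact mul_le_mul_of_nonneg_right h3 he.le

lemma exp_bound (x : ℝ) (hx : 0 ≤ x) (hx1 : x ≤ 1 / 2) : Real.exp (-(2 * x)) ≤ 1 - x := by
  have h1 := Real.add_one_le_exp (2 * x)
  have h2 : Real.exp (-(2 * x)) * Real.exp (2 * x) = 1 := by
    rw [← Real.exp_add]; simp
  have h3 := Real.exp_pos (-(2 * x))
  nlinarith

end N0E

open N0E in
/-- N0E : the words without backward step carry a positive fraction of the weight when `s n` is bounded. -/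
theorem t_N0E (hZ : ZBME_Stmt) (hR : RHOE_Stmt) (hH : HGM_Stmt) : N0E_Stmt := by
  intro a b M ha hab hM
  obtain ⟨C, θ, hC, _, _, N₁, hN₁⟩ := hZ a b ha hab
  obtain ⟨D, c, η, hD, _, _, N₂, hN₂⟩ := hR a b ha hab
  obtain ⟨E, hE⟩ : ∃ E, E = Real.exp (-(2 * (D * M))) := ⟨_, rfl⟩
  have hE0 : 0 < E := by rw [hE]; exact Real.exp_pos _
  refine ⟨(C * (C / E))⁻¹, by positivity, max (max N₁ N₂) (⌈2 * (D * M)⌉₊ + 1), ?_⟩
  intro n hn f g hbox hsn
  have hn1 : N₁ ≤ n := (le_max_left _ _).trans ((le_max_left _ _).trans hn)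
  have hn2 : N₂ ≤ n := (le_max_right _ _).trans ((le_max_left _ _).trans hn)
  have hn3 : ⌈2 * (D * M)⌉₊ + 1 ≤ n := (le_max_right _ _).trans hn
  have hn4 : 2 * (D * M) ≤ n := by
    refine (Nat.le_ceil _).trans ?_
    exact_mod_cast (Nat.le_succ _).trans hn3
  have hn0 : (0 : ℝ) < n := by
    have : 0 < n := by omega
    exact_mod_cast this
  have hsc : 0 < sc n := by
    unfold sc
    positivity
  obtain ⟨κ, hκ⟩ : ∃ κ, κ = 2 + Real.exp g + Real.exp (-g) := ⟨_, rfl⟩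
  have hκ0 : 0 < κ := by
    rw [hκ]
    positivity
  obtain ⟨s, hs⟩ : ∃ s, s = Real.exp (-f) := ⟨_, rfl⟩
  have hs0 : 0 < s := by rw [hs]; exact Real.exp_pos _
  rw [sum_eq, ← hs]
  rw [← hs] at hsn
  obtain ⟨rho, hcr, _, _, _, _, h7⟩ := hN₁ n hn1 f g hbox
  obtain ⟨⟨h8, _⟩, _⟩ := hN₂ n hn2 f g rho hbox hcr
  rw [← hκ, ← hs] at h8
  rw [← hs] at h7
  have hZnn := Zm_nn n s g hs0.le
  -- lower bound of the power
  obtain ⟨x, hx⟩ : ∃ x, x = D * s := ⟨_, rfl⟩
  have hx0 : 0 ≤ x := by rw [hx]; positivity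
  have hxn : x * n ≤ D * M := by
    rw [hx, mul_assoc]
    exact mul_le_mul_of_nonneg_left hsn hD.le
  have hx1 : x ≤ 1 / 2 := by
    by_contra hcon
    rw [not_le] at hcon
    nlinarith
  have hpow : κ⁻¹ ^ n * E ≤ rho ^ n := by
    have h10 : κ⁻¹ * (1 - x) ≤ rho := by
      rw [inv_mul_le_iff₀ hκ0, hx]
      linarith
    have h11 : 0 ≤ κ⁻¹ * (1 - x) := mul_nonneg (inv_pos.2 hκ0).le (by linarith)
    refine le_trans ?_ (pow_le_pow_left₀ h11 h10 n)
    rw [mul_pow]
    refine mul_le_mul_of_nonneg_left ?_ (by positivity)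
    calc E ≤ Real.exp (n * (-(2 * x))) := by
          rw [hE]
          exact Real.exp_le_exp.2 (by linarith)
      _ = Real.exp (-(2 * x)) ^ n := Real.exp_nat_mul _ _
      _ ≤ (1 - x) ^ n := pow_le_pow_left₀ (Real.exp_pos _).le (exp_bound x hx0 hx1) n
  obtain ⟨A, hA⟩ : ∃ A, A = sc n * κ⁻¹ ^ n := ⟨_, rfl⟩
  have hA0 : 0 < A := by rw [hA]; positivity
  have hup : A * Zm n s g ≤ C / E := by
    rw [le_div_iff₀ hE0]
    refine le_trans ?_ h7
    rw [hA]
    calc sc n * κ⁻¹ ^ n * Zm n s g * E = sc n * (κ⁻¹ ^ n * E) * Zm n s g := by ring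
      _ ≤ sc n * rho ^ n * Zm n s g :=
        mul_le_mul_of_nonneg_right (mul_le_mul_of_nonneg_left hpow hsc.le) hZnn
  have hlow : C⁻¹ ≤ A * W0 n g := by
    have hT : Tendsto (fun s' : ℝ => A * (W0 n g + s' * ∑ q ∈ Omm n, Real.exp (g * zt q)))
        (𝓝[>] 0) (𝓝 (A * W0 n g)) := by
      have hc : Continuous
          (fun s' : ℝ => A * (W0 n g + s' * ∑ q ∈ Omm n, Real.exp (g * zt q))) := by fun_prop
      have h10 := hc.tendsto 0
      simp only [zero_mul, add_zero] at h10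
      exact h10.mono_left nhdsWithin_le_nhds
    refine ge_of_tendsto hT ?_
    filter_upwards [Ioc_mem_nhdsGT (Real.exp_pos (-a))] with s' hs'
    have hs1 : s' ≤ 1 := hs'.2.trans (Real.exp_le_one_iff.2 (by linarith))
    have hf' : Real.exp (-(-Real.log s')) = s' := by rw [neg_neg, Real.exp_log hs'.1]
    have hbox' : BoxE a b (-Real.log s') g := by
      refine ⟨?_, hbox.2⟩
      have h11 := (Real.log_le_iff_le_exp hs'.1).2 hs'.2
      linarith
    obtain ⟨rho', hcr', _, _, _, h13, _⟩ := hN₁ n hn1 (-Real.log s') g hbox'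
    obtain ⟨⟨_, h12⟩, _⟩ := hN₂ n hn2 (-Real.log s') g rho' hbox' hcr'
    rw [← hκ] at h12
    rw [hf'] at h13
    have h14 := Zm_le hH n s' g hs'.1.le hs1
    have h16 : rho' ≤ κ⁻¹ := by
      rw [← one_div, le_div_iff₀ hκ0]
      exact h12
    have h15 : rho' ^ n ≤ κ⁻¹ ^ n := pow_le_pow_left₀ hcr'.1.le h16 n
    calc C⁻¹ ≤ sc n * rho' ^ n * Zm n s' g := h13
      _ ≤ A * Zm n s' g := by
          rw [hA]
          exact mul_le_mul_of_nonneg_right (mul_le_mul_of_nonneg_left h15 hsc.le)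
            (Zm_nn n s' g hs'.1.le)
      _ ≤ _ := mul_le_mul_of_nonneg_left h14 hA0.le
  have h16 : 1 ≤ C * (A * W0 n g) := by
    have := mul_le_mul_of_nonneg_left hlow hC.le
    rwa [mul_inv_cancel₀ hC.ne'] at this
  have h17 : 0 ≤ C * W0 n g := mul_nonneg hC.le (W0_nn n g)
  rw [inv_mul_le_iff₀ (by positivity)]
  calc Zm n s g = Zm n s g * 1 := (mul_one _).symm
    _ ≤ Zm n s g * (C * (A * W0 n g)) := mul_le_mul_of_nonneg_left h16 hZnn
    _ = (C * W0 n g) * (A * Zm n s g) := by ring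
    _ ≤ (C * W0 n g) * (C / E) := mul_le_mul_of_nonneg_left hup h17
    _ = C * (C / E) * W0 n g := by ring

end Pool.Agent.TPE
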