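import Pool.Agent.TPE.Stmts
import Pool.Agent.NSP.NSF

/-!
# Project TPE, module NEARE: sequences of points with level asymptotic to `n`
-/

set_option autoImplicit false

namespace Pool.Agent.TPE

open Finset Filter Topology MeasureTheory
open Pool.Agent.Lib27 Pool.Agent.SapR Pool.Agent.AreaLaw Pool.Agent.FL Pool.Agent.TPT
open Pool.Agent.FS (sc rs bp)
open Pool.Agent.KCS (airyMoment)
open Pool.Agent.KCC (areaMoment)

namespace NEARE

/-- the point of level `h` and lateral coordinate `h % 2` -/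
def fp (h : ℕ) : ℤ × ℤ := (((h : ℤ) + h % 2) / 2, ((h : ℤ) - h % 2) / 2)

theorem lev_fp (h : ℕ) : lev (fp h) = h := by
  simp only [lev, fp]
  omega

theorem lat_fp (h : ℕ) : lat (fp h) = (h : ℤ) % 2 := by
  simp only [lat, fp]
  omega

theorem abs_lat_fp (h : ℕ) : |lat (fp h)| ≤ 1 := by
  rw [lat_fp, abs_le]
  omega

theorem even_pt (z : ℤ × ℤ) : Even (lev z + lat z) := by
  refine ⟨z.1, ?_⟩
  simp only [lev, lat]
  ring

theorem Zm_nonneg (n : ℕ) (f g : ℝ) : 0 ≤ Zm n (Real.exp (-f)) g := by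
  unfold Zm wm
  exact Finset.sum_nonneg fun q _ => by positivity

/-- a function of the points converges along all regular sequences -/
def Con (Φ : ℕ → ℤ × ℤ → ℝ) (L : ℝ) : Prop :=
  ∀ (b : ℝ) (f g : ℕ → ℝ) (h : ℕ → ℕ) (t : ℕ → ℤ), RegE b f g h t →
    ∀ z : ℕ → ℤ × ℤ, (∀ᶠ n in atTop, lev (z n) = h n ∧ lat (z n) = t n) →
      Tendsto (fun n => Φ n (z n)) atTop (𝓝 L)

/-- points with level `n - δ` -/
theorem caseA (hC1 : CHOE1_Stmt) (hE2 : EQE2_Stmt) {Φ : ℕ → ℤ × ℤ → ℝ} {L : ℝ}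
    (hΦ : Con Φ L) {e : ℝ} (he : 0 < e) (δ : ℕ) (z : ℕ → ℤ × ℤ)
    (hlev : ∀ n, lev (z n) = ((n - δ : ℕ) : ℤ))
    (hlat : ∀ᶠ n : ℕ in atTop, ((|lat (z n)| : ℤ) : ℝ) ≤ (1 - e) * n) :
    Tendsto (fun n => Φ n (z n)) atTop (𝓝 L) := by
  classical
  obtain ⟨b, hb, N, hN⟩ := hC1 e he
  have hex : ∀ n : ℕ, ∃ g : ℝ, |g| ≤ b ∧ (N ≤ n → ((|lat (z n)| : ℤ) : ℝ) ≤ (1 - e) * n →
      ∑ q ∈ Omm n, wm n (Real.exp (-(max b (Real.log n)))) g q * ((zt q : ℝ) - lat (z n)) =
        0) := by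
    intro n
    by_cases hg : N ≤ n ∧ ((|lat (z n)| : ℤ) : ℝ) ≤ (1 - e) * n
    · obtain ⟨⟨g, h1⟩, h2⟩ := hN n hg.1 (max b (Real.log n)) (lat (z n))
        (le_max_of_le_left (by linarith)) hg.2
      exact ⟨g, h2 g h1, fun _ _ => h1⟩
    · refine ⟨0, ?_, fun h1 h2 => absurd ⟨h1, h2⟩ hg⟩
      rw [abs_zero]
      linarith
  choose g hg1 hg2 using hex
  have hreg : RegE b (fun n : ℕ => max b (Real.log n)) g (fun n => n - δ) (fun n => lat (z n)) := by
    refine hE2 b hb g δ _ hg1 ?_ ?_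
    · filter_upwards [hlat, eventually_ge_atTop N] with n h1 h2
      rw [hg2 n h2 h1, abs_zero]
      exact Zm_nonneg _ _ _
    · intro n
      rw [← hlev n]
      exact even_pt _
  exact hΦ _ _ _ _ _ hreg z (Eventually.of_forall fun n => ⟨hlev n, rfl⟩)

/-- points with `n - lev → ∞` and `lev / n → 1` -/
theorem caseB (hC2 : CHOE2_Stmt) (hE1 : EQE1_Stmt) {Φ : ℕ → ℤ × ℤ → ℝ} {L : ℝ}
    (hΦ : Con Φ L) {e : ℝ} (he : 0 < e) (z : ℕ → ℤ × ℤ) (h : ℕ → ℕ)
    (hlev : ∀ n, lev (z n) = (h n : ℤ)) (hle : ∀ n, h n ≤ n)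
    (htop : Tendsto (fun n : ℕ => n - h n) atTop atTop)
    (hlim : Tendsto (fun n : ℕ => (h n : ℝ) / n) atTop (𝓝 1))
    (hlat : ∀ᶠ n : ℕ in atTop, ((|lat (z n)| : ℤ) : ℝ) ≤ (1 - e) * n) :
    Tendsto (fun n => Φ n (z n)) atTop (𝓝 L) := by
  classical
  obtain ⟨b, C, η, hb, hC, hη, N, hN⟩ := hC2 e he
  set P : ℕ → ℝ × ℝ → Prop := fun n F => BoxE b b F.1 F.2 ∧ CenM n F.1 F.2 (h n) (lat (z n)) ∧
    (n : ℝ) - h n ≤ C * (Real.exp (-F.1) * n + 1) ∧ Real.exp (-F.1) * n ≤ C * ((n : ℝ) - h n)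
    with hP
  have hPev : ∀ᶠ n in atTop, ∃ F, P n F := by
    have h1 : ∀ᶠ n : ℕ in atTop, 1 - η < (h n : ℝ) / n :=
      hlim.eventually (lt_mem_nhds (by linarith))
    filter_upwards [h1, htop.eventually_ge_atTop 1, eventually_ge_atTop N,
      eventually_gt_atTop 0, hlat] with n h1 h2 h3 h4 h5
    have hn' : (0 : ℝ) < n := by exact_mod_cast h4
    obtain ⟨f, g, a1, a2, a3, a4⟩ := hN n h3 (h n) (lat (z n)) (by have := hle n; omega) (by
      rw [lt_div_iff₀ hn'] at h1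
      nlinarith) h5
    exact ⟨(f, g), a1, a2, a3, a4⟩
  have hex : ∀ n : ℕ, ∃ F : ℝ × ℝ, BoxE b b F.1 F.2 ∧ ((∃ F, P n F) → P n F) := by
    intro n
    by_cases hg : ∃ F, P n F
    · obtain ⟨F, hF⟩ := hg
      exact ⟨F, hF.1, fun _ => hF⟩
    · refine ⟨(b, 0), ⟨le_rfl, ?_⟩, fun h1 => absurd h1 hg⟩
      rw [abs_zero]
      linarith
  choose F hF1 hF2 using hex
  have hsmall : Tendsto (fun n : ℕ => Real.exp (-(F n).1)) atTop (𝓝 0) := by
    have h1 : Tendsto (fun n : ℕ => C * (1 - (h n : ℝ) / n)) atTop (𝓝 0) := by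
      have := (tendsto_const_nhds (x := (1 : ℝ))).sub hlim
      rw [sub_self] at this
      simpa using this.const_mul C
    refine tendsto_of_tendsto_of_tendsto_of_le_of_le' tendsto_const_nhds h1
      (Eventually.of_forall fun n => (Real.exp_pos _).le) ?_
    filter_upwards [hPev, eventually_gt_atTop 0] with n hn h4
    have hn' : (0 : ℝ) < n := by exact_mod_cast h4
    have h2 := (hF2 n hn).2.2.2
    rw [← le_div_iff₀ hn'] at h2
    refine h2.trans (le_of_eq ?_)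
    field_simp
  have hf : Tendsto (fun n : ℕ => (F n).1) atTop atTop := by
    rw [tendsto_atTop]
    intro B
    have h1 := hsmall.eventually (gt_mem_nhds (Real.exp_pos (-B)))
    filter_upwards [h1] with n hn
    have := Real.exp_lt_exp.1 hn
    linarith
  have hinf : Tendsto (fun n : ℕ => Real.exp (-(F n).1) * n) atTop atTop := by
    have h1 : Tendsto (fun n : ℕ => C⁻¹ * ((n : ℝ) - h n) - 1) atTop atTop := by
      refine Filter.Tendsto.atTop_add (Tendsto.const_mul_atTop (inv_pos.2 hC) ?_)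
        (tendsto_const_nhds (x := (-1 : ℝ)))
      have h2 : Tendsto (fun n : ℕ => ((n - h n : ℕ) : ℝ)) atTop atTop :=
        tendsto_natCast_atTop_atTop.comp htop
      refine h2.congr fun n => ?_
      rw [Nat.cast_sub (hle n)]
    refine tendsto_atTop_mono' atTop ?_ h1
    filter_upwards [hPev] with n hn
    have h2 := (hF2 n hn).2.2.1
    have h3 : C⁻¹ * ((n : ℝ) - h n) ≤ Real.exp (-(F n).1) * n + 1 := by
      rw [inv_mul_le_iff₀ hC]
      exact h2
    linarith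
  have hreg : RegE b (fun n => (F n).1) (fun n => (F n).2) h (fun n => lat (z n)) := by
    refine hE1 b hb _ _ h _ hF1 hf hinf (hPev.mono fun n hn => (hF2 n hn).2.1) ?_
    intro n
    rw [← hlev n]
    exact even_pt _
  exact hΦ _ _ _ _ _ hreg z (Eventually.of_forall fun n => ⟨hlev n, rfl⟩)

/-- the subsequence argument -/
theorem gen (hC1 : CHOE1_Stmt) (hC2 : CHOE2_Stmt) (hE1 : EQE1_Stmt) (hE2 : EQE2_Stmt)
    {Φ : ℕ → ℤ × ℤ → ℝ} {L : ℝ} (hΦ : Con Φ L) {e : ℝ} (he : 0 < e) (z : ℕ → ℤ × ℤ)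
    (hz : ∀ᶠ n : ℕ in atTop, 0 ≤ lev (z n) ∧ lev (z n) ≤ n ∧
      ((|lat (z n)| : ℤ) : ℝ) ≤ (1 - e) * n)
    (hlim : Tendsto (fun n : ℕ => (lev (z n) : ℝ) / n) atTop (𝓝 1)) :
    Tendsto (fun n => Φ n (z n)) atTop (𝓝 L) := by
  classical
  rw [Metric.tendsto_nhds]
  intro ε hε
  by_contra hcon
  set G : ℕ → Prop := fun n => 0 ≤ lev (z n) ∧ lev (z n) ≤ n ∧
    ((|lat (z n)| : ℤ) : ℝ) ≤ (1 - e) * n with hG
  set Bad : ℕ → Prop := fun n => G n ∧ ε ≤ dist (Φ n (z n)) L with hBad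
  have hfr : ∃ᶠ n in atTop, Bad n := by
    have h1 : ∃ᶠ n in atTop, ¬ dist (Φ n (z n)) L < ε := Filter.not_eventually.1 hcon
    exact (h1.and_eventually hz).mono fun n hn => ⟨hn.2, not_lt.1 hn.1⟩
  set e' : ℝ := min e (1 / 2) with he'
  have he'0 : 0 < e' := lt_min he (by norm_num)
  have hlatG : ∀ n, G n → ((|lat (z n)| : ℤ) : ℝ) ≤ (1 - e') * n := by
    intro n hn
    refine hn.2.2.trans (mul_le_mul_of_nonneg_right ?_ (Nat.cast_nonneg n))
    have := min_le_left e (1 / 2)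
    linarith
  have hlatF : ∀ n : ℕ, 2 ≤ n → ∀ k : ℕ, ((|lat (fp k)| : ℤ) : ℝ) ≤ (1 - e') * n := by
    intro n hn k
    have h1 : ((|lat (fp k)| : ℤ) : ℝ) ≤ 1 := by exact_mod_cast abs_lat_fp k
    have h2 : (2 : ℝ) ≤ n := by exact_mod_cast hn
    have h3 := min_le_right e (1 / 2 : ℝ)
    nlinarith
  -- levels
  set h : ℕ → ℕ := fun n => (lev (z n)).toNat with hh
  have hhG : ∀ n, G n → ((h n : ℕ) : ℤ) = lev (z n) := fun n hn => Int.toNat_of_nonneg hn.1
  have hhle : ∀ n, G n → h n ≤ n := by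
    intro n hn
    have h1 := hhG n hn
    have h2 := hn.2.1
    omega
  -- bounded differences are impossible
  have hA : ∀ δ : ℕ, ∀ᶠ n in atTop, ¬ (Bad n ∧ n - h n = δ) := by
    intro δ
    set z' : ℕ → ℤ × ℤ := fun n => if Bad n ∧ n - h n = δ then z n else fp (n - δ) with hz'
    have hlev' : ∀ n, lev (z' n) = ((n - δ : ℕ) : ℤ) := by
      intro n
      by_cases hb : Bad n ∧ n - h n = δ
      · simp only [hz', if_pos hb]
        have h1 := hhG n hb.1.1
        have h2 := hhle n hb.1.1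
        have h3 := hb.2
        rw [← h1]
        congr 1
        omega
      · simp only [hz', if_neg hb]
        exact lev_fp _
    have hlat' : ∀ᶠ n : ℕ in atTop, ((|lat (z' n)| : ℤ) : ℝ) ≤ (1 - e') * n := by
      filter_upwards [eventually_ge_atTop 2] with n hn
      by_cases hb : Bad n ∧ n - h n = δ
      · simp only [hz', if_pos hb]
        exact hlatG n hb.1.1
      · simp only [hz', if_neg hb]
        exact hlatF n hn _
    have h1 := (Metric.tendsto_nhds.1 (caseA hC1 hE2 hΦ he'0 δ z' hlev' hlat')) ε hε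
    filter_upwards [h1] with n hn hb
    simp only [hz', if_pos hb] at hn
    exact absurd hn (not_lt.2 hb.1.2)
  have hlarge : ∀ B : ℕ, ∀ᶠ n in atTop, Bad n → B ≤ n - h n := by
    intro B
    have h1 : ∀ᶠ n in atTop, ∀ δ ∈ Finset.range B, ¬ (Bad n ∧ n - h n = δ) := by
      rw [Filter.eventually_all_finset]
      intro δ _
      exact hA δ
    filter_upwards [h1] with n hn hbad
    by_contra hlt
    exact hn (n - h n) (Finset.mem_range.2 (by omega)) ⟨hbad, rfl⟩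
  -- the modified sequence
  set h' : ℕ → ℕ := fun n => if Bad n then h n else n - Nat.sqrt n with hh'
  set z' : ℕ → ℤ × ℤ := fun n => if Bad n then z n else fp (n - Nat.sqrt n) with hz'
  have hlev' : ∀ n, lev (z' n) = (h' n : ℤ) := by
    intro n
    by_cases hb : Bad n
    · simp only [hz', hh', if_pos hb]
      exact (hhG n hb.1).symm
    · simp only [hz', hh', if_neg hb]
      exact lev_fp _
  have hle' : ∀ n, h' n ≤ n := by
    intro n
    by_cases hb : Bad n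
    · simp only [hh', if_pos hb]
      exact hhle n hb.1
    · simp only [hh', if_neg hb]
      exact Nat.sub_le _ _
  have htop : Tendsto (fun n : ℕ => n - h' n) atTop atTop := by
    rw [tendsto_atTop]
    intro B
    filter_upwards [hlarge B, eventually_ge_atTop (B * B)] with n h1 h2
    by_cases hb : Bad n
    · simp only [hh', if_pos hb]
      exact h1 hb
    · simp only [hh', if_neg hb]
      have h3 : Nat.sqrt n ≤ n := Nat.sqrt_le_self n
      have h4 : B ≤ Nat.sqrt n := Nat.le_sqrt.2 h2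
      omega
  have hlimh : Tendsto (fun n : ℕ => (h n : ℝ) / n) atTop (𝓝 1) := by
    refine hlim.congr' ?_
    filter_upwards [hz] with n hn
    have h1 := hhG n hn
    rw [← h1]
    push_cast
    rfl
  have hlim' : Tendsto (fun n : ℕ => (h' n : ℝ) / n) atTop (𝓝 1) := by
    have h1 := Filter.Tendsto.if' (p := Bad) hlimh Pool.Agent.NSP.NSF.sqrt_ratio
    refine h1.congr fun n => ?_
    by_cases hb : Bad n
    · simp only [hh', if_pos hb]
    · simp only [hh', if_neg hb]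
  have hlat' : ∀ᶠ n : ℕ in atTop, ((|lat (z' n)| : ℤ) : ℝ) ≤ (1 - e') * n := by
    filter_upwards [eventually_ge_atTop 2] with n hn
    by_cases hb : Bad n
    · simp only [hz', if_pos hb]
      exact hlatG n hb.1
    · simp only [hz', if_neg hb]
      exact hlatF n hn _
  have hfin := (Metric.tendsto_nhds.1
    (caseB hC2 hE1 hΦ he'0 z' h' hlev' hle' htop hlim' hlat')) ε hε
  obtain ⟨n, hn1, hn2⟩ := (hfr.and_eventually hfin).exists
  have hb : Bad n := hn1
  simp only [hz', if_pos hb] at hn2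
  exact absurd hn2 (not_lt.2 hb.2)

end NEARE

theorem t_NEARE (hC1 : CHOE1_Stmt) (hC2 : CHOE2_Stmt) (hE1 : EQE1_Stmt) (hE2 : EQE2_Stmt)
    (hR : REGFE_Stmt) : NEARE_Stmt := by
  intro μ hμ e he z hz hlim
  refine ⟨fun x hx => ?_, fun r => ?_⟩
  · exact NEARE.gen hC1 hC2 hE1 hE2 (Φ := fun n p => areaCdf n (Thr n p) x)
      (fun b f g h t hreg z' hz' => (hR μ hμ b f g h t hreg z' hz').1 x hx) he z hz hlim
  · exact NEARE.gen hC1 hC2 hE1 hE2 (Φ := fun n p => areaMoment n (Thr n p) r)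
      (fun b f g h t hreg z' hz' => (hR μ hμ b f g h t hreg z' hz').2 r) he z hz hlim

end Pool.Agent.TPE
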