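import Pool.Agent.TPE.Stmts

/-! Module ONEM (project TPE): one dimensional equation. -/

namespace Pool.Agent.TPE

theorem onem_aux (ι : Type) (I : Finset ι) (w y : ι → ℝ) (hw : ∀ i ∈ I, 0 < w i)
    (hy : ∃ i ∈ I, 0 < y i) : ∃ g : ℝ, 0 ≤ ∑ i ∈ I, w i * Real.exp (g * y i) * y i := by
  classical
  obtain ⟨i0, hi0, hp⟩ := hy
  have hw0 := hw i0 hi0
  have hCp : 0 ≤ ∑ i ∈ I, w i * |y i| :=
    Finset.sum_nonneg fun i hi => mul_nonneg (hw i hi).le (abs_nonneg _)
  set C := ∑ i ∈ I, w i * |y i| with hC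
  have hden : 0 < w i0 * y i0 ^ 2 := by positivity
  refine ⟨C / (w i0 * y i0 ^ 2), ?_⟩
  set g := C / (w i0 * y i0 ^ 2) with hg
  have hg0 : 0 ≤ g := div_nonneg hCp hden.le
  have hterm : ∀ i ∈ I, -(w i * |y i|) ≤ w i * Real.exp (g * y i) * y i := by
    intro i hi
    rcases le_or_gt 0 (y i) with h | h
    · have h1 : 0 ≤ w i * Real.exp (g * y i) * y i := by
        have := (hw i hi).le
        positivity
      have h2 : 0 ≤ w i * |y i| := mul_nonneg (hw i hi).le (abs_nonneg _)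
      linarith
    · have he : Real.exp (g * y i) ≤ 1 := by
        rw [Real.exp_le_one_iff]
        exact mul_nonpos_of_nonneg_of_nonpos hg0 h.le
      have h3 : w i * y i * 1 ≤ w i * y i * Real.exp (g * y i) :=
        mul_le_mul_of_nonpos_left he (mul_nonpos_of_nonneg_of_nonpos (hw i hi).le h.le)
      rw [abs_of_neg h]
      nlinarith [h3]
  rw [← Finset.add_sum_erase I _ hi0]
  have hrest : -C ≤ ∑ i ∈ I.erase i0, w i * Real.exp (g * y i) * y i := by
    have h4 : ∑ i ∈ I.erase i0, -(w i * |y i|) ≤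
        ∑ i ∈ I.erase i0, w i * Real.exp (g * y i) * y i :=
      Finset.sum_le_sum fun i hi => hterm i (Finset.mem_of_mem_erase hi)
    have h5 : ∑ i ∈ I.erase i0, w i * |y i| ≤ C := by
      rw [hC]
      exact Finset.sum_le_sum_of_subset_of_nonneg (Finset.erase_subset _ _)
        fun i hi _ => mul_nonneg (hw i hi).le (abs_nonneg _)
    rw [Finset.sum_neg_distrib] at h4
    linarith
  have hmain : C ≤ w i0 * Real.exp (g * y i0) * y i0 := by
    have h6 : g * y i0 ≤ Real.exp (g * y i0) := by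
      have := Real.add_one_le_exp (g * y i0)
      linarith
    have h7 : w i0 * (g * y i0) * y i0 = C := by
      rw [hg]
      field_simp
    calc C = w i0 * (g * y i0) * y i0 := h7.symm
      _ ≤ w i0 * Real.exp (g * y i0) * y i0 := by
        exact mul_le_mul_of_nonneg_right (mul_le_mul_of_nonneg_left h6 hw0.le) hp.le
  linarith

theorem t_ONEM : ONEM_Stmt := by
  intro ι I w y hw hp hn
  obtain ⟨a, ha⟩ := onem_aux ι I w y hw hp
  obtain ⟨b, hb⟩ := onem_aux ι I w (fun i => -y i) hw (by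
    obtain ⟨i, hi, h⟩ := hn
    exact ⟨i, hi, by linarith⟩)
  have hcont : Continuous fun g : ℝ => ∑ i ∈ I, w i * Real.exp (g * y i) * y i := by fun_prop
  have hb' : ∑ i ∈ I, w i * Real.exp (-b * y i) * y i ≤ 0 := by
    have h : ∑ i ∈ I, w i * Real.exp (b * -y i) * -y i =
        -∑ i ∈ I, w i * Real.exp (-b * y i) * y i := by
      rw [← Finset.sum_neg_distrib]
      refine Finset.sum_congr rfl fun i _ => ?_
      rw [show b * -y i = -b * y i by ring]
      ring
    have hb2 : 0 ≤ ∑ i ∈ I, w i * Real.exp (b * -y i) * -y i := hb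
    rw [h] at hb2
    linarith
  obtain ⟨g, hg⟩ := mem_range_of_exists_le_of_exists_ge hcont ⟨-b, hb'⟩ ⟨a, ha⟩
  exact ⟨g, hg⟩

end Pool.Agent.TPE
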