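import Pool.Agent.TPE.Stmts
import Pool.Agent.TPT.PARM
import Pool.Agent.NSP.TAZ

/-!
# TPE_PARE : the parameters of the kernels for large force
-/

set_option autoImplicit false

namespace Pool.Agent.TPE

open Finset Filter Topology MeasureTheory
open Pool.Agent.Lib27 Pool.Agent.SapR Pool.Agent.AreaLaw Pool.Agent.FL Pool.Agent.TPT

namespace PAREaux

open Pool.Agent.TPT.PARMaux

/-- the pieces of half length one -/
lemma sum_one (n : ℕ) (s g rho : ℝ) (y : Wd × Wd → ℝ) :
    ∑ p ∈ (Pc (2 * n - 1)).filter (fun p => hl p = 1), wp s g rho p * y p =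
      rho * Real.exp (g * kap ([0], [2])) * y ([0], [2]) +
      rho * Real.exp (g * kap ([1], [3])) * y ([1], [3]) +
      rho * Real.exp (g * kap ([0], [3])) * y ([0], [3]) +
      rho * Real.exp (g * kap ([1], [2])) * y ([1], [2]) := by
  rw [Pool.Agent.NSP.TAZ.four]
  have e1 : htn (([0], [2]) : Wd × Wd) = 1 := by decide
  have e2 : htn (([1], [3]) : Wd × Wd) = 1 := by decide
  have e3 : htn (([0], [3]) : Wd × Wd) = 1 := by decide
  have e4 : htn (([1], [2]) : Wd × Wd) = 1 := by decide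
  have f1 : hl (([0], [2]) : Wd × Wd) = 1 := rfl
  have f2 : hl (([1], [3]) : Wd × Wd) = 1 := rfl
  have f3 : hl (([0], [3]) : Wd × Wd) = 1 := rfl
  have f4 : hl (([1], [2]) : Wd × Wd) = 1 := rfl
  rw [sum_insert (by decide), sum_insert (by decide), sum_insert (by decide), sum_singleton]
  unfold wp
  rw [e1, e2, e3, e4, f1, f2, f3, f4]
  simp only [Nat.sub_self, pow_zero, pow_one, mul_one]
  ring

lemma j1 : jump (([0], [2]) : Wd × Wd) = 0 := by decide
lemma j2 : jump (([1], [3]) : Wd × Wd) = 0 := by decide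
lemma j3 : jump (([0], [3]) : Wd × Wd) ^ 2 = 1 := by decide
lemma j4 : jump (([1], [2]) : Wd × Wd) ^ 2 = 1 := by decide

lemma k12 : (kap (([0], [2]) : Wd × Wd) = 1 ∧ kap (([1], [3]) : Wd × Wd) = -1) ∨
    (kap (([0], [2]) : Wd × Wd) = -1 ∧ kap (([1], [3]) : Wd × Wd) = 1) := by decide
lemma k3 : kap (([0], [3]) : Wd × Wd) = 0 := by decide
lemma k4 : kap (([1], [2]) : Wd × Wd) = 0 := by decide

lemma sum_one_total (n : ℕ) (s g rho : ℝ) :
    ∑ p ∈ (Pc (2 * n - 1)).filter (fun p => hl p = 1), wp s g rho p =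
      rho * (2 + Real.exp g + Real.exp (-g)) := by
  have h := sum_one n s g rho (fun _ => 1)
  simp only [mul_one] at h
  rw [h, k3, k4]
  rcases k12 with ⟨h1, h2⟩ | ⟨h1, h2⟩
  · rw [h1, h2]
    simp only [Int.cast_one, Int.cast_neg, Int.cast_zero, mul_one, mul_zero, Real.exp_zero, mul_neg]
    ring
  · rw [h1, h2]
    simp only [Int.cast_one, Int.cast_neg, Int.cast_zero, mul_one, mul_zero, Real.exp_zero, mul_neg]
    ring

lemma sum_one_jump (n : ℕ) (s g rho : ℝ) :
    ∑ p ∈ (Pc (2 * n - 1)).filter (fun p => hl p = 1), wp s g rho p * (jump p : ℝ) ^ 2 =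
      2 * rho := by
  have h := sum_one n s g rho (fun p => (jump p : ℝ) ^ 2)
  rw [h, k3, k4, j1, j2]
  have h3 : ((jump (([0], [3]) : Wd × Wd) : ℤ) : ℝ) ^ 2 = 1 := by
    have := j3
    exact_mod_cast this
  have h4 : ((jump (([1], [2]) : Wd × Wd) : ℤ) : ℝ) ^ 2 = 1 := by
    have := j4
    exact_mod_cast this
  rw [h3, h4]
  simp only [Int.cast_zero, mul_zero, Real.exp_zero, mul_one]
  ring

/-- the other pieces -/
lemma rest_le {C θ : ℝ} (hC : 0 < C) (hθ : 0 < θ) (hθ1 : θ < 1) :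
    ∃ K : ℝ, 0 < K ∧ ∀ (n : ℕ) (s g rho : ℝ), 0 < s → 0 < rho →
      (∀ m : ℕ, 2 ≤ m → ∑ p ∈ (Pc (2 * n - 1)).filter (fun p => hl p = m), wp s g rho p ≤
        C * s * θ ^ m) →
      ∑ p ∈ (Pc (2 * n - 1)).filter (fun p => ¬ hl p = 1),
        wp s g rho p * (5 * (hl p : ℝ) ^ 2) ≤ K * s := by
  have hsum : Summable (fun m : ℕ => (m : ℝ) ^ 2 * θ ^ m) :=
    summable_pow_mul_geometric_of_norm_lt_one 2 (by
      rw [Real.norm_eq_abs, abs_of_pos hθ]
      exact hθ1)
  set K : ℝ := ∑' m : ℕ, (m : ℝ) ^ 2 * θ ^ m with hK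
  have hK0 : 0 ≤ K := tsum_nonneg fun m => by positivity
  refine ⟨5 * C * K + 1, by positivity, ?_⟩
  intro n s g rho hs hr hT
  have hmaps : ∀ p ∈ (Pc (2 * n - 1)).filter (fun p => ¬ hl p = 1), hl p ∈ range (2 * n + 2) := by
    intro p hp
    have := (KW.len_hl (mem_filter.1 hp).1).2.2
    rw [mem_range]
    omega
  rw [← sum_fiberwise_of_maps_to hmaps]
  have h5 : ∀ m ∈ range (2 * n + 2),
      ∑ p ∈ ((Pc (2 * n - 1)).filter (fun p => ¬ hl p = 1)).filter (fun p => hl p = m),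
        wp s g rho p * (5 * (hl p : ℝ) ^ 2) ≤ 5 * C * s * ((m : ℝ) ^ 2 * θ ^ m) := by
    intro m _
    rcases Nat.lt_or_ge m 2 with hm | hm
    · have he : ((Pc (2 * n - 1)).filter (fun p => ¬ hl p = 1)).filter (fun p => hl p = m) = ∅ := by
        rw [filter_eq_empty_iff]
        intro p hp h
        rw [mem_filter] at hp
        have h1 := (KW.len_hl hp.1).2.1
        have h2 := hp.2
        omega
      rw [he, sum_empty]
      positivity
    · have he : ((Pc (2 * n - 1)).filter (fun p => ¬ hl p = 1)).filter (fun p => hl p = m) =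
          (Pc (2 * n - 1)).filter (fun p => hl p = m) := by
        ext p
        simp only [mem_filter]
        constructor
        · rintro ⟨⟨h1, _⟩, h2⟩
          exact ⟨h1, h2⟩
        · rintro ⟨h1, h2⟩
          exact ⟨⟨h1, by omega⟩, h2⟩
      rw [he]
      have h6 : ∑ p ∈ (Pc (2 * n - 1)).filter (fun p => hl p = m),
          wp s g rho p * (5 * (hl p : ℝ) ^ 2) =
          5 * (m : ℝ) ^ 2 * ∑ p ∈ (Pc (2 * n - 1)).filter (fun p => hl p = m), wp s g rho p := by
        rw [mul_sum]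
        refine sum_congr rfl fun p hp => ?_
        rw [mem_filter] at hp
        rw [hp.2]
        ring
      rw [h6]
      calc 5 * (m : ℝ) ^ 2 * ∑ p ∈ (Pc (2 * n - 1)).filter (fun p => hl p = m), wp s g rho p
          ≤ 5 * (m : ℝ) ^ 2 * (C * s * θ ^ m) :=
            mul_le_mul_of_nonneg_left (hT m hm) (by positivity)
        _ = _ := by ring
  refine (sum_le_sum h5).trans ?_
  rw [← mul_sum]
  have h7 : ∑ m ∈ range (2 * n + 2), (m : ℝ) ^ 2 * θ ^ m ≤ K :=
    hsum.sum_le_tsum _ fun m _ => by positivity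
  calc 5 * C * s * ∑ m ∈ range (2 * n + 2), (m : ℝ) ^ 2 * θ ^ m ≤ 5 * C * s * K :=
        mul_le_mul_of_nonneg_left h7 (by positivity)
    _ ≤ (5 * C * K + 1) * s := by nlinarith

end PAREaux

open Pool.Agent.TPT.PARMaux PAREaux in
theorem t_PARE (hT : TMGE_Stmt) (hH : HGM_Stmt) (hg : HG_Stmt) : PARE_Stmt := by
  have _ := hH
  intro a b ha hab
  obtain ⟨C, θ, hC, hθ, hθ1, N, hN⟩ := hT a b ha hab
  obtain ⟨K, hK, hrest⟩ := rest_le hC hθ hθ1
  refine ⟨K, hK, N, ?_⟩
  intro n hn f g rho hbox h1 i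
  obtain ⟨rho0, h3, -, -, -, h5⟩ := hN n hn f g hbox
  have e : rho0 = rho := le_antisymm (crit_le (Real.exp_pos _) h1 h3)
    (crit_le (Real.exp_pos _) h3 h1)
  rw [e] at h5
  set s := Real.exp (-f) with hs
  have hs0 : 0 < s := Real.exp_pos _
  have hR := hrest n s g rho hs0 h1.1 h5
  have hw : ∀ p, 0 < wp s g rho p := fun p => wp_pos hs0 h1.1 p
  -- the rest of the total mass
  set T := ∑ p ∈ (Pc (2 * n - 1)).filter (fun p => ¬ hl p = 1), wp s g rho p with hTd
  have hT0 : 0 ≤ T := sum_nonneg fun p _ => (hw p).le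
  have htot : rho * (2 + Real.exp g + Real.exp (-g)) + T = 1 := by
    rw [← sum_one_total n s g rho, hTd, ← h1.2]
    exact sum_filter_add_sum_filter_not _ _ _
  set q := 2 + Real.exp g + Real.exp (-g) with hq
  have hq0 : 2 ≤ q := by
    have := Real.exp_pos g
    have := Real.exp_pos (-g)
    linarith
  -- the rest of the parameter
  have hsplit : par n s g rho i =
      ∑ p ∈ (Pc (2 * n - 1)).filter (fun p => hl p = 1),
        wp s g rho p * (![(hl p : ℝ), (htn p : ℝ), (jump p : ℝ) ^ 2] i) +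
      ∑ p ∈ (Pc (2 * n - 1)).filter (fun p => ¬ hl p = 1),
        wp s g rho p * (![(hl p : ℝ), (htn p : ℝ), (jump p : ℝ) ^ 2] i) := by
    unfold par
    exact (sum_filter_add_sum_filter_not _ _ _).symm
  set R := ∑ p ∈ (Pc (2 * n - 1)).filter (fun p => ¬ hl p = 1),
        wp s g rho p * (![(hl p : ℝ), (htn p : ℝ), (jump p : ℝ) ^ 2] i) with hRd
  have hy : ∀ p ∈ Pc (2 * n - 1), 0 ≤ (![(hl p : ℝ), (htn p : ℝ), (jump p : ℝ) ^ 2] i) ∧
      (![(hl p : ℝ), (htn p : ℝ), (jump p : ℝ) ^ 2] i) ≤ 4 * (hl p : ℝ) ^ 2 := by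
    intro p hp
    have h6 : (1 : ℝ) ≤ hl p := by exact_mod_cast (KW.len_hl hp).2.1
    have h7 : (htn p : ℝ) ≤ hl p := by exact_mod_cast (hg.2.2 _ p hp).2
    have h8 : (0 : ℝ) ≤ htn p := Nat.cast_nonneg _
    fin_cases i
    · show 0 ≤ (hl p : ℝ) ∧ (hl p : ℝ) ≤ 4 * (hl p : ℝ) ^ 2
      constructor
      · linarith
      · nlinarith
    · show 0 ≤ (htn p : ℝ) ∧ (htn p : ℝ) ≤ 4 * (hl p : ℝ) ^ 2
      constructor
      · linarith
      · nlinarith
    · show 0 ≤ ((jump p : ℤ) : ℝ) ^ 2 ∧ ((jump p : ℤ) : ℝ) ^ 2 ≤ 4 * (hl p : ℝ) ^ 2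
      have h9 : |jump p| ≤ 2 * (hl p : ℤ) := KW.jump_le hp (KW.len_hl hp).1
      have h10 : |((jump p : ℤ) : ℝ)| ≤ 2 * (hl p : ℝ) := by exact_mod_cast h9
      refine ⟨sq_nonneg _, ?_⟩
      rw [← sq_abs]
      have h11 : (0 : ℝ) ≤ |((jump p : ℤ) : ℝ)| := abs_nonneg _
      nlinarith
  have hR0 : 0 ≤ R := sum_nonneg fun p hp => mul_nonneg (hw p).le (hy p (mem_filter.1 hp).1).1
  have hTR : T + R ≤ K * s := by
    refine le_trans ?_ hR
    rw [hTd, hRd, ← sum_add_distrib]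
    refine sum_le_sum fun p hp => ?_
    have h6 : (1 : ℝ) ≤ hl p := by exact_mod_cast (KW.len_hl (mem_filter.1 hp).1).2.1
    have h7 := (hy p (mem_filter.1 hp).1).2
    have h8 : 1 + (![(hl p : ℝ), (htn p : ℝ), (jump p : ℝ) ^ 2] i) ≤ 5 * (hl p : ℝ) ^ 2 := by
      nlinarith
    calc wp s g rho p + wp s g rho p * (![(hl p : ℝ), (htn p : ℝ), (jump p : ℝ) ^ 2] i)
        = wp s g rho p * (1 + (![(hl p : ℝ), (htn p : ℝ), (jump p : ℝ) ^ 2] i)) := by ring
      _ ≤ _ := mul_le_mul_of_nonneg_left h8 (hw p).le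
  rw [hsplit]
  refine le_trans ?_ hTR
  have hone : ∀ p ∈ (Pc (2 * n - 1)).filter (fun p => hl p = 1), (hl p : ℝ) = 1 ∧
      (htn p : ℝ) = 1 := by
    intro p hp
    rw [Pool.Agent.NSP.TAZ.four] at hp
    rw [mem_insert, mem_insert, mem_insert, mem_singleton] at hp
    rcases hp with rfl | rfl | rfl | rfl
    · exact ⟨by simp [hl], by
        have : htn (([0], [2]) : Wd × Wd) = 1 := by decide
        exact_mod_cast this⟩
    · exact ⟨by simp [hl], by
        have : htn (([1], [3]) : Wd × Wd) = 1 := by decide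
        exact_mod_cast this⟩
    · exact ⟨by simp [hl], by
        have : htn (([0], [3]) : Wd × Wd) = 1 := by decide
        exact_mod_cast this⟩
    · exact ⟨by simp [hl], by
        have : htn (([1], [2]) : Wd × Wd) = 1 := by decide
        exact_mod_cast this⟩
  have hA : ∑ p ∈ (Pc (2 * n - 1)).filter (fun p => hl p = 1), wp s g rho p = 1 - T := by
    rw [sum_one_total]
    linarith
  have key : |∑ p ∈ (Pc (2 * n - 1)).filter (fun p => hl p = 1),
        wp s g rho p * (![(hl p : ℝ), (htn p : ℝ), (jump p : ℝ) ^ 2] i) -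
      (![1, 1, 2 / q] : Fin 3 → ℝ) i| ≤ T := by
    fin_cases i
    · show |∑ p ∈ (Pc (2 * n - 1)).filter (fun p => hl p = 1), wp s g rho p * (hl p : ℝ) - 1| ≤ T
      have h6 : ∑ p ∈ (Pc (2 * n - 1)).filter (fun p => hl p = 1), wp s g rho p * (hl p : ℝ) =
          1 - T := by
        rw [← hA]
        refine sum_congr rfl fun p hp => ?_
        rw [(hone p hp).1, mul_one]
      rw [h6]
      have : (1 : ℝ) - T - 1 = -T := by ring
      rw [this, abs_neg, abs_of_nonneg hT0]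
    · show |∑ p ∈ (Pc (2 * n - 1)).filter (fun p => hl p = 1), wp s g rho p * (htn p : ℝ) - 1| ≤ T
      have h6 : ∑ p ∈ (Pc (2 * n - 1)).filter (fun p => hl p = 1), wp s g rho p * (htn p : ℝ) =
          1 - T := by
        rw [← hA]
        refine sum_congr rfl fun p hp => ?_
        rw [(hone p hp).2, mul_one]
      rw [h6]
      have : (1 : ℝ) - T - 1 = -T := by ring
      rw [this, abs_neg, abs_of_nonneg hT0]
    · show |∑ p ∈ (Pc (2 * n - 1)).filter (fun p => hl p = 1),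
        wp s g rho p * ((jump p : ℤ) : ℝ) ^ 2 - 2 / q| ≤ T
      rw [sum_one_jump]
      have hq1 : 0 < q := by linarith
      have h6 : 2 * rho - 2 / q = -(2 / q * T) := by
        have h7 : rho * q = 1 - T := by linarith
        field_simp
        linarith
      rw [h6, abs_neg, abs_of_nonneg (by positivity)]
      have h8 : 2 / q ≤ 1 := by
        rw [div_le_one hq1]
        exact hq0
      calc 2 / q * T ≤ 1 * T := mul_le_mul_of_nonneg_right h8 hT0
        _ = T := one_mul T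
  have h9 : ∀ A R' L' : ℝ, A + R' - L' = (A - L') + R' := fun A R' L' => by ring
  rw [h9]
  refine (abs_add_le _ _).trans ?_
  rw [abs_of_nonneg hR0]
  exact add_le_add key le_rfl

end Pool.Agent.TPE
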