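import Pool.Agent.TPE.Stmts
import Pool.Agent.TPT.RECM

/-!
# Project TPE, module RECE: special words
-/

set_option autoImplicit false

namespace Pool.Agent.TPE

open Finset Filter Topology MeasureTheory
open Pool.Agent.Lib27 Pool.Agent.SapR Pool.Agent.AreaLaw Pool.Agent.FL Pool.Agent.TPT

namespace RECEAux

/-- a polygon word with a vertex and a separating level gives a canonical word -/
theorem transfer (hRt : ROOT_Stmt) (n : ℕ) (hn : 1 ≤ n) (w : Fin (2 * n) → Fin 4)
    (hw : w ∈ SAP n) (j : ℕ) (hj : j < 2 * n) (hB : ¬ NoB n w j) :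
    ∃ q ∈ Omm n, ((zl q : ℕ) : ℤ) = slev n w j ∧ zt q = lat (pos n w j) := by
  classical
  by_contra hcon
  have h1 := hRt n hn (fun _ y z => if y = slev n w j ∧ z = lat (pos n w j) then 1 else 0)
  have h2 : ∑ q ∈ Omm n, (if ((zl q : ℕ) : ℤ) = slev n w j ∧ zt q = lat (pos n w j) then
      (1 : ℝ) else 0) = 0 := by
    apply Finset.sum_eq_zero
    intro q hq
    rw [if_neg]
    intro h
    exact hcon ⟨q, hq, h⟩
  have h3 : (1 : ℝ) ≤ ∑ w' ∈ SAP n, ∑ i ∈ (range (2 * n)).filter (fun i => ¬ NoB n w' i),
      (if slev n w' i = slev n w j ∧ lat (pos n w' i) = lat (pos n w j) then (1 : ℝ) else 0) := by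
    have h4 : ∀ w' ∈ SAP n, (0 : ℝ) ≤ ∑ i ∈ (range (2 * n)).filter (fun i => ¬ NoB n w' i),
        (if slev n w' i = slev n w j ∧ lat (pos n w' i) = lat (pos n w j) then
          (1 : ℝ) else 0) := by
      intro w' _
      apply Finset.sum_nonneg
      intro i _
      split_ifs <;> norm_num
    refine le_trans ?_ (Finset.single_le_sum h4 hw)
    have h5 : ∀ i ∈ (range (2 * n)).filter (fun i => ¬ NoB n w i), (0 : ℝ) ≤
        (if slev n w i = slev n w j ∧ lat (pos n w i) = lat (pos n w j) then
          (1 : ℝ) else 0) := by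
      intro i _
      split_ifs <;> norm_num
    refine le_trans ?_ (Finset.single_le_sum h5 (a := j) ?_)
    · rw [if_pos ⟨rfl, rfl⟩]
    · rw [mem_filter, mem_range]
      exact ⟨hj, hB⟩
  have h6 : ∑ w' ∈ SAP n, ∑ i ∈ (range (2 * n)).filter (fun i => ¬ NoB n w' i),
      (if slev n w' i = slev n w j ∧ lat (pos n w' i) = lat (pos n w j) then (1 : ℝ) else 0) =
      0 := by
    rw [h2, mul_zero] at h1
    exact h1
  linarith

/-- the rectangle with sides `a` in the direction `d` and `n - a` in the direction `e` -/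
def rw' (n a : ℕ) (d e : Fin 4) : Fin (2 * n) → Fin 4 := fun i =>
  if i.val < a then d else if i.val < n then e else if i.val < n + a then d + 2 else e + 2

/-- the vertices of the rectangle -/
def PP (n a : ℕ) (d e : Fin 4) (k : ℕ) : ℤ × ℤ :=
  if k ≤ a then (k : ℤ) • step d
  else if k ≤ n then (a : ℤ) • step d + ((k : ℤ) - a) • step e
  else if k ≤ n + a then ((n : ℤ) + a - k) • step d + ((n : ℤ) - a) • step e
  else (2 * (n : ℤ) - k) • step e

theorem pos_rw (n a : ℕ) (h1 : 1 ≤ a) (h2 : a < n) (d e : Fin 4) :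
    ∀ k ≤ 2 * n, pos n (rw' n a d e) k = PP n a d e k := by
  intro k
  induction k with
  | zero =>
    intro _
    unfold pos PP
    simp
  | succ k ih =>
    intro hk
    have hr : rw' n a d e ⟨k, by omega⟩ = if k < a then d else if k < n then e else
        if k < n + a then d + 2 else e + 2 := rfl
    rw [RECMM.pos_succ n _ k (by omega), ih (by omega), hr]
    unfold PP
    rcases Nat.lt_or_ge k a with h | h
    · rw [if_pos h.le, if_pos (by omega : k + 1 ≤ a), if_pos h]
      push_cast
      rw [add_smul, one_smul]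
    · rcases Nat.lt_or_ge k n with h' | h'
      · rw [if_neg (by omega : ¬ k + 1 ≤ a), if_pos (by omega : k + 1 ≤ n),
          if_neg (by omega : ¬ k < a), if_pos h']
        rcases Nat.eq_or_lt_of_le h with h3 | h3
        · rw [if_pos (by omega : k ≤ a)]
          subst h3
          push_cast
          rw [add_sub_cancel_left, one_smul]
        · rw [if_neg (by omega : ¬ k ≤ a), if_pos (by omega : k ≤ n)]
          push_cast
          have : (k : ℤ) + 1 - a = ((k : ℤ) - a) + 1 := by ring
          rw [this, add_smul ((k : ℤ) - a) 1, one_smul, add_assoc]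
      · rcases Nat.lt_or_ge k (n + a) with h'' | h''
        · rw [if_neg (by omega : ¬ k + 1 ≤ a), if_neg (by omega : ¬ k + 1 ≤ n),
            if_pos (by omega : k + 1 ≤ n + a), if_neg (by omega : ¬ k < a),
            if_neg (by omega : ¬ k < n), if_pos h'', RECMM.step2]
          rcases Nat.eq_or_lt_of_le h' with h3 | h3
          · rw [if_neg (by omega : ¬ k ≤ a), if_pos (by omega : k ≤ n)]
            subst h3
            push_cast
            have e1 : (n : ℤ) + a - (n + 1) = (a : ℤ) - 1 := by ring
            rw [e1, sub_smul (a : ℤ) 1, one_smul]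
            abel
          · rw [if_neg (by omega : ¬ k ≤ a), if_neg (by omega : ¬ k ≤ n),
              if_pos (by omega : k ≤ n + a)]
            push_cast
            have e1 : (n : ℤ) + a - (k + 1) = ((n : ℤ) + a - k) - 1 := by ring
            rw [e1, sub_smul ((n : ℤ) + a - k) 1, one_smul]
            abel
        · rw [if_neg (by omega : ¬ k + 1 ≤ a), if_neg (by omega : ¬ k + 1 ≤ n),
            if_neg (by omega : ¬ k + 1 ≤ n + a), if_neg (by omega : ¬ k < a),
            if_neg (by omega : ¬ k < n), if_neg (by omega : ¬ k < n + a), RECMM.step2,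
            if_neg (by omega : ¬ k ≤ a), if_neg (by omega : ¬ k ≤ n)]
          rcases Nat.eq_or_lt_of_le h'' with h3 | h3
          · rw [if_pos (by omega : k ≤ n + a)]
            subst h3
            push_cast
            have e1 : (n : ℤ) + a - (n + a) = 0 := by ring
            have e2 : 2 * (n : ℤ) - (n + a + 1) = ((n : ℤ) - a) - 1 := by ring
            rw [e1, zero_smul, zero_add, e2, sub_smul ((n : ℤ) - a) 1, one_smul]
            abel
          · rw [if_neg (by omega : ¬ k ≤ n + a)]
            push_cast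
            have e1 : 2 * (n : ℤ) - (k + 1) = (2 * (n : ℤ) - k) - 1 := by ring
            rw [e1, sub_smul (2 * (n : ℤ) - k) 1, one_smul]
            abel

/-- the coordinates in the directions `d`, `e` -/
theorem coords (n a : ℕ) (_ : 1 ≤ a) (_ : a < n) (u v : ℤ) (F : ℤ × ℤ →+ ℤ) (d e : Fin 4)
    (hd : F (step d) = u) (he : F (step e) = v) (k : ℕ) :
    F (PP n a d e k) = if k ≤ a then (k : ℤ) * u
      else if k ≤ n then (a : ℤ) * u + ((k : ℤ) - a) * v
      else if k ≤ n + a then ((n : ℤ) + a - k) * u + ((n : ℤ) - a) * v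
      else (2 * (n : ℤ) - k) * v := by
  unfold PP
  split_ifs <;> simp only [map_add, map_zsmul, hd, he, smul_eq_mul]

/-- inner product with a vector -/
def ipH (q : ℤ × ℤ) : ℤ × ℤ →+ ℤ where
  toFun p := RECMM.ip p q
  map_zero' := by simp [RECMM.ip]
  map_add' p r := RECMM.ip_add p r q

/-- the level -/
def levH : ℤ × ℤ →+ ℤ where
  toFun p := lev p
  map_zero' := by simp [lev]
  map_add' p r := by
    unfold lev
    simp only [Prod.fst_add, Prod.snd_add]
    ring

/-- the lateral coordinate -/
def latH : ℤ × ℤ →+ ℤ where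
  toFun p := lat p
  map_zero' := by simp [lat]
  map_add' p r := by
    unfold lat
    simp only [Prod.fst_add, Prod.snd_add]
    ring

theorem ip_self (d : Fin 4) : RECMM.ip (step d) (step d) = 1 := by
  fin_cases d <;> decide

theorem rw_mem (n a : ℕ) (h1 : 1 ≤ a) (h2 : a < n) (d e : Fin 4)
    (hde : RECMM.ip (step d) (step e) = 0) (hed : RECMM.ip (step e) (step d) = 0) :
    rw' n a d e ∈ SAP n := by
  unfold SAP
  rw [mem_filter]
  refine ⟨mem_univ _, ?_, ?_⟩
  · rw [pos_rw n a h1 h2 d e _ le_rfl]
    unfold PP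
    rw [if_neg (by omega), if_neg (by omega), if_neg (by omega)]
    push_cast
    rw [sub_self, zero_smul]
  · intro j k hjk
    rw [pos_rw n a h1 h2 d e _ j.2.le, pos_rw n a h1 h2 d e _ k.2.le]
    intro heq
    apply hjk
    apply Fin.ext
    have hj := j.2
    have hk := k.2
    have hx := congrArg (ipH (step d)) heq
    have hy := congrArg (ipH (step e)) heq
    rw [coords n a h1 h2 1 0 (ipH (step d)) d e (ip_self d) hed,
      coords n a h1 h2 1 0 (ipH (step d)) d e (ip_self d) hed] at hx
    rw [coords n a h1 h2 0 1 (ipH (step e)) d e hde (ip_self e),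
      coords n a h1 h2 0 1 (ipH (step e)) d e hde (ip_self e)] at hy
    simp only [mul_one, mul_zero, add_zero, zero_add] at hx hy
    split_ifs at hx hy <;> omega

theorem slev_rw (n a : ℕ) (h1 : 1 ≤ a) (h2 : a < n) (d e : Fin 4) (u v : ℤ)
    (hd : lev (step d) = u) (he : lev (step e) = v) (k : ℕ) (hk : k ≤ 2 * n) :
    slev n (rw' n a d e) k = if k ≤ a then (k : ℤ) * u
      else if k ≤ n then (a : ℤ) * u + ((k : ℤ) - a) * v
      else if k ≤ n + a then ((n : ℤ) + a - k) * u + ((n : ℤ) - a) * v
      else (2 * (n : ℤ) - k) * v := by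
  unfold slev
  rw [pos_rw n a h1 h2 d e k hk]
  exact coords n a h1 h2 u v levH d e hd he k

theorem lat_rw (n a : ℕ) (h1 : 1 ≤ a) (h2 : a < n) (d e : Fin 4) (u v : ℤ)
    (hd : lat (step d) = u) (he : lat (step e) = v) :
    lat (pos n (rw' n a d e) n) = (a : ℤ) * u + ((n : ℤ) - a) * v := by
  rw [pos_rw n a h1 h2 d e n (by omega)]
  have h := coords n a h1 h2 u v latH d e hd he n
  rw [if_neg (by omega), if_pos le_rfl] at h
  exact h

/-- first kind: both directions go up -/
theorem first (hRt : ROOT_Stmt) (n : ℕ) (hn : 4 ≤ n) (d e : Fin 4) (u v : ℤ)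
    (hde : RECMM.ip (step d) (step e) = 0) (hed : RECMM.ip (step e) (step d) = 0)
    (hd : lev (step d) = 1) (he : lev (step e) = 1)
    (hd' : lat (step d) = u) (he' : lat (step e) = v) :
    ∃ q ∈ Omm n, zl q = n ∧ zt q = ((n : ℤ) - 1) * u + v := by
  have h1 : 1 ≤ n - 1 := by omega
  have h2 : n - 1 < n := by omega
  have hs := slev_rw n (n - 1) h1 h2 d e 1 1 hd he
  have hB : ¬ NoB n (rw' n (n - 1) d e) n := by
    intro h
    refine h 1 one_pos ?_ ?_
    · rw [hs n (by omega), if_neg (by omega), if_pos le_rfl]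
      omega
    · unfold scnt
      have h3 : (range (2 * n)).filter (fun i => slev n (rw' n (n - 1) d e) i = 1) =
          {1, 2 * n - 1} := by
        ext i
        rw [mem_filter, mem_range, mem_insert, mem_singleton]
        constructor
        · rintro ⟨h4, h5⟩
          rw [hs i h4.le] at h5
          split_ifs at h5 <;> omega
        · intro h4
          refine ⟨by omega, ?_⟩
          rw [hs i (by omega)]
          split_ifs <;> omega
      rw [h3, Finset.card_pair (by omega)]
  obtain ⟨q, hq, h3, h4⟩ := transfer hRt n (by omega) _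
    (rw_mem n (n - 1) h1 h2 d e hde hed) n (by omega) hB
  refine ⟨q, hq, ?_, ?_⟩
  · rw [hs n (by omega), if_neg (by omega), if_pos le_rfl] at h3
    omega
  · rw [h4, lat_rw n (n - 1) h1 h2 d e u v hd' he']
    have : ((n - 1 : ℕ) : ℤ) = (n : ℤ) - 1 := by omega
    rw [this]
    ring

/-- second kind: the second direction goes down -/
theorem second (hRt : ROOT_Stmt) (n k : ℕ) (hk : 1 ≤ k) (hkn : 2 * k + 2 ≤ n) (d e : Fin 4)
    (u : ℤ) (hde : RECMM.ip (step d) (step e) = 0) (hed : RECMM.ip (step e) (step d) = 0)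
    (hd : lev (step d) = 1) (he : lev (step e) = -1)
    (hd' : lat (step d) = u) (he' : lat (step e) = u) :
    ∃ q ∈ Omm n, zl q = n - 2 * k ∧ zt q = u * n := by
  have h1 : 1 ≤ n - k := by omega
  have h2 : n - k < n := by omega
  have hs := slev_rw n (n - k) h1 h2 d e 1 (-1) hd he
  have hB : ¬ NoB n (rw' n (n - k) d e) n := by
    intro h
    refine h 1 one_pos ?_ ?_
    · rw [hs n (by omega), if_neg (by omega), if_pos le_rfl]
      omega
    · unfold scnt
      have h3 : (range (2 * n)).filter (fun i => slev n (rw' n (n - k) d e) i = 1) =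
          {1, 2 * (n - k) - 1} := by
        ext i
        rw [mem_filter, mem_range, mem_insert, mem_singleton]
        constructor
        · rintro ⟨h4, h5⟩
          rw [hs i h4.le] at h5
          split_ifs at h5 <;> omega
        · intro h4
          refine ⟨by omega, ?_⟩
          rw [hs i (by omega)]
          split_ifs <;> omega
      rw [h3, Finset.card_pair (by omega)]
  obtain ⟨q, hq, h3, h4⟩ := transfer hRt n (by omega) _
    (rw_mem n (n - k) h1 h2 d e hde hed) n (by omega) hB
  refine ⟨q, hq, ?_, ?_⟩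
  · rw [hs n (by omega), if_neg (by omega), if_pos le_rfl] at h3
    omega
  · rw [h4, lat_rw n (n - k) h1 h2 d e u u hd' he']
    ring

end RECEAux

open RECEAux in
theorem t_RECE (hRt : ROOT_Stmt) (hH : HGM_Stmt) : RECE_Stmt := by
  intro n hn σ hσ
  have h1 : σ = 1 ∨ σ = -1 := by
    rcases abs_eq (by norm_num : (0 : ℤ) ≤ 1) |>.1 hσ with h | h <;> simp [h]
  rcases h1 with rfl | rfl
  · refine ⟨?_, ?_⟩
    · obtain ⟨q, hq, h2, h3⟩ := first hRt n hn 0 1 1 (-1) (by decide) (by decide) (by decide)
        (by decide) (by decide) (by decide)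
      exact ⟨q, hq, h2, by rw [h3]; ring⟩
    · intro k hk hkn
      exact second hRt n k hk hkn 0 3 1 (by decide) (by decide) (by decide) (by decide)
        (by decide) (by decide)
  · refine ⟨?_, ?_⟩
    · obtain ⟨q, hq, h2, h3⟩ := first hRt n hn 1 0 (-1) 1 (by decide) (by decide) (by decide)
        (by decide) (by decide) (by decide)
      exact ⟨q, hq, h2, by rw [h3]; ring⟩
    · intro k hk hkn
      exact second hRt n k hk hkn 1 2 (-1) (by decide) (by decide) (by decide) (by decide)
        (by decide) (by decide)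

end Pool.Agent.TPE
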