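import Pool.Agent.TPE.Stmts
import Pool.Agent.TPT.REGFM

/-!
# Project TPE: module REGFE, law and moments for regular sequences
-/

set_option autoImplicit false

namespace Pool.Agent.TPE

open Finset Filter Topology MeasureTheory
open Pool.Agent.Lib27 Pool.Agent.SapR Pool.Agent.AreaLaw Pool.Agent.FL Pool.Agent.TPT
open Pool.Agent.FS (sc rs bp dlt tk1 tk2)
open Pool.Agent.NSP (lc ld)
open Pool.Agent.KCS (airyMoment)
open Pool.Agent.KCC (areaMoment)

theorem t_REGFE (hB : CLSBE_Stmt) (hM : CLSME_Stmt) (hF : FLME_Stmt) (hCDF : FS.CDF_Stmt)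
    (hCM : NSP.CDFM_Stmt) (hH : HGM_Stmt) : REGFE_Stmt := by
  classical
  rintro μ ⟨hμ, hmom, hst⟩ b f g h t hR z hz
  obtain ⟨b1, b2, ⟨c, hc, b3⟩, b4⟩ := hB b f g h t hR
  obtain ⟨m1, m2, m3⟩ := hM b f g h t hR z hz
  have hs0 : ∀ n, 0 ≤ Real.exp (-(f n)) := fun n => (Real.exp_pos _).le
  have hd : ∀ n, ∀ q ∈ Omm n, |(dm q : ℝ)| / sc n = dm q / sc n := by
    intro n q hq
    rw [abs_of_pos]
    exact_mod_cast (hH.2.2.2 n q hq).2.2.2
  have hZ : ∀ᶠ n : ℕ in atTop, 0 < Zm n (Real.exp (-(f n))) (g n) := by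
    filter_upwards [b3] with n hn
    rcases (TPT.REGFM.Zm_nonneg n (hs0 n) (g n)).lt_or_eq with h2 | h2
    · exact h2
    · rw [← h2, div_zero] at hn
      linarith [hn.1]
  have hdiff : Tendsto (fun n : ℕ => avT n (z n) (fun y => y) -
      (∑ q ∈ Omm n, wm n (Real.exp (-(f n))) (g n) q * (dm q / sc n)) /
        Zm n (Real.exp (-(f n))) (g n)) atTop (𝓝 0) := by
    have e1 := m3 1
    simp only [pow_one] at e1
    have e2 := e1.add b2
    rw [add_zero] at e2
    refine e2.congr fun n => ?_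
    ring
  have hlaw : ∀ x : ℝ, μ {x} = 0 →
      Tendsto (fun n : ℕ => areaCdf n (Thr n (z n)) x) atTop (𝓝 (μ (Set.Iic x)).toReal) := by
    intro x hx
    have key := hCDF μ hμ (fun _ => QM) (fun n => Fin (2 * n) → Fin 4)
      (fun n => Omm n) (fun n => Thr n (z n))
      (fun n q => wm n (Real.exp (-(f n))) (g n) q / Zm n (Real.exp (-(f n))) (g n))
      (fun n q => |(dm q : ℝ)| / sc n)
      (fun n _ => 1 / ((Thr n (z n)).card : ℝ)) (fun n s => 2 * area n s / sc n)
      (fun n q => div_nonneg (TPT.REGFM.wm_nonneg n (hs0 n) _ q) (TPT.REGFM.Zm_nonneg n (hs0 n) _))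
      (fun n s => by positivity)
      (fun n q => div_nonneg (abs_nonneg _) (FS.sc_nonneg n))
      (fun n s => div_nonneg (mul_nonneg (by norm_num) (FS.area_nonneg n s)) (FS.sc_nonneg n))
      ?_ ?_ ?_ ?_ ?_ ?_ x hx
    · refine key.congr' ?_
      filter_upwards [m1, eventually_ge_atTop 1] with n h2 h3
      rw [FS.areaCdf_eq n h3 (Thr n (z n)) h2 x]
    · filter_upwards [hZ] with n hn
      rw [← Finset.sum_div]
      exact div_self hn.ne'
    · filter_upwards [m1] with n hn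
      have : (0 : ℝ) < (Thr n (z n)).card := by exact_mod_cast hn
      rw [Finset.sum_const, nsmul_eq_mul]
      field_simp
    · refine ⟨c, c⁻¹, hc, ?_⟩
      filter_upwards [b3] with n hn
      rw [TPT.REGFM.sum_div n _ _ _ _ _ (hd n)]
      exact hn
    · refine hdiff.congr fun n => ?_
      rw [TPT.REGFM.sum_div n _ _ _ _ _ (hd n), ← TPT.REGFM.avT_eq n (z n) (fun y => y)]
    · intro φ h2 h3
      have e2 := (m2 φ h2).add (b1 φ h2 h3)
      rw [add_zero] at e2
      refine e2.congr fun n => ?_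
      rw [TPT.REGFM.sum_div n _ _ _ (fun q => φ (|(dm q : ℝ)| / sc n)) (fun q => φ (dm q / sc n))
        (fun q hq => congrArg φ (hd n q hq)), ← TPT.REGFM.avT_eq n (z n) φ]
      ring
    · intro y hy
      refine ((hF μ hμ hst b b (lt_of_lt_of_le one_pos hR.one) le_rfl f g hR.box).1 y hy).congr' ?_
      filter_upwards [hZ, eventually_ge_atTop 1] with n h2 h3
      exact TPT.REGFM.cdf_eq hH n h3 _ _ h2 y
  refine ⟨hlaw, fun r => ?_⟩
  have hlow : ∀ᶠ n : ℕ in atTop,
      c / 2 ≤ (∑ w ∈ Thr n (z n), 2 * area n w / sc n) / ((Thr n (z n)).card : ℝ) := by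
    filter_upwards [b3, (Metric.tendsto_nhds.1 hdiff) (c / 2) (by linarith)] with n h1 h2
    rw [Real.dist_eq, sub_zero] at h2
    have h3 := (abs_lt.1 h2).1
    have h4 := h1.1
    have h5 : (∑ w ∈ Thr n (z n), 2 * area n w / sc n) / ((Thr n (z n)).card : ℝ) =
      avT n (z n) (fun y => y) := rfl
    rw [h5]
    linarith
  refine hCM μ airyMoment hμ hmom (fun n => Thr n (z n)) ?_ hlaw ?_ r
  · filter_upwards [m1, hlow] with n h1 h2
    exact ⟨h1, NSP.REGM.area_pos n _ (c / 2) (by linarith) h2⟩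
  · intro k
    refine NSP.REGM.bound (fun n => Thr n (z n)) (c / 2) (by linarith) hlow k ?_
    obtain ⟨C, hC⟩ := b4 k
    refine ⟨C + 1, ?_⟩
    filter_upwards [hC, (Metric.tendsto_nhds.1 (m3 k)) 1 one_pos] with n h1 h2
    rw [Real.dist_eq, sub_zero] at h2
    have h3 := (abs_lt.1 h2).2
    rw [TPT.REGFM.avT_eq' n (z n) k]
    linarith

end Pool.Agent.TPE
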