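import Pool.Agent.TPE.Stmts
import Pool.Agent.TPT.RHOM
import Pool.Agent.NSP.RHOZ
import Pool.Agent.NSP.TAZ

/-!
# Project TPE, module RHOE: the critical weight, bounds with the factor `s`
-/

set_option autoImplicit false

namespace Pool.Agent.TPE

open Finset Filter Topology MeasureTheory
open Pool.Agent.Lib27 Pool.Agent.SapR Pool.Agent.AreaLaw Pool.Agent.FL Pool.Agent.TPT
open Pool.Agent.FS (sc rs bp)
open Pool.Agent.NSP (lc ld tz)

namespace RHOE

open Pool.Agent.TPT.RHOM (wp_pos xx crit_exp bd lip uniq abs_exp_sub exp_sub_one_le)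
open Pool.Agent.NSP.RHOZ (split dlt_one tz_mem tz_hl tz_htn)

/-- total weight of the pieces of half length `1` -/
lemma four_sum (r : ℕ) (s g rho : ℝ) :
    ∑ p ∈ (Pc r).filter (fun p => hl p = 1), wp s g rho p =
      rho * (2 + Real.exp g + Real.exp (-g)) := by
  rw [NSP.TAZ.four]
  have e1 : htn (([0], [2]) : Wd × Wd) = 1 := by decide
  have e2 : htn (([1], [3]) : Wd × Wd) = 1 := by decide
  have e3 : htn (([0], [3]) : Wd × Wd) = 1 := by decide
  have e4 : htn (([1], [2]) : Wd × Wd) = 1 := by decide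
  have f1 : hl (([0], [2]) : Wd × Wd) = 1 := rfl
  have f2 : hl (([1], [3]) : Wd × Wd) = 1 := rfl
  have f3 : hl (([0], [3]) : Wd × Wd) = 1 := rfl
  have f4 : hl (([1], [2]) : Wd × Wd) = 1 := rfl
  have k1 : kap (([0], [2]) : Wd × Wd) = 1 := by decide
  have k2 : kap (([1], [3]) : Wd × Wd) = -1 := by decide
  have k3 : kap (([0], [3]) : Wd × Wd) = 0 := by decide
  have k4 : kap (([1], [2]) : Wd × Wd) = 0 := by decide
  rw [sum_insert (by decide), sum_insert (by decide), sum_insert (by decide), sum_singleton]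
  unfold wp
  rw [e1, e2, e3, e4, f1, f2, f3, f4, k1, k2, k3, k4]
  simp only [Nat.sub_self, pow_zero, pow_one]
  push_cast
  simp only [mul_one, mul_neg, mul_zero, Real.exp_zero]
  ring

lemma kap_tz : kap tz = 1 := by decide

open Classical in
/-- sums of a function of the half length over the long pieces -/
lemma long_sum {C θ : ℝ} {n : ℕ} {f g rho : ℝ}
    (hT : ∀ m : ℕ, 2 ≤ m → ∑ p ∈ (Pc (2 * n - 1)).filter (fun p => hl p = m),
        wp (Real.exp (-f)) g rho p ≤ C * Real.exp (-f) * θ ^ m)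
    {H : ℕ → ℝ} (hH0 : ∀ m, 0 ≤ H m) (hC : 0 < C) (hθ : 0 < θ)
    (hs : Summable fun m : ℕ => θ ^ m * H m) :
    ∑ p ∈ (Pc (2 * n - 1)).filter (fun p => 2 ≤ hl p), wp (Real.exp (-f)) g rho p * H (hl p) ≤
      C * Real.exp (-f) * ∑' m : ℕ, θ ^ m * H m := by
  set T := (Pc (2 * n - 1)).filter (fun p => 2 ≤ hl p) with hTd
  have h1 : ∑ p ∈ T, wp (Real.exp (-f)) g rho p * H (hl p) =
      ∑ m ∈ T.image hl, ∑ p ∈ T.filter (fun p => hl p = m),
        wp (Real.exp (-f)) g rho p * H (hl p) :=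
    (Finset.sum_fiberwise_of_maps_to (fun p hp => Finset.mem_image_of_mem _ hp) _).symm
  rw [h1]
  have h2 : ∀ m ∈ T.image hl, ∑ p ∈ T.filter (fun p => hl p = m),
      wp (Real.exp (-f)) g rho p * H (hl p) ≤ C * Real.exp (-f) * (θ ^ m * H m) := by
    intro m hm
    obtain ⟨q0, hq0, rfl⟩ := Finset.mem_image.1 hm
    have h2m : 2 ≤ hl q0 := (Finset.mem_filter.1 hq0).2
    generalize hl q0 = m at h2m
    have h3' : T.filter (fun p => hl p = m) = (Pc (2 * n - 1)).filter (fun p => hl p = m) := by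
      ext q
      simp only [hTd, mem_filter]
      constructor
      · rintro ⟨⟨h1, h2⟩, h3⟩
        exact ⟨h1, h3⟩
      · rintro ⟨h1, h3⟩
        exact ⟨⟨h1, by omega⟩, h3⟩
    rw [h3']
    have h3 : ∑ p ∈ (Pc (2 * n - 1)).filter (fun p => hl p = m),
        wp (Real.exp (-f)) g rho p * H (hl p) =
        (∑ p ∈ (Pc (2 * n - 1)).filter (fun p => hl p = m), wp (Real.exp (-f)) g rho p) * H m := by
      rw [Finset.sum_mul]
      refine Finset.sum_congr rfl fun q hq => ?_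
      rw [(Finset.mem_filter.1 hq).2]
    rw [h3]
    have h4 := mul_le_mul_of_nonneg_right (hT m h2m) (hH0 m)
    calc (∑ p ∈ (Pc (2 * n - 1)).filter (fun p => hl p = m), wp (Real.exp (-f)) g rho p) * H m ≤
        C * Real.exp (-f) * θ ^ m * H m := h4
      _ = C * Real.exp (-f) * (θ ^ m * H m) := by ring
  refine (Finset.sum_le_sum h2).trans ?_
  rw [← Finset.mul_sum]
  refine mul_le_mul_of_nonneg_left ?_ (by positivity)
  exact hs.sum_le_tsum _ (fun m _ => mul_nonneg (pow_nonneg hθ.le _) (hH0 m))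

/-- the estimates for one force that are used below: `B` bounds the second exponential moment of
the long pieces divided by `s` -/
structure Est (B η0 : ℝ) (n : ℕ) (f g rho : ℝ) : Prop where
  crit : CritM n (Real.exp (-f)) g rho
  pos : 0 ≤ B
  long : ∑ p ∈ (Pc (2 * n - 1)).filter (fun p => 2 ≤ hl p), wp (Real.exp (-f)) g rho p *
    ((hl p : ℝ) ^ 2 * Real.exp (6 * η0 * hl p)) ≤ B * Real.exp (-f)

lemma sum_one {n : ℕ} {s g rho : ℝ} (h : CritM n s g rho) :
    ∑ p ∈ Pc (2 * n - 1), wp s g rho p = 1 := h.2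

lemma short_le (hg : HG_Stmt) {B η0 : ℝ} {n : ℕ} {f g rho : ℝ} (hE : Est B η0 n f g rho) :
    ∑ p ∈ (Pc (2 * n - 1)).filter (fun p => hl p = 1), wp (Real.exp (-f)) g rho p ≤ 1 := by
  have h1 := sum_one hE.crit
  rw [split hg] at h1
  have h2 : 0 ≤ ∑ p ∈ (Pc (2 * n - 1)).filter (fun p => 2 ≤ hl p), wp (Real.exp (-f)) g rho p :=
    Finset.sum_nonneg fun p _ => (wp_pos g (Real.exp_pos _) hE.crit.1 p).le
  linarith

/-- a function of the long pieces that is bounded by the exponential moment -/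
lemma long_le {B η0 : ℝ} (hη0 : 0 ≤ η0) {n : ℕ} {f g rho : ℝ} (hE : Est B η0 n f g rho)
    (F : Wd × Wd → ℝ) (c : ℝ) (hF : ∀ p ∈ (Pc (2 * n - 1)).filter (fun p => 2 ≤ hl p),
      F p ≤ c * ((hl p : ℝ) ^ 2 * Real.exp (6 * η0 * hl p))) (hc : 0 ≤ c) :
    ∑ p ∈ (Pc (2 * n - 1)).filter (fun p => 2 ≤ hl p), wp (Real.exp (-f)) g rho p * F p ≤
      c * (B * Real.exp (-f)) := by
  have _ := hη0
  calc ∑ p ∈ (Pc (2 * n - 1)).filter (fun p => 2 ≤ hl p), wp (Real.exp (-f)) g rho p * F p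
      ≤ ∑ p ∈ (Pc (2 * n - 1)).filter (fun p => 2 ≤ hl p), c * (wp (Real.exp (-f)) g rho p *
          ((hl p : ℝ) ^ 2 * Real.exp (6 * η0 * hl p))) := by
        refine Finset.sum_le_sum fun p hp => ?_
        calc wp (Real.exp (-f)) g rho p * F p ≤ wp (Real.exp (-f)) g rho p *
              (c * ((hl p : ℝ) ^ 2 * Real.exp (6 * η0 * hl p))) :=
              mul_le_mul_of_nonneg_left (hF p hp) (wp_pos g (Real.exp_pos _) hE.crit.1 p).le
          _ = _ := by ring
    _ = c * ∑ p ∈ (Pc (2 * n - 1)).filter (fun p => 2 ≤ hl p), wp (Real.exp (-f)) g rho p *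
          ((hl p : ℝ) ^ 2 * Real.exp (6 * η0 * hl p)) := by rw [Finset.mul_sum]
    _ ≤ _ := mul_le_mul_of_nonneg_left hE.long hc

lemma one_le_wt {η0 : ℝ} (hη0 : 0 ≤ η0) {m : ℕ} (hm : 1 ≤ m) :
    (m : ℝ) ≤ 1 * ((m : ℝ) ^ 2 * Real.exp (6 * η0 * m)) := by
  have h1 : (1 : ℝ) ≤ m := by exact_mod_cast hm
  have h2 : 1 ≤ Real.exp (6 * η0 * m) := Real.one_le_exp (by positivity)
  have h3 : (m : ℝ) ≤ (m : ℝ) ^ 2 := by nlinarith
  rw [one_mul]
  calc (m : ℝ) ≤ (m : ℝ) ^ 2 * 1 := by linarith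
    _ ≤ _ := mul_le_mul_of_nonneg_left h2 (by positivity)

/-- first moment of the differences `hl - htn` -/
lemma delta_sum (hg : HG_Stmt) {B η0 : ℝ} (hη0 : 0 ≤ η0) {n : ℕ} {f g rho : ℝ}
    (hE : Est B η0 n f g rho) :
    0 ≤ ∑ p ∈ Pc (2 * n - 1), wp (Real.exp (-f)) g rho p * ((hl p - htn p : ℕ) : ℝ) ∧
    ∑ p ∈ Pc (2 * n - 1), wp (Real.exp (-f)) g rho p * ((hl p - htn p : ℕ) : ℝ) ≤
      B * Real.exp (-f) := by
  constructor
  · exact Finset.sum_nonneg fun p _ =>
      mul_nonneg (wp_pos g (Real.exp_pos _) hE.crit.1 p).le (Nat.cast_nonneg _)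
  · rw [split hg]
    have h1 : ∑ p ∈ (Pc (2 * n - 1)).filter (fun p => hl p = 1),
        wp (Real.exp (-f)) g rho p * ((hl p - htn p : ℕ) : ℝ) = 0 := by
      refine Finset.sum_eq_zero fun p hp => ?_
      have hp' := Finset.mem_filter.1 hp
      rw [dlt_one hg hp'.1 hp'.2]
      simp
    rw [h1, zero_add]
    have h2 := long_le hη0 hE (fun p => ((hl p - htn p : ℕ) : ℝ)) 1 (fun p hp => by
      have h3 : 2 ≤ hl p := (Finset.mem_filter.1 hp).2
      have h4 : ((hl p - htn p : ℕ) : ℝ) ≤ hl p := by exact_mod_cast Nat.sub_le _ _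
      exact h4.trans (one_le_wt hη0 (by omega))) zero_le_one
    linarith

/-- bounds of the mean half length -/
lemma mean_hl (hg : HG_Stmt) {B η0 : ℝ} (hη0 : 0 ≤ η0) {n : ℕ} {f g rho : ℝ}
    (hE : Est B η0 n f g rho) :
    1 ≤ ∑ p ∈ Pc (2 * n - 1), wp (Real.exp (-f)) g rho p * hl p := by
  have _ := hη0
  refine (sum_one hE.crit).symm.le.trans ?_
  refine Finset.sum_le_sum fun p hp => le_mul_of_one_le_right
    (wp_pos g (Real.exp_pos (-f)) hE.crit.1 p).le ?_
  have := hg.2.2 _ p hp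
  exact_mod_cast this.1.trans this.2

/-- the first moment of the exponents -/
lemma first (hH : HGM_Stmt) (hg : HG_Stmt) {B η0 η : ℝ} (hη0 : 0 < η0) (hη : η ≤ η0)
    (hη1 : η ≤ 1 / 6) {n : ℕ} {f g u v rho rho' : ℝ} (hE : Est B η0 n f g rho) (hf : 0 ≤ f)
    (hu : |u| ≤ η) (hv : |v| ≤ η) (h' : CritM n (Real.exp (-(f + u))) (g + v) rho') :
    |∑ p ∈ Pc (2 * n - 1), wp (Real.exp (-f)) g rho p * xx (Real.log (rho' / rho)) u v p| ≤
      (24 + 12 * B) * (Real.log (rho' / rho) ^ 2 + v ^ 2 + Real.exp (-f) * u ^ 2) := by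
  have h := hE.crit
  have h1 := crit_exp h h'
  have h2 := lip hH hg h h'
  set al := Real.log (rho' / rho) with hal
  have hB := hE.pos
  have hs1 : Real.exp (-f) ≤ 1 := Real.exp_le_one_iff.2 (by linarith)
  have hs0 : 0 < Real.exp (-f) := Real.exp_pos _
  have hu0 := abs_nonneg u
  have hv0 := abs_nonneg v
  have ha0 := abs_nonneg al
  have h3 : ∑ p ∈ Pc (2 * n - 1), wp (Real.exp (-f)) g rho p * xx al u v p =
      -∑ p ∈ Pc (2 * n - 1), wp (Real.exp (-f)) g rho p *
        (Real.exp (xx al u v p) - 1 - xx al u v p) := by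
    have h4 : ∑ p ∈ Pc (2 * n - 1), wp (Real.exp (-f)) g rho p *
        (Real.exp (xx al u v p) - 1 - xx al u v p) =
        ∑ p ∈ Pc (2 * n - 1), wp (Real.exp (-f)) g rho p * Real.exp (xx al u v p) -
        ∑ p ∈ Pc (2 * n - 1), wp (Real.exp (-f)) g rho p -
        ∑ p ∈ Pc (2 * n - 1), wp (Real.exp (-f)) g rho p * xx al u v p := by
      rw [← Finset.sum_sub_distrib, ← Finset.sum_sub_distrib]
      exact Finset.sum_congr rfl fun p _ => by ring
    rw [h4, h1, h.2]
    ring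
  rw [h3, abs_neg]
  refine (Finset.abs_sum_le_sum_abs _ _).trans ?_
  have habs : ∀ p ∈ Pc (2 * n - 1), |wp (Real.exp (-f)) g rho p *
      (Real.exp (xx al u v p) - 1 - xx al u v p)| ≤ wp (Real.exp (-f)) g rho p *
        (xx al u v p ^ 2 * Real.exp |xx al u v p|) := by
    intro p _
    have hw := (wp_pos g (Real.exp_pos (-f)) h.1 p).le
    rw [abs_mul, abs_of_nonneg hw]
    exact mul_le_mul_of_nonneg_left (abs_exp_sub _) hw
  refine (Finset.sum_le_sum habs).trans ?_
  rw [split hg]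
  have hsq : ∀ (x y : ℝ), (x + y) ^ 2 ≤ 2 * x ^ 2 + 2 * y ^ 2 := fun x y => by
    nlinarith [sq_nonneg (x - y)]
  have ha2 : al ^ 2 = |al| ^ 2 := (sq_abs al).symm
  have hv2 : v ^ 2 = |v| ^ 2 := (sq_abs v).symm
  have hu2 : u ^ 2 = |u| ^ 2 := (sq_abs u).symm
  -- short pieces
  have hS : ∑ p ∈ (Pc (2 * n - 1)).filter (fun p => hl p = 1), wp (Real.exp (-f)) g rho p *
      (xx al u v p ^ 2 * Real.exp |xx al u v p|) ≤ 6 * al ^ 2 + 24 * v ^ 2 := by
    calc ∑ p ∈ (Pc (2 * n - 1)).filter (fun p => hl p = 1), wp (Real.exp (-f)) g rho p *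
          (xx al u v p ^ 2 * Real.exp |xx al u v p|)
        ≤ ∑ p ∈ (Pc (2 * n - 1)).filter (fun p => hl p = 1), wp (Real.exp (-f)) g rho p *
          (6 * al ^ 2 + 24 * v ^ 2) := by
          refine Finset.sum_le_sum fun p hp => ?_
          have hp' := Finset.mem_filter.1 hp
          refine mul_le_mul_of_nonneg_left ?_ (wp_pos g (Real.exp_pos (-f)) h.1 p).le
          have e1 : xx al u v p = al + v * kap p := by
            unfold xx
            rw [dlt_one hg hp'.1 hp'.2, hp'.2]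
            push_cast
            ring
          have e2 : |(kap p : ℝ)| ≤ 2 := by
            have := (hH.2.2.1 _ p hp'.1).2
            rw [hp'.2] at this
            exact_mod_cast this
          have e3 : |v * kap p| ≤ 2 * |v| := by
            rw [abs_mul]
            have := mul_le_mul_of_nonneg_left e2 hv0
            linarith
          have e4 : |xx al u v p| ≤ |al| + 2 * |v| := by
            rw [e1]
            exact (abs_add_le _ _).trans (by linarith)
          have e5 : xx al u v p ^ 2 ≤ 2 * al ^ 2 + 8 * v ^ 2 := by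
            rw [e1]
            refine (hsq _ _).trans ?_
            have e6 : (v * kap p) ^ 2 ≤ (2 * |v|) ^ 2 := by
              rw [← sq_abs (v * kap p)]
              exact pow_le_pow_left₀ (abs_nonneg _) e3 2
            have e7 : (2 * |v|) ^ 2 = 4 * v ^ 2 := by rw [mul_pow, sq_abs]; norm_num
            linarith
          have e6 : Real.exp |xx al u v p| ≤ 3 := by
            have e7 : |xx al u v p| ≤ 1 := by linarith
            have := Real.exp_le_exp.2 e7
            have := Real.exp_one_lt_d9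
            linarith
          calc xx al u v p ^ 2 * Real.exp |xx al u v p| ≤ (2 * al ^ 2 + 8 * v ^ 2) * 3 :=
                mul_le_mul e5 e6 (Real.exp_pos _).le (by positivity)
            _ = _ := by ring
      _ = (∑ p ∈ (Pc (2 * n - 1)).filter (fun p => hl p = 1), wp (Real.exp (-f)) g rho p) *
          (6 * al ^ 2 + 24 * v ^ 2) := by rw [Finset.sum_mul]
      _ ≤ 1 * (6 * al ^ 2 + 24 * v ^ 2) :=
          mul_le_mul_of_nonneg_right (short_le hg hE) (by positivity)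
      _ = _ := one_mul _
  -- long pieces
  have hL : ∑ p ∈ (Pc (2 * n - 1)).filter (fun p => 2 ≤ hl p), wp (Real.exp (-f)) g rho p *
      (xx al u v p ^ 2 * Real.exp |xx al u v p|) ≤
      (3 * (al ^ 2 + u ^ 2 + 4 * v ^ 2)) * (B * Real.exp (-f)) := by
    refine long_le hη0.le hE _ _ (fun p hp => ?_) (by positivity)
    have hp' := Finset.mem_filter.1 hp
    have hm0 : (0 : ℝ) ≤ hl p := Nat.cast_nonneg _
    have hd0 : (0 : ℝ) ≤ ((hl p - htn p : ℕ) : ℝ) := Nat.cast_nonneg _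
    have hdm : ((hl p - htn p : ℕ) : ℝ) ≤ hl p := by exact_mod_cast Nat.sub_le _ _
    have hk : |(kap p : ℝ)| ≤ 2 * hl p := by exact_mod_cast (hH.2.2.1 _ p hp'.1).2
    have e1 : |xx al u v p| ≤ (|al| + |u| + 2 * |v|) * hl p := by
      unfold xx
      refine (abs_add_le _ _).trans ?_
      have e2 : |al * hl p - u * ((hl p - htn p : ℕ) : ℝ)| ≤ |al| * hl p + |u| * hl p := by
        refine (abs_sub _ _).trans ?_
        rw [abs_mul, abs_mul, abs_of_nonneg hm0, abs_of_nonneg hd0]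
        have := mul_le_mul_of_nonneg_left hdm hu0
        linarith
      have e3 : |v * kap p| ≤ 2 * |v| * hl p := by
        rw [abs_mul]
        have := mul_le_mul_of_nonneg_left hk hv0
        linarith
      linarith
    have e2 : xx al u v p ^ 2 ≤ (3 * (al ^ 2 + u ^ 2 + 4 * v ^ 2)) * (hl p : ℝ) ^ 2 := by
      rw [← sq_abs]
      calc |xx al u v p| ^ 2 ≤ ((|al| + |u| + 2 * |v|) * hl p) ^ 2 :=
            pow_le_pow_left₀ (abs_nonneg _) e1 2
        _ = (|al| + |u| + 2 * |v|) ^ 2 * (hl p : ℝ) ^ 2 := by ring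
        _ ≤ (3 * (al ^ 2 + u ^ 2 + 4 * v ^ 2)) * (hl p : ℝ) ^ 2 := by
            refine mul_le_mul_of_nonneg_right ?_ (by positivity)
            rw [ha2, hu2, hv2]
            nlinarith [sq_nonneg (|al| - |u|), sq_nonneg (|al| - 2 * |v|), sq_nonneg (|u| - 2 * |v|)]
    have e3 : Real.exp |xx al u v p| ≤ Real.exp (6 * η0 * hl p) := by
      refine Real.exp_le_exp.2 (e1.trans ?_)
      exact mul_le_mul_of_nonneg_right (by linarith) hm0
    calc xx al u v p ^ 2 * Real.exp |xx al u v p| ≤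
        ((3 * (al ^ 2 + u ^ 2 + 4 * v ^ 2)) * (hl p : ℝ) ^ 2) * Real.exp (6 * η0 * hl p) :=
          mul_le_mul e2 e3 (Real.exp_pos _).le (by positivity)
      _ = _ := by ring
  have h5 : B * Real.exp (-f) ≤ B := by nlinarith
  have h6 : 0 ≤ al ^ 2 := sq_nonneg _
  have h7 : 0 ≤ v ^ 2 := sq_nonneg _
  have h8 : 0 ≤ u ^ 2 := sq_nonneg _
  have h9 : al ^ 2 * (B * Real.exp (-f)) ≤ al ^ 2 * B := mul_le_mul_of_nonneg_left h5 h6
  have h10 : v ^ 2 * (B * Real.exp (-f)) ≤ v ^ 2 * B := mul_le_mul_of_nonneg_left h5 h7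
  have h11 : 0 ≤ al ^ 2 * B := mul_nonneg h6 hB
  have h12 : 0 ≤ u ^ 2 * (B * Real.exp (-f)) := by positivity
  have h13 : 0 ≤ Real.exp (-f) * u ^ 2 := by positivity
  have h14 : 0 ≤ v ^ 2 * B := mul_nonneg h7 hB
  nlinarith

/-- the Lipschitz bound with the factor `s` -/
lemma lipE (hH : HGM_Stmt) (hg : HG_Stmt) {B η0 η : ℝ} (hη0 : 0 < η0) (hηp : 0 < η) (hη : η ≤ η0)
    (hη1 : η ≤ 1 / 6) (hη2 : (24 + 12 * B) * (3 * η) ≤ 1 / 2) {n : ℕ} {f g u v rho rho' : ℝ}
    (hE : Est B η0 n f g rho) (hf : 0 ≤ f) (hu : |u| ≤ η) (hv : |v| ≤ η)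
    (h' : CritM n (Real.exp (-(f + u))) (g + v) rho') :
    |Real.log (rho' / rho)| ≤ (52 + 26 * B) * (Real.exp (-f) * |u| + |v|) := by
  have h := hE.crit
  have h1 := first hH hg hη0 hη hη1 hE hf hu hv h'
  have h2 := lip hH hg h h'
  set al := Real.log (rho' / rho) with hal
  have hB := hE.pos
  have hs0 : 0 < Real.exp (-f) := Real.exp_pos _
  have hu0 := abs_nonneg u
  have hv0 := abs_nonneg v
  have ha0 := abs_nonneg al
  obtain ⟨hd0, hd1⟩ := delta_sum hg hη0.le hE
  have hM := mean_hl hg hη0.le hE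
  set Mh := ∑ p ∈ Pc (2 * n - 1), wp (Real.exp (-f)) g rho p * (hl p : ℝ) with hMh
  set Dl := ∑ p ∈ Pc (2 * n - 1), wp (Real.exp (-f)) g rho p * ((hl p - htn p : ℕ) : ℝ) with hDl
  set Kp := ∑ p ∈ Pc (2 * n - 1), wp (Real.exp (-f)) g rho p * (kap p : ℝ) with hKp
  have e1 : ∑ p ∈ Pc (2 * n - 1), wp (Real.exp (-f)) g rho p * xx al u v p =
      al * Mh - u * Dl + v * Kp := by
    rw [hMh, hDl, hKp, Finset.mul_sum, Finset.mul_sum, Finset.mul_sum, ← Finset.sum_sub_distrib,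
      ← Finset.sum_add_distrib]
    refine Finset.sum_congr rfl fun p _ => ?_
    unfold xx
    ring
  have e2 : |Kp| ≤ 2 * Mh := by
    rw [hKp, hMh, Finset.mul_sum]
    refine (Finset.abs_sum_le_sum_abs _ _).trans (Finset.sum_le_sum fun p hp => ?_)
    have hw := (wp_pos g (Real.exp_pos (-f)) h.1 p).le
    have hk : |(kap p : ℝ)| ≤ 2 * hl p := by exact_mod_cast (hH.2.2.1 _ p hp).2
    rw [abs_mul, abs_of_nonneg hw]
    calc wp (Real.exp (-f)) g rho p * |(kap p : ℝ)| ≤ wp (Real.exp (-f)) g rho p * (2 * hl p) :=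
          mul_le_mul_of_nonneg_left hk hw
      _ = _ := by ring
  rw [e1] at h1
  -- the main estimate
  have e3 : |al| * Mh ≤ (24 + 12 * B) * (al ^ 2 + v ^ 2 + Real.exp (-f) * u ^ 2) +
      |u| * (B * Real.exp (-f)) + 2 * |v| * Mh := by
    have e4 : |al| * Mh = |al * Mh| := by rw [abs_mul, abs_of_nonneg (by linarith : 0 ≤ Mh)]
    have e5 : al * Mh = (al * Mh - u * Dl + v * Kp) + u * Dl - v * Kp := by ring
    rw [e4, e5]
    refine (abs_sub _ _).trans ?_
    have e6 := abs_add_le (al * Mh - u * Dl + v * Kp) (u * Dl)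
    have e7 : |u * Dl| ≤ |u| * (B * Real.exp (-f)) := by
      rw [abs_mul, abs_of_nonneg hd0]
      exact mul_le_mul_of_nonneg_left hd1 hu0
    have e8 : |v * Kp| ≤ 2 * |v| * Mh := by
      rw [abs_mul]
      have := mul_le_mul_of_nonneg_left e2 hv0
      linarith
    linarith
  -- divide by Mh
  have hal3 : |al| ≤ 3 * η := by linarith
  have e4 : al ^ 2 ≤ 3 * η * |al| := by
    rw [← sq_abs, sq]
    exact mul_le_mul_of_nonneg_right hal3 ha0
  have e5 : v ^ 2 ≤ |v| := by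
    rw [← sq_abs, sq]
    exact mul_le_of_le_one_left hv0 (by linarith)
  have e6 : u ^ 2 ≤ |u| := by
    rw [← sq_abs, sq]
    exact mul_le_of_le_one_left hu0 (by linarith)
  have hK0 : 0 ≤ 24 + 12 * B := by linarith
  have e7 : (24 + 12 * B) * al ^ 2 ≤ 1 / 2 * |al| := by
    calc (24 + 12 * B) * al ^ 2 ≤ (24 + 12 * B) * (3 * η * |al|) :=
          mul_le_mul_of_nonneg_left e4 hK0
      _ = (24 + 12 * B) * (3 * η) * |al| := by ring
      _ ≤ 1 / 2 * |al| := mul_le_mul_of_nonneg_right hη2 ha0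
  have e8 : (24 + 12 * B) * v ^ 2 ≤ (24 + 12 * B) * |v| := mul_le_mul_of_nonneg_left e5 hK0
  have e9 : (24 + 12 * B) * (Real.exp (-f) * u ^ 2) ≤ (24 + 12 * B) * (Real.exp (-f) * |u|) :=
    mul_le_mul_of_nonneg_left (mul_le_mul_of_nonneg_left e6 hs0.le) hK0
  have e10 : |al| * Mh ≤ 1 / 2 * |al| + (24 + 12 * B) * |v| + (24 + 12 * B) *
      (Real.exp (-f) * |u|) + |u| * (B * Real.exp (-f)) + 2 * |v| * Mh := by
    have : (24 + 12 * B) * (al ^ 2 + v ^ 2 + Real.exp (-f) * u ^ 2) =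
      (24 + 12 * B) * al ^ 2 + (24 + 12 * B) * v ^ 2 +
        (24 + 12 * B) * (Real.exp (-f) * u ^ 2) := by ring
    linarith
  -- `Mh ≥ 1`
  have hX0 : 0 ≤ 1 / 2 * |al| + (24 + 12 * B) * |v| + (24 + 12 * B) *
      (Real.exp (-f) * |u|) + |u| * (B * Real.exp (-f)) := by positivity
  have e11 : |al| * Mh ≤ (1 / 2 * |al| + (24 + 12 * B) * |v| + (24 + 12 * B) *
      (Real.exp (-f) * |u|) + |u| * (B * Real.exp (-f)) + 2 * |v|) * Mh := by
    have := le_mul_of_one_le_right hX0 hM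
    have e12 : (1 / 2 * |al| + (24 + 12 * B) * |v| + (24 + 12 * B) *
      (Real.exp (-f) * |u|) + |u| * (B * Real.exp (-f)) + 2 * |v|) * Mh =
      (1 / 2 * |al| + (24 + 12 * B) * |v| + (24 + 12 * B) *
      (Real.exp (-f) * |u|) + |u| * (B * Real.exp (-f))) * Mh + 2 * |v| * Mh := by ring
    linarith
  have e12 := le_of_mul_le_mul_right e11 (by linarith)
  have e13 : 0 ≤ B * |v| := by positivity
  have e14 : 0 ≤ Real.exp (-f) * |u| := by positivity
  have e15 : 0 ≤ B * (Real.exp (-f) * |u|) := by positivity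
  nlinarith

/-- the lower bound -/
lemma lowE (hH : HGM_Stmt) (hg : HG_Stmt) {B η0 η r0 b : ℝ} (hη0 : 0 < η0) (hηp : 0 < η)
    (hη : η ≤ η0) (hη1 : η ≤ 1 / 6) {n : ℕ} (hn : 6 ≤ n) {f g rho rho' : ℝ}
    (hE : Est B η0 n f g rho) (hf : 0 ≤ f) (hgb : |g| ≤ b) (hr0 : 0 < r0) (hr : r0 ≤ rho)
    (h' : CritM n (Real.exp (-(f + η))) g rho') :
    r0 ^ 4 * Real.exp (-b) * (1 - Real.exp (-η)) / (3 + B) * Real.exp (-f) ≤
      Real.log (rho' / rho) := by
  have h := hE.crit
  have h'' : CritM n (Real.exp (-(f + η))) (g + 0) rho' := by rwa [add_zero]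
  have h1 := crit_exp h h''
  have h2 := lip hH hg h h''
  set al := Real.log (rho' / rho) with hal
  have hB := hE.pos
  have hs0 : 0 < Real.exp (-f) := Real.exp_pos _
  have hs1 : Real.exp (-f) ≤ 1 := Real.exp_le_one_iff.2 (by linarith)
  rw [abs_zero, mul_zero, add_zero, abs_of_pos hηp] at h2
  have hal1 : al ≤ η := (le_abs_self al).trans h2
  have hw : ∀ p, 0 ≤ wp (Real.exp (-f)) g rho p :=
    fun p => (wp_pos g (Real.exp_pos _) h.1 p).le
  have hhl : ∀ p ∈ Pc (2 * n - 1), (1 : ℝ) ≤ hl p := by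
    intro p hp
    have := hg.2.2 _ p hp
    exact_mod_cast this.1.trans this.2
  have hx : ∀ p, Real.exp (xx al η 0 p) =
      Real.exp (al * hl p) * Real.exp (-(η * ((hl p - htn p : ℕ) : ℝ))) := by
    intro p
    rw [← Real.exp_add]
    congr 1
    unfold xx
    ring
  have hx1 : ∀ p, Real.exp (-(η * ((hl p - htn p : ℕ) : ℝ))) ≤ 1 := by
    intro p
    apply Real.exp_le_one_iff.2
    have : (0 : ℝ) ≤ ((hl p - htn p : ℕ) : ℝ) := Nat.cast_nonneg _
    have : 0 ≤ η * ((hl p - htn p : ℕ) : ℝ) := by positivity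
    linarith
  have ha0 : 0 ≤ al := by
    by_contra hc
    push Not at hc
    have h3 : (1 : ℝ) ≤ Real.exp al := by
      calc (1 : ℝ) = ∑ p ∈ Pc (2 * n - 1), wp (Real.exp (-f)) g rho p *
            Real.exp (xx al η 0 p) := h1.symm
        _ ≤ ∑ p ∈ Pc (2 * n - 1), wp (Real.exp (-f)) g rho p * Real.exp al := by
            refine Finset.sum_le_sum fun p hp => mul_le_mul_of_nonneg_left ?_ (hw p)
            rw [hx]
            have h4 : Real.exp (al * hl p) ≤ Real.exp al := by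
              apply Real.exp_le_exp.2
              have := mul_le_mul_of_nonpos_left (hhl p hp) hc.le
              linarith
            calc Real.exp (al * hl p) * Real.exp (-(η * ((hl p - htn p : ℕ) : ℝ))) ≤
                Real.exp (al * hl p) * 1 :=
                  mul_le_mul_of_nonneg_left (hx1 p) (Real.exp_pos _).le
              _ ≤ Real.exp al := by linarith
        _ = Real.exp al := by rw [← Finset.sum_mul, h.2, one_mul]
    have := Real.exp_lt_one_iff.2 hc
    linarith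
  -- upper bound
  have h3 : ∑ p ∈ Pc (2 * n - 1), wp (Real.exp (-f)) g rho p * (Real.exp (al * hl p) - 1) ≤
      al * (3 + B) := by
    have h4 : ∑ p ∈ Pc (2 * n - 1), wp (Real.exp (-f)) g rho p * (Real.exp (al * hl p) - 1) ≤
        al * ∑ p ∈ Pc (2 * n - 1), wp (Real.exp (-f)) g rho p * (hl p * Real.exp (al * hl p)) := by
      rw [Finset.mul_sum]
      refine Finset.sum_le_sum fun p _ => ?_
      calc wp (Real.exp (-f)) g rho p * (Real.exp (al * hl p) - 1)
          ≤ wp (Real.exp (-f)) g rho p * (al * hl p * Real.exp (al * hl p)) :=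
            mul_le_mul_of_nonneg_left (exp_sub_one_le _) (hw p)
        _ = _ := by ring
    refine h4.trans (mul_le_mul_of_nonneg_left ?_ ha0)
    rw [split hg]
    have h5 : ∑ p ∈ (Pc (2 * n - 1)).filter (fun p => hl p = 1),
        wp (Real.exp (-f)) g rho p * (hl p * Real.exp (al * hl p)) ≤ 3 := by
      calc ∑ p ∈ (Pc (2 * n - 1)).filter (fun p => hl p = 1),
          wp (Real.exp (-f)) g rho p * (hl p * Real.exp (al * hl p))
          ≤ ∑ p ∈ (Pc (2 * n - 1)).filter (fun p => hl p = 1),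
            wp (Real.exp (-f)) g rho p * 3 := by
            refine Finset.sum_le_sum fun p hp => mul_le_mul_of_nonneg_left ?_ (hw p)
            rw [(Finset.mem_filter.1 hp).2, Nat.cast_one, one_mul, mul_one]
            have e1 : Real.exp al ≤ Real.exp 1 := Real.exp_le_exp.2 (by linarith)
            have e2 := Real.exp_one_lt_d9
            linarith
        _ = (∑ p ∈ (Pc (2 * n - 1)).filter (fun p => hl p = 1),
            wp (Real.exp (-f)) g rho p) * 3 := by rw [Finset.sum_mul]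
        _ ≤ 1 * 3 := mul_le_mul_of_nonneg_right (short_le hg hE) (by norm_num)
        _ = 3 := one_mul _
    have h6 := long_le hη0.le hE (fun p => (hl p : ℝ) * Real.exp (al * hl p)) 1 (fun p hp => by
      have h7 : 2 ≤ hl p := (Finset.mem_filter.1 hp).2
      have h8 : (2 : ℝ) ≤ hl p := by exact_mod_cast h7
      have h9 : Real.exp (al * hl p) ≤ Real.exp (6 * η0 * hl p) := by
        apply Real.exp_le_exp.2
        exact mul_le_mul_of_nonneg_right (by linarith) (by linarith)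
      have h10 : (hl p : ℝ) ≤ (hl p : ℝ) ^ 2 := by nlinarith
      rw [one_mul]
      exact mul_le_mul h10 h9 (Real.exp_pos _).le (by positivity)) zero_le_one
    have h7 : B * Real.exp (-f) ≤ B := by nlinarith
    linarith
  -- the piece tz
  have h4 : wp (Real.exp (-f)) g rho tz * (1 - Real.exp (-η)) ≤ ∑ p ∈ Pc (2 * n - 1),
      wp (Real.exp (-f)) g rho p * (Real.exp (al * hl p) - Real.exp (xx al η 0 p)) := by
    have h5 : ∀ p ∈ Pc (2 * n - 1), 0 ≤ wp (Real.exp (-f)) g rho p *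
        (Real.exp (al * hl p) - Real.exp (xx al η 0 p)) := by
      intro p _
      refine mul_nonneg (hw p) (sub_nonneg.2 ?_)
      rw [hx]
      exact mul_le_of_le_one_right (Real.exp_pos _).le (hx1 p)
    refine le_trans ?_ (Finset.single_le_sum h5 (tz_mem n hn))
    refine mul_le_mul_of_nonneg_left ?_ (hw _)
    rw [hx, tz_hl, tz_htn]
    have h6 : ((4 - 3 : ℕ) : ℝ) = 1 := by norm_num
    rw [h6, mul_one]
    have h8 : 1 ≤ Real.exp (al * (4 : ℕ)) := Real.one_le_exp (by positivity)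
    have h9 : 0 ≤ 1 - Real.exp (-η) := by
      have := Real.exp_le_one_iff.2 (by linarith : -η ≤ 0)
      linarith
    have h10 := mul_le_mul_of_nonneg_right h8 h9
    calc 1 - Real.exp (-η) = 1 * (1 - Real.exp (-η)) := (one_mul _).symm
      _ ≤ Real.exp (al * (4 : ℕ)) * (1 - Real.exp (-η)) := h10
      _ = _ := by ring
  have h5 : ∑ p ∈ Pc (2 * n - 1),
      wp (Real.exp (-f)) g rho p * (Real.exp (al * hl p) - Real.exp (xx al η 0 p)) =
      ∑ p ∈ Pc (2 * n - 1), wp (Real.exp (-f)) g rho p * (Real.exp (al * hl p) - 1) := by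
    have e1 : ∑ p ∈ Pc (2 * n - 1),
        wp (Real.exp (-f)) g rho p * (Real.exp (al * hl p) - Real.exp (xx al η 0 p)) =
        ∑ p ∈ Pc (2 * n - 1), wp (Real.exp (-f)) g rho p * Real.exp (al * hl p) -
        ∑ p ∈ Pc (2 * n - 1), wp (Real.exp (-f)) g rho p * Real.exp (xx al η 0 p) := by
      rw [← Finset.sum_sub_distrib]
      exact Finset.sum_congr rfl fun p _ => by ring
    have e2 : ∑ p ∈ Pc (2 * n - 1), wp (Real.exp (-f)) g rho p * (Real.exp (al * hl p) - 1) =
        ∑ p ∈ Pc (2 * n - 1), wp (Real.exp (-f)) g rho p * Real.exp (al * hl p) -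
        ∑ p ∈ Pc (2 * n - 1), wp (Real.exp (-f)) g rho p := by
      rw [← Finset.sum_sub_distrib]
      exact Finset.sum_congr rfl fun p _ => by ring
    rw [e1, e2, h1, h.2]
  have h6 : r0 ^ 4 * Real.exp (-b) * Real.exp (-f) ≤ wp (Real.exp (-f)) g rho tz := by
    unfold wp
    rw [tz_hl, tz_htn, kap_tz]
    have e1 : r0 ^ 4 ≤ rho ^ 4 := pow_le_pow_left₀ hr0.le hr 4
    have e2 : Real.exp (-b) ≤ Real.exp (g * ((1 : ℤ) : ℝ)) := by
      apply Real.exp_le_exp.2
      have := (abs_le.1 hgb).1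
      push_cast
      linarith
    have e3 : Real.exp (-f) ^ (4 - 3) = Real.exp (-f) := by norm_num
    rw [e3]
    calc r0 ^ 4 * Real.exp (-b) * Real.exp (-f) = r0 ^ 4 * Real.exp (-f) * Real.exp (-b) := by ring
      _ ≤ rho ^ 4 * Real.exp (-f) * Real.exp (g * ((1 : ℤ) : ℝ)) := by gcongr
  have h9 : 0 ≤ 1 - Real.exp (-η) := by
    have := Real.exp_le_one_iff.2 (by linarith : -η ≤ 0)
    linarith
  have h7 : r0 ^ 4 * Real.exp (-b) * Real.exp (-f) * (1 - Real.exp (-η)) ≤ al * (3 + B) := by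
    refine (mul_le_mul_of_nonneg_right h6 h9).trans (h4.trans ?_)
    rw [h5]
    exact h3
  have h8 : 0 < 3 + B := by linarith
  rw [div_mul_eq_mul_div, div_le_iff₀ h8]
  calc r0 ^ 4 * Real.exp (-b) * (1 - Real.exp (-η)) * Real.exp (-f) =
      r0 ^ 4 * Real.exp (-b) * Real.exp (-f) * (1 - Real.exp (-η)) := by ring
    _ ≤ al * (3 + B) := h7

end RHOE

open RHOE in
theorem t_RHOE (hT : TMGE_Stmt) (hH : HGM_Stmt) (hg : HG_Stmt) : RHOE_Stmt := by
  intro a b ha hab
  obtain ⟨C, θ, hC, hθ, hθ1, N, hN⟩ := hT a b ha hab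
  set η0 := -Real.log θ / 12 with hη0d
  have hlog : Real.log θ < 0 := Real.log_neg hθ hθ1
  have hη0 : 0 < η0 := by rw [hη0d]; linarith
  set θ1 := θ * Real.exp (6 * η0) with hθ1d
  have hθ1e : θ1 = Real.exp (Real.log θ / 2) := by
    rw [hθ1d]
    nth_rewrite 1 [← Real.exp_log hθ]
    rw [← Real.exp_add]
    congr 1
    rw [hη0d]
    ring
  have hθ1l : θ1 < 1 := by
    rw [hθ1e]
    exact Real.exp_lt_one_iff.2 (by linarith)
  have hθ1p : 0 < θ1 := by rw [hθ1e]; exact Real.exp_pos _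
  have hterm : ∀ m : ℕ, θ ^ m * ((m : ℝ) ^ 2 * Real.exp (6 * η0 * m)) = (m : ℝ) ^ 2 * θ1 ^ m := by
    intro m
    have e : Real.exp (6 * η0 * m) = Real.exp (6 * η0) ^ m := by
      rw [← Real.exp_nat_mul]
      congr 1
      ring
    rw [e, hθ1d, mul_pow]
    ring
  have hs : Summable fun m : ℕ => θ ^ m * ((m : ℝ) ^ 2 * Real.exp (6 * η0 * m)) := by
    simp only [hterm]
    exact summable_pow_mul_geometric_of_norm_lt_one 2
      (by rw [Real.norm_eq_abs, abs_of_pos hθ1p]; exact hθ1l)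
  set S := ∑' m : ℕ, θ ^ m * ((m : ℝ) ^ 2 * Real.exp (6 * η0 * m)) with hS
  have hS0 : 0 ≤ S := tsum_nonneg fun m => by positivity
  set B := C * S with hBd
  have hB : 0 ≤ B := by positivity
  have hE : ∀ n : ℕ, N ≤ n → ∀ f g rho : ℝ, BoxE a b f g → CritM n (Real.exp (-f)) g rho →
      Est B η0 n f g rho ∧ C⁻¹ ≤ rho := by
    intro n hn f g rho hB' h
    obtain ⟨rho', hc', -, hr1, -, hl'⟩ := hN n hn f g hB'
    have hr : rho' = rho := RHOM.uniq hH hg h hc'
    rw [hr] at hl' hr1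
    refine ⟨⟨h, hB, ?_⟩, hr1⟩
    have h1 := long_sum hl' (H := fun m : ℕ => (m : ℝ) ^ 2 * Real.exp (6 * η0 * m))
      (fun m => by positivity) hC hθ hs
    refine h1.trans (le_of_eq ?_)
    rw [hBd]
    ring
  -- the constants
  set η := min (min η0 (1 / 6)) (1 / (6 * (24 + 12 * B))) with hηd
  have hηp : 0 < η := by
    rw [hηd]
    refine lt_min (lt_min hη0 (by norm_num)) (by positivity)
  have hη1 : η ≤ η0 := (min_le_left _ _).trans (min_le_left _ _)
  have hη2 : η ≤ 1 / 6 := (min_le_left _ _).trans (min_le_right _ _)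
  have hη3 : (24 + 12 * B) * (3 * η) ≤ 1 / 2 := by
    have h1 : η ≤ 1 / (6 * (24 + 12 * B)) := min_le_right _ _
    rw [le_div_iff₀ (by positivity)] at h1
    linarith
  set L := 52 + 26 * B with hL
  have hL0 : 0 < L := by rw [hL]; linarith
  set C' := L + (24 + 12 * B) * (4 * L ^ 2 + 2) with hC'
  have hC'0 : 0 < C' := by positivity
  refine ⟨C', C⁻¹ ^ 4 * Real.exp (-b) * (1 - Real.exp (-η)) / (3 + B), η, hC'0, ?_, hηp,
    max N 6, ?_⟩
  · have h1 : Real.exp (-η) < 1 := Real.exp_lt_one_iff.2 (by linarith)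
    have h2 : 0 < 1 - Real.exp (-η) := by linarith
    positivity
  intro n hn f g rho hBx h
  have hnN : N ≤ n := (le_max_left _ _).trans hn
  have hn6 : 6 ≤ n := (le_max_right _ _).trans hn
  obtain ⟨hEs, hr1⟩ := hE n hnN f g rho hBx h
  have hf : 0 ≤ f := ha.le.trans hBx.1
  have hs0 : 0 < Real.exp (-f) := Real.exp_pos _
  have hs1 : Real.exp (-f) ≤ 1 := Real.exp_le_one_iff.2 (by linarith)
  refine ⟨⟨?_, ?_⟩, ?_, ?_, ?_⟩
  · have h1 := RHOE.sum_one h
    rw [NSP.RHOZ.split hg, four_sum] at h1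
    have h2 := long_le hη0.le hEs (fun _ => (1 : ℝ)) 1 (fun p hp => by
      have h3 : 2 ≤ hl p := (Finset.mem_filter.1 hp).2
      have h4 := one_le_wt hη0.le (m := hl p) (by omega)
      have h5 : (2 : ℝ) ≤ hl p := by exact_mod_cast h3
      linarith) zero_le_one
    simp only [mul_one, one_mul] at h2
    have h3 : B * Real.exp (-f) ≤ C' * Real.exp (-f) := by
      refine mul_le_mul_of_nonneg_right ?_ hs0.le
      rw [hC', hL]
      have : 0 ≤ (24 + 12 * B) * (4 * (52 + 26 * B) ^ 2 + 2) := by positivity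
      linarith
    linarith
  · rw [← four_sum (2 * n - 1) (Real.exp (-f)) g rho]
    exact short_le hg hEs
  · intro u v rho' hu hv h'
    refine (lipE hH hg hη0 hηp hη1 hη2 hη3 hEs hf hu hv h').trans ?_
    refine mul_le_mul_of_nonneg_right ?_ (by positivity)
    rw [hC']
    have : 0 ≤ (24 + 12 * B) * (4 * L ^ 2 + 2) := by positivity
    linarith
  · intro rho' h'
    exact lowE hH hg hη0 hηp hη1 hη2 hn6 hEs hf hBx.2 (inv_pos.2 hC) hr1 h'
  · intro u v rho₁ rho₂ hu hv h₁ h₂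
    have h₂' : CritM n (Real.exp (-(f + -u))) (g + -v) rho₂ := h₂
    have hu' : |-u| ≤ η := by rwa [abs_neg]
    have hv' : |-v| ≤ η := by rwa [abs_neg]
    have h3 := first hH hg hη0 hη1 hη2 hEs hf hu hv h₁
    have h4 := first hH hg hη0 hη1 hη2 hEs hf hu' hv' h₂'
    have h5 := lipE hH hg hη0 hηp hη1 hη2 hη3 hEs hf hu hv h₁
    have h6 := lipE hH hg hη0 hηp hη1 hη2 hη3 hEs hf hu' hv' h₂'
    rw [abs_neg, abs_neg] at h6
    rw [neg_sq, neg_sq] at h4
    set al := Real.log (rho₁ / rho)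
    set be := Real.log (rho₂ / rho)
    have hsq : ∀ x : ℝ, |x| ≤ L * (Real.exp (-f) * |u| + |v|) →
        x ^ 2 ≤ 2 * L ^ 2 * (Real.exp (-f) * u ^ 2 + v ^ 2) := by
      intro x hx
      rw [← sq_abs]
      have e0 : 0 ≤ Real.exp (-f) * |u| + |v| := by positivity
      calc |x| ^ 2 ≤ (L * (Real.exp (-f) * |u| + |v|)) ^ 2 :=
            pow_le_pow_left₀ (abs_nonneg _) hx 2
        _ = L ^ 2 * (Real.exp (-f) * |u| + |v|) ^ 2 := by ring
        _ ≤ L ^ 2 * (2 * (Real.exp (-f) * u ^ 2 + v ^ 2)) := by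
            refine mul_le_mul_of_nonneg_left ?_ (by positivity)
            have e1 : (Real.exp (-f) * |u| + |v|) ^ 2 ≤
                2 * (Real.exp (-f) * |u|) ^ 2 + 2 * |v| ^ 2 := by
              nlinarith [sq_nonneg (Real.exp (-f) * |u| - |v|)]
            have e2 : (Real.exp (-f) * |u|) ^ 2 = Real.exp (-f) * (Real.exp (-f) * u ^ 2) := by
              rw [mul_pow, sq_abs]; ring
            have e3 : Real.exp (-f) * (Real.exp (-f) * u ^ 2) ≤ 1 * (Real.exp (-f) * u ^ 2) :=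
              mul_le_mul_of_nonneg_right hs1 (by positivity)
            have e4 : |v| ^ 2 = v ^ 2 := sq_abs v
            rw [e2, e4] at e1
            linarith
        _ = _ := by ring
    have ha := hsq al h5
    have hb := hsq be h6
    have h7 : ∑ p ∈ Pc (2 * n - 1), wp (Real.exp (-f)) g rho p * RHOM.xx al u v p +
        ∑ p ∈ Pc (2 * n - 1), wp (Real.exp (-f)) g rho p * RHOM.xx be (-u) (-v) p =
        (al + be) * ∑ p ∈ Pc (2 * n - 1), wp (Real.exp (-f)) g rho p * hl p := by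
      rw [← Finset.sum_add_distrib, Finset.mul_sum]
      refine Finset.sum_congr rfl fun p _ => ?_
      unfold RHOM.xx
      ring
    have h8 := mean_hl hg hη0.le hEs
    have h9 : |(al + be) * ∑ p ∈ Pc (2 * n - 1), wp (Real.exp (-f)) g rho p * hl p| ≤
        (24 + 12 * B) * ((4 * L ^ 2 + 2) * (Real.exp (-f) * u ^ 2 + v ^ 2)) := by
      rw [← h7]
      refine (abs_add_le _ _).trans ((add_le_add h3 h4).trans ?_)
      rw [← mul_add]
      refine mul_le_mul_of_nonneg_left ?_ (by linarith)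
      nlinarith
    rw [abs_mul, abs_of_nonneg (by linarith :
      0 ≤ ∑ p ∈ Pc (2 * n - 1), wp (Real.exp (-f)) g rho p * (hl p : ℝ))] at h9
    have h10 : |al + be| ≤ |al + be| *
        ∑ p ∈ Pc (2 * n - 1), wp (Real.exp (-f)) g rho p * (hl p : ℝ) :=
      le_mul_of_one_le_right (abs_nonneg _) h8
    have h11 : 0 ≤ L * (Real.exp (-f) * u ^ 2 + v ^ 2) := by positivity
    calc |al + be| ≤ (24 + 12 * B) * ((4 * L ^ 2 + 2) * (Real.exp (-f) * u ^ 2 + v ^ 2)) :=
          h10.trans h9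
      _ ≤ C' * (Real.exp (-f) * u ^ 2 + v ^ 2) := by
          rw [hC']
          linarith [h11, (by ring : (L + (24 + 12 * B) * (4 * L ^ 2 + 2)) *
            (Real.exp (-f) * u ^ 2 + v ^ 2) = L * (Real.exp (-f) * u ^ 2 + v ^ 2) +
            (24 + 12 * B) * ((4 * L ^ 2 + 2) * (Real.exp (-f) * u ^ 2 + v ^ 2)))]

end Pool.Agent.TPE
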