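import Pool.Agent.TPE.Stmts
import Pool.Agent.TPT.SKELM

/-!
Module SKELE of the project TPE: skeletons of the canonical words.
-/

set_option autoImplicit false

namespace Pool.Agent.TPE

open Finset Filter Topology MeasureTheory
open Pool.Agent.Lib27 Pool.Agent.SapR Pool.Agent.AreaLaw Pool.Agent.FL Pool.Agent.TPT
open Pool.Agent.FS (sc rs bp)
open Pool.Agent.NSP (lc ld tz)

namespace SKELE

open Pool.Agent.TPT.SKELM (ms ms_zero ms_add ms_sum ms_map ms_mul ms_congr exists_fin clo pol mem_pol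
  cf cf_nonneg capKM_eq capKM_mono capKM_nonneg mcap_sub cap_facts)

/-- value of a skeleton -/
noncomputable def ev (F : ℤ → ℤ → ℤ → ℝ) (a : Sk2) : ℝ :=
  rs a.l (fun j t => ∑ b ∈ range (a.k + 1), (a.k.choose b : ℝ) *
    F (a.H - j) (a.Λ + j - 2 * b) (a.A - t))

end SKELE

open Pool.Agent.TPT.SKELM (ms ms_zero ms_add ms_sum ms_map ms_mul ms_congr exists_fin clo pol mem_pol
  cf cf_nonneg capKM_eq capKM_mono capKM_nonneg mcap_sub cap_facts) in
open SKELE in
theorem t_SKELE (hS : SKEb_Stmt) (hH : HGM_Stmt) : SKELE_Stmt := by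
  classical
  intro n hn
  have hex : ∀ (x : ℤ) (m : ℕ), ∃ M : Multiset Sk2, 1 ≤ x → m ≤ n → ASkE n x m 0 M := by
    intro x m
    by_cases hx : 1 ≤ x ∧ m ≤ n
    · obtain ⟨M, hM⟩ := hS n m hn hx.2 x 0 (by omega) (by simpa [gpE] using hx.1)
      exact ⟨M, fun _ _ => hM⟩
    · exact ⟨0, fun h1 h2 => absurd ⟨h1, h2⟩ hx⟩
  choose N hN using hex
  obtain ⟨k, σ, hmem, hsum⟩ := exists_fin (pol n N)
  have hsub : ∀ M : ℕ, n - M / 2 ≤ n := fun M => Nat.sub_le _ _
  refine ⟨k, σ, ⟨?_, ?_, ?_, ?_, ?_, ?_, ?_, ?_⟩⟩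
  · intro F
    have e0 : ∑ i, rs (σ i).l (fun j t => ∑ b ∈ range ((σ i).k + 1), ((σ i).k.choose b : ℝ) *
        F ((σ i).H - j) ((σ i).Λ + j - 2 * b) ((σ i).A - t)) = ms (ev F) (pol n N) :=
      (hsum (ev F)).symm
    rw [e0]
    unfold pol
    rw [ms_sum]
    unfold Omm
    rw [sum_sigma]
    apply sum_congr rfl
    intro x hx
    rw [mem_Icc] at hx
    rw [ms_sum, sum_sigma]
    apply sum_congr rfl
    intro M hM
    rw [ms_sum, sum_product]
    apply sum_congr rfl
    intro T hT
    obtain ⟨c1, c2, c3, c4⟩ := cap_facts hH x M T hx.1 hT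
    rw [ms_map]
    have e1 := (hN x (n - M / 2) hx.1 (hsub M)).repr
      (fun u v w => F (u + mlev T) (v + mlat x T) w)
    unfold StE AE at e1
    simp only at e1
    rw [show 2 * (n - M / 2) = 2 * n - M by omega] at e1
    have e2 : ms (fun a => ev F (clo x T a)) (N x (n - M / 2)) =
        ms (ev (fun u v w => F (u + mlev T) (v + mlat x T) w)) (N x (n - M / 2)) := by
      apply ms_congr
      intro a _
      unfold ev clo
      apply Pool.Agent.FS.rs_congr
      intro j t _ _
      apply sum_congr rfl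
      intro b _
      push_cast
      congr 2 <;> ring
    rw [e2]
    change _ = ((N x (n - M / 2)).map (fun σ => rs σ.l (fun j t => ∑ b ∈ range (σ.k + 1),
      (σ.k.choose b : ℝ) * F (((σ.H : ℤ) - j) + mlev T) ((σ.Λ + j - 2 * b) + mlat x T)
        (σ.A - t)))).sum
    rw [← e1]
    apply sum_congr rfl
    intro w _
    unfold zl zt am
    push_cast
    rfl
  · intro i
    obtain ⟨x, M, T, b, hx, hM, hT, hb, hab⟩ := mem_pol (hmem i)
    rw [hab]
    have := (hN x (n - M / 2) hx (hsub M)).len_le b hb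
    unfold clo
    simp only
    omega
  · intro i
    obtain ⟨x, M, T, b, hx, hM, hT, hb, hab⟩ := mem_pol (hmem i)
    rw [hab]
    obtain ⟨c1, c2, c3, c4⟩ := cap_facts hH x M T hx hT
    have := (hN x (n - M / 2) hx (hsub M)).H_le b hb
    unfold clo
    simp only
    omega
  · intro i y hy
    obtain ⟨x, M, T, b, hx, hM, hT, hb, hab⟩ := mem_pol (hmem i)
    rw [hab] at hy
    unfold clo at hy
    simp only at hy
    have := (hN x (n - M / 2) hx (hsub M)).y_le b hb y hy
    omega
  · intro i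
    obtain ⟨x, M, T, b, hx, hM, hT, hb, hab⟩ := mem_pol (hmem i)
    rw [hab]
    exact (hN x (n - M / 2) hx (hsub M)).sum_le b hb
  · intro i
    obtain ⟨x, M, T, b, hx, hM, hT, hb, hab⟩ := mem_pol (hmem i)
    rw [hab]
    refine ((hN x (n - M / 2) hx (hsub M)).A_le b hb).trans ?_
    exact Nat.mul_le_mul_left 2 (Nat.pow_le_pow_left (hsub M) 2)
  · intro i
    obtain ⟨x, M, T, b, hx, hM, hT, hb, hab⟩ := mem_pol (hmem i)
    rw [hab]
    obtain ⟨c1, c2, c3, c4⟩ := cap_facts hH x M T hx hT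
    have := (hN x (n - M / 2) hx (hsub M)).lam_le b hb
    unfold clo
    simp only
    refine (abs_add_le _ _).trans ?_
    have h1 : ((n - M / 2 : ℕ) : ℤ) = (n : ℤ) - ((M / 2 : ℕ) : ℤ) := by
      rw [Nat.cast_sub (by omega)]
    have h2 : ((M : ℕ) : ℤ) = 2 * ((M / 2 : ℕ) : ℤ) := by omega
    rw [h1] at this
    rw [h2] at c4
    linarith
  · intro s g τ τ' ρ hs hτ hτ' hρ hρ2 hyp
    set K : ℝ := capKM n s g ρ with hKdef
    have hK0 : 0 ≤ K := capKM_nonneg n s g ρ hs hρ
    set G : ℕ → Sk2 → ℝ := fun m a => s ^ (m - a.H) * Real.exp (g * a.Λ) *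
      ((1 + s * Real.exp g) * τ) ^ a.l.length *
      ((1 + Real.exp (-(2 * g))) * τ') ^ a.k with hG
    change ρ ^ n * ∑ i, G n (σ i) ≤ 8 * K ^ 2
    rw [← hsum (G n)]
    unfold pol
    rw [ms_sum, mul_sum]
    have hterm : ∀ x ∈ Icc (1 : ℤ) (2 * n), ρ ^ n * ms (G n)
        (∑ M ∈ range (2 * n + 1), ∑ T ∈ MCap x M, (N x (n - M / 2)).map (clo x T)) ≤
        ∑ M ∈ range (2 * n + 1), ∑ T ∈ MCap x M,
          ρ ^ (M / 2) * s ^ (M / 2 - mlev T) * Real.exp (g * mlat x T) * (8 * K) := by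
      intro x hx
      rw [mem_Icc] at hx
      rw [ms_sum, mul_sum]
      apply sum_le_sum
      intro M hM
      rw [mem_range] at hM
      rw [ms_sum, mul_sum]
      apply sum_le_sum
      intro T hT
      obtain ⟨c1, c2, c3, c4⟩ := cap_facts hH x M T hx.1 hT
      have e1 : ms (G n) ((N x (n - M / 2)).map (clo x T)) =
          (s ^ (M / 2 - mlev T) * Real.exp (g * mlat x T)) *
            ms (G (n - M / 2)) (N x (n - M / 2)) := by
        rw [ms_map, ← ms_mul]
        apply ms_congr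
        intro a ha
        have h4 := (hN x (n - M / 2) hx.1 (hsub M)).H_le a ha
        have h5 : s ^ (n - (a.H + mlev T)) = s ^ (M / 2 - mlev T) * s ^ (n - M / 2 - a.H) := by
          rw [← pow_add]
          congr 1
          omega
        have h6 : Real.exp (g * ((a.Λ + mlat x T : ℤ) : ℝ)) =
            Real.exp (g * mlat x T) * Real.exp (g * a.Λ) := by
          rw [← Real.exp_add]
          congr 1
          push_cast
          ring
        rw [hG]
        unfold clo
        simp only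
        rw [h5, h6]
        ring
      have e2 : ρ ^ n = ρ ^ (M / 2) * ρ ^ (n - M / 2) := by
        rw [← pow_add]; congr 1; omega
      have e3 : ρ ^ (n - M / 2) * ms (G (n - M / 2)) (N x (n - M / 2)) ≤
          8 * capKM (n - M / 2) s g ρ := by
        have e30 := (hN x (n - M / 2) hx.1 (hsub M)).count s g τ τ' ρ hs hτ hτ' hρ hρ2 hyp
        have e31 : vj ρ 0 = 1 := rfl
        rw [e31, mul_one] at e30
        exact e30
      have e4 : 8 * capKM (n - M / 2) s g ρ ≤ 8 * capKM n s g ρ :=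
        mul_le_mul_of_nonneg_left (capKM_mono (n - M / 2) n (hsub M) s g ρ hs hρ) (by norm_num)
      rw [e1, e2]
      have e5 := mul_le_mul_of_nonneg_left (e3.trans e4)
        (show 0 ≤ ρ ^ (M / 2) * (s ^ (M / 2 - mlev T) * Real.exp (g * mlat x T)) by positivity)
      refine le_trans (le_of_eq ?_) (e5.trans (le_of_eq ?_))
      · ring
      · rw [hKdef]; ring
    refine (Finset.sum_le_sum hterm).trans ?_
    simp only [← Finset.sum_mul]
    rw [show 8 * K ^ 2 = K * (8 * K) by ring]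
    refine mul_le_mul_of_nonneg_right ?_ (by linarith)
    -- sum over the caps
    rw [sum_comm]
    have hempty : ∀ (x : ℤ) (M : ℕ), 1 ≤ x → (M % 2 = 1 ∨ ((M / 2 : ℕ) : ℤ) < x) →
        MCap x M = ∅ := by
      intro x M hx hor
      rw [Finset.eq_empty_iff_forall_notMem]
      intro T hT
      obtain ⟨c1, c2, c3, c4⟩ := cap_facts hH x M T hx hT
      omega
    have e6 : ∑ M ∈ range (2 * n + 1), ∑ x ∈ Icc (1 : ℤ) (2 * n), ∑ T ∈ MCap x M,
        ρ ^ (M / 2) * s ^ (M / 2 - mlev T) * Real.exp (g * mlat x T) =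
        ∑ M ∈ (range (2 * n + 1)).filter (fun M => M % 2 = 0), ∑ x ∈ Icc (1 : ℤ) (2 * n),
          ∑ T ∈ MCap x M, ρ ^ (M / 2) * s ^ (M / 2 - mlev T) * Real.exp (g * mlat x T) := by
      rw [Finset.sum_filter]
      apply sum_congr rfl
      intro M hM
      by_cases h2 : M % 2 = 0
      · rw [if_pos h2]
      · rw [if_neg h2]
        apply sum_eq_zero
        intro x hx
        rw [mem_Icc] at hx
        rw [hempty x M hx.1 (Or.inl (by omega)), sum_empty]
    rw [e6]
    have e7 : ∑ M ∈ (range (2 * n + 1)).filter (fun M => M % 2 = 0), ∑ x ∈ Icc (1 : ℤ) (2 * n),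
          ∑ T ∈ MCap x M, ρ ^ (M / 2) * s ^ (M / 2 - mlev T) * Real.exp (g * mlat x T) ≤
        ∑ M ∈ (range (2 * n + 1)).filter (fun M => M % 2 = 0), cf s g ρ (M / 2) := by
      apply sum_le_sum
      intro M hM
      rw [mem_filter, mem_range] at hM
      unfold cf
      have hM2 : 2 * (M / 2) = M := by omega
      rw [hM2]
      have hs2 : ∑ x ∈ Icc (1 : ℤ) (2 * n), ∑ T ∈ MCap x M,
            ρ ^ (M / 2) * s ^ (M / 2 - mlev T) * Real.exp (g * mlat x T) ≤
          ∑ x ∈ (Icc (1 : ℤ) (2 * n)).filter (fun x : ℤ => x ≤ ((M / 2 : ℕ) : ℤ)),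
            ∑ T ∈ MCap x M,
              ρ ^ (M / 2) * s ^ (M / 2 - mlev T) * Real.exp (g * mlat x T) := by
        rw [Finset.sum_filter]
        apply sum_le_sum
        intro x hx
        rw [mem_Icc] at hx
        by_cases hxM : x ≤ ((M / 2 : ℕ) : ℤ)
        · rw [if_pos hxM]
        · rw [if_neg hxM, hempty x M hx.1 (Or.inr (by omega)), sum_empty]
      refine hs2.trans ?_
      apply Finset.sum_le_sum_of_subset_of_nonneg
      · intro x hx
        rw [mem_filter, mem_Icc] at hx
        rw [mem_Icc]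
        exact ⟨hx.1.1, hx.2⟩
      · intro x _ _
        exact Finset.sum_nonneg fun T _ => by positivity
    refine e7.trans ?_
    rw [hKdef, capKM_eq]
    have hinj : Set.InjOn (fun M => M / 2) (((range (2 * n + 1)).filter (fun M => M % 2 = 0) :
        Finset ℕ) : Set ℕ) := by
      intro a ha b hb hab
      rw [mem_coe, mem_filter] at ha hb
      simp only at hab
      omega
    rw [← Finset.sum_image (f := fun m => cf s g ρ m) hinj]
    apply Finset.sum_le_sum_of_subset_of_nonneg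
    · intro m hm
      rw [mem_image] at hm
      obtain ⟨M, hM, rfl⟩ := hm
      rw [mem_filter, mem_range] at hM
      rw [mem_range]
      omega
    · intro m _ _
      exact cf_nonneg s g ρ m hs hρ

end Pool.Agent.TPE
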