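import Pool.Agent.TPE.Stmts
import Pool.Agent.TPT.SKAb
import Pool.Agent.NSP.SKZa

/-!
Module SKEa: recursion of the four states of the automaton of the word `jp jp jm jm`.
-/

set_option autoImplicit false

namespace Pool.Agent.TPE.SKEA

open Finset Filter Topology MeasureTheory
open Pool.Agent.Lib27 Pool.Agent.SapR Pool.Agent.AreaLaw Pool.Agent.FL Pool.Agent.TPT
open Pool.Agent.NSP (lc ld tz)

lemma jp_ne_jm : jp ≠ jm := by decide
lemma jp_ne_tz : jp ≠ tz := by decide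
lemma jm_ne_tz : jm ≠ tz := by decide

lemma jp_hl : hl jp = 1 := by decide
lemma jm_hl : hl jm = 1 := by decide
lemma jp_ht : ht jp = 1 := by decide
lemma jm_ht : ht jm = 1 := by decide
lemma jp_htn : htn jp = 1 := by decide
lemma jm_htn : htn jm = 1 := by decide
lemma jp_jump : jump jp = 1 := by decide
lemma jm_jump : jump jm = -1 := by decide
lemma jp_kap : kap jp = 0 := by decide
lemma jm_kap : kap jm = 0 := by decide
lemma tz_kap : kap tz = 1 := by decide

lemma jp_free : FreePiece jp.1 jp.2 := by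
  refine ⟨?_, ?_⟩
  · unfold StripPair; decide
  · intro k h1 h2
    have h3 : lev (ep 0 jp.1) = 1 := by decide
    rw [h3] at h2
    omega

lemma jm_free : FreePiece jm.1 jm.2 := by
  refine ⟨?_, ?_⟩
  · unfold StripPair; decide
  · intro k h1 h2
    have h3 : lev (ep 0 jm.1) = 1 := by decide
    rw [h3] at h2
    omega

lemma jp_mem (r : ℕ) (hr : 10 ≤ r) (x : ℤ) (hx : 1 ≤ x) : jp ∈ allowed r x := by
  rw [M41.mem_allowed, M41.mem_Pc]
  refine ⟨⟨jp_free, ?_⟩, hx, ?_, ?_⟩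
  · have : jp.1.length + jp.2.length = 2 := by decide
    omega
  · rw [jp_jump]; omega
  · intro v h1 h2
    have h3 : ∀ v ∈ vt 0 jp.1, v = (0, 0) ∨ v = (1, 0) := by decide
    have h4 := h3 v h1
    rw [jp_jump] at h2
    have h5 : ep 0 jp.1 = (1, 0) := by decide
    rw [h5] at h2
    unfold jp at h2
    simp [dv, Prod.ext_iff] at h2
    rcases h4 with rfl | rfl <;> simp at h2 <;> omega

lemma jm_mem (r : ℕ) (hr : 10 ≤ r) (x : ℤ) (hx : 2 ≤ x) : jm ∈ allowed r x := by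
  rw [M41.mem_allowed, M41.mem_Pc]
  refine ⟨⟨jm_free, ?_⟩, by omega, ?_, ?_⟩
  · have : jm.1.length + jm.2.length = 2 := by decide
    omega
  · rw [jm_jump]; omega
  · intro v h1 h2
    have h3 : ∀ v ∈ vt 0 jm.1, v = (0, 0) ∨ v = (0, 1) := by decide
    have h4 := h3 v h1
    rw [jm_jump] at h2
    have h5 : ep 0 jm.1 = (0, 1) := by decide
    rw [h5] at h2
    unfold jm at h2
    simp [dv, Prod.ext_iff] at h2
    rcases h4 with rfl | rfl <;> simp at h2 <;> omega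

lemma jm_not_mem (r : ℕ) (x : ℤ) (hx : x < 2) : jm ∉ allowed r x := by
  intro h
  have := ((M41.mem_allowed _ _ _).1 h).2.2.1
  rw [jm_jump] at this
  omega

lemma sh_sh (a b c a' b' c' : ℤ) (F : ℤ → ℤ → ℤ → ℝ) :
    sh a b c (sh a' b' c' F) = sh (a' + a) (b' + b) (c' + c) F := by
  funext u v w
  unfold sh
  congr 1 <;> ring

lemma inn_sh (x : ℤ) (p : Wd × Wd) (F : ℤ → ℤ → ℤ → ℝ) :
    SKAP.inn x p F = sh (htn p) (kap p) (ht p * (2 * x + jump p)) F := by
  funext u v w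
  unfold SKAP.inn sh
  congr 1 <;> ring

lemma AE_zero (hH : HGM_Stmt) (n : ℕ) (x : ℤ) (hx : 1 ≤ x) (F : ℤ → ℤ → ℤ → ℝ) :
    AE n x 0 F = 0 := by
  unfold AE
  rw [mul_zero, SKAP.MArch_zero hH x hx, sum_empty]

lemma AE_step (hK : K2M_Stmt) (hH : HGM_Stmt) (hA : ARS_Stmt) (n m : ℕ) (hn : 6 ≤ n) (hm : m ≤ n)
    (x : ℤ) (hx : 1 ≤ x) (F : ℤ → ℤ → ℤ → ℝ) :
    AE n x m F = ∑ a ∈ MCap x (2 * m), F (mlev a) (mlat x a) 0 +
      ∑ p ∈ othE n x m, AE n (x + jump p) (m - hl p)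
        (sh (htn p) (kap p) (ht p * (2 * x + jump p)) F) +
      (AE n (x + 1) (m - 1) (sh 1 0 (2 * x + 1) F) +
      (if 2 ≤ x then AE n (x - 1) (m - 1) (sh 1 0 (2 * x - 1) F) else 0) +
      AE n x (m - 4) (sh 3 1 (6 * x) F)) := by
  classical
  have hr : 10 ≤ 2 * n - 1 := by omega
  have hm2 : 2 * m ≤ 2 * n - 1 + 2 := by omega
  set G : Wd × Wd → ℝ := fun p => AE n (x + jump p) (m - hl p)
    (sh (htn p) (kap p) (ht p * (2 * x + jump p)) F) with hG
  have h0 : AE n x m F = ∑ a ∈ MCap x (2 * m), F (mlev a) (mlat x a) 0 +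
      ∑ p ∈ allowed (2 * n - 1) x, G p := by
    unfold AE
    rw [hK (2 * n - 1) x (2 * m) hx hm2
      (fun a => F (mlev a) (mlat x a) (ArM (2 * n - 1) x a))]
    rw [sum_congr rfl (fun p hp => SKAP.step hH hA (2 * n - 1) x m hx hm2 p hp F)]
    congr 1
    · apply sum_congr rfl
      intro T hT
      rw [hA.2.1 (2 * n - 1) x (2 * m) T hx hm2 hT]
      simp
    · apply sum_congr rfl
      intro p _
      rw [hG, inn_sh]
      rfl
  have hz : ∀ p ∈ allowed (2 * n - 1) x, ¬ hl p ≤ m → G p = 0 := by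
    intro p hp hpm
    rw [hG]
    simp only
    rw [show m - hl p = 0 by omega, AE_zero hH _ _ ((M41.mem_allowed _ _ _).1 hp).2.2.1]
  have hsplit : ∑ p ∈ allowed (2 * n - 1) x, G p = ∑ p ∈ othE n x m, G p +
      ∑ p ∈ (allowed (2 * n - 1) x).filter (fun p => ¬ (p ≠ jp ∧ p ≠ jm ∧ p ≠ tz)), G p := by
    rw [← Finset.sum_filter_add_sum_filter_not (allowed (2 * n - 1) x)
      (fun p => p ≠ jp ∧ p ≠ jm ∧ p ≠ tz)]
    congr 1
    rw [← Finset.sum_filter_add_sum_filter_not ((allowed (2 * n - 1) x).filter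
      (fun p => p ≠ jp ∧ p ≠ jm ∧ p ≠ tz)) (fun p => hl p ≤ m)]
    rw [Finset.filter_filter]
    have : ∑ p ∈ ((allowed (2 * n - 1) x).filter (fun p => p ≠ jp ∧ p ≠ jm ∧ p ≠ tz)).filter
        (fun p => ¬ hl p ≤ m), G p = 0 := by
      apply sum_eq_zero
      intro p hp
      rw [mem_filter, mem_filter] at hp
      exact hz p hp.1.1 hp.2
    rw [this, add_zero]
    apply sum_congr _ (fun _ _ => rfl)
    unfold othE
    ext p
    simp only [mem_filter]
    tauto
  have eP : G jp = AE n (x + 1) (m - 1) (sh 1 0 (2 * x + 1) F) := by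
    rw [hG]
    simp only
    rw [jp_jump, jp_hl, jp_htn, jp_kap, jp_ht, one_mul]
    rfl
  have eM : G jm = AE n (x - 1) (m - 1) (sh 1 0 (2 * x - 1) F) := by
    rw [hG]
    simp only
    rw [jm_jump, jm_hl, jm_htn, jm_kap, jm_ht, one_mul]
    rfl
  have eT : G tz = AE n x (m - 4) (sh 3 1 (6 * x) F) := by
    rw [hG]
    simp only
    rw [NSP.SKZ.tz_jump, NSP.SKZ.tz_hl, NSP.SKZ.tz_htn, tz_kap, NSP.SKZ.tz_ht, add_zero, add_zero]
    congr 2
    ring
  have hspec : ∑ p ∈ (allowed (2 * n - 1) x).filter (fun p => ¬ (p ≠ jp ∧ p ≠ jm ∧ p ≠ tz)),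
      G p = AE n (x + 1) (m - 1) (sh 1 0 (2 * x + 1) F) +
      (if 2 ≤ x then AE n (x - 1) (m - 1) (sh 1 0 (2 * x - 1) F) else 0) +
      AE n x (m - 4) (sh 3 1 (6 * x) F) := by
    rw [← eP, ← eM, ← eT]
    by_cases h2 : 2 ≤ x
    · have hset : (allowed (2 * n - 1) x).filter (fun p => ¬ (p ≠ jp ∧ p ≠ jm ∧ p ≠ tz)) =
          {jp, jm, tz} := by
        ext p
        rw [mem_filter, mem_insert, mem_insert, mem_singleton]
        constructor
        · rintro ⟨_, h3⟩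
          by_contra hc
          push Not at hc
          exact h3 hc
        · rintro (rfl | rfl | rfl)
          · exact ⟨jp_mem _ hr x hx, fun hc => hc.1 rfl⟩
          · exact ⟨jm_mem _ hr x h2, fun hc => hc.2.1 rfl⟩
          · exact ⟨NSP.SKZ.tz_mem _ hr x hx, fun hc => hc.2.2 rfl⟩
      rw [hset, sum_insert (by
        rw [mem_insert, mem_singleton]
        rintro (h3 | h3)
        · exact jp_ne_jm h3
        · exact jp_ne_tz h3), sum_pair jm_ne_tz, if_pos h2]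
      ring
    · have hset : (allowed (2 * n - 1) x).filter (fun p => ¬ (p ≠ jp ∧ p ≠ jm ∧ p ≠ tz)) =
          {jp, tz} := by
        ext p
        rw [mem_filter, mem_insert, mem_singleton]
        constructor
        · rintro ⟨h4, h3⟩
          by_contra hc
          push Not at hc
          refine h3 ⟨hc.1, ?_, hc.2⟩
          rintro rfl
          exact jm_not_mem _ x (by omega) h4
        · rintro (rfl | rfl)
          · exact ⟨jp_mem _ hr x hx, fun hc => hc.1 rfl⟩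
          · exact ⟨NSP.SKZ.tz_mem _ hr x hx, fun hc => hc.2.2 rfl⟩
      rw [hset, sum_pair jp_ne_tz, if_neg h2]
      ring
  rw [h0, hsplit, hspec]
  ring

end Pool.Agent.TPE.SKEA

namespace Pool.Agent.TPE

open Finset
open Pool.Agent.Lib27 Pool.Agent.SapR Pool.Agent.AreaLaw Pool.Agent.FL Pool.Agent.TPT

theorem t_SKEa (hK : K2M_Stmt) (hH : HGM_Stmt) (hA : ARS_Stmt) (_hg : HG_Stmt) : SKEa_Stmt := by
  intro n m x j F hn _ hmn hj hgp
  have hx : 1 ≤ x := by
    refine le_trans ?_ hgp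
    unfold gpE
    split_ifs <;> omega
  have h0 := SKEA.AE_step hK hH hA n m hn hmn x hx F
  have e4 : m - 1 - 3 = m - 4 := by omega
  have e3 : m - 1 - 2 = m - 3 := by omega
  have e2 : m - 1 - 1 = m - 2 := by omega
  have s4 : sh 3 0 (6 * (x + 1) + 1) (sh 1 0 (2 * x + 1) F) = sh 4 0 (8 * x + 8) F := by
    rw [SKEA.sh_sh]
    congr 1
    ring
  have s3 : sh 2 0 (4 * (x + 1) - 4) (sh 1 0 (2 * x + 1) F) = sh 3 0 (6 * x + 1) F := by
    rw [SKEA.sh_sh]
    congr 1
    ring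
  have s2 : sh 1 0 (2 * (x - 1) - 1) (sh 1 0 (2 * x - 1) F) = sh 2 0 (4 * x - 4) F := by
    rw [SKEA.sh_sh]
    congr 1
    ring
  have x1 : x + 1 - 1 = x := by ring
  have x2 : x + 1 - 2 = x - 1 := by ring
  have x3 : x - 1 - 1 = x - 2 := by ring
  have hc : j = 0 ∨ j = 1 ∨ j = 2 ∨ j = 3 := by omega
  rcases hc with rfl | rfl | rfl | rfl
  · have hnx : nxE 0 = 1 := rfl
    rw [hnx, if_neg (by norm_num)]
    have hif : (if 0 ≤ 1 ∧ 2 ≤ x then AE n (x - 1) (m - 1) (sh 1 0 (2 * x - 1) F) else 0) =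
        if 2 ≤ x then AE n (x - 1) (m - 1) (sh 1 0 (2 * x - 1) F) else 0 := by
      congr 1
      simp
    rw [hif]
    simp only [StE]
    rw [s4, x1, e4, h0]
    ring
  · have hnx : nxE 1 = 2 := rfl
    rw [hnx, if_neg (by norm_num)]
    have h2 : 2 ≤ x := hgp
    rw [if_pos ⟨le_refl _, h2⟩]
    rw [if_pos h2] at h0
    simp only [StE]
    rw [s4, s3, x1, x2, e4, e3, h0]
    ring
  · have hnx : nxE 2 = 2 := rfl
    rw [hnx, if_pos rfl]
    have h2 : 3 ≤ x := hgp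
    rw [if_pos (by omega)] at h0
    simp only [StE]
    rw [s4, s3, s2, x1, x2, x3, e4, e3, e2, h0]
    ring
  · have hnx : nxE 3 = 1 := rfl
    have h2 : 2 ≤ x := hgp
    rw [hnx, if_neg (by norm_num), if_neg (by norm_num)]
    rw [if_pos h2] at h0
    simp only [StE]
    rw [s4, x1, e4, h0]
    ring

end Pool.Agent.TPE
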