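import Pool.Agent.TPE.SKEb3

/-!
Module TPE_SKEb, part 4: the weighted count and the induction.
-/

set_option autoImplicit false

namespace Pool.Agent.TPE.SKE

open Finset Filter Topology MeasureTheory
open Pool.Agent.Lib27 Pool.Agent.SapR Pool.Agent.AreaLaw Pool.Agent.FL Pool.Agent.TPT
open Pool.Agent.FS (rs rs_nil rs_cons rs_congr rs_add rs_ge_zero)
open Pool.Agent.NSP (lc ld tz)
open Pool.Agent.NSP.SKZ (tz_hl tz_ht tz_htn tz_jump tz_mem lc_ne_tz ld_ne_tz)
open Pool.Agent.TPT.SKAP (ms ms_zero ms_add ms_sum ms_map ms_val ms_mul ms_add_fun ms_congr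
  pascal shf tol capSk cf cf_nonneg MCap_sub MArch_zero gap_le glue_nonempty wp_nonneg lc_mem
  ld_mem lc_hl ld_hl lc_ht ld_ht lc_htn ld_htn lc_jump ld_jump lc_kap ld_kap lc_ne_ld)

lemma vj_ge (j : ℕ) (ρ : ℝ) (h0 : 0 < ρ) (h1 : ρ ≤ 1 / 2) : 1 ≤ 8 * vj ρ j := by
  have e2 : ρ ^ 2 ≤ 1 / 4 := by nlinarith
  have e3 : ρ ^ 3 ≤ 1 / 8 := by
    have : ρ ^ 3 = ρ ^ 2 * ρ := by ring
    rw [this]
    nlinarith [sq_nonneg ρ]
  match j with
  | 0 =>
    have h : vj ρ 0 = 1 := rfl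
    rw [h]
    norm_num
  | 1 =>
    have h : vj ρ 1 = 1 - ρ ^ 3 := rfl
    rw [h]
    linarith
  | 2 =>
    have h : vj ρ 2 = 1 - ρ ^ 3 - ρ ^ 2 := rfl
    rw [h]
    linarith
  | k + 3 =>
    have h : vj ρ (k + 3) = 1 - ρ := rfl
    rw [h]
    linarith

/-- the computation for the values `v_j` -/
lemma vj_rec (j : ℕ) (hj : j ≤ 3) (τ τ' ρ z L W : ℝ)
    (hW : W ≤ 1 + (1 - τ) * (ρ ^ 4 + z) + (1 - τ') * L) :
    (W - 2 * ρ - z - L) + ρ * vj ρ (nxE j) +
      (if j = 2 then ρ * vj ρ 3 else if j ≤ 1 then ρ else 0) +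
      τ * (ρ ^ 4 + z) + τ' * L ≤ vj ρ j := by
  have h : j = 0 ∨ j = 1 ∨ j = 2 ∨ j = 3 := by omega
  rcases h with rfl | rfl | rfl | rfl
  · simp only [nxE, vj]
    norm_num
    nlinarith
  · simp only [nxE, vj]
    norm_num
    nlinarith
  · simp only [nxE, vj]
    norm_num
    nlinarith
  · simp only [nxE, vj]
    norm_num
    nlinarith

section count

variable {s g τ τ' ρ : ℝ} (hs : 0 < s) (hτ : 0 ≤ τ) (hτ' : 0 ≤ τ') (hρ : 0 < ρ)
  (hρ2 : ρ ≤ 1 / 2)

include hs hτ hτ' hρ hρ2 in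
lemma inner {n : ℕ} {x : ℤ} {m m' j : ℕ} {M : Multiset Sk2} (hM : AS n x m' j M) (hmm : m' < m)
    (hyp : ∑ p ∈ Pc (2 * n - 1), wp s g ρ p ≤ 1 + (1 - τ) * (ρ ^ 4 + wp s g ρ tz) +
      (1 - τ') * (wp s g ρ lc + wp s g ρ ld)) :
    ρ ^ m' * ms (wv s g τ τ' m') M ≤ 8 * vj ρ j * ∑ i ∈ range m, cf s g ρ i := by
  have hv := vj_ge j ρ hρ hρ2
  refine (hM.count s g τ τ' ρ hs hτ hτ' hρ hρ2 hyp).trans ?_
  refine mul_le_mul_of_nonneg_left ?_ (by linarith)
  have e : capKM m' s g ρ = ∑ i ∈ range (m' + 1), cf s g ρ i := rfl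
  rw [e]
  apply Finset.sum_le_sum_of_subset_of_nonneg
  · intro a ha
    rw [mem_range] at *
    omega
  · intro a _ _
    exact cf_nonneg s g ρ a hs hρ

include hs hτ hτ' hρ hρ2 in
lemma shf_count (hg : HG_Stmt) {n : ℕ} {x : ℤ} {m j : ℕ} {p : Wd × Wd}
    (hp : p ∈ allowed (2 * n - 1) x) (hpm : hl p ≤ m) {M : Multiset Sk2}
    (hM : AS n (x + jump p) (m - hl p) j M)
    (hyp : ∑ p ∈ Pc (2 * n - 1), wp s g ρ p ≤ 1 + (1 - τ) * (ρ ^ 4 + wp s g ρ tz) +
      (1 - τ') * (wp s g ρ lc + wp s g ρ ld)) :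
    ρ ^ m * ms (wv s g τ τ' m) (M.map (shf x p)) ≤
      wp s g ρ p * (8 * vj ρ j * ∑ i ∈ range m, cf s g ρ i) := by
  have hp1 := ((M41.mem_allowed _ _ _).1 hp).1
  have hlen := KW.len_hl hp1
  have h3 := hg.2.2 (2 * n - 1) p hp1
  have hinner := inner hs hτ hτ' hρ hρ2 hM (show m - hl p < m by omega) hyp
  rw [ms_map]
  have e1 : ms (fun a => wv s g τ τ' m (shf x p a)) M =
      s ^ (hl p - htn p) * Real.exp (g * kap p) * ms (wv s g τ τ' (m - hl p)) M := by
    rw [← ms_mul]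
    apply ms_congr
    intro a ha
    have h4 := hM.H_le a ha
    unfold shf wv
    simp only
    rw [show m - (a.H + htn p) = (hl p - htn p) + (m - hl p - a.H) by omega, pow_add,
      show g * ((a.Λ + kap p : ℤ) : ℝ) = g * kap p + g * a.Λ by push_cast; ring, Real.exp_add]
    ring
  rw [e1]
  have e2 : ρ ^ m = ρ ^ hl p * ρ ^ (m - hl p) := by
    rw [← pow_add]; congr 1; omega
  rw [e2]
  have e3 := mul_le_mul_of_nonneg_left hinner (wp_nonneg s g ρ hs hρ p)
  refine le_trans (le_of_eq ?_) e3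
  unfold wp
  ring

lemma wp_tz : wp s g ρ tz = ρ ^ 4 * (s * Real.exp g) := by
  unfold wp
  rw [tz_hl, tz_htn, tz_kap]
  norm_num
  ring

lemma wp_lc : wp s g ρ lc = ρ * Real.exp g := by
  unfold wp
  rw [lc_hl, lc_htn, lc_kap]
  norm_num

lemma wp_ld : wp s g ρ ld = ρ * Real.exp g * Real.exp (-(2 * g)) := by
  unfold wp
  rw [ld_hl, ld_htn, ld_kap, mul_assoc ρ, ← Real.exp_add]
  have e : g * ((-1 : ℤ) : ℝ) = g + -(2 * g) := by
    push_cast
    ring
  rw [e]
  simp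

lemma wp_jp : wp s g ρ jp = ρ := by
  unfold wp
  rw [jp_hl, jp_htn, jp_kap]
  norm_num

lemma wp_jm : wp s g ρ jm = ρ := by
  unfold wp
  rw [jm_hl, jm_htn, jm_kap]
  norm_num

include hs hρ in
/-- total weight of the other pieces -/
lemma oth_weight (n : ℕ) (hn : 6 ≤ n) (x : ℤ) (m : ℕ) :
    ∑ p ∈ oth n x m, wp s g ρ p ≤ (∑ p ∈ Pc (2 * n - 1), wp s g ρ p) - 2 * ρ - wp s g ρ tz -
      (wp s g ρ lc + wp s g ρ ld) := by
  classical
  have hr : 10 ≤ 2 * n - 1 := by omega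
  have hP1 := ((M41.mem_allowed _ _ _).1 (jp_mem (2 * n - 1) hr 1 le_rfl)).1
  have hP2 := ((M41.mem_allowed _ _ _).1 (jm_mem (2 * n - 1) hr 2 le_rfl)).1
  have hP3 := ((M41.mem_allowed _ _ _).1 (tz_mem (2 * n - 1) hr 1 le_rfl)).1
  have hP4 := ((M41.mem_allowed _ _ _).1 (lc_mem (2 * n - 1) hr 1 le_rfl)).1
  have hP5 := ((M41.mem_allowed _ _ _).1 (ld_mem (2 * n - 1) hr 1 le_rfl)).1
  have e1 : ∑ p ∈ oth n x m, wp s g ρ p ≤
      ∑ p ∈ (Pc (2 * n - 1)).filter
        (fun p => ¬ (p = jp ∨ p = jm ∨ p = tz ∨ p = lc ∨ p = ld)), wp s g ρ p := by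
    apply Finset.sum_le_sum_of_subset_of_nonneg
    · intro p hp
      have hp0 := mem_oth hp
      rw [mem_filter]
      refine ⟨((M41.mem_allowed _ _ _).1 hp0.1).1, ?_⟩
      rintro (h5 | h5 | h5 | h5 | h5)
      · exact hp0.2.1.1 h5
      · exact hp0.2.1.2.1 h5
      · exact hp0.2.1.2.2.1 h5
      · exact hp0.2.1.2.2.2.1 h5
      · exact hp0.2.1.2.2.2.2 h5
    · intro p _ _
      exact wp_nonneg s g ρ hs hρ p
  have e2 := Finset.sum_filter_add_sum_filter_not (Pc (2 * n - 1))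
    (fun p => p = jp ∨ p = jm ∨ p = tz ∨ p = lc ∨ p = ld) (fun p => wp s g ρ p)
  have e3 : (Pc (2 * n - 1)).filter (fun p => p = jp ∨ p = jm ∨ p = tz ∨ p = lc ∨ p = ld) =
      {jp, jm, tz, lc, ld} := by
    ext p
    rw [mem_filter, mem_insert, mem_insert, mem_insert, mem_insert, mem_singleton]
    constructor
    · exact fun h => h.2
    · rintro (rfl | rfl | rfl | rfl | rfl)
      · exact ⟨hP1, Or.inl rfl⟩
      · exact ⟨hP2, Or.inr (Or.inl rfl)⟩
      · exact ⟨hP3, Or.inr (Or.inr (Or.inl rfl))⟩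
      · exact ⟨hP4, Or.inr (Or.inr (Or.inr (Or.inl rfl)))⟩
      · exact ⟨hP5, Or.inr (Or.inr (Or.inr (Or.inr rfl)))⟩
  rw [e3, sum_insert (by
      rw [mem_insert, mem_insert, mem_insert, mem_singleton]
      rintro (h5 | h5 | h5 | h5)
      · exact jp_ne_jm h5
      · exact jp_ne_tz h5
      · exact lc_ne_jp h5.symm
      · exact ld_ne_jp h5.symm),
    sum_insert (by
      rw [mem_insert, mem_insert, mem_singleton]
      rintro (h5 | h5 | h5)
      · exact jm_ne_tz h5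
      · exact lc_ne_jm h5.symm
      · exact ld_ne_jm h5.symm),
    sum_insert (by
      rw [mem_insert, mem_singleton]
      rintro (h5 | h5)
      · exact lc_ne_tz h5.symm
      · exact ld_ne_tz h5.symm), sum_pair lc_ne_ld, wp_jp, wp_jm] at e2
  linarith

include hs hτ hτ' hρ hρ2 in
lemma asm_count (hH : HGM_Stmt) (hg : HG_Stmt) (n : ℕ) (hn : 6 ≤ n) (x : ℤ) (m j : ℕ)
    (hm1 : 1 ≤ m) (hj : j ≤ 3) (hx : gpE j ≤ x)
    (N : ℤ → ℕ → ℕ → Multiset Sk2) (hN : IH n m N)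
    (hyp : ∑ p ∈ Pc (2 * n - 1), wp s g ρ p ≤ 1 + (1 - τ) * (ρ ^ 4 + wp s g ρ tz) +
      (1 - τ') * (wp s g ρ lc + wp s g ρ ld)) :
    ρ ^ m * ms (wv s g τ τ' m) (asm n x m j N) ≤ 8 * vj ρ j * capKM m s g ρ := by
  classical
  have hx1 := gpE_one j x hx
  have hr : 10 ≤ 2 * n - 1 := by omega
  have hc0 : ∀ m', 0 ≤ cf s g ρ m' := fun m' => cf_nonneg s g ρ m' hs hρ
  obtain ⟨K, hK⟩ : ∃ K : ℝ, K = ∑ m' ∈ range m, cf s g ρ m' := ⟨_, rfl⟩
  have hK0 : 0 ≤ K := by
    rw [hK]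
    exact Finset.sum_nonneg fun m' _ => hc0 m'
  have hv0 : vj ρ 0 = 1 := rfl
  have hv := vj_ge j ρ hρ hρ2
  -- caps
  have hcap : ρ ^ m * ms (wv s g τ τ' m) ((MCap x (2 * m)).val.map (capSk x)) ≤
      cf s g ρ m := by
    rw [ms_val, Finset.mul_sum]
    unfold capSk wv
    simp only [List.length_nil, pow_zero, mul_one]
    unfold cf
    by_cases hxm : x ≤ m
    · have := Finset.single_le_sum (f := fun x : ℤ => ∑ T ∈ MCap x (2 * m),
        ρ ^ m * s ^ (m - mlev T) * Real.exp (g * mlat x T))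
        (fun x _ => Finset.sum_nonneg fun T _ => by positivity)
        (mem_Icc.2 ⟨hx1, hxm⟩)
      refine le_trans (le_of_eq ?_) this
      apply sum_congr rfl
      intro T _
      ring
    · have he : MCap x (2 * m) = ∅ := by
        rw [Finset.eq_empty_iff_forall_notMem]
        intro T hT
        exact hxm (gap_le hH hx1 ⟨T, MCap_sub _ _ hT⟩)
      rw [he, Finset.sum_empty]
      exact Finset.sum_nonneg fun x _ => Finset.sum_nonneg fun T _ => by positivity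
  -- other pieces
  have hoth : ∀ p ∈ oth n x m, ρ ^ m * ms (wv s g τ τ' m)
      ((N (x + jump p) (m - hl p) 0).map (shf x p)) ≤ wp s g ρ p * (8 * K) := by
    intro p hp
    have hp0 := mem_oth hp
    have hp1 := ((M41.mem_allowed _ _ _).1 hp0.1)
    have hlen := KW.len_hl hp1.1
    have := shf_count hs hτ hτ' hρ hρ2 hg hp0.1 hp0.2.2
      (hN _ _ 0 (by norm_num) (gpE_zero _ hp1.2.2.1) (by omega)) hyp
    rw [hv0, mul_one, ← hK] at this
    exact this
  -- `jp`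
  have hjp : ρ ^ m * ms (wv s g τ τ' m) ((N (x + 1) (m - 1) (nxE j)).map (shf x jp)) ≤
      ρ * vj ρ (nxE j) * (8 * K) := by
    have h1 := shf_count hs hτ hτ' hρ hρ2 hg (jp_mem (2 * n - 1) hr x hx1)
      (show hl jp ≤ m by rw [jp_hl]; exact hm1) (j := nxE j) (M := N (x + 1) (m - 1) (nxE j))
      (by
        rw [jp_jump, jp_hl]
        exact hN _ _ _ (nxE_le j) (gpE_nxE j x hx) (by omega)) hyp
    rw [wp_jp, ← hK] at h1
    refine h1.trans (le_of_eq ?_)
    ring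
  -- `jm`
  have hjm : ρ ^ m * ms (wv s g τ τ' m)
      (if j = 2 then (N (x - 1) (m - 1) 3).map (shf x jm)
        else if j ≤ 1 ∧ 2 ≤ x then (N (x - 1) (m - 1) 0).map (shf x jm) else 0) ≤
      (if j = 2 then ρ * vj ρ 3 else if j ≤ 1 then ρ else 0) * (8 * K) := by
    have key : 2 ≤ x → ∀ j', j' ≤ 3 → gpE j' ≤ x - 1 →
        ρ ^ m * ms (wv s g τ τ' m) ((N (x - 1) (m - 1) j').map (shf x jm)) ≤
          ρ * vj ρ j' * (8 * K) := by
      intro hx2 j' hj' hxj
      have h1 := shf_count hs hτ hτ' hρ hρ2 hg (jm_mem (2 * n - 1) hr x hx2)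
        (show hl jm ≤ m by rw [jm_hl]; exact hm1) (j := j') (M := N (x - 1) (m - 1) j')
        (by
          rw [jm_jump, jm_hl]
          exact hN _ _ _ hj' hxj (by omega)) hyp
      rw [wp_jm, ← hK] at h1
      refine h1.trans (le_of_eq ?_)
      ring
    by_cases h2 : j = 2
    · rw [if_pos h2, if_pos h2]
      subst h2
      have h8 : 3 ≤ x := by simpa [gpE] using hx
      exact key (by omega) 3 le_rfl (by simp [gpE]; omega)
    · rw [if_neg h2, if_neg h2]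
      by_cases h3 : j ≤ 1 ∧ 2 ≤ x
      · rw [if_pos h3, if_pos h3.1]
        have := key h3.2 0 (by norm_num) (gpE_zero _ (by omega))
        rw [hv0, mul_one] at this
        exact this
      · rw [if_neg h3, ms_zero, mul_zero]
        split_ifs
        · exact mul_nonneg hρ.le (by linarith)
        · rw [zero_mul]
  -- span tokens
  have htok : ρ ^ m * ms (wv s g τ τ' m) (if 4 ≤ m then (N x (m - 4) 0).map (tok x) else 0) ≤
      τ * (ρ ^ 4 + wp s g ρ tz) * (8 * K) := by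
    have hpos : 0 ≤ τ * (ρ ^ 4 + wp s g ρ tz) :=
      mul_nonneg hτ (add_nonneg (by positivity) (wp_nonneg _ _ _ hs hρ _))
    split_ifs with h4
    · have hN1 := hN x (m - 4) 0 (by norm_num) (gpE_zero x hx1) (by omega)
      have hi := inner hs hτ hτ' hρ hρ2 hN1 (show m - 4 < m by omega) hyp
      rw [hv0, mul_one, ← hK] at hi
      rw [ms_map]
      have e1 : ms (fun a => wv s g τ τ' m (tok x a)) (N x (m - 4) 0) =
          ((1 + s * Real.exp g) * τ) * ms (wv s g τ τ' (m - 4)) (N x (m - 4) 0) := by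
        rw [← ms_mul]
        apply ms_congr
        intro a ha
        have h5 := hN1.H_le a ha
        unfold tok wv
        simp only [List.length_cons]
        rw [show m - (a.H + 4) = m - 4 - a.H by omega, pow_succ _ a.l.length]
        ring
      rw [e1]
      have e2 : ρ ^ m = ρ ^ 4 * ρ ^ (m - 4) := by
        rw [← pow_add]; congr 1; omega
      rw [e2]
      have e3 := mul_le_mul_of_nonneg_left hi hpos
      refine le_trans (le_of_eq ?_) e3
      rw [wp_tz]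
      ring
    · rw [ms_zero, mul_zero]
      exact mul_nonneg hpos (by linarith)
  -- lateral tokens
  have htol : ρ ^ m * ms (wv s g τ τ' m) ((N x (m - 1) 0).map (tol x)) ≤
      τ' * (wp s g ρ lc + wp s g ρ ld) * (8 * K) := by
    have hpos : 0 ≤ τ' * (wp s g ρ lc + wp s g ρ ld) :=
      mul_nonneg hτ' (add_nonneg (wp_nonneg _ _ _ hs hρ _) (wp_nonneg _ _ _ hs hρ _))
    have hN1 := hN x (m - 1) 0 (by norm_num) (gpE_zero x hx1) (by omega)
    have hi := inner hs hτ hτ' hρ hρ2 hN1 (show m - 1 < m by omega) hyp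
    rw [hv0, mul_one, ← hK] at hi
    rw [ms_map]
    have e1 : ms (fun a => wv s g τ τ' m (tol x a)) (N x (m - 1) 0) =
        Real.exp g * ((1 + Real.exp (-(2 * g))) * τ') *
          ms (wv s g τ τ' (m - 1)) (N x (m - 1) 0) := by
      rw [← ms_mul]
      apply ms_congr
      intro a ha
      have h5 := hN1.H_le a ha
      unfold tol wv
      simp only
      rw [show m - (a.H + 1) = m - 1 - a.H by omega, pow_succ _ a.k,
        show g * ((a.Λ + 1 : ℤ) : ℝ) = g + g * a.Λ by push_cast; ring, Real.exp_add]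
      ring
    rw [e1]
    have e2 : ρ ^ m = ρ * ρ ^ (m - 1) := by
      rw [← pow_succ']; congr 1; omega
    rw [e2]
    have e3 := mul_le_mul_of_nonneg_left hi hpos
    refine le_trans (le_of_eq ?_) e3
    rw [wp_lc, wp_ld]
    ring
  -- sum
  have htot : ρ ^ m * ms (wv s g τ τ' m) (asm n x m j N) =
      ρ ^ m * ms (wv s g τ τ' m) ((MCap x (2 * m)).val.map (capSk x)) +
      ∑ p ∈ oth n x m, ρ ^ m * ms (wv s g τ τ' m)
        ((N (x + jump p) (m - hl p) 0).map (shf x p)) +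
      ρ ^ m * ms (wv s g τ τ' m) ((N (x + 1) (m - 1) (nxE j)).map (shf x jp)) +
      ρ ^ m * ms (wv s g τ τ' m)
        (if j = 2 then (N (x - 1) (m - 1) 3).map (shf x jm)
          else if j ≤ 1 ∧ 2 ≤ x then (N (x - 1) (m - 1) 0).map (shf x jm) else 0) +
      ρ ^ m * ms (wv s g τ τ' m) (if 4 ≤ m then (N x (m - 4) 0).map (tok x) else 0) +
      ρ ^ m * ms (wv s g τ τ' m) ((N x (m - 1) 0).map (tol x)) := by
    unfold asm
    rw [ms_add, ms_add, ms_add, ms_add, ms_add, ms_sum, mul_add, mul_add, mul_add, mul_add,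
      mul_add, mul_sum]
  have ecap : capKM m s g ρ = K + cf s g ρ m := by
    rw [hK, ← Finset.sum_range_succ]
    rfl
  rw [htot, ecap]
  have e4 := Finset.sum_le_sum hoth
  rw [← Finset.sum_mul] at e4
  have h8K : 0 ≤ 8 * K := by linarith
  have hrec := mul_le_mul_of_nonneg_right
    (vj_rec j hj τ τ' ρ (wp s g ρ tz) (wp s g ρ lc + wp s g ρ ld) _ hyp) h8K
  have e5 := mul_le_mul_of_nonneg_right (oth_weight (g := g) hs hρ n hn x m) h8K
  have e7 : cf s g ρ m ≤ 8 * vj ρ j * cf s g ρ m := by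
    have := mul_le_mul_of_nonneg_right hv (hc0 m)
    linarith
  have e8 : 8 * vj ρ j * (K + cf s g ρ m) = vj ρ j * (8 * K) + 8 * vj ρ j * cf s g ρ m := by
    ring
  rw [e8]
  rw [add_mul, add_mul, add_mul, add_mul] at hrec
  linarith

end count

/-- skeletons of all states -/
theorem ars (hS : SKEa_Stmt) (hK : K2M_Stmt) (hH : HGM_Stmt) (hg : HG_Stmt) (n : ℕ)
    (hn : 6 ≤ n) (m : ℕ) : m ≤ n → ∀ (x : ℤ) (j : ℕ), j ≤ 3 → gpE j ≤ x →
      ∃ M : Multiset Sk2, AS n x m j M := by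
  classical
  induction m using Nat.strong_induction_on with
  | _ m ih =>
    intro hm x j hj hx
    rcases Nat.eq_zero_or_pos m with rfl | hm1
    · refine ⟨0, fun F => ?_, ?_, ?_, ?_, ?_, ?_, ?_, ?_⟩
      · rw [StE_zero hH n x j hj hx, ms_zero]
      · intro a ha
        simp at ha
      · intro a ha
        simp at ha
      · intro a ha
        simp at ha
      · intro a ha
        simp at ha
      · intro a ha
        simp at ha
      · intro a ha
        simp at ha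
      · intro s g τ τ' ρ hs hτ hτ' hρ hρ2 hyp
        rw [ms_zero, mul_zero]
        have hv := vj_ge j ρ hρ hρ2
        have h8 : 0 ≤ 8 * vj ρ j := by linarith
        refine mul_nonneg h8 ?_
        exact Finset.sum_nonneg fun m' _ => cf_nonneg s g ρ m' hs hρ
    · have hex : ∀ (x' : ℤ) (m' j' : ℕ), ∃ M : Multiset Sk2, j' ≤ 3 → gpE j' ≤ x' → m' < m →
          AS n x' m' j' M := by
        intro x' m' j'
        by_cases hc : j' ≤ 3 ∧ gpE j' ≤ x' ∧ m' < m
        · obtain ⟨M, hM⟩ := ih m' hc.2.2 (by omega) x' j' hc.1 hc.2.1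
          exact ⟨M, fun _ _ _ => hM⟩
        · exact ⟨0, fun h1 h2 h3 => absurd ⟨h1, h2, h3⟩ hc⟩
      choose N hN using hex
      have hb := asm_bd hK hH hg n hn x m j hm1 hm hx N hN
      exact ⟨asm n x m j N, asm_repr hS hH n hn x m j hm1 hm hj hx N hN,
        fun a ha => (hb a ha).len_le, fun a ha => (hb a ha).H_le, fun a ha => (hb a ha).y_le,
        fun a ha => (hb a ha).sum_le, fun a ha => (hb a ha).A_le,
        fun a ha => (hb a ha).lam_le,
        fun s g τ τ' ρ hs hτ hτ' hρ hρ2 hyp =>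
          asm_count hs hτ hτ' hρ hρ2 hH hg n hn x m j hm1 hj hx N hN hyp⟩

end Pool.Agent.TPE.SKE

namespace Pool.Agent.TPE

open Pool.Agent.Lib27 Pool.Agent.SapR Pool.Agent.AreaLaw Pool.Agent.FL Pool.Agent.TPT

/-- Module SKEb. -/
theorem t_SKEb (hS : SKEa_Stmt) (hK : K2M_Stmt) (hH : HGM_Stmt) (_hA : ARS_Stmt)
    (hg : HG_Stmt) : SKEb_Stmt := by
  intro n m hn hm x j hj hx
  obtain ⟨M, hM⟩ := SKE.ars hS hK hH hg n hn m hm x j hj hx
  exact ⟨M, ⟨hM.repr, hM.len_le, hM.H_le, hM.y_le, hM.sum_le, hM.A_le, hM.lam_le, hM.count⟩⟩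

end Pool.Agent.TPE
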