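import Pool.Agent.TPE.Stmts
import Pool.Agent.TPT.SYMC

/-!
# Project TPE, module SYME: reduction to the cone
-/

set_option autoImplicit false

namespace Pool.Agent.TPE

open Finset Filter Topology MeasureTheory
open Pool.Agent.Lib27 Pool.Agent.SapR Pool.Agent.AreaLaw Pool.Agent.FL Pool.Agent.TPT
open Pool.Agent.KCC (areaMoment)

open Pool.Agent.TPT.SYMCX in
theorem t_SYME : SYME_Stmt := by
  intro z
  obtain ⟨σ, hσ, h1⟩ := exS z.1
  obtain ⟨τ, hτ, h2⟩ := exS z.2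
  obtain ⟨P, hP, hs⟩ := exP σ τ hσ hτ
  refine ⟨(|z.1|, |z.2|), ?_, rfl, rfl, fun n => ?_⟩
  · have a1 := abs_nonneg z.1
    have a2 := abs_nonneg z.2
    obtain ⟨x, hx⟩ : ∃ x, x = |z.1| := ⟨_, rfl⟩
    obtain ⟨y, hy⟩ : ∃ y, y = |z.2| := ⟨_, rfl⟩
    rw [← hx, ← hy]
    rw [← hx] at a1
    rw [← hy] at a2
    show |x - y| ≤ x + y
    rw [abs_le]
    constructor <;> linarith
  · rw [← h1, ← h2, Thr_map hP hs hσ hτ n z]
    exact ⟨fun x => cdf_map n _ _ (area_wm hP hs hσ hτ n) x,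
      fun r => mom_map n _ _ (area_wm hP hs hσ hτ n) r⟩

end Pool.Agent.TPE
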