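import Pool.Agent.TPE.Stmts
import Pool.Agent.TPT.DATB

/-!
# TPE, module TMGE: mass gap for all forces
-/

set_option autoImplicit false

open Finset Filter Topology MeasureTheory
open Pool.Agent.Lib27 Pool.Agent.SapR Pool.Agent.AreaLaw Pool.Agent.FL Pool.Agent.TPT
open Pool.Agent.FS (sc rs bp)
open Pool.Agent.NSP (lc ld tz)

namespace Pool.Agent.TPE

/-- mass gap for all `f ≥ a` -/
theorem t_TMGE (hT : TMG_Stmt) (hS : TMGS_Stmt) : TMGE_Stmt := by
  intro a b ha hab
  obtain ⟨a1, C1, θ1, ha1, hC1, hθ1, hθ1', N1, h1⟩ := hS b (ha.trans_le hab)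
  obtain ⟨C2, θ2, hC2, hθ2, hθ2', N2, h2⟩ := hT a (max a1 b) ha (hab.trans (le_max_right _ _))
  have hM : 0 < max a1 b := lt_max_of_lt_left ha1
  have hE : 1 ≤ Real.exp (max a1 b) := Real.one_le_exp hM.le
  have hC2' : C2 ≤ C2 * Real.exp (max a1 b) := le_mul_of_one_le_right hC2.le hE
  set C := max C1 (C2 * Real.exp (max a1 b)) with hC
  set θ := max θ1 θ2 with hθ
  have hCC1 : C1 ≤ C := le_max_left _ _
  have hCC2 : C2 * Real.exp (max a1 b) ≤ C := le_max_right _ _
  have hCC3 : C2 ≤ C := hC2'.trans hCC2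
  have hC0 : 0 < C := hC1.trans_le hCC1
  have hθ0 : 0 < θ := hθ1.trans_le (le_max_left _ _)
  refine ⟨C, θ, hC0, hθ0, max_lt hθ1' hθ2', max N1 N2, ?_⟩
  intro n hn f g hfg
  obtain ⟨hf, hg⟩ := hfg
  rcases le_total a1 f with h | h
  · obtain ⟨rho, e1, e2, e3, e4, e5⟩ := h1 n ((le_max_left _ _).trans hn) f g h hg
    refine ⟨rho, e1, DATB.tails_mono hC1.le hCC1 hθ1.le (le_max_left _ _) e2,
      (inv_anti₀ hC1 hCC1).trans e3, e4, fun m hm => (e5 m hm).trans ?_⟩
    exact mul_le_mul (mul_le_mul_of_nonneg_right hCC1 (Real.exp_pos _).le)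
      (pow_le_pow_left₀ hθ1.le (le_max_left _ _) m) (pow_nonneg hθ1.le m)
      (mul_nonneg hC0.le (Real.exp_pos _).le)
  · obtain ⟨rho, e1, e2, e3, e4⟩ := h2 n ((le_max_right _ _).trans hn) f g hf
      (h.trans (le_max_left _ _)) (hg.trans (le_max_right _ _))
    refine ⟨rho, e1, DATB.tails_mono hC2.le hCC3 hθ2.le (le_max_right _ _) e2,
      (inv_anti₀ hC2 hCC3).trans e3, e4, fun m _ => (e2.1 m).trans ?_⟩
    have h3 : C2 ≤ C * Real.exp (-f) := by
      have h4 : 1 ≤ Real.exp (max a1 b) * Real.exp (-f) := by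
        rw [← Real.exp_add]
        apply Real.one_le_exp
        have : f ≤ max a1 b := h.trans (le_max_left _ _)
        linarith
      calc C2 ≤ C2 * (Real.exp (max a1 b) * Real.exp (-f)) := le_mul_of_one_le_right hC2.le h4
        _ = C2 * Real.exp (max a1 b) * Real.exp (-f) := by ring
        _ ≤ C * Real.exp (-f) := mul_le_mul_of_nonneg_right hCC2 (Real.exp_pos _).le
    exact mul_le_mul h3 (pow_le_pow_left₀ hθ2.le (le_max_right _ _) m) (pow_nonneg hθ2.le m)
      (mul_nonneg hC0.le (Real.exp_pos _).le)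

end Pool.Agent.TPE
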