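import Pool.Agent.TPE.Stmts
import Pool.Agent.NSP.TAZ

/-!
# Project TPE: mass gap for large force (module TMGS)
-/

set_option autoImplicit false

namespace Pool.Agent.TPE

open Finset
open Pool.Agent.Lib27 Pool.Agent.SapR Pool.Agent.AreaLaw Pool.Agent.FL Pool.Agent.TPT
open Pool.Agent.FS (sc)

namespace TMGS

lemma lat_pos (n : ℕ) (w : Fin (2 * n) → Fin 4) (j : ℕ) : |lat (pos n w j)| ≤ 2 * n := by
  have h1 : lat (pos n w j) = ∑ i ∈ Finset.univ.filter (fun i : Fin (2 * n) => i.val < j),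
      ((step (w i)).1 - (step (w i)).2) := by
    unfold lat pos
    rw [Prod.fst_sum, Prod.snd_sum, sum_sub_distrib]
  rw [h1]
  refine (abs_sum_le_sum_abs _ _).trans ?_
  have h2 : ∀ d : Fin 4, |(step d).1 - (step d).2| ≤ 1 := by decide
  refine (sum_le_sum fun i _ => h2 (w i)).trans ?_
  rw [sum_const, nsmul_eq_mul, mul_one]
  have h3 := Finset.card_filter_le (Finset.univ : Finset (Fin (2 * n)))
    (fun i : Fin (2 * n) => i.val < j)
  rw [card_univ, Fintype.card_fin] at h3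
  exact_mod_cast h3

lemma exp_le {b g : ℝ} (hg : |g| ≤ b) {k : ℤ} {m : ℕ} (hk : |k| ≤ 2 * m) :
    Real.exp (g * k) ≤ Real.exp (2 * b) ^ m := by
  rw [← Real.exp_nat_mul]
  refine Real.exp_le_exp.2 ?_
  have h1 : g * k ≤ |g| * |(k : ℝ)| := by
    rw [← abs_mul]
    exact le_abs_self _
  have h2 : |(k : ℝ)| ≤ 2 * m := by exact_mod_cast hk
  have h3 : |g| * |(k : ℝ)| ≤ b * (2 * m) :=
    mul_le_mul hg h2 (abs_nonneg _) ((abs_nonneg _).trans hg)
  linarith

/-- `s ^ δ` is small if `m ≤ 3 δ + c` -/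
lemma s_pow {s t : ℝ} (hs : 0 < s) (ht0 : 0 < t) (ht1 : t ≤ 1) (hst : s ≤ t ^ 3) {m d c : ℕ}
    (h : m ≤ 3 * d + c) : s ^ d ≤ t ^ m * (t ^ c)⁻¹ := by
  have h1 : s ^ d ≤ t ^ (3 * d) := by
    rw [pow_mul]
    exact pow_le_pow_left₀ hs.le hst d
  refine h1.trans ?_
  rw [le_mul_inv_iff₀ (by positivity), ← pow_add]
  exact pow_le_pow_of_le_one ht0.le ht1 h

lemma two_pow (m : ℕ) : (m : ℝ) ≤ 2 ^ m := by
  have h : m ≤ 2 ^ m := Nat.lt_two_pow_self.le
  exact_mod_cast h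

lemma kap_le (hH : HGM_Stmt) {r : ℕ} {p : Wd × Wd} (hp : p ∈ Pc r) : |kap p| ≤ 2 * (hl p : ℕ) :=
  (hH.2.2.1 r p hp).2

/-- the pieces of half length at least two -/
lemma piece (hH : HGM_Stmt) {b g s t ρ : ℝ} (hg : |g| ≤ b) (hs : 0 < s) (ht0 : 0 < t)
    (ht1 : t ≤ 1) (hst : s ≤ t ^ 3) (ht : 64 * Real.exp (2 * b) * t = 1) (hρ : 0 < ρ)
    (hρ4 : ρ ≤ 1 / 4) (n m : ℕ) (hm : 2 ≤ m) :
    ∑ p ∈ (Pc (2 * n - 1)).filter (fun p => hl p = m), wp s g ρ p ≤
      2 * (t ^ 4)⁻¹ * s * (1 / 8) ^ m := by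
  have hone : ∀ p ∈ (Pc (2 * n - 1)).filter (fun p => hl p = m), wp s g ρ p ≤
      (1 / 4) ^ m * (s * (t ^ m * (t ^ 4)⁻¹)) * Real.exp (2 * b) ^ m := by
    intro p hp
    rw [mem_filter] at hp
    have h1 := Pool.Agent.NSP.TAZ.key hp.1
    have h2 := kap_le hH hp.1
    unfold wp
    rw [hp.2] at h1 h2 ⊢
    obtain ⟨e, he⟩ : ∃ e, m - htn p = e + 1 := ⟨m - htn p - 1, by omega⟩
    have h3 := exp_le hg h2
    have h4 := s_pow hs ht0 ht1 hst (m := m) (d := e) (c := 4) (by omega)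
    have h5 : ρ ^ m ≤ (1 / 4) ^ m := pow_le_pow_left₀ hρ.le hρ4 m
    have h6 : s ^ (m - htn p) ≤ s * (t ^ m * (t ^ 4)⁻¹) := by
      rw [he, pow_succ, mul_comm]
      exact mul_le_mul_of_nonneg_left h4 hs.le
    refine mul_le_mul (mul_le_mul h5 h6 (by positivity) (by positivity)) h3 (by positivity)
      (by positivity)
  refine (sum_le_card_nsmul _ _ _ hone).trans ?_
  rw [nsmul_eq_mul]
  have h5 : (((Pc (2 * n - 1)).filter (fun p => hl p = m)).card : ℝ) ≤ (2 * 2 ^ m) * 16 ^ m := by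
    have h6 := (Pool.Agent.NSP.TAZ.card_le (2 * n - 1) m).trans
      (Nat.mul_le_mul_right (16 ^ m) (Pool.Agent.NSP.TAZ.pow_le m))
    exact_mod_cast h6
  refine (mul_le_mul_of_nonneg_right h5 (by positivity)).trans (le_of_eq ?_)
  have h7 : (2 : ℝ) ^ m * 16 ^ m * (1 / 4) ^ m * t ^ m * Real.exp (2 * b) ^ m = (1 / 8) ^ m := by
    rw [← mul_pow, ← mul_pow, ← mul_pow, ← mul_pow]
    congr 1
    linarith
  calc 2 * 2 ^ m * 16 ^ m * ((1 / 4) ^ m * (s * (t ^ m * (t ^ 4)⁻¹)) * Real.exp (2 * b) ^ m) =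
      2 * (t ^ 4)⁻¹ * s *
        ((2 : ℝ) ^ m * 16 ^ m * (1 / 4) ^ m * t ^ m * Real.exp (2 * b) ^ m) := by ring
    _ = 2 * (t ^ 4)⁻¹ * s * (1 / 8) ^ m := by rw [h7]

/-- the marked caps -/
lemma caps (hC : ECAP_Stmt) (hH : HGM_Stmt) {b g s t ρ : ℝ} (hg : |g| ≤ b) (hs : 0 < s)
    (ht0 : 0 < t) (ht1 : t ≤ 1) (hst : s ≤ t ^ 3) (ht : 64 * Real.exp (2 * b) * t = 1)
    (hρ : 0 < ρ) (hρ4 : ρ ≤ 1 / 4) (m : ℕ) :
    ∑ x ∈ Icc (1 : ℤ) m, ∑ a ∈ MCap x (2 * m), ρ ^ m * s ^ (m - mlev a) *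
      Real.exp (g * mlat x a) ≤ 2 * t⁻¹ * (1 / 4) ^ m := by
  classical
  have hone : ∀ x ∈ Icc (1 : ℤ) m, ∀ a ∈ MCap x (2 * m), ρ ^ m * s ^ (m - mlev a) *
      Real.exp (g * mlat x a) ≤ (1 / 4) ^ m * (t ^ m * (t ^ 1)⁻¹) * Real.exp (2 * b) ^ m := by
    intro x hx a ha
    rw [mem_Icc] at hx
    have h1 := hC x m a hx.1 ha
    have h2 : |mlat x a| ≤ 2 * m := by
      have h3 := (hH.2.1 x (2 * m) a hx.1 (by
        unfold MCap at ha
        exact (mem_filter.1 ha).1)).2.2.2.2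
      exact_mod_cast h3
    have h3 := exp_le hg h2
    have h4 := s_pow hs ht0 ht1 hst (m := m) (d := m - mlev a) (c := 1) (by omega)
    have h5 : ρ ^ m ≤ (1 / 4) ^ m := pow_le_pow_left₀ hρ.le hρ4 m
    exact mul_le_mul (mul_le_mul h5 h4 (by positivity) (by positivity)) h3 (by positivity)
      (by positivity)
  have hcard : ∀ x : ℤ, ((MCap x (2 * m)).card : ℝ) ≤ 16 ^ m * (2 * m) := by
    intro x
    have h1 : (MCap x (2 * m)).card ≤ 16 ^ m * (2 * m) := by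
      unfold MCap MArch
      refine (card_filter_le _ _).trans ((card_filter_le _ _).trans ?_)
      rw [card_product, card_words, card_range, pow_mul]
      norm_num
    exact_mod_cast h1
  have hsum : ∀ x ∈ Icc (1 : ℤ) m, ∑ a ∈ MCap x (2 * m), ρ ^ m * s ^ (m - mlev a) *
      Real.exp (g * mlat x a) ≤ 16 ^ m * (2 * m) *
        ((1 / 4) ^ m * (t ^ m * (t ^ 1)⁻¹) * Real.exp (2 * b) ^ m) := by
    intro x hx
    refine (sum_le_card_nsmul _ _ _ (hone x hx)).trans ?_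
    rw [nsmul_eq_mul]
    exact mul_le_mul_of_nonneg_right (hcard x) (by positivity)
  refine (sum_le_card_nsmul _ _ _ hsum).trans ?_
  rw [nsmul_eq_mul, Int.card_Icc]
  have h8 : (((m : ℤ) + 1 - 1).toNat : ℝ) = m := by
    have : ((m : ℤ) + 1 - 1).toNat = m := by omega
    rw [this]
  rw [h8]
  have h7 : (16 : ℝ) ^ m * (1 / 4) ^ m * t ^ m * Real.exp (2 * b) ^ m = (1 / 16) ^ m := by
    rw [← mul_pow, ← mul_pow, ← mul_pow]
    congr 1
    linarith
  have h9 := two_pow m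
  have h10 : (m : ℝ) * m ≤ 4 ^ m := by
    calc (m : ℝ) * m ≤ 2 ^ m * 2 ^ m := mul_le_mul h9 h9 (by positivity) (by positivity)
      _ = 4 ^ m := by rw [← mul_pow]; norm_num
  calc (m : ℝ) * (16 ^ m * (2 * m) * ((1 / 4) ^ m * (t ^ m * (t ^ 1)⁻¹) *
        Real.exp (2 * b) ^ m)) =
      2 * t⁻¹ * ((16 : ℝ) ^ m * (1 / 4) ^ m * t ^ m * Real.exp (2 * b) ^ m) * (m * m) := by
        rw [pow_one]; ring
    _ = 2 * t⁻¹ * (1 / 16) ^ m * (m * m) := by rw [h7]
    _ ≤ 2 * t⁻¹ * (1 / 16) ^ m * 4 ^ m := mul_le_mul_of_nonneg_left h10 (by positivity)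
    _ = 2 * t⁻¹ * ((1 / 16) ^ m * 4 ^ m) := by ring
    _ = 2 * t⁻¹ * (1 / 4) ^ m := by
        rw [← mul_pow]
        norm_num

open Classical in
/-- the polygon words with `NoB` -/
lemma nobs (hN : ENOB_Stmt) {b f g t ρ : ℝ} (hg : |g| ≤ b) (ht0 : 0 < t) (ht1 : t ≤ 1)
    (hst : Real.exp (-f) ≤ t ^ 3) (ht : 64 * Real.exp (2 * b) * t = 1)
    (hρ : 0 < ρ) (hρ4 : ρ ≤ 1 / 4) (n : ℕ) (hn : 1 ≤ n) :
    ∑ w ∈ SAP n, ∑ j ∈ (range (2 * n)).filter (fun j => NoB n w j),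
      ρ ^ n * Real.exp (-(f * n)) * Real.exp (f * slev n w j + g * lat (pos n w j)) ≤
      2 * t⁻¹ * (n : ℝ) ^ 2 * (1 / 16) ^ n := by
  have hone : ∀ w ∈ SAP n, ∀ j ∈ (range (2 * n)).filter (fun j => NoB n w j),
      ρ ^ n * Real.exp (-(f * n)) * Real.exp (f * slev n w j + g * lat (pos n w j)) ≤
      (1 / 4) ^ n * (t ^ n * (t ^ 1)⁻¹) * Real.exp (2 * b) ^ n := by
    intro w hw j hj
    rw [mem_filter, mem_range] at hj
    have h1 := hN n w j hw hj.1 hj.2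
    have h2 := exp_le hg (lat_pos n w j)
    have h5 : ρ ^ n ≤ (1 / 4) ^ n := pow_le_pow_left₀ hρ.le hρ4 n
    obtain ⟨d, hd⟩ : ∃ d : ℕ, (d : ℤ) = n - slev n w j := ⟨(n - slev n w j).toNat, by omega⟩
    have h4 := s_pow (Real.exp_pos (-f)) ht0 ht1 hst (m := n) (d := d) (c := 1) (by omega)
    have h6 : Real.exp (-(f * n)) * Real.exp (f * slev n w j + g * lat (pos n w j)) =
        Real.exp (-f) ^ d * Real.exp (g * lat (pos n w j)) := by
      rw [← Real.exp_nat_mul, ← Real.exp_add, ← Real.exp_add]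
      congr 1
      have h7 : (d : ℝ) = n - slev n w j := by exact_mod_cast hd
      rw [h7]
      ring
    rw [mul_assoc, h6, ← mul_assoc]
    exact mul_le_mul (mul_le_mul h5 h4 (by positivity) (by positivity)) h2 (by positivity)
      (by positivity)
  have hsum : ∀ w ∈ SAP n, ∑ j ∈ (range (2 * n)).filter (fun j => NoB n w j),
      ρ ^ n * Real.exp (-(f * n)) * Real.exp (f * slev n w j + g * lat (pos n w j)) ≤
      (2 * n) * ((1 / 4) ^ n * (t ^ n * (t ^ 1)⁻¹) * Real.exp (2 * b) ^ n) := by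
    intro w hw
    refine (sum_le_card_nsmul _ _ _ (hone w hw)).trans ?_
    rw [nsmul_eq_mul]
    refine mul_le_mul_of_nonneg_right ?_ (by positivity)
    have h1 : ((range (2 * n)).filter (fun j => NoB n w j)).card ≤ 2 * n := by
      refine (card_filter_le _ _).trans ?_
      rw [card_range]
    exact_mod_cast h1
  refine (sum_le_card_nsmul _ _ _ hsum).trans ?_
  rw [nsmul_eq_mul]
  have hcard : ((SAP n).card : ℝ) ≤ 16 ^ n := by
    have h1 : (SAP n).card ≤ 16 ^ n := by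
      unfold SAP
      refine (card_filter_le _ _).trans ?_
      rw [card_univ, Fintype.card_fun, Fintype.card_fin, Fintype.card_fin, pow_mul]
      norm_num
    exact_mod_cast h1
  refine (mul_le_mul_of_nonneg_right hcard (by positivity)).trans ?_
  have h7 : (16 : ℝ) ^ n * (1 / 4) ^ n * t ^ n * Real.exp (2 * b) ^ n = (1 / 16) ^ n := by
    rw [← mul_pow, ← mul_pow, ← mul_pow]
    congr 1
    linarith
  have h8 : (n : ℝ) ≤ (n : ℝ) ^ 2 := by
    have : (1 : ℝ) ≤ n := by exact_mod_cast hn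
    nlinarith
  calc (16 : ℝ) ^ n * ((2 * n) * ((1 / 4) ^ n * (t ^ n * (t ^ 1)⁻¹) * Real.exp (2 * b) ^ n)) =
      2 * t⁻¹ * n * ((16 : ℝ) ^ n * (1 / 4) ^ n * t ^ n * Real.exp (2 * b) ^ n) := by
        rw [pow_one]; ring
    _ = 2 * t⁻¹ * n * (1 / 16) ^ n := by rw [h7]
    _ ≤ 2 * t⁻¹ * (n : ℝ) ^ 2 * (1 / 16) ^ n := by
        refine mul_le_mul_of_nonneg_right ?_ (by positivity)
        exact mul_le_mul_of_nonneg_left h8 (by positivity)

/-- the four pieces of half length one -/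
lemma four_sum (n : ℕ) (s g ρ : ℝ) :
    ∑ p ∈ (Pc (2 * n - 1)).filter (fun p => hl p = 1), wp s g ρ p =
      ρ * (2 + Real.exp g + Real.exp (-g)) := by
  rw [Pool.Agent.NSP.TAZ.four]
  have e1 : htn (([0], [2]) : Wd × Wd) = 1 := by decide
  have e2 : htn (([1], [3]) : Wd × Wd) = 1 := by decide
  have e3 : htn (([0], [3]) : Wd × Wd) = 1 := by decide
  have e4 : htn (([1], [2]) : Wd × Wd) = 1 := by decide
  have f1 : hl (([0], [2]) : Wd × Wd) = 1 := rfl
  have f2 : hl (([1], [3]) : Wd × Wd) = 1 := rfl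
  have f3 : hl (([0], [3]) : Wd × Wd) = 1 := rfl
  have f4 : hl (([1], [2]) : Wd × Wd) = 1 := rfl
  have g1 : kap (([0], [2]) : Wd × Wd) = 1 := by decide
  have g2 : kap (([1], [3]) : Wd × Wd) = -1 := by decide
  have g3 : kap (([0], [3]) : Wd × Wd) = 0 := by decide
  have g4 : kap (([1], [2]) : Wd × Wd) = 0 := by decide
  rw [sum_insert (by decide), sum_insert (by decide), sum_insert (by decide), sum_singleton]
  unfold wp
  rw [e1, e2, e3, e4, f1, f2, f3, f4, g1, g2, g3, g4]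
  push_cast
  simp only [pow_zero, pow_one, mul_zero, Real.exp_zero, mul_one, mul_neg]
  ring

end TMGS

open TMGS

/-- Module TMGS. -/
theorem t_TMGS (hK : KWM_Stmt) (hC : ECAP_Stmt) (hN : ENOB_Stmt) (hH : HGM_Stmt)
    (hg : HG_Stmt) : TMGS_Stmt := by
  have _ := hg
  intro b hb
  obtain ⟨E, hE⟩ : ∃ E : ℝ, E = Real.exp (2 * b) := ⟨_, rfl⟩
  have hE1 : 1 ≤ E := by
    rw [hE]
    exact Real.one_le_exp (by linarith)
  obtain ⟨t, ht⟩ : ∃ t : ℝ, t = (64 * E)⁻¹ := ⟨_, rfl⟩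
  have ht0 : 0 < t := by
    rw [ht]
    positivity
  have htt : 64 * Real.exp (2 * b) * t = 1 := by
    rw [ht, ← hE]
    exact mul_inv_cancel₀ (by positivity)
  have ht64 : t ≤ 1 / 64 := by
    rw [ht, one_div]
    exact inv_anti₀ (by norm_num) (by linarith)
  have ht1 : t ≤ 1 := by linarith
  have hlog : 0 < Real.log (64 * E) := Real.log_pos (by linarith)
  have ha : Real.exp (-(5 * Real.log (64 * E))) = t ^ 5 := by
    rw [ht, inv_pow, Real.exp_neg]
    congr 1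
    rw [show 5 * Real.log (64 * E) = ((5 : ℕ) : ℝ) * Real.log (64 * E) by norm_num,
      Real.exp_nat_mul, Real.exp_log (by positivity)]
  refine ⟨5 * Real.log (64 * E), 2 * (t ^ 4)⁻¹ + (4 + 4 * Real.exp b), 1 / 2, by positivity,
    by positivity, by norm_num, by norm_num, 3, ?_⟩
  intro n hn f g hf hgb
  have hs5 : Real.exp (-f) ≤ t ^ 5 := by
    rw [← ha]
    exact Real.exp_le_exp.2 (by linarith)
  have hs3 : Real.exp (-f) ≤ t ^ 3 :=
    hs5.trans (pow_le_pow_of_le_one ht0.le ht1 (by norm_num))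
  have hs0 := Real.exp_pos (-f)
  have hs1 : Real.exp (-f) ≤ 1 := hs3.trans (pow_le_one₀ ht0.le ht1)
  obtain ⟨d⟩ := hK n (Real.exp (-f)) g hn hs0 hs1
  obtain ⟨hρ, hcr⟩ := d.crit
  obtain ⟨ρ, hρd⟩ : ∃ ρ : ℝ, ρ = d.G.rho := ⟨_, rfl⟩
  rw [← hρd] at hρ hcr
  have hpos : ∀ p ∈ Pc (2 * n - 1), 0 ≤ wp (Real.exp (-f)) g ρ p := by
    intro p _
    unfold wp
    positivity
  have hfour := four_sum n (Real.exp (-f)) g ρ
  have hle1 : ∀ m : ℕ, ∑ p ∈ (Pc (2 * n - 1)).filter (fun p => hl p = m),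
      wp (Real.exp (-f)) g ρ p ≤ 1 := by
    intro m
    rw [← hcr]
    exact sum_le_sum_of_subset_of_nonneg (filter_subset _ _) (fun p hp _ => hpos p hp)
  have hg1 : Real.exp g * Real.exp (-g) = 1 := by
    rw [← Real.exp_add, add_neg_cancel, Real.exp_zero]
  have hgp := Real.exp_pos g
  have hgm := Real.exp_pos (-g)
  have hg2 : 2 ≤ Real.exp g + Real.exp (-g) := by
    nlinarith [sq_nonneg (Real.exp g - Real.exp (-g))]
  have hρ4 : ρ ≤ 1 / 4 := by
    have h1 := hle1 1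
    rw [hfour] at h1
    nlinarith
  have hpc : ∀ m : ℕ, 2 ≤ m → ∑ p ∈ (Pc (2 * n - 1)).filter (fun p => hl p = m),
      wp (Real.exp (-f)) g ρ p ≤ 2 * (t ^ 4)⁻¹ * Real.exp (-f) * (1 / 8) ^ m := fun m hm =>
    piece hH hgb hs0 ht0 ht1 hs3 htt hρ hρ4 n m hm
  have hT1 : 1 ≤ (t ^ 4)⁻¹ := by
    rw [one_le_inv₀ (by positivity)]
    exact pow_le_one₀ ht0.le ht1
  have hT4 : t⁻¹ ≤ (t ^ 4)⁻¹ := by
    refine inv_anti₀ (by positivity) ?_
    have := pow_le_pow_of_le_one ht0.le ht1 (show 1 ≤ 4 by norm_num)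
    rwa [pow_one] at this
  have heb := Real.exp_pos b
  have hC2 : 2 * (t ^ 4)⁻¹ ≤ 2 * (t ^ 4)⁻¹ + (4 + 4 * Real.exp b) := by linarith
  have h82 : ∀ m : ℕ, ((1 : ℝ) / 8) ^ m ≤ (1 / 2) ^ m := fun m =>
    pow_le_pow_left₀ (by norm_num) (by norm_num) m
  refine ⟨ρ, ⟨hρ, hcr⟩, ⟨?_, ?_, ?_⟩, ?_, hρ4, ?_⟩
  · intro m
    rcases Nat.lt_or_ge m 2 with hm | hm
    · refine (hle1 m).trans ?_
      have h1 : ((1 : ℝ) / 2) ^ 1 ≤ (1 / 2) ^ m :=
        pow_le_pow_of_le_one (by norm_num) (by norm_num) (by omega)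
      rw [pow_one] at h1
      nlinarith
    · refine (hpc m hm).trans ?_
      refine mul_le_mul ?_ (h82 m) (by positivity) (by positivity)
      refine le_trans ?_ hC2
      have := mul_le_mul_of_nonneg_left hs1 (show 0 ≤ 2 * (t ^ 4)⁻¹ by positivity)
      linarith
  · intro m
    refine (caps hC hH hgb hs0 ht0 ht1 hs3 htt hρ hρ4 m).trans ?_
    refine mul_le_mul (by linarith) (pow_le_pow_left₀ (by norm_num) (by norm_num) m)
      (by positivity) (by positivity)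
  · refine (nobs hN hgb ht0 ht1 hs3 htt hρ hρ4 n (by omega)).trans ?_
    refine mul_le_mul ?_ (pow_le_pow_left₀ (by norm_num) (by norm_num) n)
      (by positivity) (by positivity)
    exact mul_le_mul_of_nonneg_right (by linarith) (by positivity)
  · -- lower bound of the critical weight
    have h1 : ∑ p ∈ (Pc (2 * n - 1)).filter (fun p => ¬ hl p = 1), wp (Real.exp (-f)) g ρ p ≤
        1 / 2 := by
      have h2 : ∀ p ∈ (Pc (2 * n - 1)).filter (fun p => ¬ hl p = 1),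
          hl p ∈ Icc 2 (2 * n + 2) := by
        intro p hp
        rw [mem_filter] at hp
        have h3 := KW.len_hl hp.1
        rw [mem_Icc]
        omega
      rw [← sum_fiberwise_of_maps_to h2]
      have h3 : ∀ m ∈ Icc 2 (2 * n + 2), ∑ p ∈ ((Pc (2 * n - 1)).filter
          (fun p => ¬ hl p = 1)).filter (fun p => hl p = m), wp (Real.exp (-f)) g ρ p ≤
          t * 2 * (1 / 8) ^ m := by
        intro m hm
        rw [mem_Icc] at hm
        have h4 : ((Pc (2 * n - 1)).filter (fun p => ¬ hl p = 1)).filter (fun p => hl p = m) ⊆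
            (Pc (2 * n - 1)).filter (fun p => hl p = m) := by
          intro p hp
          rw [mem_filter, mem_filter] at hp
          exact mem_filter.2 ⟨hp.1.1, hp.2⟩
        refine (sum_le_sum_of_subset_of_nonneg h4
          (fun p hp _ => hpos p (mem_filter.1 hp).1)).trans ((hpc m hm.1).trans ?_)
        refine mul_le_mul_of_nonneg_right ?_ (by positivity)
        have h5 : (t ^ 4)⁻¹ * Real.exp (-f) ≤ (t ^ 4)⁻¹ * t ^ 5 :=
          mul_le_mul_of_nonneg_left hs5 (by positivity)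
        have h6 : (t ^ 4)⁻¹ * t ^ 5 = t := by
          rw [show t ^ 5 = t ^ 4 * t by ring, ← mul_assoc, inv_mul_cancel₀ (by positivity), one_mul]
        rw [h6] at h5
        linarith
      refine (sum_le_sum h3).trans ?_
      rw [← mul_sum]
      have h5 : ∑ m ∈ Icc 2 (2 * n + 2), ((1 : ℝ) / 8) ^ m ≤ 8 / 7 := by
        have h6 : ∑ m ∈ Icc 2 (2 * n + 2), ((1 : ℝ) / 8) ^ m ≤
            ∑ m ∈ range (2 * n + 3), ((1 : ℝ) / 8) ^ m := by
          refine sum_le_sum_of_subset_of_nonneg ?_ (fun _ _ _ => by positivity)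
          intro m hm
          rw [mem_Icc] at hm
          rw [mem_range]
          omega
        refine h6.trans ?_
        rw [geom_sum_eq (by norm_num)]
        have h7 : (0 : ℝ) ≤ (1 / 8) ^ (2 * n + 3) := by positivity
        rw [div_le_iff_of_neg (by norm_num)]
        linarith
      nlinarith
    have h2 := sum_filter_add_sum_filter_not (Pc (2 * n - 1)) (fun p => hl p = 1)
      (wp (Real.exp (-f)) g ρ)
    rw [hcr, hfour] at h2
    have h3 : 1 / 2 ≤ ρ * (2 + Real.exp g + Real.exp (-g)) := by linarith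
    have h4 : Real.exp g ≤ Real.exp b := Real.exp_le_exp.2 ((le_abs_self g).trans hgb)
    have h5 : Real.exp (-g) ≤ Real.exp b := Real.exp_le_exp.2 ((neg_le_abs g).trans hgb)
    have h6 : 1 / 2 ≤ ρ * (2 + 2 * Real.exp b) := by
      refine h3.trans (mul_le_mul_of_nonneg_left (by linarith) hρ.le)
    have h7 : (4 + 4 * Real.exp b)⁻¹ ≤ ρ := by
      rw [inv_le_iff_one_le_mul₀ (by positivity)]
      linarith
    refine le_trans (inv_anti₀ (by positivity) ?_) h7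
    linarith [show 0 ≤ 2 * (t ^ 4)⁻¹ by positivity]
  · intro m hm
    refine (hpc m hm).trans ?_
    refine mul_le_mul ?_ (h82 m) (by positivity) (by positivity)
    exact mul_le_mul_of_nonneg_right hC2 hs0.le

end Pool.Agent.TPE
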