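import Pool.Agent.TPE.ECAP
import Pool.Agent.TPE.ENOB
import Pool.Agent.TPE.TMGS
import Pool.Agent.TPE.TMGE
import Pool.Agent.TPE.DATBE
import Pool.Agent.TPE.MODME
import Pool.Agent.TPE.ZBME
import Pool.Agent.TPE.MEANME
import Pool.Agent.TPE.MOMME
import Pool.Agent.TPE.FLME
import Pool.Agent.TPE.RHOE
import Pool.Agent.TPE.PARE
import Pool.Agent.TPE.LAPE
import Pool.Agent.TPE.EXPE1
import Pool.Agent.TPE.EXPE2
import Pool.Agent.TPE.JBE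
import Pool.Agent.TPE.N0E
import Pool.Agent.TPE.SKEa
import Pool.Agent.TPE.SKEb
import Pool.Agent.TPE.SKELE
import Pool.Agent.TPE.KBIGE
import Pool.Agent.TPE.LOCAE
import Pool.Agent.TPE.LOCBE
import Pool.Agent.TPE.LOCCE
import Pool.Agent.TPE.BDLE
import Pool.Agent.TPE.RECE
import Pool.Agent.TPE.ONEM
import Pool.Agent.TPE.CHOE1
import Pool.Agent.TPE.CHOE2
import Pool.Agent.TPE.INDE
import Pool.Agent.TPE.EQE1
import Pool.Agent.TPE.EQE2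
import Pool.Agent.TPE.CLSBE
import Pool.Agent.TPE.CLSME
import Pool.Agent.TPE.REGFE
import Pool.Agent.TPE.SYME
import Pool.Agent.TPE.NEARE
import Pool.Agent.TPE.FIXE
import Pool.Agent.TPE.DGE
import Pool.Agent.TPT.MainPre
import Pool.Agent.NSP.BINZ

/-!
# Project TPE: assembly
-/

set_option autoImplicit false

namespace Pool.Agent.TPE

open Finset Filter Topology MeasureTheory
open Pool.Agent.Lib27 Pool.Agent.SapR Pool.Agent.AreaLaw Pool.Agent.TPT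
open Pool.Agent.FL (hg old_gap)

/-- the final theorem from the mass gap, the kernel data, the polygon words with a marked vertex, the
error of the area functional, the kernel library and the old theorem `FIXM` -/
theorem assemble (hT0 : TMG_Stmt) (hKW : KWM_Stmt) (hRt : ROOT_Stmt) (hP : PDIFM_Stmt)
    (hQV : TPK.QGV_Stmt) (hQPA : TPK.QPAR_Stmt) (hQL : TPK.QLT_Stmt) (hQR : TPK.QRAT_Stmt)
    (hQC : TPK.MOMC_Stmt) (hQK : TPK.MOMK_Stmt) (hQF : TPK.QFIN_Stmt) (hFx0 : FIXM_Stmt) :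
    FIN_TPE := by
  obtain ⟨oLT, oLT1, oM2, oBAL, oST, oSUP, oW⟩ := old_gap
  have hT : TMGE_Stmt := t_TMGE hT0 (t_TMGS hKW t_ECAP t_ENOB hgm hg)
  have hD : DATBE_Stmt := t_DATBE hT hKW hQV hg
  have hMo : MODME_Stmt := t_MODME hD hP hgm
  have hZ : ZBME_Stmt := t_ZBME hD hQPA hQL hQR oLT1 oM2 oBAL
  have hMe : MEANME_Stmt := t_MEANME hD hQPA hQR oM2 oBAL
  have hM : MOMME_Stmt := t_MOMME hMe hMo hP hZ hQC hgm
  have hF : FLME_Stmt := t_FLME hMo hQF hQK NSP.t_UNQ hgm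
  have hR : RHOE_Stmt := t_RHOE hT hgm hg
  have hPR : PARE_Stmt := t_PARE hT hgm hg
  have hLP : LAPE_Stmt := t_LAPE hD hPR hQPA hQR oLT1 oM2 oBAL
  have hE1 : EXPE1_Stmt := t_EXPE1 hZ hR hgm
  have hE2 : EXPE2_Stmt := t_EXPE2 hZ hR hgm
  have hJ : JBE_Stmt := t_JBE hZ hR hgm
  have hN0 : N0E_Stmt := t_N0E hZ hR hgm
  have hSa : SKEa_Stmt := t_SKEa k2m hgm m_ARS hg
  have hSb : SKEb_Stmt := t_SKEb hSa k2m hgm m_ARS hg
  have hSk : SKELE_Stmt := t_SKELE hSb hgm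
  have hKB : KBIGE_Stmt := t_KBIGE hT hZ hg hgm
  have hLA : LOCAE_Stmt := t_LOCAE hSk hKB NSP.t_BINZ FS.BIN_thm hM hgm
  have hLB : LOCBE_Stmt := t_LOCBE hSk hKB NSP.t_BINZ FS.BIN_thm FS.SMP_thm hM hgm
  have hLC : LOCCE_Stmt := t_LOCCE hSk hKB NSP.t_BINZ FS.BIN_thm hgm
  have hBD : BDLE_Stmt := t_BDLE hSk hKB FS.BIN_thm hN0 hgm
  have hRe : RECE_Stmt := t_RECE hRt hgm
  have hC1 : CHOE1_Stmt := t_CHOE1 t_ONEM hRe hRt hgm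
  have hC2 : CHOE2_Stmt := t_CHOE2 t_MINM t_GRDM hC1 hRe hJ hgm
  have hI : INDE_Stmt := t_INDE (FS.IND_thm FS.MGF_thm) hLP hM hZ hgm
  have hQ1 : EQE1_Stmt := t_EQE1 hLB hLC hI hE1 hZ hgm
  have hQ2 : EQE2_Stmt := t_EQE2 hLB hBD hI hE2 hZ hgm
  have hCB : CLSBE_Stmt := t_CLSBE hLA hM hZ hgm
  have hCM : CLSME_Stmt := t_CLSME (t_CLSA hRt) hCB hZ hgm
  have hRF : REGFE_Stmt := t_REGFE hCB hCM hF FS.CDF_thm NSP.t_CDFM hgm
  have hNe : NEARE_Stmt := t_NEARE hC1 hC2 hQ1 hQ2 hRF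
  have hFx : FIXE_Stmt := t_FIXE hFx0 hNe t_SYME
  obtain ⟨μ, hμ, hmom, hst, _⟩ := EXW.main3
  exact t_DGE FS.DIAG_thm NSP.t_DIAGM ⟨μ, hμ, hmom, hst⟩ hFx

/-- the theorem `FIXM` of the project `TPT` (second points with `|z|_1 ≤ (1 - e) n`) -/
theorem old_fix (hT : TMG_Stmt) (hKW : KWM_Stmt) (hRt : ROOT_Stmt) (hP : PDIFM_Stmt)
    (hQV : TPK.QGV_Stmt) (hQPA : TPK.QPAR_Stmt) (hQL : TPK.QLT_Stmt) (hQR : TPK.QRAT_Stmt)
    (hQC : TPK.MOMC_Stmt) (hQK : TPK.MOMK_Stmt) (hQF : TPK.QFIN_Stmt) : FIXM_Stmt := by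
  obtain ⟨oLT, oLT1, oM2, oBAL, oST, oSUP, oW⟩ := old_gap
  have hD : DATB_Stmt := t_DATB hT hKW hQV hg
  have hMo : MODM_Stmt := t_MODM hD hP hgm
  have hZ : ZBM_Stmt := t_ZBM hD hQPA hQL hQR oLT1 oM2 oBAL
  have hMe : MEANM_Stmt := t_MEANM hD hQPA hQR oM2 oBAL
  have hM : MOMM_Stmt := t_MOMM hMe hMo hP hZ hQC hgm
  have hF : FLM_Stmt := t_FLM hMo hQF hQK NSP.t_UNQ hgm
  have hR : RHOM_Stmt := t_RHOM hT hgm hg
  have hPR : PARM_Stmt := t_PARM hT hR hgm hg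
  have hLP : LAPM_Stmt := t_LAPM hD hPR hQPA hQR oLT1 oM2 oBAL
  have hKB : KBIGM_Stmt := t_KBIGM hZ hg hgm
  have hLA : LOCA_Stmt := t_LOCA m_SKELM hKB FS.BIN_thm hM hgm
  have hLB : LOCB_Stmt := t_LOCB m_SKELM hKB FS.BIN_thm FS.SMP_thm hM hgm
  have hLC : LOCC_Stmt := t_LOCC m_SKELM hKB FS.BIN_thm hgm
  have hE : EXPMM_Stmt := t_EXPMM hZ hR hgm
  have hI : INDM_Stmt := t_INDM (FS.IND_thm FS.MGF_thm) hE hLP hM hZ hgm
  have hEQ : EQM_Stmt := t_EQM hLB hLC hI hE hZ hgm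
  have hCe : CENM_Stmt := t_CENM m_CHOM hRt hZ hgm
  have hCB : CLSB_Stmt := t_CLSB hLA hM hZ hgm
  have hCM : CLSM_Stmt := t_CLSM (t_CLSA hRt) hCB hZ hgm
  have hRF : REGFM_Stmt := t_REGFM hCB hCM hF FS.CDF_thm NSP.t_CDFM hgm
  exact t_FIXM hCe hEQ hRF t_SYMC

end Pool.Agent.TPE
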