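import Pool.Agent.TPE.Stmts
import Pool.Agent.TPT.SKA
import Pool.Agent.NSP.SKZa

/-!
Module TPE_SKEb, part 1: tokens, values of skeletons.
-/

set_option autoImplicit false

namespace Pool.Agent.TPE.SKE

open Finset Filter Topology MeasureTheory
open Pool.Agent.Lib27 Pool.Agent.SapR Pool.Agent.AreaLaw Pool.Agent.FL Pool.Agent.TPT
open Pool.Agent.FS (rs rs_nil rs_cons rs_congr rs_add rs_ge_zero)
open Pool.Agent.NSP (lc ld tz)
open Pool.Agent.NSP.SKZ (tz_hl tz_ht tz_htn tz_jump tz_mem lc_ne_tz ld_ne_tz)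
open Pool.Agent.TPT.SKAP (ms ms_zero ms_add ms_sum ms_map ms_val ms_mul ms_add_fun ms_congr
  pascal shf tol capSk cf cf_nonneg MCap_sub MArch_zero gap_le glue_nonempty wp_nonneg lc_mem
  ld_mem lc_hl ld_hl lc_ht ld_ht lc_htn ld_htn lc_jump ld_jump lc_kap ld_kap lc_ne_ld)

/-! ### the pieces `jp`, `jm`, `tz` -/

lemma jp_hl : hl jp = 1 := by decide
lemma jm_hl : hl jm = 1 := by decide
lemma jp_ht : ht jp = 1 := by decide
lemma jm_ht : ht jm = 1 := by decide
lemma jp_htn : htn jp = 1 := by decide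
lemma jm_htn : htn jm = 1 := by decide
lemma jp_jump : jump jp = 1 := by decide
lemma jm_jump : jump jm = -1 := by decide
lemma jp_kap : kap jp = 0 := by decide
lemma jm_kap : kap jm = 0 := by decide
lemma tz_kap : kap tz = 1 := by decide

lemma jp_ne_jm : jp ≠ jm := by decide
lemma jp_ne_tz : jp ≠ tz := by decide
lemma jm_ne_tz : jm ≠ tz := by decide
lemma lc_ne_jp : lc ≠ jp := by decide
lemma lc_ne_jm : lc ≠ jm := by decide
lemma ld_ne_jp : ld ≠ jp := by decide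
lemma ld_ne_jm : ld ≠ jm := by decide

lemma jp_free : FreePiece jp.1 jp.2 := by
  refine ⟨?_, ?_⟩
  · unfold StripPair; decide
  · intro k h1 h2
    have h3 : lev (ep 0 jp.1) = 1 := by decide
    rw [h3] at h2
    omega

lemma jm_free : FreePiece jm.1 jm.2 := by
  refine ⟨?_, ?_⟩
  · unfold StripPair; decide
  · intro k h1 h2
    have h3 : lev (ep 0 jm.1) = 1 := by decide
    rw [h3] at h2
    omega

lemma jp_mem (r : ℕ) (hr : 10 ≤ r) (x : ℤ) (hx : 1 ≤ x) : jp ∈ allowed r x := by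
  rw [M41.mem_allowed, M41.mem_Pc]
  refine ⟨⟨jp_free, ?_⟩, hx, ?_, ?_⟩
  · have : jp.1.length + jp.2.length = 2 := by decide
    omega
  · rw [jp_jump]; omega
  · intro v h1 h2
    have h3 : ∀ v ∈ vt 0 jp.1, v.2 ≤ 0 := by decide
    have h4 := h3 v h1
    rw [jp_jump] at h2
    have h5 : ep 0 jp.1 = (1, 0) := by decide
    rw [h5] at h2
    unfold jp at h2
    simp [dv, Prod.ext_iff] at h2
    omega

lemma jm_mem (r : ℕ) (hr : 10 ≤ r) (x : ℤ) (hx : 2 ≤ x) : jm ∈ allowed r x := by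
  rw [M41.mem_allowed, M41.mem_Pc]
  refine ⟨⟨jm_free, ?_⟩, by omega, ?_, ?_⟩
  · have : jm.1.length + jm.2.length = 2 := by decide
    omega
  · rw [jm_jump]; omega
  · intro v h1 h2
    have h3 : ∀ v ∈ vt 0 jm.1, v.1 = 0 := by decide
    have h4 := h3 v h1
    rw [jm_jump] at h2
    have h5 : ep 0 jm.1 = (0, 1) := by decide
    rw [h5] at h2
    unfold jm at h2
    simp [dv, Prod.ext_iff] at h2
    omega

/-! ### values of skeletons -/

/-- inner value: sum over the lateral tokens -/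
noncomputable def iv (F : ℤ → ℤ → ℤ → ℝ) (a : Sk2) (j t : ℕ) : ℝ :=
  ∑ b ∈ range (a.k + 1), (a.k.choose b : ℝ) * F (a.H - j) (a.Λ + j - 2 * b) (a.A - t)

/-- value of a skeleton -/
noncomputable def ev (F : ℤ → ℤ → ℤ → ℝ) (a : Sk2) : ℝ := rs a.l (iv F a)

/-- weight of a skeleton -/
noncomputable def wv (s g τ τ' : ℝ) (m : ℕ) (a : Sk2) : ℝ :=
  s ^ (m - a.H) * Real.exp (g * a.Λ) * ((1 + s * Real.exp g) * τ) ^ a.l.length *
    ((1 + Real.exp (-(2 * g))) * τ') ^ a.k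

/-- new span token -/
def tok (x : ℤ) (a : Sk2) : Sk2 :=
  ⟨(2 * x + 8).toNat :: a.l, a.k, a.H + 4, a.A + (8 * x + 8).toNat, a.Λ⟩

/-- the function seen by the inner arch -/
noncomputable def inn (x : ℤ) (p : Wd × Wd) (F : ℤ → ℤ → ℤ → ℝ) : ℤ → ℤ → ℤ → ℝ :=
  sh (htn p) (kap p) (ht p * (2 * x + jump p)) F

lemma ev_shf (x : ℤ) (p : Wd × Wd) (F : ℤ → ℤ → ℤ → ℝ) (a : Sk2)
    (h0 : 0 ≤ ht p * (2 * x + jump p)) : ev F (shf x p a) = ev (inn x p F) a := by
  unfold ev shf inn sh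
  apply rs_congr
  intro j t _ _
  unfold iv
  simp only [Nat.cast_add, Int.toNat_of_nonneg h0]
  apply sum_congr rfl
  intro b _
  congr 2 <;> ring

lemma ev_tok (x : ℤ) (F : ℤ → ℤ → ℤ → ℝ) (a : Sk2) (hx : 1 ≤ x) :
    ev F (tok x a) = ev (sh 3 1 (6 * x) F) a + ev (sh 4 0 (8 * x + 8) F) a := by
  have hy : (((2 * x + 8).toNat : ℕ) : ℤ) = 2 * x + 8 := Int.toNat_of_nonneg (by omega)
  have hz : (((8 * x + 8).toNat : ℕ) : ℤ) = 8 * x + 8 := Int.toNat_of_nonneg (by omega)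
  unfold ev tok
  simp only [rs_cons]
  rw [add_comm]
  congr 1
  · apply rs_congr
    intro j t _ _
    unfold iv sh
    apply sum_congr rfl
    intro b _
    push_cast
    rw [hy, hz]
    congr 2 <;> ring
  · apply rs_congr
    intro j t _ _
    unfold iv sh
    apply sum_congr rfl
    intro b _
    push_cast
    rw [hz]
    congr 2 <;> ring

lemma ev_tol (x : ℤ) (F : ℤ → ℤ → ℤ → ℝ) (a : Sk2) (hx : 1 ≤ x) :
    ev F (tol x a) = ev (inn x lc F) a + ev (inn x ld F) a := by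
  have hy : (((2 * x).toNat : ℕ) : ℤ) = 2 * x := Int.toNat_of_nonneg (by omega)
  unfold ev
  rw [← rs_add]
  show rs a.l _ = _
  apply rs_congr
  intro j t _ _
  unfold iv tol inn sh
  rw [lc_htn, lc_ht, lc_jump, lc_kap, ld_htn, ld_ht, ld_jump, ld_kap]
  rw [pascal]
  congr 1
  · apply sum_congr rfl
    intro b _
    push_cast
    rw [hy]
    congr 2 <;> ring
  · apply sum_congr rfl
    intro b _
    push_cast
    rw [hy]
    congr 2 <;> ring

lemma ev_ge (b : Sk2) : 1 ≤ ev (fun _ _ _ => 1) b := by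
  have h0 : ∀ j t : ℕ, 1 ≤ iv (fun _ _ _ => 1) b j t := by
    intro j t
    unfold iv
    simp only [mul_one]
    calc (1 : ℝ) = ((b.k.choose 0 : ℕ) : ℝ) := by simp
      _ ≤ _ := Finset.single_le_sum (f := fun c => ((b.k.choose c : ℕ) : ℝ))
        (fun c _ => Nat.cast_nonneg _) (mem_range.2 (by omega))
  unfold ev
  exact (h0 0 0).trans (rs_ge_zero b.l _ (fun j t _ _ => zero_le_one.trans (h0 j t)))

lemma ev_cap (x : ℤ) (T : Wd × ℕ) (F : ℤ → ℤ → ℤ → ℝ) :
    ev F (capSk x T) = F (mlev T) (mlat x T) 0 := by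
  unfold ev iv capSk
  simp

end Pool.Agent.TPE.SKE
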