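import Pool.Agent.TPE.SKEb1

/-!
Module TPE_SKEb, part 2: the assembled multiset represents the states.
-/

set_option autoImplicit false

namespace Pool.Agent.TPE.SKE

open Finset Filter Topology MeasureTheory
open Pool.Agent.Lib27 Pool.Agent.SapR Pool.Agent.AreaLaw Pool.Agent.FL Pool.Agent.TPT
open Pool.Agent.FS (rs rs_nil rs_cons rs_congr rs_add rs_ge_zero)
open Pool.Agent.NSP (lc ld tz)
open Pool.Agent.NSP.SKZ (tz_hl tz_ht tz_htn tz_jump tz_mem lc_ne_tz ld_ne_tz)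
open Pool.Agent.TPT.SKAP (ms ms_zero ms_add ms_sum ms_map ms_val ms_mul ms_add_fun ms_congr
  pascal shf tol capSk cf cf_nonneg MCap_sub MArch_zero gap_le glue_nonempty wp_nonneg lc_mem
  ld_mem lc_hl ld_hl lc_ht ld_ht lc_htn ld_htn lc_jump ld_jump lc_kap ld_kap lc_ne_ld)

lemma AE_zero (hH : HGM_Stmt) (n : ℕ) (x : ℤ) (hx : 1 ≤ x) (F : ℤ → ℤ → ℤ → ℝ) :
    AE n x 0 F = 0 := by
  unfold AE
  rw [mul_zero, MArch_zero hH x hx, sum_empty]

lemma AE_nonneg (n : ℕ) (x : ℤ) (m : ℕ) (F : ℤ → ℤ → ℤ → ℝ) (h : ∀ a b c, 0 ≤ F a b c) :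
    0 ≤ AE n x m F := Finset.sum_nonneg fun _ _ => h _ _ _

lemma StE_zero (hH : HGM_Stmt) (n : ℕ) (x : ℤ) (j : ℕ) (hj : j ≤ 3) (hx : gpE j ≤ x)
    (F : ℤ → ℤ → ℤ → ℝ) : StE n x 0 j F = 0 := by
  have h : j = 0 ∨ j = 1 ∨ j = 2 ∨ j = 3 := by omega
  rcases h with rfl | rfl | rfl | rfl
  · have h1 : 1 ≤ x := by simpa [gpE] using hx
    simp only [StE]
    exact AE_zero hH n x h1 F
  · have h1 : 2 ≤ x := by simpa [gpE] using hx
    simp only [StE]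
    rw [AE_zero hH n x (by omega), Nat.zero_sub, AE_zero hH n (x - 1) (by omega), sub_zero]
  · have h1 : 3 ≤ x := by simpa [gpE] using hx
    simp only [StE]
    rw [AE_zero hH n x (by omega), Nat.zero_sub, AE_zero hH n (x - 1) (by omega),
      AE_zero hH n (x - 2) (by omega), sub_zero, sub_zero]
  · have h1 : 2 ≤ x := by simpa [gpE] using hx
    simp only [StE]
    rw [AE_zero hH n x (by omega), Nat.zero_sub, AE_zero hH n (x - 1) (by omega), sub_zero]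

lemma StE_le (n : ℕ) (x : ℤ) (m j : ℕ) (F : ℤ → ℤ → ℤ → ℝ) (hF : ∀ a b c, 0 ≤ F a b c) :
    StE n x m j F ≤ AE n x m F := by
  have h1 := AE_nonneg n (x - 1) (m - 3) (sh 3 0 (6 * x + 1) F) (fun _ _ _ => hF _ _ _)
  have h2 := AE_nonneg n (x - 2) (m - 2) (sh 2 0 (4 * x - 4) F) (fun _ _ _ => hF _ _ _)
  have h3 := AE_nonneg n (x - 1) (m - 1) (sh 1 0 (2 * x - 1) F) (fun _ _ _ => hF _ _ _)
  match j with
  | 0 => simp [StE]
  | 1 => simp only [StE]; linarith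
  | 2 => simp only [StE]; linarith
  | k + 3 => simp only [StE]; linarith

/-- `ASkE` with the names of these files -/
structure AS (n : ℕ) (x : ℤ) (m j : ℕ) (M : Multiset Sk2) : Prop where
  repr : ∀ F : ℤ → ℤ → ℤ → ℝ, StE n x m j F = ms (ev F) M
  len_le : ∀ σ ∈ M, σ.l.length + σ.k ≤ σ.H
  H_le : ∀ σ ∈ M, σ.H ≤ m
  y_le : ∀ σ ∈ M, ∀ y ∈ σ.l, y ≤ 2 * m + 2
  sum_le : ∀ σ ∈ M, 8 * σ.l.sum ≤ 5 * σ.A
  A_le : ∀ σ ∈ M, σ.A ≤ 2 * m ^ 2
  lam_le : ∀ σ ∈ M, |σ.Λ| ≤ 2 * m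
  count : ∀ s g τ τ' ρ : ℝ, 0 < s → 0 ≤ τ → 0 ≤ τ' → 0 < ρ → ρ ≤ 1 / 2 →
    ∑ p ∈ Pc (2 * n - 1), wp s g ρ p ≤ 1 + (1 - τ) * (ρ ^ 4 + wp s g ρ tz) +
      (1 - τ') * (wp s g ρ lc + wp s g ρ ld) →
    ρ ^ m * ms (wv s g τ τ' m) M ≤ 8 * vj ρ j * capKM m s g ρ

lemma AS.nonempty {n : ℕ} {x : ℤ} {m j : ℕ} {M : Multiset Sk2} (h : AS n x m j M) {a : Sk2}
    (ha : a ∈ M) : (MArch x (2 * m)).Nonempty := by
  have h1 := h.repr (fun _ _ _ => 1)
  have h3 : 1 ≤ ms (ev (fun _ _ _ => 1)) M := by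
    obtain ⟨M', rfl⟩ := Multiset.exists_cons_of_mem ha
    unfold ms
    rw [Multiset.map_cons, Multiset.sum_cons]
    have h4 : 0 ≤ (M'.map (ev (fun _ _ _ => 1))).sum := by
      apply Multiset.sum_nonneg
      intro y hy
      rw [Multiset.mem_map] at hy
      obtain ⟨b, _, rfl⟩ := hy
      linarith [ev_ge b]
    linarith [ev_ge a]
  have h5 := StE_le n x m j (fun _ _ _ => 1) (fun _ _ _ => zero_le_one)
  by_contra hc
  rw [Finset.not_nonempty_iff_eq_empty] at hc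
  unfold AE at h5
  rw [hc, Finset.sum_empty] at h5
  linarith

/-- the other pieces -/
noncomputable def oth (n : ℕ) (x : ℤ) (m : ℕ) : Finset (Wd × Wd) :=
  (othE n x m).filter (fun p => p ≠ lc ∧ p ≠ ld)

lemma mem_oth {n : ℕ} {x : ℤ} {m : ℕ} {p : Wd × Wd} (h : p ∈ oth n x m) :
    p ∈ allowed (2 * n - 1) x ∧ (p ≠ jp ∧ p ≠ jm ∧ p ≠ tz ∧ p ≠ lc ∧ p ≠ ld) ∧ hl p ≤ m := by
  unfold oth othE at h
  rw [mem_filter, mem_filter] at h
  exact ⟨h.1.1, ⟨h.1.2.1, h.1.2.2.1, h.1.2.2.2.1, h.2.1, h.2.2⟩, h.1.2.2.2.2⟩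

/-- assembled multiset -/
noncomputable def asm (n : ℕ) (x : ℤ) (m j : ℕ) (N : ℤ → ℕ → ℕ → Multiset Sk2) :
    Multiset Sk2 :=
  (MCap x (2 * m)).val.map (capSk x) +
    ∑ p ∈ oth n x m, (N (x + jump p) (m - hl p) 0).map (shf x p) +
    (N (x + 1) (m - 1) (nxE j)).map (shf x jp) +
    (if j = 2 then (N (x - 1) (m - 1) 3).map (shf x jm)
      else if j ≤ 1 ∧ 2 ≤ x then (N (x - 1) (m - 1) 0).map (shf x jm) else 0) +
    (if 4 ≤ m then (N x (m - 4) 0).map (tok x) else 0) +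
    (N x (m - 1) 0).map (tol x)

lemma mem_asm {n : ℕ} {x : ℤ} {m j : ℕ} {N : ℤ → ℕ → ℕ → Multiset Sk2} {a : Sk2}
    (hx : gpE j ≤ x) (h : a ∈ asm n x m j N) : (∃ T ∈ MCap x (2 * m), a = capSk x T) ∨
      (∃ p ∈ oth n x m, ∃ b ∈ N (x + jump p) (m - hl p) 0, a = shf x p b) ∨
      (∃ b ∈ N (x + 1) (m - 1) (nxE j), a = shf x jp b) ∨
      (2 ≤ x ∧ ∃ j', j' ≤ 3 ∧ gpE j' ≤ x - 1 ∧ ∃ b ∈ N (x - 1) (m - 1) j', a = shf x jm b) ∨
      (4 ≤ m ∧ ∃ b ∈ N x (m - 4) 0, a = tok x b) ∨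
      (∃ b ∈ N x (m - 1) 0, a = tol x b) := by
  unfold asm at h
  rw [Multiset.mem_add, Multiset.mem_add, Multiset.mem_add, Multiset.mem_add,
    Multiset.mem_add] at h
  rcases h with ((((h | h) | h) | h) | h) | h
  · left
    rw [Multiset.mem_map] at h
    obtain ⟨T, hT, rfl⟩ := h
    exact ⟨T, hT, rfl⟩
  · right; left
    rw [Multiset.mem_sum] at h
    obtain ⟨p, hp, h⟩ := h
    rw [Multiset.mem_map] at h
    obtain ⟨b, hb, rfl⟩ := h
    exact ⟨p, hp, b, hb, rfl⟩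
  · right; right; left
    rw [Multiset.mem_map] at h
    obtain ⟨b, hb, rfl⟩ := h
    exact ⟨b, hb, rfl⟩
  · right; right; right; left
    split_ifs at h with h6 h7
    · rw [Multiset.mem_map] at h
      obtain ⟨b, hb, rfl⟩ := h
      subst h6
      have h8 : 3 ≤ x := by simpa [gpE] using hx
      refine ⟨by omega, 3, le_rfl, ?_, b, hb, rfl⟩
      simp [gpE]
      omega
    · rw [Multiset.mem_map] at h
      obtain ⟨b, hb, rfl⟩ := h
      refine ⟨h7.2, 0, by norm_num, ?_, b, hb, rfl⟩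
      simp [gpE]
      omega
    · simp at h
  · right; right; right; right; left
    split_ifs at h with h6
    · rw [Multiset.mem_map] at h
      obtain ⟨b, hb, rfl⟩ := h
      exact ⟨h6, b, hb, rfl⟩
    · simp at h
  · right; right; right; right; right
    rw [Multiset.mem_map] at h
    obtain ⟨b, hb, rfl⟩ := h
    exact ⟨b, hb, rfl⟩

lemma gpE_one (j : ℕ) (x : ℤ) (hx : gpE j ≤ x) : 1 ≤ x := by
  unfold gpE at hx
  split_ifs at hx <;> omega

lemma nxE_le (j : ℕ) : nxE j ≤ 3 := by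
  unfold nxE
  split_ifs <;> omega

lemma gpE_nxE (j : ℕ) (x : ℤ) (hx : gpE j ≤ x) : gpE (nxE j) ≤ x + 1 := by
  unfold nxE
  unfold gpE at hx
  split_ifs at hx with h1 h2 <;> split_ifs <;> simp [gpE] <;> omega

lemma gpE_zero (x : ℤ) (hx : 1 ≤ x) : gpE 0 ≤ x := by
  simpa [gpE] using hx

lemma shf_ms (r : ℕ) (x : ℤ) (p : Wd × Wd) (hp : p ∈ allowed r x) (F : ℤ → ℤ → ℤ → ℝ)
    (M : Multiset Sk2) : ms (ev F) (M.map (shf x p)) = ms (ev (inn x p F)) M := by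
  have hp1 := ((M41.mem_allowed _ _ _).1 hp)
  rw [ms_map]
  apply ms_congr
  intro a _
  apply ev_shf
  apply mul_nonneg
  · rw [KW.ht_eq hp1.1]; positivity
  · have := hp1.2.2.1
    omega

lemma inn_jp (x : ℤ) (F : ℤ → ℤ → ℤ → ℝ) : inn x jp F = sh 1 0 (2 * x + 1) F := by
  unfold inn
  rw [jp_htn, jp_kap, jp_ht, jp_jump, one_mul]
  rfl

lemma inn_jm (x : ℤ) (F : ℤ → ℤ → ℤ → ℝ) : inn x jm F = sh 1 0 (2 * x - 1) F := by
  unfold inn
  rw [jm_htn, jm_kap, jm_ht, jm_jump, one_mul]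
  rfl

lemma asm_repr (hS : SKEa_Stmt) (hH : HGM_Stmt) (n : ℕ) (hn : 6 ≤ n) (x : ℤ) (m j : ℕ)
    (hm1 : 1 ≤ m) (hm : m ≤ n) (hj : j ≤ 3) (hx : gpE j ≤ x) (N : ℤ → ℕ → ℕ → Multiset Sk2)
    (hN : ∀ (x' : ℤ) (m' j' : ℕ), j' ≤ 3 → gpE j' ≤ x' → m' < m → AS n x' m' j' (N x' m' j'))
    (F : ℤ → ℤ → ℤ → ℝ) : StE n x m j F = ms (ev F) (asm n x m j N) := by
  classical
  have hx1 := gpE_one j x hx
  have hr : 10 ≤ 2 * n - 1 := by omega
  have hlc := lc_mem (2 * n - 1) hr x hx1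
  have hld := ld_mem (2 * n - 1) hr x hx1
  have hjp := jp_mem (2 * n - 1) hr x hx1
  rw [hS n m x j F hn hm1 hm hj hx]
  unfold asm
  rw [ms_add, ms_add, ms_add, ms_add, ms_add, ms_val, ms_sum]
  have e1 : ∑ a ∈ MCap x (2 * m), F (mlev a) (mlat x a) 0 =
      ∑ i ∈ MCap x (2 * m), ev F (capSk x i) := sum_congr rfl fun T _ => (ev_cap x T F).symm
  set G : Wd × Wd → ℝ := fun p => AE n (x + jump p) (m - hl p)
    (sh (htn p) (kap p) (ht p * (2 * x + jump p)) F) with hG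
  have e2 : ∑ p ∈ oth n x m, G p =
      ∑ p ∈ oth n x m, ms (ev F) ((N (x + jump p) (m - hl p) 0).map (shf x p)) := by
    apply sum_congr rfl
    intro p hp
    have hp0 := mem_oth hp
    have hp1 := ((M41.mem_allowed _ _ _).1 hp0.1)
    have hlen := KW.len_hl hp1.1
    have e := (hN (x + jump p) (m - hl p) 0 (by norm_num) (gpE_zero _ hp1.2.2.1)
      (by omega)).repr (inn x p F)
    rw [shf_ms (2 * n - 1) x p hp0.1, ← e]
    rfl
  have e0 : ∑ p ∈ othE n x m, G p = ∑ p ∈ oth n x m, G p + (G lc + G ld) := by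
    rw [← Finset.sum_filter_add_sum_filter_not (othE n x m) (fun p => p ≠ lc ∧ p ≠ ld)]
    congr 1
    have hset : (othE n x m).filter (fun p => ¬ (p ≠ lc ∧ p ≠ ld)) = {lc, ld} := by
      ext p
      rw [mem_filter, mem_insert, mem_singleton]
      constructor
      · rintro ⟨_, h3⟩
        by_contra hc
        push Not at hc
        exact h3 hc
      · rintro (rfl | rfl)
        · refine ⟨?_, fun hc => hc.1 rfl⟩
          unfold othE
          rw [mem_filter]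
          exact ⟨hlc, lc_ne_jp, lc_ne_jm, lc_ne_tz, by rw [lc_hl]; exact hm1⟩
        · refine ⟨?_, fun hc => hc.2 rfl⟩
          unfold othE
          rw [mem_filter]
          exact ⟨hld, ld_ne_jp, ld_ne_jm, ld_ne_tz, by rw [ld_hl]; exact hm1⟩
    rw [hset, sum_pair lc_ne_ld]
  have e3 : StE n (x + 1) (m - 1) (nxE j) (sh 1 0 (2 * x + 1) F) =
      ms (ev F) ((N (x + 1) (m - 1) (nxE j)).map (shf x jp)) := by
    rw [shf_ms (2 * n - 1) x jp hjp, inn_jp]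
    exact (hN (x + 1) (m - 1) (nxE j) (nxE_le j) (gpE_nxE j x hx) (by omega)).repr _
  have e4 : (if j = 2 then StE n (x - 1) (m - 1) 3 (sh 1 0 (2 * x - 1) F)
        else if j ≤ 1 ∧ 2 ≤ x then AE n (x - 1) (m - 1) (sh 1 0 (2 * x - 1) F) else 0) =
      ms (ev F) (if j = 2 then (N (x - 1) (m - 1) 3).map (shf x jm)
        else if j ≤ 1 ∧ 2 ≤ x then (N (x - 1) (m - 1) 0).map (shf x jm) else 0) := by
    by_cases h2 : j = 2
    · rw [if_pos h2, if_pos h2]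
      subst h2
      have h8 : 3 ≤ x := by simpa [gpE] using hx
      rw [shf_ms (2 * n - 1) x jm (jm_mem (2 * n - 1) hr x (by omega)), inn_jm]
      exact (hN (x - 1) (m - 1) 3 le_rfl (by simp [gpE]; omega) (by omega)).repr _
    · rw [if_neg h2, if_neg h2]
      by_cases h3 : j ≤ 1 ∧ 2 ≤ x
      · rw [if_pos h3, if_pos h3, shf_ms (2 * n - 1) x jm (jm_mem (2 * n - 1) hr x h3.2), inn_jm]
        exact (hN (x - 1) (m - 1) 0 (by norm_num) (gpE_zero _ (by omega)) (by omega)).repr _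
      · rw [if_neg h3, if_neg h3, ms_zero]
  have e5 : AE n x (m - 4) (sh 3 1 (6 * x) F) + AE n x (m - 4) (sh 4 0 (8 * x + 8) F) =
      ms (ev F) (if 4 ≤ m then (N x (m - 4) 0).map (tok x) else 0) := by
    split_ifs with h1
    · have e6 := (hN x (m - 4) 0 (by norm_num) (gpE_zero x hx1) (by omega)).repr
      have e7 : ∀ G, AE n x (m - 4) G = ms (ev G) (N x (m - 4) 0) := fun G => e6 G
      rw [e7, e7, ms_map, ← ms_add_fun]
      apply ms_congr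
      intro a _
      exact (ev_tok x F a hx1).symm
    · rw [show m - 4 = 0 by omega, AE_zero hH n x hx1, AE_zero hH n x hx1, ms_zero, add_zero]
  have e6 : G lc + G ld = ms (ev F) ((N x (m - 1) 0).map (tol x)) := by
    have e6 := (hN x (m - 1) 0 (by norm_num) (gpE_zero x hx1) (by omega)).repr
    have e7 : ∀ G, AE n x (m - 1) G = ms (ev G) (N x (m - 1) 0) := fun G => e6 G
    simp only [hG]
    rw [lc_jump, ld_jump, lc_hl, ld_hl, add_zero, e7, e7, ms_map, ← ms_add_fun]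
    apply ms_congr
    intro a _
    rw [ev_tol x F a hx1]
    unfold inn
    rw [lc_jump, ld_jump, add_zero]
  rw [e0, e1, e2, e3, e4, e6]
  linarith

end Pool.Agent.TPE.SKE
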