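import Pool.Agent.TPE.SKEb2

/-!
Module TPE_SKEb, part 3: bounds for the assembled multiset.
-/

set_option autoImplicit false

namespace Pool.Agent.TPE.SKE

open Finset Filter Topology MeasureTheory
open Pool.Agent.Lib27 Pool.Agent.SapR Pool.Agent.AreaLaw Pool.Agent.FL Pool.Agent.TPT
open Pool.Agent.FS (rs rs_nil rs_cons rs_congr rs_add rs_ge_zero)
open Pool.Agent.NSP (lc ld tz)
open Pool.Agent.NSP.SKZ (tz_hl tz_ht tz_htn tz_jump tz_mem lc_ne_tz ld_ne_tz)
open Pool.Agent.TPT.SKAP (ms ms_zero ms_add ms_sum ms_map ms_val ms_mul ms_add_fun ms_congr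
  pascal shf tol capSk cf cf_nonneg MCap_sub MArch_zero gap_le glue_nonempty wp_nonneg lc_mem
  ld_mem lc_hl ld_hl lc_ht ld_ht lc_htn ld_htn lc_jump ld_jump lc_kap ld_kap lc_ne_ld)

/-- the hypothesis of the induction -/
def IH (n m : ℕ) (N : ℤ → ℕ → ℕ → Multiset Sk2) : Prop :=
  ∀ (x' : ℤ) (m' j' : ℕ), j' ≤ 3 → gpE j' ≤ x' → m' < m → AS n x' m' j' (N x' m' j')

/-- all bounds for one skeleton -/
structure Bd (m : ℕ) (σ : Sk2) : Prop where
  len_le : σ.l.length + σ.k ≤ σ.H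
  H_le : σ.H ≤ m
  y_le : ∀ y ∈ σ.l, y ≤ 2 * m + 2
  sum_le : 8 * σ.l.sum ≤ 5 * σ.A
  A_le : σ.A ≤ 2 * m ^ 2
  lam_le : |σ.Λ| ≤ 2 * m

lemma AS.bd {n : ℕ} {x : ℤ} {m j : ℕ} {M : Multiset Sk2} (h : AS n x m j M) {a : Sk2}
    (ha : a ∈ M) : Bd m a :=
  ⟨h.len_le a ha, h.H_le a ha, h.y_le a ha, h.sum_le a ha, h.A_le a ha, h.lam_le a ha⟩

lemma arith (m k hh : ℕ) (z : ℤ) (A : ℕ) (g1 : hh ≤ k) (g3 : k ≤ m)
    (g4 : z ≤ 2 * (m : ℤ) - k) (g5 : A ≤ 2 * (m - k) ^ 2) :
    A + ((hh : ℤ) * z).toNat ≤ 2 * m ^ 2 := by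
  have e1 : ((hh : ℤ) * z).toNat ≤ k * (2 * m - k) := by
    rw [Int.toNat_le]
    have e2 : ((k * (2 * m - k) : ℕ) : ℤ) = (k : ℤ) * (2 * m - k) := by
      rw [Nat.cast_mul, Nat.cast_sub (by omega)]
      push_cast
      ring
    rw [e2]
    have e3 : (hh : ℤ) * z ≤ (hh : ℤ) * (2 * m - k) :=
      mul_le_mul_of_nonneg_left g4 (by positivity)
    have e4 : (hh : ℤ) * (2 * m - k) ≤ (k : ℤ) * (2 * m - k) :=
      mul_le_mul_of_nonneg_right (by exact_mod_cast g1) (by omega)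
    linarith
  obtain ⟨d, rfl⟩ := Nat.exists_eq_add_of_le g3
  have e5 : k + d - k = d := by omega
  have e6 : 2 * (k + d) - k = k + 2 * d := by omega
  rw [e5] at g5
  rw [e6] at e1
  nlinarith

/-- bounds for a shifted skeleton -/
lemma bd_shf (hK : K2M_Stmt) (hH : HGM_Stmt) (hg : HG_Stmt) (n : ℕ) (x : ℤ) (hx : 1 ≤ x)
    (m : ℕ) (hm : m ≤ n) (p : Wd × Wd) (hp : p ∈ allowed (2 * n - 1) x) (hpm : hl p ≤ m)
    (b : Sk2) (hb : Bd (m - hl p) b) (hne : (MArch (x + jump p) (2 * (m - hl p))).Nonempty) :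
    Bd m (shf x p b) := by
  have hp1 := ((M41.mem_allowed _ _ _).1 hp)
  have hlen := KW.len_hl hp1.1
  have h3 := hg.2.2 (2 * n - 1) p hp1.1
  have h4 := (hH.2.2.1 (2 * n - 1) p hp1.1).2
  have k1 := gap_le hH hx (glue_nonempty hK hx (by omega) hp hpm hne)
  have k2 := gap_le hH hp1.2.2.1 hne
  rw [Nat.cast_sub hpm] at k2
  obtain ⟨b1, b2, b3, b4, b5, b6⟩ := hb
  unfold shf
  refine ⟨?_, ?_, ?_, ?_, ?_, ?_⟩
  · simp only
    omega
  · simp only
    omega
  · intro y hy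
    have := b3 y hy
    omega
  · simp only
    omega
  · simp only
    rw [KW.ht_eq hp1.1]
    exact arith m (hl p) (htn p) (2 * x + jump p) b.A h3.2 hpm (by linarith) b5
  · simp only
    rw [Nat.cast_sub hpm] at b6
    have := abs_add_le b.Λ (kap p)
    linarith

lemma asm_bd (hK : K2M_Stmt) (hH : HGM_Stmt) (hg : HG_Stmt) (n : ℕ) (hn : 6 ≤ n) (x : ℤ)
    (m j : ℕ) (hm1 : 1 ≤ m) (hm : m ≤ n) (hx : gpE j ≤ x)
    (N : ℤ → ℕ → ℕ → Multiset Sk2) (hN : IH n m N) :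
    ∀ a ∈ asm n x m j N, Bd m a := by
  classical
  have hx1 := gpE_one j x hx
  have hr : 10 ≤ 2 * n - 1 := by omega
  intro a ha
  rcases mem_asm hx ha with ⟨T, hT, rfl⟩ | ⟨p, hp, b, hb, rfl⟩ | ⟨b, hb, rfl⟩ |
    ⟨hx2, j', hj', hxj, b, hb, rfl⟩ | ⟨h4, b, hb, rfl⟩ | ⟨b, hb, rfl⟩
  · have h1 := hH.2.1 x (2 * m) T hx1 (MCap_sub _ _ hT)
    unfold capSk
    refine ⟨?_, ?_, ?_, ?_, ?_, ?_⟩
    · simp
    · simp only
      omega
    · intro y hy
      simp at hy
    · simp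
    · simp
    · simp only
      have := h1.2.2.2.2
      push_cast at this
      exact this
  · have hp0 := mem_oth hp
    have hp1 := ((M41.mem_allowed _ _ _).1 hp0.1)
    have hlen := KW.len_hl hp1.1
    have hA := hN (x + jump p) (m - hl p) 0 (by norm_num) (gpE_zero _ hp1.2.2.1) (by omega)
    exact bd_shf hK hH hg n x hx1 m hm p hp0.1 hp0.2.2 b (hA.bd hb) (hA.nonempty hb)
  · have hA := hN (x + 1) (m - 1) (nxE j) (nxE_le j) (gpE_nxE j x hx) (by omega)
    refine bd_shf hK hH hg n x hx1 m hm jp (jp_mem _ hr x hx1) (by rw [jp_hl]; exact hm1) b ?_ ?_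
    · rw [jp_hl]
      exact hA.bd hb
    · rw [jp_hl, jp_jump]
      exact hA.nonempty hb
  · have hA := hN (x - 1) (m - 1) j' hj' hxj (by omega)
    refine bd_shf hK hH hg n x hx1 m hm jm (jm_mem _ hr x hx2) (by rw [jm_hl]; exact hm1) b ?_ ?_
    · rw [jm_hl]
      exact hA.bd hb
    · rw [jm_hl, jm_jump]
      exact hA.nonempty hb
  · have hA := hN x (m - 4) 0 (by norm_num) (gpE_zero x hx1) (by omega)
    have k2 := gap_le hH hx1 (hA.nonempty hb)
    rw [Nat.cast_sub h4] at k2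
    push_cast at k2
    obtain ⟨b1, b2, b3, b4, b5, b6⟩ := hA.bd hb
    have hy : (((2 * x + 8).toNat : ℕ) : ℤ) = 2 * x + 8 := Int.toNat_of_nonneg (by omega)
    have hz : (((8 * x + 8).toNat : ℕ) : ℤ) = 8 * x + 8 := Int.toNat_of_nonneg (by omega)
    unfold tok
    refine ⟨?_, ?_, ?_, ?_, ?_, ?_⟩
    · simp only [List.length_cons]
      omega
    · simp only
      omega
    · intro y hy2
      simp only [List.mem_cons] at hy2
      rcases hy2 with rfl | hy2
      · omega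
      · have := b3 y hy2
        omega
    · simp only [List.sum_cons]
      omega
    · simp only
      obtain ⟨d, rfl⟩ := Nat.exists_eq_add_of_le h4
      rw [show 4 + d - 4 = d by omega] at b5
      push_cast at k2
      have e1 : (8 * x + 8).toNat ≤ 8 * d + 8 := by omega
      nlinarith
    · simp only
      rw [Nat.cast_sub h4] at b6
      push_cast at b6
      linarith
  · have hA := hN x (m - 1) 0 (by norm_num) (gpE_zero x hx1) (by omega)
    have k2 := gap_le hH hx1 (hA.nonempty hb)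
    rw [Nat.cast_sub hm1] at k2
    push_cast at k2
    obtain ⟨b1, b2, b3, b4, b5, b6⟩ := hA.bd hb
    unfold tol
    refine ⟨?_, ?_, ?_, ?_, ?_, ?_⟩
    · simp only
      omega
    · simp only
      omega
    · intro y hy2
      have := b3 y hy2
      omega
    · simp only
      omega
    · simp only
      obtain ⟨d, rfl⟩ := Nat.exists_eq_add_of_le hm1
      rw [show 1 + d - 1 = d by omega] at b5
      push_cast at k2
      have e1 : (2 * x).toNat ≤ 2 * d := by omega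
      nlinarith
    · simp only
      rw [Nat.cast_sub hm1] at b6
      push_cast at b6
      have := abs_add_le b.Λ 1
      rw [show |(1 : ℤ)| = 1 from rfl] at this
      linarith

end Pool.Agent.TPE.SKE
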