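import Pool.Agent.TPE.Defs

/-!
# Project TPE: statements

THEOREM (`FIN_TPE`): there is `e n → 0` such that the Airy law, with all moments, holds for the uniform
self-avoiding polygons of perimeter `2n` through `0` and `z n`, for all `z n` with `e n * n ≤ |z n|_1 ≤ n` and
`|z n|_∞ ≤ (1 - e n) * n`: the whole ball except its centre and its four corners (there the law fails).
The old hand-in (`TPT`) needs `|z n|_1 ≤ (1 - e n) * n`.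

METHOD: `TPT` (force vector `(f, g)`) together with `NSP` (`s = exp (-f) → 0`). `J = n - zl`, the number of
backward steps, has mean and variance of order `s n`. Constants depend on `a`, `b` (and `r`, `K`, ...) only, not on
`f ≥ a`. Every doc string contains the proof; the patterns are the files of `TPT` and `NSP`.
-/

set_option autoImplicit false

namespace Pool.Agent.TPE

open Finset Filter Topology MeasureTheory
open Pool.Agent.Lib27 Pool.Agent.SapR Pool.Agent.AreaLaw Pool.Agent.FL Pool.Agent.TPT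
open Pool.Agent.FS (sc rs bp)
open Pool.Agent.NSP (lc ld tz)
open Pool.Agent.KCS (airyMoment)
open Pool.Agent.KCC (areaMoment)

/-! ### Mass gap for large force -/

/-- ECAP : marked caps have many backward steps. PROOF. `w` is an arch with `2 m` steps; its `2 m - 1` inner
vertices have level at least `1`. Every level `1 ≤ h < mlev a` is visited before and after the mark, so at
least twice, the neighbour levels are visited, and it is not a cut: at least three vertices. With the mark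
itself `3 (mlev a - 1) + 1 ≤ 2 m - 1`. Compare `NSP.TAZ.key`, `NSP.TAZ.sum_cnt`. -/
def ECAP_Stmt : Prop := ∀ (x : ℤ) (m : ℕ) (a : Wd × ℕ), 1 ≤ x → a ∈ MCap x (2 * m) →
  3 * mlev a ≤ 2 * m + 1

/-- ENOB : the same for the pairs with `NoB`. PROOF. `z = slev n w j`. For `z ≤ 0` nothing. Else the levels
`0 < h < z` are visited on the way from the origin to the vertex `j` and on the way back, so at least
twice, not twice (`NoB`), hence three times; with the origin and the vertex `j`: `3 (z - 1) + 2 ≤ 2 n`. -/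
def ENOB_Stmt : Prop := ∀ (n : ℕ) (w : Fin (2 * n) → Fin 4) (j : ℕ), w ∈ SAP n → j < 2 * n →
  NoB n w j → 3 * slev n w j ≤ 2 * n + 1

/-- TMGS (from KWM, ECAP, ENOB, HGM, `NSP.TAZ`) : mass gap for large `f`. PROOF. `s = exp(-f)`. KWM (`KData.crit`) gives
the critical `ρ`; `ρ ≤ 1/4` since the four pieces of half length `1` (`NSP.TAZ.four`) have total weight
`ρ (2 + e^g + e^-g) ≥ 4 ρ`. A piece of half length `m ≥ 2` has `δ = m - htn ≥ max(1, (m-1)/3)` (`NSP.TAZ.key`), weight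
`≤ 4^-m s^δ e^(2bm)` (`|kap| ≤ 2 m`), and there are at most `(2m+1) 16^m` of them (`NSP.TAZ.card_le`). Let
`τ = e^(-2b)/64`, `s0 = τ^3 = exp(-a₀)`, `a ≥ a₀`. For `s ≤ s0`: `s^δ ≤ s τ^(m-4)` (real exponent), so the
sum is at most `(2m+1) (4 e^(2b) τ)^m τ^-4 s ≤ C s 8^-m`. For `m = 1` the sum is at most `1`, for `m = 0` it is empty.
Caps: `mlev ≤ (2m+1)/3` (ECAP), `|mlat| ≤ 2 m` (HGM), at most `m 2m 16^m` of them: `≤ 2 m^2 (4 e^(2b) τ)^m τ^-1 ≤ C 8^-m`.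
NoB: `slev ≤ (2n+1)/3` (ENOB), `|lat| ≤ 2 n`, `#SAP ≤ 16^n`: the same. Lower bound of `ρ`: enlarge `a` so that the pieces with
`m ≥ 2` have total weight at most `1/2`; then `ρ (2 + 2 e^b) ≥ 1/2`. `θ = 1/2`. -/
def TMGS_Stmt : Prop := ∀ b : ℝ, 0 < b → ∃ a C θ : ℝ, 0 < a ∧ 0 < C ∧ 0 < θ ∧ θ < 1 ∧ ∃ N : ℕ,
  ∀ n : ℕ, N ≤ n → ∀ f g : ℝ, a ≤ f → |g| ≤ b →
    ∃ rho : ℝ, CritM n (Real.exp (-f)) g rho ∧ TailsM C θ n f g rho ∧ C⁻¹ ≤ rho ∧ rho ≤ 1 / 4 ∧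
      ∀ m : ℕ, 2 ≤ m → ∑ p ∈ (Pc (2 * n - 1)).filter (fun p => hl p = m),
        wp (Real.exp (-f)) g rho p ≤ C * Real.exp (-f) * θ ^ m

/-- TMGE (from TMG, TMGS) : mass gap for all `f ≥ a`. PROOF. `a₁` from TMGS for `b`. For `f ≥ a₁`: TMGS. For
`a ≤ f ≤ a₁`: TMG with `(a, max a₁ b)`; last part: the sum is at most `C θ^m ≤ C e^(a₁) s θ^m`. Maximum of the constants
(`TailsM` is monotone: `TPT.DATB.tails_mono`). -/
def TMGE_Stmt : Prop := ∀ a b : ℝ, 0 < a → a ≤ b → ∃ C θ : ℝ, 0 < C ∧ 0 < θ ∧ θ < 1 ∧ ∃ N : ℕ,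
  ∀ n : ℕ, N ≤ n → ∀ f g : ℝ, BoxE a b f g →
    ∃ rho : ℝ, CritM n (Real.exp (-f)) g rho ∧ TailsM C θ n f g rho ∧ C⁻¹ ≤ rho ∧ rho ≤ 1 / 4 ∧
      ∀ m : ℕ, 2 ≤ m → ∑ p ∈ (Pc (2 * n - 1)).filter (fun p => hl p = m),
        wp (Real.exp (-f)) g rho p ≤ C * Real.exp (-f) * θ ^ m

/-! ### The force model: ports of `TPT` with `BoxE` instead of `Box` -/

/-- DATBE : port of `TPT/DATB.lean` (TMGE instead of TMG; the upper bound of `f` is not used). -/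
def DATBE_Stmt : Prop := ∀ a b : ℝ, 0 < a → a ≤ b → ∃ D : ℝ, 2 ≤ D ∧ ∃ N : ℕ, 3 ≤ N ∧
  ∀ n : ℕ, N ≤ n → ∀ f g : ℝ, BoxE a b f g → ∃ d : KData n (Real.exp (-f)) g, KOk D n f g d

/-- MODME : port of `TPT/MODM.lean`. -/
def MODME_Stmt : Prop := ∀ a b : ℝ, 0 < a → a ≤ b → ∃ D : ℝ, 2 ≤ D ∧ ∃ N : ℕ, 3 ≤ N ∧
  ∀ f g : ℕ → ℝ, (∀ n, BoxE a b (f n) (g n)) → ∃ Q : TPK.QModel (fun _ => D),
    TPK.NearP Q ∧ TPK.BadP Q ∧ ∀ n : ℕ, N ≤ n →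
      (∃ d : KData n (Real.exp (-(f n))) (g n), KOk D n (f n) (g n) d ∧ Q.G n = d.G) ∧
      (∀ x : ℝ, Q.cdf n x = cdfM n (Real.exp (-(f n))) (g n) x) ∧
      (∀ r : ℕ, Q.mom n r = momM n (Real.exp (-(f n))) (g n) r) ∧
      (∀ y : ℝ, (Q.P n).eval y = ∑ q ∈ Omm n, wm n (Real.exp (-(f n))) (g n) q * y ^ (am n q)) ∧
      ∀ r : ℕ, KCG.mr r (Q.P n) =
        ∑ q ∈ Omm n, wm n (Real.exp (-(f n))) (g n) q * (am n q : ℝ) ^ r

/-- ZBME : port of `TPT/ZBM.lean` (from DATBE; the facts on `rho` from KOk). -/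
def ZBME_Stmt : Prop := ∀ a b : ℝ, 0 < a → a ≤ b → ∃ C θ : ℝ, 0 < C ∧ 0 < θ ∧ θ < 1 ∧ ∃ N : ℕ,
  ∀ n : ℕ, N ≤ n → ∀ f g : ℝ, BoxE a b f g → ∃ rho : ℝ, CritM n (Real.exp (-f)) g rho ∧
    TailsM C θ n f g rho ∧ C⁻¹ ≤ rho ∧ rho ≤ 1 / 4 ∧
    C⁻¹ ≤ sc n * rho ^ n * Zm n (Real.exp (-f)) g ∧ sc n * rho ^ n * Zm n (Real.exp (-f)) g ≤ C

/-- MEANME : port of `TPT/MEANM.lean`. -/
def MEANME_Stmt : Prop := ∀ a b : ℝ, 0 < a → a ≤ b → ∃ C : ℝ, 0 < C ∧ ∃ N : ℕ,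
  ∀ n : ℕ, N ≤ n → ∀ f g : ℝ, BoxE a b f g →
    C⁻¹ * Zm n (Real.exp (-f)) g ≤ ∑ q ∈ Omm n, wm n (Real.exp (-f)) g q * rm n q ∧
    ∑ q ∈ Omm n, wm n (Real.exp (-f)) g q * rm n q ≤ C * Zm n (Real.exp (-f)) g

/-- MOMME : port of `TPT/MOMM.lean`. -/
def MOMME_Stmt : Prop := ∀ a b : ℝ, 0 < a → a ≤ b → ∀ r : ℕ, ∃ C : ℝ, 0 < C ∧ ∃ N : ℕ,
  ∀ n : ℕ, N ≤ n → ∀ f g : ℝ, BoxE a b f g →
    ∑ q ∈ Omm n, wm n (Real.exp (-f)) g q * rm n q ^ r ≤ C * Zm n (Real.exp (-f)) g ∧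
    C⁻¹ * Zm n (Real.exp (-f)) g ≤ ∑ q ∈ Omm n, wm n (Real.exp (-f)) g q * rm n q ∧
    ∑ q ∈ Omm n, wm n (Real.exp (-f)) g q * |(dm q : ℝ) - (am n q : ℝ)| ^ r ≤
      C * (n * Real.log n) ^ r * Zm n (Real.exp (-f)) g

/-- FLME : port of `TPT/FLM.lean`. -/
def FLME_Stmt : Prop := ∀ μ : Measure ℝ, IsProbabilityMeasure μ →
  (∀ x : ℝ, μ {x} = 0 →
    Tendsto (fun n : ℕ => areaCdf n (Staircase n) x) atTop (𝓝 (μ (Set.Iic x)).toReal)) →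
  ∀ (a b : ℝ), 0 < a → a ≤ b → ∀ f g : ℕ → ℝ, (∀ n, BoxE a b (f n) (g n)) →
    (∀ x : ℝ, μ {x} = 0 → Tendsto (fun n : ℕ =>
      (∑ q ∈ (Omm n).filter (fun q => (dm q : ℝ) * Zm n (Real.exp (-(f n))) (g n) ≤
        x * ∑ q ∈ Omm n, wm n (Real.exp (-(f n))) (g n) q * dm q),
          wm n (Real.exp (-(f n))) (g n) q) / Zm n (Real.exp (-(f n))) (g n)) atTop
      (𝓝 (μ (Set.Iic x)).toReal)) ∧
    ∀ r : ℕ, Tendsto (fun n : ℕ =>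
      ((∑ q ∈ Omm n, wm n (Real.exp (-(f n))) (g n) q * (dm q : ℝ) ^ r) /
          Zm n (Real.exp (-(f n))) (g n)) /
        ((∑ q ∈ Omm n, wm n (Real.exp (-(f n))) (g n) q * (dm q : ℝ)) /
          Zm n (Real.exp (-(f n))) (g n)) ^ r) atTop (𝓝 (airyMoment r))

/-! ### Dependence on the force -/

/-- RHOE (from TMGE, HGM, `NSP.TAZ`) : the critical weight. PROOF. `s = exp(-f)`, `p_i = wp s g rho i`, `∑ p_i = 1`, `m = hl`,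
`δ = m - htn ≤ m`, `δ = 0` if `m = 1`, `|κ| ≤ 2 m`. (a) the pieces of half length `1` have total weight
`ρ (2 + e^g + e^-g)` (`NSP.TAZ.four`), the others at most `C s` (last part of TMGE). For `F' = (f + u, g + v)`,
`α = log(ρ'/ρ)`, `x_i = α m_i - u δ_i + v κ_i`: `∑ p_i (exp x_i - 1) = 0`. As in `TPT/RHOM.lean` `|α| ≤ |u| + 2 |v|`; for small
`η` `|∑ p_i x_i| ≤ ∑ p_i x_i^2 exp|x_i| ≤ C (α^2 + v^2 + s u^2)` (the `u`-part only for `m ≥ 2`). With `M = ∑ p_i m_i ≥ 1`,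
`∑ p_i δ_i ≤ C s`: `M |α| ≤ C (s |u| + |v|) + C α^2 + C s u^2`, and `C |α| ≤ 1/2` for small `η`: (b). (d): the same for `-(u, v)`, add
the two identities: `M |α₊ + α₋| ≤ C (α₊^2 + α₋^2 + v^2 + s u^2) ≤ C (s u^2 + v^2)` by (b). (c) `v = 0`, `u = η`, `α ≥ 0` and
`α ≤ C s η` by (b): `1 = ∑ p_i exp(α m_i - η δ_i) ≤ 1 + C α - (1 - e^-η) p_tz`, `p_tz = ρ^4 s e^g ≥ c s` (`NSP.RHOZ.tz_mem`, `n ≥ 6`). -/
def RHOE_Stmt : Prop := ∀ a b : ℝ, 0 < a → a ≤ b → ∃ C c η : ℝ, 0 < C ∧ 0 < c ∧ 0 < η ∧ ∃ N : ℕ,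
  ∀ n : ℕ, N ≤ n → ∀ f g rho : ℝ, BoxE a b f g → CritM n (Real.exp (-f)) g rho →
    (1 - C * Real.exp (-f) ≤ rho * (2 + Real.exp g + Real.exp (-g)) ∧
      rho * (2 + Real.exp g + Real.exp (-g)) ≤ 1) ∧
    (∀ u v rho' : ℝ, |u| ≤ η → |v| ≤ η → CritM n (Real.exp (-(f + u))) (g + v) rho' →
      |Real.log (rho' / rho)| ≤ C * (Real.exp (-f) * |u| + |v|)) ∧
    (∀ rho' : ℝ, CritM n (Real.exp (-(f + η))) g rho' →
      c * Real.exp (-f) ≤ Real.log (rho' / rho)) ∧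
    ∀ u v rho₁ rho₂ : ℝ, |u| ≤ η → |v| ≤ η → CritM n (Real.exp (-(f + u))) (g + v) rho₁ →
      CritM n (Real.exp (-(f - u))) (g - v) rho₂ →
        |Real.log (rho₁ / rho) + Real.log (rho₂ / rho)| ≤ C * (Real.exp (-f) * u ^ 2 + v ^ 2)

/-- PARE (from TMGE, HGM, `NSP.TAZ`) : the parameters for large `f`. PROOF. Half length `1`: `hl = htn = 1`,
`jump^2 = 0, 0, 1, 1`, weights `ρ e^g, ρ e^-g, ρ, ρ`, total weight `1 - O(s)`, so `2 ρ = 2/(2 + e^g + e^-g) + O(s)`; the pieces with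
`m ≥ 2` contribute at most `∑ 4 m^2 C s θ^m`. -/
def PARE_Stmt : Prop := ∀ a b : ℝ, 0 < a → a ≤ b → ∃ C : ℝ, 0 < C ∧ ∃ N : ℕ, ∀ n : ℕ, N ≤ n →
  ∀ f g rho : ℝ, BoxE a b f g → CritM n (Real.exp (-f)) g rho → ∀ i : Fin 3,
    |par n (Real.exp (-f)) g rho i -
      (![1, 1, 2 / (2 + Real.exp g + Real.exp (-g))] : Fin 3 → ℝ) i| ≤ C * Real.exp (-f)

/-- LAPE (from DATBE, PARE, QPAR, QRAT for `TPK`, the old LT1, M2, BAL) : asymptotic continuity of the Laplace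
transforms for `f → ∞`. PROOF. As `TPT/LAPM.lean`; the only use of PARM there is that the three parameters of
the two kernels differ by `o(1)`: here by PARE (`exp(-f), exp(-f') → 0`, `g - g' → 0`, the third limit parameter is
Lipschitz in `g`). -/
def LAPE_Stmt : Prop := ∀ a b lam : ℝ, 0 < a → a ≤ b → 0 ≤ lam → ∀ f g f' g' : ℕ → ℝ,
  (∀ n, BoxE a b (f n) (g n)) → (∀ n, BoxE a b (f' n) (g' n)) →
    Tendsto f atTop atTop → Tendsto f' atTop atTop →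
    Tendsto (fun n : ℕ => g n - g' n) atTop (𝓝 0) →
    Tendsto (fun n : ℕ => lapM n (Real.exp (-(f n))) (g n) lam -
      lapM n (Real.exp (-(f' n))) (g' n) lam) atTop (𝓝 0)

/-- EXPE1 (from ZBME, RHOE, HGM) : exponential moments, `s n` large. PROOF. As `TPT/EXPMM.lean` with
`U = (u/√(s n), v/√n)`: `Zm(F+U) Zm(F-U)/Zm(F)^2 ≤ C (rho^2/(rho₁ rho₂))^n ≤ C exp(C n (s u^2/(s n) + v^2/n))` by RHOE (d)
(`|u|/√(s n) ≤ η`, `|v|/√n ≤ η`; box `a/2, 2b`), and Jensen with CenM. -/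
def EXPE1_Stmt : Prop := ∀ a b u v : ℝ, 0 < a → a ≤ b → ∃ C v0 : ℝ, 0 < C ∧ 0 < v0 ∧ ∃ N : ℕ,
  ∀ n : ℕ, N ≤ n → ∀ f g h t : ℝ, BoxE a b f g → v0 ≤ Real.exp (-f) * n → CenM n f g h t →
    ∑ q ∈ Omm n, wm n (Real.exp (-f)) g q *
      Real.exp (u * (((zl q : ℝ) - h) / se n f) + v * (((zt q : ℝ) - t) / Real.sqrt n)) ≤
        C * Zm n (Real.exp (-f)) g

/-- EXPE2 (from ZBME, RHOE, HGM) : exponential moments, `s n` bounded. PROOF. `J = n - zl ≥ 0`. By Cauchy-Schwarz it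
is enough to bound `E e^(2uJ)` and `E e^(2vY)`, `Y = (zt - t)/√n`. `E e^(2uJ) = Zm(f - 2u, g)/Zm(f, g) ≤ C (ρ/ρ')^n`, and by RHOE (a)
`ρ (2 + e^g + e^-g) ≤ 1`, `ρ' (2 + e^g + e^-g) ≥ 1 - C s e^(2u) ≥ 1 - C'/n` (`s ≤ M/n`, so `f` is large and `f - 2u ≥ a`). `Y`: as
EXPE1 with `u = 0` (RHOE (d), Jensen with the hypothesis on the mean of `zt`). -/
def EXPE2_Stmt : Prop := ∀ a b u v M : ℝ, 0 < a → a ≤ b → 0 < M → ∃ C : ℝ, 0 < C ∧ ∃ N : ℕ,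
  ∀ n : ℕ, N ≤ n → ∀ f g t : ℝ, BoxE a b f g → Real.exp (-f) * n ≤ M →
    |∑ q ∈ Omm n, wm n (Real.exp (-f)) g q * ((zt q : ℝ) - t)| ≤ Zm n (Real.exp (-f)) g →
    ∑ q ∈ Omm n, wm n (Real.exp (-f)) g q *
      Real.exp (u * ((n : ℝ) - zl q) + v * (((zt q : ℝ) - t) / Real.sqrt n)) ≤
        C * Zm n (Real.exp (-f)) g

/-- JBE (from ZBME, RHOE, HGM) : mean of `J = n - zl`. PROOF. As `NSP/CHOZ.lean`. `E e^(ηJ) = Zm(f - η, g)/Zm(f, g) ≤ C (ρ/ρ')^n ≤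
C exp(C s n)` by RHOE (b) (box `a/2`, `η ≤ a/2`: the `η` of RHOE may be decreased in (b), not in (c)), so by Jensen
`η E J ≤ C + C s n`. `E e^(-ηJ) = Zm(f + η, g)/Zm(f, g) ≤ C (ρ/ρ')^n ≤ C exp(-c s n)` by RHOE (c) (`η` of RHOE), so `η E J ≥ c s n - C`. -/
def JBE_Stmt : Prop := ∀ a b : ℝ, 0 < a → a ≤ b → ∃ C : ℝ, 0 < C ∧ ∃ N : ℕ,
  ∀ n : ℕ, N ≤ n → ∀ f g : ℝ, BoxE a b f g →
    (C⁻¹ * (Real.exp (-f) * n) - C) * Zm n (Real.exp (-f)) g ≤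
      ∑ q ∈ Omm n, wm n (Real.exp (-f)) g q * ((n : ℝ) - zl q) ∧
    ∑ q ∈ Omm n, wm n (Real.exp (-f)) g q * ((n : ℝ) - zl q) ≤
      (C * (Real.exp (-f) * n) + C) * Zm n (Real.exp (-f)) g

/-- N0E (from ZBME, RHOE, HGM) : words without backward step. PROOF. As `NSP.BDZ.N0_ge`. For fixed `n`, `g`,
`Zm n s' g → N0 = ∑_{zl = n} e^(g zt)` as `s' → 0` (`0^0 = 1`), and `C^-1 ≤ sc ρ(s')^n Zm n s' g ≤ sc κ^-n Zm n s' g`,
`κ = 2 + e^g + e^-g` (ZBME, RHOE (a); constants uniform in `s' = exp(-f')`, `f' → ∞`). So `N0 ≥ C^-1 κ^n/sc`. And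
`Zm n s g ≤ C ρ^-n/sc ≤ C κ^n (1 - C s)^-n/sc ≤ C' κ^n/sc` for `s n ≤ M`. -/
def N0E_Stmt : Prop := ∀ a b M : ℝ, 0 < a → a ≤ b → 0 < M → ∃ c : ℝ, 0 < c ∧ ∃ N : ℕ,
  ∀ n : ℕ, N ≤ n → ∀ f g : ℝ, BoxE a b f g → Real.exp (-f) * n ≤ M →
    c * Zm n (Real.exp (-f)) g ≤
      ∑ q ∈ (Omm n).filter (fun q => zl q = n), wm n (Real.exp (-f)) g q

/-! ### Skeletons -/

/-- SKEa (from K2M, HGM, ARS) : recursion of the states. PROOF. K2M (with `r = 2n - 1`, `N = 2m`) and HGM (1), ARS give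
`AE n x m F = caps + ∑_{p ∈ allowed, hl p ≤ m} AE n (x + jump p) (m - hl p) (sh (htn p) (kap p) (ht p * (2x + jump p)) F)`. Split off
`jp` (always allowed), `jm` (allowed iff `x ≥ 2`), `tz` (always allowed), and insert the definition of the states, as
in `NSP/SKZa.lean` (`St_step`): `j = 0`: `[jp] AE = [jp] St_1 + [jp jp jm jm] AE`; `j = 1`: `[jp] AE - [jp jm jm] AE =
[jp] St_2 + [jp jp jm jm] AE`; `j = 2`: the same and `[jm] AE - [jm jm] AE = [jm] St_3`; `j = 3`: `[jm] AE` cancels,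
`[jp] AE = [jp] St_1 + [jp jp jm jm] AE`. Terms with half length `0` vanish (`MArch x 0` is empty), so the truncated
subtraction of naturals does no harm. `jp`: half length, height, jump `1, 1, 1`, `kap = 0`; `jm`: `1, 1, -1`, `kap = 0`;
`tz`: `4, 3, 0`, `kap = 1`. -/
def SKEa_Stmt : Prop := ∀ (n m : ℕ) (x : ℤ) (j : ℕ) (F : ℤ → ℤ → ℤ → ℝ), 6 ≤ n → 1 ≤ m → m ≤ n →
  j ≤ 3 → gpE j ≤ x →
    StE n x m j F = ∑ a ∈ MCap x (2 * m), F (mlev a) (mlat x a) 0 +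
      ∑ p ∈ othE n x m, AE n (x + jump p) (m - hl p)
        (sh (htn p) (kap p) (ht p * (2 * x + jump p)) F) +
      StE n (x + 1) (m - 1) (nxE j) (sh 1 0 (2 * x + 1) F) +
      (if j = 2 then StE n (x - 1) (m - 1) 3 (sh 1 0 (2 * x - 1) F)
        else if j ≤ 1 ∧ 2 ≤ x then AE n (x - 1) (m - 1) (sh 1 0 (2 * x - 1) F) else 0) +
      AE n x (m - 4) (sh 3 1 (6 * x) F) + AE n x (m - 4) (sh 4 0 (8 * x + 8) F)

/-- SKEb (from SKEa, K2M, HGM, ARS) : skeletons of the states. PROOF. By strong induction on `m`, for all `j ≤ 3`, all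
`x ≥ gpE j`; for `m = 0` the empty multiset. Let `M_j(x, m)` be the multisets. Put together: a skeleton with `l = []`, `k = 0`,
`A = 0` for every cap; `shf p (M_0(x + jump p, m - hl p))` for `p ∈ othE`, `p ≠ lc, ld`; `shf jp (M_(nxE j)(x+1, m-1))`;
`shf jm (..)` (`M_3` if `j = 2`, `M_0` if `j ≤ 1` and `x ≥ 2`); the lateral token: `k + 1`, `H + 1`, `Λ + 1`, `A + 2x` for
`M_0(x, m - 1)` (replaces both `lc` and `ld`; Pascal's rule as in `TPT/SKAa.lean`); the span token `tok0`: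
`l := (2x+8) :: l`, `H + 4`, `Λ`, `A + 8x + 8` for `M_0(x, m - 4)` (its second kind: `H + 3`, `Λ + 1`, `A + 6x`), as in
`NSP/SKZb.lean`. Bounds as there (`8 (2x+8) ≤ 5 (8x+8)` as `x ≥ 1`; `x ≤ m - 4` if `M_0(x, m-4)` is not empty).
COUNT: `W = ∑ wp`, `V_j(x, m)` the left side, `z = wp tz = ρ^4 s e^g`, `wp jp = wp jm = ρ`. By induction `V_j ≤ 8 v_j K(m)`,
`K(m) = capKM m` (nondecreasing, `K(m) - K(m-1) ≥` the caps at gap `x`; `8 v_j ≥ 1` since `ρ ≤ 1/2`). The others with `τ'`: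
`O = W - 2ρ - z - (1-τ')(wp lc + wp ld) ≤ 1 - 2ρ + ρ^4 - τ (ρ^4 + z)`, and `O + τ (ρ^4 + z) + ρ v_(nxE j) + (ρ v_0 if j ≤ 1, ρ v_3 if
j = 2, 0 if j = 3) ≤ v_j` (equality for `O + τ(..) = 1 - 2ρ + ρ^4`), compare `NSP/SKZc.lean`. -/
def SKEb_Stmt : Prop := ∀ n m : ℕ, 6 ≤ n → m ≤ n → ∀ (x : ℤ) (j : ℕ), j ≤ 3 → gpE j ≤ x →
  ∃ M : Multiset Sk2, ASkE n x m j M

/-- SKELE (from SKEb for `j = 0`, HGM) : the skeletons of the canonical words. Port of `TPT/SKELM.lean`. -/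
def SKELE_Stmt : Prop := ∀ n : ℕ, 6 ≤ n → ∃ (N : ℕ) (σ : Fin N → Sk2), IsSkE n N σ

/-- KBIGE (from TMGE, ZBME) : skeletons with few tokens of one kind are negligible. Port of `TPT/KBIGM.lean`
and `NSP/KBGZ.lean`. PROOF. `ρ' = ρ e^κ ≤ 1/2`, `∑ wp(ρ') ≤ 1 + C κ` (tails, uniform in `s`), `ρ'^4 ≥ c`, `wp lc (ρ') ≥ c`, so `count`
applies with `(τ, τ') = (1/2, 1)` and with `(1, 1/2)` if `C κ ≤ c/2`; `capKM n s g ρ' ≤ C`. -/
def KBIGE_Stmt : Prop := ∀ a b : ℝ, 0 < a → a ≤ b → ∃ c : ℝ, 0 < c ∧ ∃ N : ℕ, 6 ≤ N ∧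
  ∀ n : ℕ, N ≤ n → ∀ f g : ℝ, BoxE a b f g → ∀ (M : ℕ) (σ : Fin M → Sk2), IsSkE n M σ →
    ∑ i ∈ univ.filter (fun i : Fin M => ((σ i).l.length : ℝ) < c * n ∨ ((σ i).k : ℝ) < c * n),
      vsE n (Real.exp (-f)) g (σ i) ≤ Real.exp (-(c * n)) * Zm n (Real.exp (-f)) g

/-! ### Local estimates (`f ≥ b`, so that `p₁ = s e^g/(1 + s e^g) ≤ 1/2`; `1 ≤ s n`) -/

/-- LOCAE (from SKELE, KBIGE, BINZ, the old BIN, MOMME) : moments at fixed difference of the marks. PROOF. A skeleton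
with `len`, `k`, `H`, `A`, `Λ` contributes to `UM n s g h t φ` with `j = H - h`, `2 b = Λ + j - t` (nothing if this is not
possible) `vsE * bp len p₁ j * bp k p₂ b * avg_{|S| = j} φ((A - t_S)/sc)`, `p₁ = s e^g/(1 + s e^g) ∈ [e^-b s/2, 1/2]`,
`p₂ = e^(-2g)/(1 + e^(-2g))` in a compact subset of `(0, 1)`; `∑_i vsE_i = Zm`. `bp len p₁ j ≤ C/√(s n)` (BINZ), `bp k p₂ b ≤ C/√n` (BIN) if
there are at least `c n` tokens of both kinds, `A - t ≤ A ≤ (8/3) (A - t)` (`sum_le`), so `∑_i vsE_i (A_i/sc)^r ≤ C Zm` (MOMME). The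
other skeletons: KBIGE, `bp ≤ 1`, `A ≤ 2 n^2`, `exp(-c n)` against powers of `s ≥ 1/n`. Pattern: `TPT/LOCA.lean`, `NSP/LOCZ.lean`. -/
def LOCAE_Stmt : Prop := ∀ b : ℝ, 1 ≤ b → ∀ r : ℕ, ∃ C : ℝ, 0 < C ∧ ∃ N : ℕ,
  ∀ n : ℕ, N ≤ n → ∀ f g : ℝ, BoxE b b f g → 1 ≤ Real.exp (-f) * n → ∀ (h : ℕ) (t : ℤ),
    UM n (Real.exp (-f)) g h t (fun y => y ^ r) ≤ C / wd n f * Zm n (Real.exp (-f)) g

/-- LOCBE (from SKELE, KBIGE, BINZ, BIN, SMP, MOMME) : local regularity. PROOF. Notation of LOCAE. Replace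
`avg φ((A - t_S)/sc)` by `φ(A/sc)`: the average of `t_S` is `(j/len) ∑ l ≤ (j/len) A`, `j bp len p₁ j ≤ C √(len p₁)` (BINZ), so the total
error is at most `C √(p₁/n) /√n ∑_i vsE_i A_i/sc ≤ C s/(√(s n) √n) Zm`. Then BINZ: `|bp(j) - bp(j')| ≤ C |j - j'|/(s n)`, `|j - j'| = |h - h'|`
(also for negative `j`), and BIN: `|bp(b) - bp(b')| ≤ C |b - b'|/n`, `2 |b - b'| ≤ |h - h'| + |t - t'|` (both `h + t`, `h' + t'`, `H + Λ` even),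
the other factor `≤ C/√n`, `≤ C/√(s n)`. Few tokens: KBIGE, `exp(-c n) ≤ C s/(√(s n) √n)` as `s n ≥ 1`. Pattern:
`TPT/LOCB.lean`, `NSP.LOCZ` (parts `ui_small`, `ui_big`, `part3`). -/
def LOCBE_Stmt : Prop := ∀ b : ℝ, 1 ≤ b → ∃ C : ℝ, 0 < C ∧ ∃ N : ℕ,
  ∀ n : ℕ, N ≤ n → ∀ f g : ℝ, BoxE b b f g → 1 ≤ Real.exp (-f) * n →
    ∀ (h h' : ℕ) (t t' : ℤ) (φ : ℝ → ℝ),
    Even ((h : ℤ) + t) → Even ((h' : ℤ) + t') → (∀ y, |φ y| ≤ 1) → LipschitzWith 1 φ →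
      |UM n (Real.exp (-f)) g h t φ - UM n (Real.exp (-f)) g h' t' φ| ≤
        C / wd n f * (Real.exp (-f) + |(h : ℝ) - h'| / se n f + |(t : ℝ) - t'| / Real.sqrt n) *
          Zm n (Real.exp (-f)) g

/-- LOCCE (from SKELE, KBIGE, BINZ, BIN) : lower bound, `s n` large. PROOF. As `TPT/LOCC.lean`: by Jensen for every
skeleton `∑_{j,b} bp bp (H - j - h)^2 ≥ (H - p₁ len - h)^2`, `∑ bp bp (Λ + j - 2b - t)^2 ≥ (Λ + p₁ len - 2 p₂ k - t)^2`; so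
skeletons of total weight at least `Zm/4` have at least `c n` tokens of both kinds and these squares at most
`8 K s n` and `8 K n`; for them `j = H - h`, `b = (Λ + j - t)/2` satisfy `|j - p₁ len| ≤ R √(p₁ len)`, `|b - p₂ k| ≤ R √k`
(`p₁ len ≥ c s n`): lower bounds of BINZ (`v0` large) and BIN. -/
def LOCCE_Stmt : Prop := ∀ b : ℝ, 1 ≤ b → ∀ K : ℝ, 0 < K → ∃ c v0 : ℝ, 0 < c ∧ 0 < v0 ∧ ∃ N : ℕ,
  ∀ n : ℕ, N ≤ n → ∀ f g : ℝ, BoxE b b f g → v0 ≤ Real.exp (-f) * n →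
    ∀ (h : ℕ) (t : ℤ), Even ((h : ℤ) + t) →
    ∑ q ∈ Omm n, wm n (Real.exp (-f)) g q * ((zl q : ℝ) - h) ^ 2 ≤
      K * (Real.exp (-f) * n) * Zm n (Real.exp (-f)) g →
    ∑ q ∈ Omm n, wm n (Real.exp (-f)) g q * ((zt q : ℝ) - t) ^ 2 ≤
      K * n * Zm n (Real.exp (-f)) g →
    c / wd n f * Zm n (Real.exp (-f)) g ≤ UM n (Real.exp (-f)) g h t (fun _ => 1)

/-- BDLE (from SKELE, KBIGE, BIN, N0E) : lower bound, `J = δ` fixed, `1 ≤ s n ≤ K`. PROOF. `w_i = e^(g Λ_i) (1 + e^(-2g))^(k_i)`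
for the skeletons with `H_i = n`: `∑_{H_i = n} w_i = ∑_{zl = n} wm ≥ c Zm` (`repr` with the indicator of `zl = n`: `j = 0`; N0E), and
those with few tokens have total at most `exp(-c n) Zm` (KBIGE, `w_i ≤ vsE_i`). By Jensen
`∑_{H_i = n} w_i (Λ_i - 2 p₂ k_i - t)^2 ≤ ∑_{zl = n} wm (zt - t)^2 ≤ K n Zm`. So the skeletons with `H_i = n`, at least `c n` tokens
of both kinds and `|Λ_i - 2 p₂ k_i - t| ≤ R √n` have `∑ w_i ≥ (c/2) Zm`. Such a skeleton contributes to `UM (n - δ) t 1` at least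
`C(len, δ) (s e^g)^δ w_i bp k p₂ b`, `b = (Λ_i + δ - t)/2`: `C(len, δ) (s e^g)^δ ≥ c'` (`s ≥ 1/n`, `Nat.pow_le_choose`, see
`NSP.BDZ.choose_low`), `bp ≥ c''/√n` (BIN). `wd ≥ √n`. -/
def BDLE_Stmt : Prop := ∀ b : ℝ, 1 ≤ b → ∀ K : ℝ, 0 < K → ∀ δ : ℕ, ∃ c : ℝ, 0 < c ∧ ∃ N : ℕ,
  ∀ n : ℕ, N ≤ n → ∀ f g : ℝ, BoxE b b f g → 1 ≤ Real.exp (-f) * n → Real.exp (-f) * n ≤ K →
    ∀ t : ℤ, Even (((n - δ : ℕ) : ℤ) + t) →
    ∑ q ∈ Omm n, wm n (Real.exp (-f)) g q * ((zt q : ℝ) - t) ^ 2 ≤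
      K * n * Zm n (Real.exp (-f)) g →
    c / wd n f * Zm n (Real.exp (-f)) g ≤ UM n (Real.exp (-f)) g (n - δ) t (fun _ => 1)

/-! ### Choice of the force -/

/-- RECE (from ROOT, HGM) : special words. PROOF. By ROOT (with `F` an indicator function) it is enough to find a polygon
word and a vertex with a level strictly between `0` and that of the vertex which contains exactly two vertices
(`¬ NoB`). (1) the rectangle `[0, n-1] × [0, 1]` and the vertex `(n-1, 1)` (all levels `1..n-1` have two vertices: top side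
`(i, 1)`, bottom side `(i+1, 0)`), and its image under `(x, y) ↦ (y, x)`. (2) the rectangle `[0, n-k] × [-k, 0]` and the vertex
`(n-k, -k)`, of level `n - 2k` and lateral coordinate `n`; the level `1 < n - 2k` contains `(1, 0)` and `(k+1, -k)` only (the left
side has levels `≤ 0`, the right side levels `≥ n - 2k`); and its image under `(x, y) ↦ (y, x)`. -/
def RECE_Stmt : Prop := ∀ n : ℕ, 4 ≤ n → ∀ σ : ℤ, |σ| = 1 →
  (∃ q ∈ Omm n, zl q = n ∧ zt q = σ * (n - 2)) ∧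
  ∀ k : ℕ, 1 ≤ k → 2 * k + 2 ≤ n → ∃ q ∈ Omm n, zl q = n - 2 * k ∧ zt q = σ * n

/-- ONEM (analysis) : one dimensional equation. PROOF. `g ↦ ∑ w e^(g y) y` is continuous, tends to `+∞` for `g → ∞` (some
`y > 0`; the terms with `y < 0` are bounded) and to `-∞` for `g → -∞`: intermediate value theorem. -/
def ONEM_Stmt : Prop := ∀ (ι : Type) (I : Finset ι) (w y : ι → ℝ), (∀ i ∈ I, 0 < w i) →
  (∃ i ∈ I, 0 < y i) → (∃ i ∈ I, y i < 0) → ∃ g : ℝ, ∑ i ∈ I, w i * Real.exp (g * y i) * y i = 0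

/-- CHOE1 (from ONEM, RECE, HGM) : choice of `g` for given `f ≥ 0`. PROOF. ONEM for `I = Omm n`, `w = e^(f zl)`, `y = zt - t`
(RECE (1): `zt = ±(n-2)`, `|t| ≤ (1-e) n < n - 2`); `wm n (exp(-f)) g q = e^(-f n) e^(f zl + g zt)` (`zl ≤ n`). Bound for every `g` with
mean zero: `∑ w e^(g y) ≤ ∑ w` (Jensen: `∑ w = ∑ w e^(g y) e^(-g y) ≥ (∑ w e^(g y)) e^(-g · mean of y)`, the mean is `0`). The word with
`zl = n`, `zt = sign(g) (n - 2)` gives `e^(f n + |g| (n - 2 - |t|)) ≤ ∑ w e^(g y) ≤ #Omm e^(f n)` (`f ≥ 0`, `zl ≤ n`), `#Omm ≤ e^(C n)` (it is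
at most `2n #SAP` by ROOT, or directly), so `|g| (e n - 2) ≤ C n`. -/
def CHOE1_Stmt : Prop := ∀ e : ℝ, 0 < e → ∃ b : ℝ, 1 ≤ b ∧ ∃ N : ℕ, ∀ n : ℕ, N ≤ n →
  ∀ (f : ℝ) (t : ℤ), 0 ≤ f → ((|t| : ℤ) : ℝ) ≤ (1 - e) * n →
    (∃ g : ℝ, ∑ q ∈ Omm n, wm n (Real.exp (-f)) g q * ((zt q : ℝ) - t) = 0) ∧
    ∀ g : ℝ, ∑ q ∈ Omm n, wm n (Real.exp (-f)) g q * ((zt q : ℝ) - t) = 0 → |g| ≤ b

/-- CHOE2 (from MINM, GRDM, CHOE1, RECE, JBE, HGM) : choice of `(f, g)` for `1 ≤ n - h ≤ η n`. PROOF. MINM with `I = Omm n`,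
`x = zl - h`, `y = zt - t`, `(h, t) := (0, 0)`, `δ := 1`: RECE gives the four points: `(zl, zt) = (n, ±(n-2))` (`n ≥ h + 1`) and
`(n - 2k, ±n)`, `k = ⌈η n⌉` (`n - 2k ≤ h - 1`, `η ≤ 1/8`). So there is a minimiser `(f, g)` of
`Φ(f, g) = log ∑ e^(f x + g y)`, with gradient zero (GRDM): CenM (both sums are `0`). LOWER BOUND `f ≥ b` (`b` of CHOE1): suppose `f < b`; let `g₁` be the
force of CHOE1 for `f₁ = b`, `|g₁| ≤ b`. Jensen at `F₁ = (f₁, g₁)`: `Φ(F) ≥ Φ(F₁) + (f - f₁) E₁[zl - h]` (the mean of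
`zt - t` under `F₁` is `0`), and `Φ(F) ≤ Φ(F₁)`, so `E₁[zl - h] ≥ 0`, that is `E₁ J ≤ n - h ≤ η n`; but by JBE (box `b, b`)
`E₁ J ≥ C^-1 e^-b n - C`: contradiction for small `η`, large `n`. So `f ≥ b`. Then `|g| ≤ b` by the second part of CHOE1. The last two inequalities: JBE, `E J = n - h ≥ 1`. -/
def CHOE2_Stmt : Prop := ∀ e : ℝ, 0 < e → ∃ b C η : ℝ, 1 ≤ b ∧ 0 < C ∧ 0 < η ∧ ∃ N : ℕ,
  ∀ n : ℕ, N ≤ n → ∀ (h : ℕ) (t : ℤ), h + 1 ≤ n → (n : ℝ) - h ≤ η * n →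
    ((|t| : ℤ) : ℝ) ≤ (1 - e) * n → ∃ f g : ℝ, BoxE b b f g ∧ CenM n f g h t ∧
      (n : ℝ) - h ≤ C * (Real.exp (-f) * n + 1) ∧ Real.exp (-f) * n ≤ C * ((n : ℝ) - h)

/-! ### Equivalence of the ensembles -/

/-- INDE (from the old IND, LAPE, MOMME, ZBME, HGM) : asymptotic independence. PROOF. As `TPT/INDM.lean` with
`X = (zl - h)/r`, `Y = (zt - t)/√n`, `A = rm`: `E[e^(uX+vY) e^(-lam A)]/E[e^(uX+vY)] = lapM` at `(f + u/r, g + v/√n)`; `f + u/r → ∞` (`r ≥ 1`), so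
LAPE (box `a/2, 2b`; change small `n`) gives `E[e^(uX+vY) e^(-lam A)] - E[e^(uX+vY)] E[e^(-lam A)] → 0`; the exponential moments are
bounded by hypothesis, and `E e^(vY) ≥ c` because `E|Y| ≤ E e^Y + E e^(-Y)` is bounded. -/
def INDE_Stmt : Prop := ∀ a b : ℝ, 0 < a → a ≤ b → ∀ f g h t r : ℕ → ℝ,
  (∀ n, BoxE a b (f n) (g n)) → Tendsto f atTop atTop → (∀ᶠ n in atTop, 1 ≤ r n) →
  (∀ u v : ℝ, ∃ C : ℝ, ∀ᶠ n : ℕ in atTop, ∑ q ∈ Omm n, wm n (Real.exp (-(f n))) (g n) q *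
    Real.exp (u * (((zl q : ℝ) - h n) / r n) + v * (((zt q : ℝ) - t n) / Real.sqrt n)) ≤
      C * Zm n (Real.exp (-(f n))) (g n)) →
  ∀ χ ψ φ : ℝ → ℝ, Continuous χ → Continuous ψ → Continuous φ → (∀ x, 0 ≤ χ x ∧ χ x ≤ 1) →
    (∀ x, |ψ x| ≤ 1) → (∀ x, |φ x| ≤ 1) →
    Tendsto (fun n : ℕ =>
      (∑ q ∈ Omm n, wm n (Real.exp (-(f n))) (g n) q * (χ (((zl q : ℝ) - h n) / r n) *
        ψ (((zt q : ℝ) - t n) / Real.sqrt n) * φ (rm n q))) / Zm n (Real.exp (-(f n))) (g n) -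
      ((∑ q ∈ Omm n, wm n (Real.exp (-(f n))) (g n) q * (χ (((zl q : ℝ) - h n) / r n) *
        ψ (((zt q : ℝ) - t n) / Real.sqrt n))) / Zm n (Real.exp (-(f n))) (g n)) *
      ((∑ q ∈ Omm n, wm n (Real.exp (-(f n))) (g n) q * φ (rm n q)) /
        Zm n (Real.exp (-(f n))) (g n))) atTop (𝓝 0)

/-- EQE1 (from LOCBE, LOCCE, INDE, EXPE1, ZBME, HGM) : `s n → ∞`. PROOF. As `TPT/EQM.lean` with `r n = √(s n)`
(= `se n (f n)`): second moments from EXPE1 with `±1`, `low` from LOCCE. `χ(x) = max 0 (1 - |x|/δ)`; sum over all `k : ℕ`,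
`l : ℤ` with `k + l` even: `∑ χ((k-h)/√(s n)) χ((l-t)/√n) UM(k, l; φ) = ∑_q wm χ(X) χ(Y) φ(A)`, by LOCBE it is
`S' UM(h, t; φ) + S' O((s + 2 δ)/wd) Zm`, `S' = ∑ χ χ ≥ c δ^2 wd`. The same for `φ = 1`, INDE, `n → ∞`, `δ → 0`. -/
def EQE1_Stmt : Prop := ∀ b : ℝ, 1 ≤ b → ∀ (f g : ℕ → ℝ) (h : ℕ → ℕ) (t : ℕ → ℤ),
  (∀ n, BoxE b b (f n) (g n)) → Tendsto f atTop atTop →
  Tendsto (fun n : ℕ => Real.exp (-(f n)) * n) atTop atTop →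
  (∀ᶠ n in atTop, CenM n (f n) (g n) (h n) (t n)) →
  (∀ n, Even ((h n : ℤ) + t n)) → RegE b f g h t

/-- EQE2 (from LOCBE, BDLE, INDE, EXPE2, ZBME, HGM) : `J = δ` fixed. PROOF. `f n = max b (log n)`: `s n = 1/n`, `s n n = 1` for
large `n`. Exponential moments of `J` and `Y` from EXPE2 (`M = 1`), so with `r = 1`, `X = zl - (n - δ) = δ - J` (`δ ≤ n`) the
hypothesis of INDE holds; second moment of `Y` bounded, `low` from BDLE. `eqv`: INDE with `χ(x) = max 0 (1 - 2|x|)`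
(`χ(X)` is the indicator of `zl = n - δ`), `ψ(y) = max 0 (1 - |y|/δ')`: `E[χ(X) ψ(Y) φ(A)] Zm = ∑_{l ≡ t mod 2} ψ((l - t)/√n) UM(n-δ, l; φ)
= S' UM(n-δ, t; φ) + S' O((s + δ')/wd) Zm` (LOCBE), `S' = ∑ ψ ≥ c δ' √n`; the same for `φ = 1`; `n → ∞`, `δ' → 0`. Pattern:
`NSP/BDZ.lean`, `TPT/EQM.lean`. -/
def EQE2_Stmt : Prop := ∀ b : ℝ, 1 ≤ b → ∀ (g : ℕ → ℝ) (δ : ℕ) (t : ℕ → ℤ), (∀ n, |g n| ≤ b) →
  (∀ᶠ n : ℕ in atTop,
    |∑ q ∈ Omm n, wm n (Real.exp (-(max b (Real.log n)))) (g n) q * ((zt q : ℝ) - t n)| ≤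
      Zm n (Real.exp (-(max b (Real.log n)))) (g n)) →
  (∀ n, Even (((n - δ : ℕ) : ℤ) + t n)) →
    RegE b (fun n : ℕ => max b (Real.log n)) g (fun n => n - δ) t

/-! ### The polygons through two points -/

/-- CLSBE (from LOCAE, MOMME, ZBME, HGM) : port of `TPT/CLSB.lean` (`c/n` replaced by `c/wd ≥ c/n`, the bound of LOCA by that of
LOCAE, which has the same order as `low`). -/
def CLSBE_Stmt : Prop := ∀ (b : ℝ) (f g : ℕ → ℝ) (h : ℕ → ℕ) (t : ℕ → ℤ),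
  RegE b f g h t →
  (∀ φ : ℝ → ℝ, (∀ y, |φ y| ≤ 1) → LipschitzWith 1 φ →
    Tendsto (fun n : ℕ => avQ n (h n) (t n) φ -
      (∑ q ∈ Omm n, wm n (Real.exp (-(f n))) (g n) q * φ (dm q / sc n)) /
        Zm n (Real.exp (-(f n))) (g n)) atTop (𝓝 0)) ∧
  Tendsto (fun n : ℕ => avQ n (h n) (t n) (fun y => y) -
      (∑ q ∈ Omm n, wm n (Real.exp (-(f n))) (g n) q * (dm q / sc n)) /
        Zm n (Real.exp (-(f n))) (g n)) atTop (𝓝 0) ∧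
  (∃ c : ℝ, 0 < c ∧ ∀ᶠ n : ℕ in atTop,
    c ≤ (∑ q ∈ Omm n, wm n (Real.exp (-(f n))) (g n) q * (dm q / sc n)) /
      Zm n (Real.exp (-(f n))) (g n) ∧
    (∑ q ∈ Omm n, wm n (Real.exp (-(f n))) (g n) q * (dm q / sc n)) /
      Zm n (Real.exp (-(f n))) (g n) ≤ c⁻¹) ∧
  ∀ r : ℕ, ∃ C : ℝ, ∀ᶠ n in atTop, avQ n (h n) (t n) (fun y => y ^ r) ≤ C

/-- CLSME (from CLSA, CLSBE, ZBME, HGM) : port of `TPT/CLSM.lean`. -/
def CLSME_Stmt : Prop := ∀ (b : ℝ) (f g : ℕ → ℝ) (h : ℕ → ℕ) (t : ℕ → ℤ),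
  RegE b f g h t →
  ∀ z : ℕ → ℤ × ℤ, (∀ᶠ n in atTop, lev (z n) = h n ∧ lat (z n) = t n) →
  (∀ᶠ n in atTop, 0 < (Thr n (z n)).card) ∧
  (∀ φ : ℝ → ℝ, (∀ y, |φ y| ≤ 1) →
    Tendsto (fun n : ℕ => avT n (z n) φ - avQ n (h n) (t n) φ) atTop (𝓝 0)) ∧
  ∀ r : ℕ, Tendsto (fun n : ℕ => avT n (z n) (fun y => y ^ r) -
    avQ n (h n) (t n) (fun y => y ^ r)) atTop (𝓝 0)

/-- law and moments along a sequence of points -/
def LawAt (μ : Measure ℝ) (z : ℕ → ℤ × ℤ) : Prop :=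
  (∀ x : ℝ, μ {x} = 0 →
    Tendsto (fun n : ℕ => areaCdf n (Thr n (z n)) x) atTop (𝓝 (μ (Set.Iic x)).toReal)) ∧
  ∀ r : ℕ, Tendsto (fun n : ℕ => areaMoment n (Thr n (z n)) r) atTop (𝓝 (airyMoment r))

/-- `μ` is the Airy law and the limit law of the staircase polygons -/
def IsAiry (μ : Measure ℝ) : Prop := IsProbabilityMeasure μ ∧
  (∀ r : ℕ, Integrable (fun x : ℝ => x ^ r) μ ∧ ∫ x, x ^ r ∂μ = airyMoment r) ∧
  ∀ x : ℝ, μ {x} = 0 →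
    Tendsto (fun n : ℕ => areaCdf n (Staircase n) x) atTop (𝓝 (μ (Set.Iic x)).toReal)

/-- REGFE (from CLSBE, CLSME, FLME, the old CDF, CDFM) : port of `TPT/REGFM.lean`. -/
def REGFE_Stmt : Prop := ∀ μ : Measure ℝ, IsAiry μ →
  ∀ (b : ℝ) (f g : ℕ → ℝ) (h : ℕ → ℕ) (t : ℕ → ℤ), RegE b f g h t →
  ∀ z : ℕ → ℤ × ℤ, (∀ᶠ n in atTop, lev (z n) = h n ∧ lat (z n) = t n) → LawAt μ z

/-- SYME : reduction to the cone. Port of `TPT/SYMC.lean` with one further equation: for `z' = ` the image of `z`,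
`|lat z'| = ||z.1| - |z.2||`. -/
def SYME_Stmt : Prop := ∀ z : ℤ × ℤ, ∃ z' : ℤ × ℤ, |lat z'| ≤ lev z' ∧
  lev z' = |z.1| + |z.2| ∧ |lat z'| = |(|z.1| - |z.2|)| ∧ ∀ n : ℕ,
    (∀ x : ℝ, areaCdf n (Thr n z) x = areaCdf n (Thr n z') x) ∧
    ∀ r : ℕ, areaMoment n (Thr n z) r = areaMoment n (Thr n z') r

/-- NEARE (from CHOE1, CHOE2, EQE1, EQE2, REGFE) : level of `z` asymptotic to `n`. PROOF. As `NSP/NSF.lean`. `h = lev z`, `t = lat z`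
(`h + t` even). If the law or a moment fails along infinitely many `n`: (A) `n - h n` is bounded along infinitely many of
them, so constant `= δ` along infinitely many; for the other `n` replace `z n` by the point with level `n - δ` and lateral coordinate
`0` or `1`; EQE2 with the forces `g n` of CHOE1 (`f = max b (log n)`); REGFE. (B) otherwise `n - h n → ∞` along infinitely many; for
the other `n` take the point with level `n - ⌊√n⌋` and lateral coordinate `0` or `1`; the forces of CHOE2 (changed for small `n`):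
`s n ≤ C (n - h)/n → 0`, `s n n ≥ c (n - h) - C → ∞`; EQE1, REGFE. A point with given level and lateral coordinate of the same parity:
`((h+t)/2, (h-t)/2)`. -/
def NEARE_Stmt : Prop := ∀ μ : Measure ℝ, IsAiry μ → ∀ e : ℝ, 0 < e → ∀ z : ℕ → ℤ × ℤ,
  (∀ᶠ n : ℕ in atTop, 0 ≤ lev (z n) ∧ lev (z n) ≤ n ∧ ((|lat (z n)| : ℤ) : ℝ) ≤ (1 - e) * n) →
  Tendsto (fun n : ℕ => (lev (z n) : ℝ) / n) atTop (𝓝 1) → LawAt μ z

/-- FIXE (from FIXM, NEARE, SYME) : fixed `e`. PROOF. Suppose that the law (for some `x`) or a moment fails along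
infinitely many `n`. Either there is `c < 1` with `|z n|_1 ≤ c n` for infinitely many of them: contradiction to FIXM for
the sequence equal to `z n` there and `(⌊n/2⌋, 0)` elsewhere, with `min e (1 - c) (1/4)`. Or `|z n|_1/n → 1` along them:
let `z'` be the image of SYME; `max |x| |y| = (|z|_1 + ||x| - |y||)/2`, so `|lat z'| ≤ 2 (1-e) n - |z|_1 ≤ (1 - e/2) n` for large `n`
of this kind; the sequence `z' n` there and `(⌈n/2⌉, ⌊n/2⌋)` elsewhere contradicts NEARE with `e/2`. -/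
def FIXE_Stmt : Prop := ∀ μ : Measure ℝ, IsAiry μ → ∀ e : ℝ, 0 < e → ∀ z : ℕ → ℤ × ℤ,
  (∀ᶠ n : ℕ in atTop, okE e n (z n)) → LawAt μ z

/-- the final theorem -/
def FIN_TPE : Prop := ∃ μ : Measure ℝ, IsProbabilityMeasure μ ∧
  (∀ r : ℕ, Integrable (fun x : ℝ => x ^ r) μ ∧ ∫ x, x ^ r ∂μ = airyMoment r) ∧
  (∀ x : ℝ, μ {x} = 0 →
    Tendsto (fun n : ℕ => areaCdf n (Staircase n) x) atTop (𝓝 (μ (Set.Iic x)).toReal)) ∧
  ∃ e : ℕ → ℝ, (∀ n, 0 < e n) ∧ Tendsto e atTop (𝓝 0) ∧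
    ∀ z : ℕ → ℤ × ℤ, (∀ᶠ n : ℕ in atTop, okE (e n) n (z n)) →
      (∀ x : ℝ, μ {x} = 0 →
        Tendsto (fun n : ℕ => areaCdf n (Thr n (z n)) x) atTop (𝓝 (μ (Set.Iic x)).toReal)) ∧
      ∀ r : ℕ, Tendsto (fun n : ℕ => areaMoment n (Thr n (z n)) r) atTop (𝓝 (airyMoment r))

/-- DGE (from FIXE, the old DIAG, DIAGM) : diagonal argument, port of `TPT/DGM.lean` (`ok = okE`; the filler for small
`n` or where `okE` fails is `(⌊n/2⌋, 0)`, which satisfies `okE (1/4)` for large `n`). -/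
def DGE_Stmt : Prop := (∃ μ : Measure ℝ, IsAiry μ) → FIXE_Stmt → FIN_TPE

end Pool.Agent.TPE
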